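import Pool.Agent.Q117.CR.Pat

/-!
# Chen's theorem in every admissible consecutive pattern
-/

set_option autoImplicit false

namespace Pool.Agent.Q117.CR

open Finset Filter
open Pool.Agent.Y843.HS (Pr VV Pr_mem Pr_prime)
open Pool.Agent.Y843.HG (Z0 SP VV_low)
open Pool.Agent.Y843.CH
open Pool.Agent.H378R2 (yy z2 GoodS GoodP WW)
open Pool.Agent.Q117.GP (Rk OmH)

/-- the conclusion of `chenW_of` -/
def CW (r t : ℕ) (c : ℝ) : Prop := ∃ X1 : ℕ, ∃ PP : ℕ → ℕ,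
    (∀ X : ℕ, X1 ≤ X → GoodP 2 (PP X) ∧ (PP X : ℝ) ≤ Real.exp (ll X ^ 6)) ∧
    ∀ θ : ℝ, 0 < θ → θ ≤ 1 → ∃ X₀ : ℕ, ∀ X : ℕ, X₀ ≤ X → ∀ h : ℤ, h ≠ 0 → h.natAbs ≤ X →
      ∀ A B : ℕ, Nat.sqrt X ≤ A → A ≤ B → B ≤ X → θ * X ≤ (B : ℝ) - A →
      ∃ S : Finset ℕ, GoodS ((X : ℝ) ^ (1 / 100 : ℝ)) S ∧
        ∀ Om : ℕ → Finset ℕ, Dat r ⌊(X : ℝ) ^ (1 / (t : ℝ))⌋₊ h Om → ∀ a : ℕ,
          (∀ q ∈ Pr 0 ⌊(X : ℝ) ^ (1 / (t : ℝ))⌋₊, q ∣ WX X S (PP X) → a % q ∉ Z0 Om q) →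
          c * ((((B : ℝ) - A) / (WX X S (PP X) : ℝ)) *
            VD Om (WX X S (PP X) * PP X) ⌊(X : ℝ) ^ (1 / (t : ℝ))⌋₊) ≤
          ((GW A B (Nat.sqrt X) X ⌊(X : ℝ) ^ (1 / (t : ℝ))⌋₊ (WX X S (PP X)) a h Om).card : ℝ)

open Classical in
/-- the integers `n` with `n + a ∈ (X, 3X]` prime, `n + b` a product of at most two primes, all `> X ^ (1/8)`, all `n + h`, `h ∈ H`,
without prime factors `≤ X ^ (1/t)`, and all other `n + s`, `s ≤ D`, divisible by a prime `≤ log X` -/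
noncomputable def PtsC (t : ℕ) (X D : ℝ) (H : Finset ℕ) (a b : ℕ) : Finset ℕ :=
  (range (⌊3 * X⌋₊ + 1)).filter (fun n : ℕ => X < ((n + a : ℕ) : ℝ) ∧ ((n + a : ℕ) : ℝ) ≤ 3 * X ∧ (n + a).Prime ∧
    (n + b).primeFactorsList.length ≤ 2 ∧ (∀ p : ℕ, p.Prime → p ∣ n + b → X ^ (1 / 8 : ℝ) < p) ∧
    (∀ h ∈ H, ∀ p : ℕ, p.Prime → (p : ℝ) ≤ X ^ (1 / (t : ℝ)) → ¬ p ∣ n + h) ∧
    ∀ s : ℕ, (s : ℝ) ≤ D → s ∉ H → ∃ p : ℕ, p.Prime ∧ (p : ℝ) ≤ Real.log X ∧ p ∣ n + s)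

/-- size conditions -/
theorem ev_fin (t K : ℕ) (ht : 1 ≤ t) (c cV : ℝ) (hc : 0 < c) (hcV : 0 < cV) : ∃ X0 : ℕ, ∀ X : ℕ, X0 ≤ X →
    (X : ℝ) ^ (999 / 1000 : ℝ) ≤ c * (((X : ℝ) / 2) / (X : ℝ) ^ (1 / 50000 : ℝ) * (cV / Real.log X ^ K)) ∧
    2 ≤ ⌊(X : ℝ) ^ (1 / (t : ℝ))⌋₊ ∧ 2 * K + 3 ≤ ⌊(X : ℝ) ^ (1 / (t : ℝ))⌋₊ ∧ 2 ≤ Real.log X ∧
    ((X : ℝ) / 2) ^ (1 / 8 : ℝ) < (Nat.sqrt X : ℝ) ^ (1 / 4 : ℝ) := by
  have ht0 : (0 : ℝ) < t := by exact_mod_cast ht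
  obtain ⟨X1, hX1⟩ := ev_pow_log (9999 / 10000) (by norm_num) (K + 1)
  have hnat := tendsto_natCast_atTop_atTop (R := ℝ)
  have c1 := ((tendsto_rpow_atTop (show (0 : ℝ) < 1 / t by positivity)).comp hnat).eventually
    (eventually_ge_atTop ((2 * K + 3 : ℕ) : ℝ))
  have c2 := (Real.tendsto_log_atTop.comp hnat).eventually (eventually_ge_atTop (max 2 (1 / (c * cV))))
  have c3 := hnat.eventually (eventually_ge_atTop (100 : ℝ))
  obtain ⟨X2, hX2⟩ := eventually_atTop.1 (c1.and (c2.and c3))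
  refine ⟨max X1 X2, fun X hX => ?_⟩
  have g1 := hX1 X ((le_max_left _ _).trans hX)
  obtain ⟨g2, g3, g4⟩ := hX2 X ((le_max_right _ _).trans hX)
  simp only [Function.comp] at g2 g3
  have hl2 : 2 ≤ Real.log X := (le_max_left _ _).trans g3
  have hlc : 1 / (c * cV) ≤ Real.log X := (le_max_right _ _).trans g3
  have hX0 : (0 : ℝ) < X := by linarith
  have hlX : 0 < Real.log X := by linarith
  have hY : 2 * K + 3 ≤ ⌊(X : ℝ) ^ (1 / (t : ℝ))⌋₊ := Nat.le_floor g2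
  refine ⟨?_, by omega, hY, hl2, ?_⟩
  · have h1 : c * (((X : ℝ) / 2) / (X : ℝ) ^ (1 / 50000 : ℝ) * (cV / Real.log X ^ K)) =
        (c * cV * Real.log X) * (1 / 2 * (X / Real.log X ^ (K + 1))) / (X : ℝ) ^ (1 / 50000 : ℝ) := by
      rw [pow_succ]
      field_simp
    rw [h1, le_div_iff₀ (by positivity), ← Real.rpow_add hX0]
    have h2 : 1 ≤ c * cV * Real.log X := by
      rw [div_le_iff₀ (by positivity)] at hlc
      linarith
    have h3 : (X : ℝ) ^ (999 / 1000 + 1 / 50000 : ℝ) ≤ (X : ℝ) ^ (9999 / 10000 : ℝ) :=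
      Real.rpow_le_rpow_of_exponent_le (by linarith) (by norm_num)
    have h4 : 0 ≤ 1 / 2 * ((X : ℝ) / Real.log X ^ (K + 1)) := by positivity
    nlinarith
  · have h1 : ((X : ℝ) / 2) ^ (1 / 8 : ℝ) = (((X : ℝ) / 2) ^ (1 / 2 : ℝ)) ^ (1 / 4 : ℝ) := by
      rw [← Real.rpow_mul (by positivity)]
      norm_num
    rw [h1]
    apply Real.rpow_lt_rpow (by positivity) _ (by norm_num)
    rw [← Real.sqrt_eq_rpow]
    have h2 : (X : ℝ) < ((Nat.sqrt X : ℝ) + 1) ^ 2 := by exact_mod_cast Nat.lt_succ_sqrt' X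
    have h3 : (10 : ℝ) ≤ (Nat.sqrt X : ℝ) := by
      have : 10 ≤ Nat.sqrt X := by
        rw [Nat.le_sqrt']
        have : 100 ≤ X := by exact_mod_cast g4
        omega
      exact_mod_cast this
    rw [Real.sqrt_lt' (by linarith)]
    nlinarith

/-- **Chen's theorem in patterns.** -/
theorem pattern_of (k t : ℕ) (hk : 1 ≤ k) (ht : 1 ≤ t) (c : ℝ) (hc : 0 < c) (hCW : CW k t c) :
    ∃ c' : ℝ, 0 < c' ∧ ∃ X0 : ℝ, ∀ X : ℝ, X0 ≤ X → ∀ H : Finset ℕ, H.card = k →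
    (∀ h ∈ H, (h : ℝ) ≤ c' * Rk X) → Pool.Agent.Q117.GP.Adm H → ∀ a ∈ H, ∀ b ∈ H, a ≠ b →
      X ^ (99 / 100 : ℝ) ≤ ((PtsC t X (c' * Rk X) H a b).card : ℝ) := by
  classical
  obtain ⟨X1, PP, hPP, hW⟩ := hCW
  obtain ⟨X2, hX2⟩ := hW (1 / 2) (by norm_num) (by norm_num)
  obtain ⟨cc, hcc, X3, hcov⟩ := Pool.Agent.Q117.GP.cover k hk
  obtain ⟨X4, hX4⟩ := Rk_scale
  obtain ⟨cV, hcV, hV⟩ := VV_low (k + 1)
  obtain ⟨X5, hX5⟩ := ev_fin t (2 * (k + 1)) ht c cV hc hcV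
  obtain ⟨X6, hX6⟩ := Pool.Agent.Q117.GP.window_le (cc / 400) (by positivity)
  have ht0 : (0 : ℝ) < t := by exact_mod_cast ht
  have hrp : Tendsto (fun X : ℝ => X ^ (1 / 100 : ℝ)) atTop atTop := tendsto_rpow_atTop (by norm_num)
  obtain ⟨X7, hX7⟩ := eventually_atTop.1 (hrp.eventually (eventually_ge_atTop X3))
  refine ⟨cc / 400, by positivity, max (max (max X1 X2) (max X4 X5)) (max (max X6 X7) 100), ?_⟩
  intro X hX H hHc hHle hadm a ha b hb hab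
  simp only [max_le_iff] at hX
  obtain ⟨⟨⟨g1, g2⟩, g4, g5⟩, ⟨g6, g7⟩, g8⟩ := hX
  have hX0 : 0 < X := by linarith
  obtain ⟨M, hM⟩ : ∃ M : ℕ, M = ⌊3 * X⌋₊ := ⟨_, rfl⟩
  obtain ⟨A, hA⟩ : ∃ A : ℕ, A = ⌊X⌋₊ := ⟨_, rfl⟩
  have hM1 : (M : ℝ) ≤ 3 * X := by rw [hM]; exact Nat.floor_le (by linarith)
  have hM2 : 3 * X < (M : ℝ) + 1 := by rw [hM]; exact Nat.lt_floor_add_one _
  have hA1 : (A : ℝ) ≤ X := by rw [hA]; exact Nat.floor_le hX0.le
  have hA2 : X < (A : ℝ) + 1 := by rw [hA]; exact Nat.lt_floor_add_one _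
  have hXM : X ≤ M := by linarith
  have hM0 : (0 : ℝ) < M := by linarith
  have hMX1 : X1 ≤ M := by exact_mod_cast g1.trans hXM
  have hMX2 : X2 ≤ M := by exact_mod_cast g2.trans hXM
  have hMX5 : X5 ≤ M := by exact_mod_cast g5.trans hXM
  have hcR := hX6 X g6
  have hsc := hX4 X g4
  rw [← hM] at hsc
  -- the shift
  have haX : (a : ℝ) ≤ X := (hHle a ha).trans hcR
  have hbX : (b : ℝ) ≤ X := (hHle b hb).trans hcR
  have hh : (a : ℤ) - b ≠ 0 := by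
    intro h
    apply hab
    have : (a : ℤ) = b := by linarith
    exact_mod_cast this
  have haM : a ≤ M := by exact_mod_cast haX.trans hXM
  have hbM : b ≤ M := by exact_mod_cast hbX.trans hXM
  have hhM : ((a : ℤ) - b).natAbs ≤ M := by omega
  have hsqrt : Nat.sqrt M ≤ A := by
    have h1 : M < (A + 1) ^ 2 := by
      have h2 : (M : ℝ) < ((A : ℝ) + 1) ^ 2 := by nlinarith
      exact_mod_cast h2
    have := Nat.sqrt_lt'.2 h1
    omega
  have hAM : A ≤ M := by exact_mod_cast hA1.trans hXM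
  obtain ⟨S, hS, hmain⟩ := hX2 M hMX2 ((a : ℤ) - b) hh hhM A M hsqrt hAM le_rfl (by linarith)
  obtain ⟨hps, -⟩ := hPP M hMX1
  obtain ⟨ps, hpsd⟩ : ∃ ps : ℕ, ps = PP M := ⟨_, rfl⟩
  rw [← hpsd] at hps hmain
  obtain ⟨W, hWd⟩ : ∃ W : ℕ, W = WX M S ps := ⟨_, rfl⟩
  rw [← hWd] at hmain
  -- the covering
  have hwin : ∀ s : ℕ, (s : ℝ) ≤ cc / 400 * Rk X → (s : ℝ) ≤ cc * Rk ((M : ℝ) ^ (1 / 100 : ℝ)) := by
    intro s hs
    refine hs.trans ?_
    calc cc / 400 * Rk X ≤ cc / 400 * (400 * Rk ((M : ℝ) ^ (1 / 100 : ℝ))) :=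
          mul_le_mul_of_nonneg_left hsc (by positivity)
      _ = _ := by ring
  have hX3 : X3 ≤ (M : ℝ) ^ (1 / 100 : ℝ) := hX7 M (g7.trans hXM)
  obtain ⟨a1, ha1⟩ := hcov _ hX3 ps S hps hS H hHc (fun h hh => hwin h (hHle h hh)) hadm
  have hWX : WW ((M : ℝ) ^ (1 / 100 : ℝ)) S ps = W := by rw [hWd]; rfl
  rw [hWX] at ha1
  have hcop : ∀ h ∈ H, (a1 + h).Coprime W := fun h hh => (ha1 h (hwin h (hHle h hh))).2 hh
  obtain ⟨Y, hYd⟩ : ∃ Y : ℕ, Y = ⌊(M : ℝ) ^ (1 / (t : ℝ))⌋₊ := ⟨_, rfl⟩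
  rw [← hYd] at hmain
  have hDat := pat_dat (Y := Y) hHc hadm ha hb hab
  have h1 := hmain (OmH H a) hDat (a1 + a) (by
    intro q hq hqW
    have hqp := Pr_prime hq
    rw [mem_Z0_OmH hqp.pos]
    have hno : ∀ h ∈ H, ¬ q ∣ a1 + h := by
      intro h hh hd
      have h4 := hcop h hh
      have h5 := Nat.dvd_gcd hd hqW
      rw [Nat.Coprime] at h4
      rw [h4] at h5
      exact hqp.one_lt.ne' (Nat.dvd_one.1 h5)
    rintro (h1 | ⟨h, hh, _, h2⟩)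
    · exact hno a ha h1
    · have h3 : a + 0 ≡ a + (a1 + h) [MOD q] := by
        have : a1 + a + h = a + (a1 + h) := by ring
        rw [add_zero, ← this]
        exact h2
      have h4 := Nat.ModEq.add_left_cancel' a h3
      exact hno h hh ((Nat.modEq_zero_iff_dvd).1 h4.symm))
  obtain ⟨q1, q2, q3, q4, q5⟩ := hX5 M hMX5
  rw [← hYd] at q2 q3
  -- the size of the lower bound
  have hlow : X ^ (99 / 100 : ℝ) ≤ c * ((((M : ℝ) - A) / (W : ℝ)) * VD (OmH H a) (W * ps) Y) := by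
    have hW0 : 0 < W := by rw [hWd]; exact WX_pos _ _ _
    have hWr : (0 : ℝ) < W := by exact_mod_cast hW0
    have hWle : (W : ℝ) ≤ (M : ℝ) ^ (1 / 50000 : ℝ) := by
      rw [hWd]
      exact WX_le (by linarith) _ _
    have hYM : (Y : ℝ) ≤ M := by
      have h2 : (Y : ℝ) ≤ (M : ℝ) ^ (1 / (t : ℝ)) := by rw [hYd]; exact Nat.floor_le (by positivity)
      refine h2.trans ?_
      calc (M : ℝ) ^ (1 / (t : ℝ)) ≤ (M : ℝ) ^ (1 : ℝ) := by
            apply Real.rpow_le_rpow_of_exponent_le (by linarith)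
            rw [div_le_one ht0]
            exact_mod_cast ht
        _ = M := Real.rpow_one _
    have hVX := VV_ge (K := 2 * (k + 1)) hDat.adm (hV Y (by omega)) hcV hYM (by omega)
    have hVD := hVX.trans (VV_le_VD hDat.adm (W * ps))
    have hlM : 0 < Real.log M := by linarith
    have hBA : (M : ℝ) / 2 ≤ (M : ℝ) - A := by linarith
    have h3 : X ^ (99 / 100 : ℝ) ≤ (M : ℝ) ^ (999 / 1000 : ℝ) := by
      calc X ^ (99 / 100 : ℝ) ≤ (M : ℝ) ^ (99 / 100 : ℝ) := Real.rpow_le_rpow hX0.le hXM (by norm_num)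
        _ ≤ (M : ℝ) ^ (999 / 1000 : ℝ) := Real.rpow_le_rpow_of_exponent_le (by linarith) (by norm_num)
    refine h3.trans (q1.trans ?_)
    apply mul_le_mul_of_nonneg_left _ hc.le
    apply mul_le_mul _ hVD (by positivity)
    · apply div_nonneg _ hWr.le
      linarith
    · apply div_le_div₀ _ hBA hWr hWle
      linarith
  refine (hlow.trans h1).trans ?_
  rw [Nat.cast_le]
  apply card_le_card_of_injOn (fun m => m - a)
  · intro m hm
    rw [mem_coe] at hm ⊢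
    unfold GW GD SP at hm
    rw [mem_filter, mem_filter, mem_filter, mem_Ioc] at hm
    obtain ⟨⟨⟨⟨hm0, hmM⟩, hmp, hmY⟩, hmne, hmlen, hmfac⟩, ⟨hmA, hmB⟩, hmod⟩ := hm
    have hmX : X < m := by
      have : ((A : ℝ) + 1) ≤ m := by exact_mod_cast hmA
      linarith
    have ham : a ≤ m := by
      have : (a : ℝ) < m := lt_of_le_of_lt haX hmX
      exact_mod_cast this.le
    have hma : m - a + a = m := Nat.sub_add_cancel ham
    have hnm : m - a ≡ a1 [MOD W] := by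
      apply Nat.ModEq.add_right_cancel' a
      rw [hma]
      exact hmod
    have hab' : (((a : ℤ) - b) - m).natAbs = m - a + b := by omega
    rw [hab'] at hmlen hmfac
    show m - a ∈ PtsC t X (cc / 400 * Rk X) H a b
    unfold PtsC
    rw [mem_filter, mem_range, hma]
    have hm3 : (m : ℝ) ≤ 3 * X := by
      have : (m : ℝ) ≤ M := by exact_mod_cast hmM
      linarith
    refine ⟨by omega, hmX, hm3, hmp, hmlen, ?_, ?_, ?_⟩
    · intro p hp hd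
      refine lt_of_lt_of_le ?_ (hmfac p hp hd)
      refine lt_of_le_of_lt ?_ q5
      apply Real.rpow_le_rpow hX0.le _ (by norm_num)
      linarith
    · intro h hh p hp hpX hd
      have hpY : p ∈ Pr 0 Y := by
        rw [Pr_mem]
        refine ⟨⟨hp.pos, ?_⟩, hp⟩
        rw [hYd]
        apply Nat.le_floor
        exact hpX.trans (Real.rpow_le_rpow hX0.le hXM (by positivity))
      apply hmY p hpY
      rw [mem_Z0_OmH hp.pos]
      by_cases hha : h = a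
      · left
        rw [hha, hma] at hd
        exact hd
      · right
        refine ⟨h, hh, hha, ?_⟩
        have h6 : m + h = a + (m - a + h) := by omega
        rw [h6]
        have h7 : a + (m - a + h) ≡ a + 0 [MOD p] :=
          Nat.ModEq.add_left a ((Nat.modEq_zero_iff_dvd).2 hd)
        exact h7.symm
    · intro s hs hsH
      have h2 : ¬ (a1 + s).Coprime W := fun h => hsH ((ha1 s (hwin s hs)).1 h)
      obtain ⟨p, hp, hp1, hp2⟩ := Nat.Prime.not_coprime_iff_dvd.1 h2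
      refine ⟨p, hp, ?_, ?_⟩
      · rw [hWd, prime_dvd_WX hp] at hp2
        have h4 : (p : ℝ) ≤ yy ((M : ℝ) ^ (1 / 100 : ℝ)) := by exact_mod_cast hp2.1
        have h5 : (yy ((M : ℝ) ^ (1 / 100 : ℝ)) : ℝ) ≤ Real.log ((M : ℝ) ^ (1 / 100 : ℝ)) / 1000 := by
          apply Nat.floor_le
          apply div_nonneg _ (by norm_num)
          apply Real.log_nonneg
          exact Real.one_le_rpow (by linarith) (by norm_num)
        rw [Real.log_rpow hM0] at h5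
        have h6 : Real.log M ≤ Real.log 3 + Real.log X := by
          rw [← Real.log_mul (by norm_num) hX0.ne']
          exact Real.log_le_log hM0 hM1
        have h7 : Real.log 3 ≤ 2 := by
          have := Real.log_le_sub_one_of_pos (show (0 : ℝ) < 3 by norm_num)
          linarith
        have h8 : 1 ≤ Real.log X := by
          have h9 : Real.exp 1 ≤ X := by linarith [Real.exp_one_lt_d9]
          rw [← Real.log_exp 1]
          exact Real.log_le_log (Real.exp_pos 1) h9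
        linarith
      · have h3 : m - a + s ≡ a1 + s [MOD p] := (hnm.of_dvd hp2).add_right s
        exact (h3.dvd_iff dvd_rfl).2 hp1
  · intro m hm m' hm' he
    rw [mem_coe] at hm hm'
    unfold GW at hm hm'
    rw [mem_filter] at hm hm'
    have key : ∀ x : ℕ, A < x → a ≤ x := by
      intro x hx
      have h2 : ((A : ℝ) + 1) ≤ x := by exact_mod_cast hx
      have : (a : ℝ) ≤ x := by linarith
      exact_mod_cast this
    have h2 := key m hm.2.1.1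
    have h3 := key m' hm'.2.1.1
    simp only at he
    omega

end Pool.Agent.Q117.CR
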