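import Pool.Agent.Q117.CR.Stm

/-! JOB BSC of project CR: small conductors for a block. -/

set_option autoImplicit false

namespace Pool.Agent.Q117.CR.BSC

open Finset Filter
open Pool.Agent.H378R2.LSBV (QQ wt)
open Pool.Agent.Helper112
open Pool.Agent.Y261.CH (al be EP PP)

lemma A_al (M₀ M₁ g f : ℕ) [NeZero f] (hM : M₀ ≤ M₁) (hg : g ≠ 0)
    (ψ : DirichletCharacter ℂ f) (E : ℝ)
    (h1 : ‖∑ p ∈ (Icc 1 M₁).filter Nat.Prime, ψ (p : ZMod f)‖ ≤ M₁ * E)
    (h0 : ‖∑ p ∈ (Icc 1 M₀).filter Nat.Prime, ψ (p : ZMod f)‖ ≤ M₀ * E) (hE : 0 ≤ E) :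
    ‖BLB.A M₁ (BLB.res g (al M₀)) f ψ‖ ≤ 2 * M₁ * E + (g.primeFactors.card : ℝ) := by
  have h0' : (Icc 1 M₀).filter Nat.Prime = (Icc 1 M₁).filter (fun b => b.Prime ∧ b ≤ M₀) := by
    ext b
    simp only [mem_filter, mem_Icc]
    constructor
    · rintro ⟨⟨h1, h2⟩, h3⟩
      exact ⟨⟨h1, h2.trans hM⟩, h3, h2⟩
    · rintro ⟨⟨h1, h2⟩, h3, h4⟩
      exact ⟨⟨h1, h4⟩, h3⟩
  have h2 : BLB.A M₁ (BLB.res g (al M₀)) f ψ =
      ∑ p ∈ (Icc 1 M₁).filter Nat.Prime, ψ (p : ZMod f) -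
      ∑ p ∈ (Icc 1 M₀).filter Nat.Prime, ψ (p : ZMod f) -
      ∑ p ∈ (Icc 1 M₁).filter (fun b => (b.Prime ∧ M₀ < b) ∧ ¬ b.Coprime g),
        ψ (p : ZMod f) := by
    rw [h0', BLB.A, sum_filter, sum_filter, sum_filter, ← sum_sub_distrib, ← sum_sub_distrib]
    refine sum_congr rfl fun b _ => ?_
    rw [BLB.res, al]
    by_cases c1 : b.Prime
    · by_cases c2 : M₀ < b
      · have c4 : ¬ b ≤ M₀ := by omega
        by_cases c3 : b.Coprime g
        · simp only [c1, c2, c4, and_self, and_false, if_true, if_false]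
          rw [if_pos c3, if_neg (fun h : True ∧ ¬ b.Coprime g => h.2 c3)]
          simp
        · simp only [c1, c2, c4, and_self, and_false, if_true, if_false]
          rw [if_neg c3, if_pos (⟨trivial, c3⟩ : True ∧ ¬ b.Coprime g)]
          simp
      · have c4 : b ≤ M₀ := by omega
        simp only [c1, c2, c4, and_self, and_false, false_and, if_true, if_false]
        simp
    · simp only [c1, false_and, if_false]
      simp
  have h3 : ‖∑ p ∈ (Icc 1 M₁).filter (fun b => (b.Prime ∧ M₀ < b) ∧ ¬ b.Coprime g),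
      ψ (p : ZMod f)‖ ≤ (g.primeFactors.card : ℝ) := by
    refine (norm_sum_le _ _).trans ?_
    have h3 := sum_le_card_nsmul ((Icc 1 M₁).filter
      (fun b => (b.Prime ∧ M₀ < b) ∧ ¬ b.Coprime g)) (fun p => ‖ψ (p : ZMod f)‖) 1
      (fun p _ => ψ.norm_le_one _)
    rw [nsmul_eq_mul, mul_one] at h3
    refine h3.trans ?_
    apply Nat.cast_le.2
    apply card_le_card
    intro p hp
    rw [mem_filter] at hp
    have h4 : p ∣ g := by
      by_contra hc
      exact hp.2.2 ((Nat.Prime.coprime_iff_not_dvd hp.2.1.1).2 hc)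
    exact Nat.mem_primeFactors.2 ⟨hp.2.1.1, h4, hg⟩
  rw [h2]
  refine (norm_sub_le _ _).trans (add_le_add ?_ h3)
  refine (norm_sub_le _ _).trans ?_
  have h5 : (M₀ : ℝ) * E ≤ M₁ * E := mul_le_mul_of_nonneg_right (by exact_mod_cast hM) hE
  linarith

lemma P_le (M₀ M₁ Y g f : ℕ) (T : Finset ℕ) (hM : M₀ ≤ M₁) (hg : g ≠ 0) (hf : 2 ≤ f) (E : ℝ)
    (hE : 0 ≤ E)
    (hχ : ∀ ψ : DirichletCharacter ℂ f, ψ.IsPrimitive →
      ‖∑ p ∈ (Icc 1 M₁).filter Nat.Prime, ψ (p : ZMod f)‖ ≤ M₁ * E ∧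
      ‖∑ p ∈ (Icc 1 M₀).filter Nat.Prime, ψ (p : ZMod f)‖ ≤ M₀ * E) :
    BLB.P M₁ Y (BLB.res g (al M₀)) (BLB.res g (be T)) f ≤
      f * ((2 * M₁ * E + (g.primeFactors.card : ℝ)) * Y) := by
  classical
  have : NeZero f := ⟨by omega⟩
  have hB0 : 0 ≤ (2 * M₁ * E + (g.primeFactors.card : ℝ)) * Y := by positivity
  have h1 : ∀ ψ ∈ (univ : Finset (DirichletCharacter ℂ f)).filter (fun χ => χ.IsPrimitive),
      ‖BLB.A M₁ (BLB.res g (al M₀)) f ψ‖ * ‖BLB.A Y (BLB.res g (be T)) f ψ‖ ≤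
      (2 * M₁ * E + (g.primeFactors.card : ℝ)) * Y := by
    intro ψ hψ
    rw [mem_filter] at hψ
    have h3 := A_al M₀ M₁ g f hM hg ψ E (hχ ψ hψ.2).1 (hχ ψ hψ.2).2 hE
    exact mul_le_mul h3 (Pool.Agent.Y261.CH.A_be Y g f T ψ) (norm_nonneg _)
      ((norm_nonneg _).trans h3)
  have h2 := sum_le_card_nsmul _ _ _ h1
  rw [nsmul_eq_mul] at h2
  have h3 : (((univ : Finset (DirichletCharacter ℂ f)).filter
      (fun χ => χ.IsPrimitive)).card : ℝ) ≤ f := by
    have h4 := card_filter_le (univ : Finset (DirichletCharacter ℂ f)) (fun χ => χ.IsPrimitive)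
    have h5 := DirichletCharacter.card_eq_totient_of_hasEnoughRootsOfUnity ℂ f
    have h6 := Nat.totient_le f
    rw [← h5, Nat.card_eq_fintype_card] at h6
    exact_mod_cast h4.trans h6
  refine le_trans ?_ (h2.trans (mul_le_mul_of_nonneg_right h3 hB0))
  exact le_of_eq (by rw [BLB.P])

lemma ev_poly (K : ℕ) : ∀ᶠ l : ℝ in atTop,
    K * (1 + l) + l ^ 6 + 4 ≤ l ^ 7 / 24 ∧
    K * (1 + l) + l ^ 6 + 4 + l + l ^ 7 / 12 ≤ Real.exp l / 9 := by
  have h1 := Real.tendsto_pow_mul_exp_neg_atTop_nhds_zero 8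
  have h2 := h1.eventually (gt_mem_nhds (zero_lt_one))
  filter_upwards [h2, eventually_ge_atTop (1 : ℝ), eventually_ge_atTop (24 * (2 * (K : ℝ) + 5)),
    eventually_ge_atTop (9 * (2 * (K : ℝ) + 7))] with l hl h1l h3 h4
  have hK : (0 : ℝ) ≤ K := Nat.cast_nonneg K
  have h6 : 1 ≤ l ^ 6 := one_le_pow₀ h1l
  have h6' : l ≤ l ^ 6 := by
    calc l = l ^ 1 := (pow_one l).symm
      _ ≤ l ^ 6 := pow_le_pow_right₀ h1l (by norm_num)
  have h7 : l ^ 6 ≤ l ^ 7 := pow_le_pow_right₀ h1l (by norm_num)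
  have e7 : l ^ 7 = l * l ^ 6 := by ring
  have e8 : l ^ 8 = l * l ^ 7 := by ring
  have a1 : (K : ℝ) * (1 + l) ≤ 2 * K * l ^ 6 := by
    have : 1 + l ≤ 2 * l ^ 6 := by linarith
    nlinarith
  constructor
  · rw [e7]
    have : 24 * (2 * (K : ℝ) + 5) * l ^ 6 ≤ l * l ^ 6 := mul_le_mul_of_nonneg_right h3 (by positivity)
    linarith
  · have hx : l ^ 8 ≤ Real.exp l := by
      rw [Real.exp_neg] at hl
      have he := Real.exp_pos l
      have := (mul_inv_lt_iff₀ he).1 hl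
      linarith
    have h5 : 9 * (2 * (K : ℝ) + 7) * l ^ 7 ≤ l * l ^ 7 := mul_le_mul_of_nonneg_right h4 (by positivity)
    have a2 : (K : ℝ) * l ^ 6 ≤ K * l ^ 7 := mul_le_mul_of_nonneg_left h7 hK
    linarith

end Pool.Agent.Q117.CR.BSC

namespace Pool.Agent.Q117.CR

open Finset Filter
open Pool.Agent.H378R2.LSBV (QQ wt)
open Pool.Agent.Helper112
open Pool.Agent.Y261.CH (al be EP PP)

theorem bsc : St_BSC := by
  intro A
  set K : ℕ := 2 ^ (A + 1) with hK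
  have hll : Tendsto (fun X : ℕ => ll (X : ℝ)) atTop atTop :=
    Real.tendsto_log_atTop.comp (Real.tendsto_log_atTop.comp tendsto_natCast_atTop_atTop)
  have hev := hll.eventually (BSC.ev_poly K)
  have hev1 := hll.eventually (eventually_ge_atTop (1 : ℝ))
  obtain ⟨X0, hX0⟩ := eventually_atTop.1 (hev.and (hev1.and (eventually_ge_atTop 3)))
  refine ⟨X0, fun X hX ps hchar M₀ M₁ Y T hB f hsq h1f hfe hcop => ?_⟩
  obtain ⟨⟨p1, p2⟩, hl1, hX3⟩ := hX0 X hX
  set l := ll (X : ℝ) with hl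
  set L := Real.log (X : ℝ) with hL
  have hXR : (3 : ℝ) ≤ X := by exact_mod_cast hX3
  have hXpos : (0 : ℝ) < X := by linarith
  have hlL : l = Real.log L := rfl
  have hLpos : 0 < L := Real.log_pos (by linarith)
  have hLe : L = Real.exp l := by rw [hlL, Real.exp_log hLpos]
  have hXe : (X : ℝ) = Real.exp L := by rw [hL, Real.exp_log hXpos]
  have hL1 : 1 ≤ L := by
    rw [hLe]
    have := Real.add_one_le_exp l
    linarith
  set E : ℝ := Real.exp (-l ^ 7 / 8) with hE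
  have hM0 : (1 : ℝ) ≤ M₀ := by
    have : (1 : ℝ) ≤ (X : ℝ) ^ (1 / 9 : ℝ) := Real.one_le_rpow (by linarith) (by norm_num)
    linarith [hB.a]
  have hM0' : (X : ℝ) ^ (1 / 10 : ℝ) ≤ M₀ := by
    refine le_trans ?_ hB.a
    exact Real.rpow_le_rpow_of_exponent_le (by linarith) (by norm_num)
  have hM01 : (M₀ : ℝ) ≤ M₁ := by exact_mod_cast hB.b
  have hM1X : M₁ ≤ X := by
    have h1 : (M₁ : ℝ) ≤ X := by
      refine hB.c.trans ?_
      calc (X : ℝ) ^ (2 / 5 : ℝ) ≤ (X : ℝ) ^ (1 : ℝ) :=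
            Real.rpow_le_rpow_of_exponent_le (by linarith) (by norm_num)
        _ = X := Real.rpow_one _
    exact_mod_cast h1
  have hR : (RX (X : ℝ) : ℝ) ≤ X := by
    unfold RX
    refine (Nat.floor_le (by positivity)).trans ?_
    calc (X : ℝ) ^ (4995 / 10000 : ℝ) ≤ (X : ℝ) ^ (1 : ℝ) :=
          Real.rpow_le_rpow_of_exponent_le (by linarith) (by norm_num)
      _ = X := Real.rpow_one _
  have hMY : (M₁ : ℝ) * Y ≤ 5 * X := by exact_mod_cast hB.d
  have hY : (Y : ℝ) ≤ 5 * (X * Real.exp (-(L / 9))) := by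
    have h1 : (X : ℝ) ^ (1 / 9 : ℝ) * Y ≤ 5 * X := by
      refine le_trans ?_ hMY
      exact mul_le_mul_of_nonneg_right (hB.a.trans hM01) (Nat.cast_nonneg _)
    have h2 : (X : ℝ) ^ (1 / 9 : ℝ) = Real.exp (L / 9) := by
      rw [Real.rpow_def_of_pos hXpos, ← hL]
      congr 1; ring
    rw [h2] at h1
    have h3 : Real.exp (L / 9) * Real.exp (-(L / 9)) = 1 := by
      rw [← Real.exp_add]; simp
    calc (Y : ℝ) = (Real.exp (L / 9) * Y) * Real.exp (-(L / 9)) := by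
          rw [mul_comm (Real.exp (L / 9)) (Y : ℝ), mul_assoc, h3, mul_one]
      _ ≤ (5 * X) * Real.exp (-(L / 9)) := mul_le_mul_of_nonneg_right h1 (Real.exp_pos _).le
      _ = _ := by ring
  have hchar' : ∀ ψ : DirichletCharacter ℂ f, ψ.IsPrimitive →
      ‖∑ p ∈ (Icc 1 M₁).filter Nat.Prime, ψ (p : ZMod f)‖ ≤ M₁ * E ∧
      ‖∑ p ∈ (Icc 1 M₀).filter Nat.Prime, ψ (p : ZMod f)‖ ≤ M₀ * E := fun ψ hψ =>
    ⟨hchar f hsq h1f hfe hcop ψ hψ M₁ (hM0'.trans hM01) hM1X,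
      hchar f hsq h1f hfe hcop ψ hψ M₀ hM0' (hB.b.trans hM1X)⟩
  set Bd : ℝ := Real.exp (l ^ 6) * (10 * X * E + 10 * L * (X * Real.exp (-(L / 9)))) with hBd
  have hBd0 : 0 ≤ Bd := by positivity
  have hP : ∀ e ∈ Icc 1 (RX (X : ℝ)),
      BLB.P M₁ Y (BLB.res e (al M₀)) (BLB.res e (be T)) f ≤ Bd := by
    intro e he
    rw [mem_Icc] at he
    refine (BSC.P_le M₀ M₁ Y e f T hB.b (by omega) (by omega) E (Real.exp_pos _).le hchar').trans ?_
    have h1 : (e.primeFactors.card : ℝ) ≤ 2 * L := by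
      refine (Pool.Agent.Y261.CH.om_le e (by omega)).trans ?_
      have h2 : Real.log e ≤ L := by
        apply Real.log_le_log (by exact_mod_cast he.1)
        refine le_trans ?_ hR
        exact_mod_cast he.2
      linarith
    have hE0 : 0 ≤ E := (Real.exp_pos _).le
    have hY0 : (0 : ℝ) ≤ Y := Nat.cast_nonneg _
    have h2 : (2 * M₁ * E + (e.primeFactors.card : ℝ)) * Y ≤
        10 * X * E + 10 * L * (X * Real.exp (-(L / 9))) := by
      have h3 : (2 * M₁ * E + (e.primeFactors.card : ℝ)) * Y =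
          2 * E * (M₁ * Y) + (e.primeFactors.card : ℝ) * Y := by ring
      rw [h3]
      have h4 : 2 * E * (M₁ * Y) ≤ 2 * E * (5 * X) := mul_le_mul_of_nonneg_left hMY (by positivity)
      have h5 : (e.primeFactors.card : ℝ) * Y ≤ 2 * L * (5 * (X * Real.exp (-(L / 9)))) :=
        mul_le_mul h1 hY hY0 (by positivity)
      linarith
    have h6 : 0 ≤ (2 * M₁ * E + (e.primeFactors.card : ℝ)) * Y :=
      mul_nonneg (add_nonneg (mul_nonneg (mul_nonneg two_pos.le (Nat.cast_nonneg _)) hE0)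
        (Nat.cast_nonneg _)) hY0
    exact mul_le_mul hfe h2 h6 (Real.exp_pos _).le
  have hTB : TB A (RX (X : ℝ)) M₀ M₁ Y T f ≤ (∑ e ∈ Icc 1 (RX (X : ℝ)), wt A e) * Bd := by
    unfold TB
    rw [sum_mul]
    apply sum_le_sum
    intro e he
    exact mul_le_mul_of_nonneg_left (hP e he) (Pool.Agent.H378R2.LSBV.wt_nonneg A e)
  have hwt : ∑ e ∈ Icc 1 (RX (X : ℝ)), wt A e ≤ Real.exp (K * (1 + l)) := by
    refine (Pool.Agent.H378R2.LSBV.sum_wt A (RX (X : ℝ))).trans ?_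
    have h1 : 1 + Real.log (RX (X : ℝ) : ℝ) ≤ Real.exp (1 + l) := by
      have h2 : Real.log (RX (X : ℝ) : ℝ) ≤ L := by
        rcases Nat.eq_zero_or_pos (RX (X : ℝ)) with h | h
        · rw [h, Nat.cast_zero, Real.log_zero]; exact hLpos.le
        · exact Real.log_le_log (by exact_mod_cast h) hR
      rw [Real.exp_add, ← hLe]
      have := Real.exp_one_gt_d9
      nlinarith
    have h0 : 0 ≤ 1 + Real.log (RX (X : ℝ) : ℝ) := by
      have := Real.log_natCast_nonneg (RX (X : ℝ))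
      linarith
    calc (1 + Real.log (RX (X : ℝ) : ℝ)) ^ K ≤ Real.exp (1 + l) ^ K :=
          pow_le_pow_left₀ h0 h1 K
      _ = _ := by rw [← Real.exp_nat_mul]
  refine hTB.trans ((mul_le_mul_of_nonneg_right hwt hBd0).trans ?_)
  have h20 : (20 : ℝ) ≤ Real.exp 4 := by
    have h1 := Real.exp_one_gt_d9
    have h2 : Real.exp 4 = Real.exp 1 ^ 4 := by rw [← Real.exp_nat_mul]; norm_num
    rw [h2]
    calc (20 : ℝ) ≤ (2.7 : ℝ) ^ 4 := by norm_num
      _ ≤ _ := pow_le_pow_left₀ (by norm_num) (by linarith) 4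
  have q1 : Real.exp (K * (1 + l)) * (Real.exp (l ^ 6) * (10 * X * E)) ≤
      X * Real.exp (-l ^ 7 / 12) / 2 := by
    have h1 : Real.exp (K * (1 + l)) * Real.exp (l ^ 6) * Real.exp 4 * E ≤
        Real.exp (-l ^ 7 / 12) := by
      rw [hE, ← Real.exp_add, ← Real.exp_add, ← Real.exp_add]
      apply Real.exp_le_exp.2
      linarith
    have h2 : Real.exp (K * (1 + l)) * Real.exp (l ^ 6) * 20 * E ≤
        Real.exp (K * (1 + l)) * Real.exp (l ^ 6) * Real.exp 4 * E := by gcongr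
    have h3 := mul_le_mul_of_nonneg_left (h2.trans h1) hXpos.le
    linarith
  have q2 : Real.exp (K * (1 + l)) * (Real.exp (l ^ 6) * (10 * L * (X * Real.exp (-(L / 9))))) ≤
      X * Real.exp (-l ^ 7 / 12) / 2 := by
    have h1 : Real.exp (K * (1 + l)) * Real.exp (l ^ 6) * Real.exp 4 * L * Real.exp (-(L / 9)) ≤
        Real.exp (-l ^ 7 / 12) := by
      have e1 : Real.exp (K * (1 + l)) * Real.exp (l ^ 6) * Real.exp 4 * L * Real.exp (-(L / 9)) =
          Real.exp (K * (1 + l) + l ^ 6 + 4 + l + (-(L / 9))) := by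
        rw [Real.exp_add, Real.exp_add, Real.exp_add, Real.exp_add, ← hLe]
      rw [e1]
      apply Real.exp_le_exp.2
      rw [← hLe] at p2
      linarith
    have h2 : Real.exp (K * (1 + l)) * Real.exp (l ^ 6) * 20 * L * Real.exp (-(L / 9)) ≤
        Real.exp (K * (1 + l)) * Real.exp (l ^ 6) * Real.exp 4 * L * Real.exp (-(L / 9)) := by
      gcongr
    have h3 := mul_le_mul_of_nonneg_left (h2.trans h1) hXpos.le
    linarith
  have e3 : Real.exp (K * (1 + l)) * Bd = Real.exp (K * (1 + l)) * (Real.exp (l ^ 6) * (10 * X * E)) +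
      Real.exp (K * (1 + l)) * (Real.exp (l ^ 6) * (10 * L * (X * Real.exp (-(L / 9))))) := by
    rw [hBd]; ring
  rw [e3]
  have e2 : X * Real.exp (-l ^ 7 / 12) = X * Real.exp (-l ^ 7 / 12) / 2 +
      X * Real.exp (-l ^ 7 / 12) / 2 := by ring
  rw [e2]
  exact add_le_add q1 q2

end Pool.Agent.Q117.CR
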