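import Pool.Agent.Q117.CR.Scp

/-!
# Primes and bilinear sums modulo `W q`
-/

set_option autoImplicit false

namespace Pool.Agent.Q117.CR

open Finset Filter
open Pool.Agent.H378R2 (GoodS GoodP WW psiPhi)
open Pool.Agent.H378R2.LSBV (QQ wt wt_nonneg)
open Pool.Agent.H398R2.BV (Prim)
open Pool.Agent.H410R2 (psiLog psiLogAP psiLog1)
open Pool.Agent.Helper112
open Pool.Agent.Y261.CH (al be EP PP)

/-- a block -/
structure Blk where
  M₀ : ℕ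
  M₁ : ℕ
  Y : ℕ
  T : Finset ℕ

/-- the condition on a block -/
def Blk.OK (b : Blk) (X : ℕ) : Prop := BlkOK X b.M₀ b.M₁ b.Y b.T

/-- the function of a block -/
noncomputable def Blk.F (b : Blk) (κ R : ℕ) : ℕ → ℝ := TB κ R b.M₀ b.M₁ b.Y b.T

theorem TT1_nonneg (x : ℝ) (f : ℕ) : 0 ≤ TT1 x f := sum_nonneg fun _ _ => norm_nonneg _

theorem TP_nonneg (δ : ℝ) (A B f : ℕ) : 0 ≤ TP δ A B f := by
  unfold TP
  have h1 := TT1_nonneg A f
  have h2 := TT1_nonneg (A * Real.exp δ) f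
  have h3 := TT1_nonneg (B * Real.exp (-δ)) f
  have h4 := TT1_nonneg B f
  linarith

theorem TB_nonneg (κ R M₀ M₁ Y : ℕ) (T : Finset ℕ) (f : ℕ) : 0 ≤ TB κ R M₀ M₁ Y T f :=
  sum_nonneg fun _ _ => mul_nonneg (wt_nonneg _ _) (BLB.P_nonneg _ _ _ _ _)

theorem PS_nonneg (κ : ℕ) (X : ℝ) (S : Finset ℕ) (ps : ℕ) (T : ℕ → ℝ) (hT : ∀ f, 0 ≤ T f) :
    0 ≤ PS κ X S ps T :=
  sum_nonneg fun _ _ => mul_nonneg (wt_nonneg _ _) (hT _)

theorem PS_mono (κ : ℕ) (X : ℝ) (S : Finset ℕ) (ps : ℕ) (T T' : ℕ → ℝ) (h : ∀ f, T f ≤ T' f) :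
    PS κ X S ps T ≤ PS κ X S ps T' :=
  sum_le_sum fun _ _ => mul_le_mul_of_nonneg_left (h _) (wt_nonneg _ _)

/-- the total function -/
noncomputable def TF {ι : Type} (κ : ℕ) (δ : ℝ) (X A B : ℕ) (I : Finset ι) (b : ι → Blk) (f : ℕ) : ℝ :=
  TP δ A B f + ∑ i ∈ I, (b i).F κ (RX X) f

theorem TF_nonneg {ι : Type} (κ : ℕ) (δ : ℝ) (X A B : ℕ) (I : Finset ι) (b : ι → Blk) (f : ℕ) :
    0 ≤ TF κ δ X A B I b f :=
  add_nonneg (TP_nonneg _ _ _ _) (sum_nonneg fun _ _ => TB_nonneg _ _ _ _ _ _ _)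

theorem TP_le_TF {ι : Type} (κ : ℕ) (δ : ℝ) (X A B : ℕ) (I : Finset ι) (b : ι → Blk) (f : ℕ) :
    TP δ A B f ≤ TF κ δ X A B I b f := by
  have := sum_nonneg (s := I) (f := fun i => (b i).F κ (RX X) f) fun _ _ => TB_nonneg _ _ _ _ _ _ _
  unfold TF
  linarith

theorem TB_le_TF {ι : Type} (κ : ℕ) (δ : ℝ) (X A B : ℕ) (I : Finset ι) (b : ι → Blk) (f : ℕ) {i : ι}
    (hi : i ∈ I) : (b i).F κ (RX X) f ≤ TF κ δ X A B I b f := by
  have h1 := single_le_sum (f := fun i => (b i).F κ (RX X) f)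
    (fun j _ => (TB_nonneg _ _ _ _ _ _ _ : 0 ≤ (b j).F κ (RX X) f)) hi
  have h2 := TP_nonneg δ A B f
  unfold TF
  linarith

/-- the points of the trapezoid -/
theorem pts {δ : ℝ} (hδ : 0 < δ) {X A B : ℕ} {u : ℝ} (hA : u ≤ A)
    (hAB : (A : ℝ) * Real.exp (2 * δ) ≤ B) (hB : B ≤ X) :
    (u ≤ (A : ℝ) ∧ (A : ℝ) ≤ 3 * (X : ℝ)) ∧ (u ≤ A * Real.exp δ ∧ A * Real.exp δ ≤ 3 * (X : ℝ)) ∧
      (u ≤ B * Real.exp (-δ) ∧ B * Real.exp (-δ) ≤ 3 * (X : ℝ)) ∧ u ≤ (B : ℝ) ∧ (B : ℝ) ≤ 3 * (X : ℝ) := by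
  have hA0 : (0 : ℝ) ≤ A := Nat.cast_nonneg _
  have hX0 : (0 : ℝ) ≤ X := Nat.cast_nonneg _
  have hBX : (B : ℝ) ≤ X := by exact_mod_cast hB
  have e1 : 1 ≤ Real.exp δ := Real.one_le_exp hδ.le
  have e2 : Real.exp (2 * δ) = Real.exp δ * Real.exp δ := by rw [← Real.exp_add]; ring_nf
  have e3 : Real.exp (-δ) * Real.exp δ = 1 := by rw [← Real.exp_add]; simp
  have e4 : 0 < Real.exp (-δ) := Real.exp_pos _
  have e5 : Real.exp (-δ) ≤ 1 := Real.exp_le_one_iff.2 (by linarith)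
  have h1 : (A : ℝ) ≤ A * Real.exp δ := le_mul_of_one_le_right hA0 e1
  have h2 : (A : ℝ) * Real.exp δ ≤ A * Real.exp (2 * δ) := by
    rw [e2]
    apply mul_le_mul_of_nonneg_left _ hA0
    nlinarith
  have h3 : (A : ℝ) * Real.exp δ ≤ B * Real.exp (-δ) := by
    calc (A : ℝ) * Real.exp δ = A * Real.exp (2 * δ) * Real.exp (-δ) := by
          rw [e2]
          calc (A : ℝ) * Real.exp δ = A * Real.exp δ * (Real.exp (-δ) * Real.exp δ) := by rw [e3, mul_one]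
            _ = _ := by ring
      _ ≤ B * Real.exp (-δ) := mul_le_mul_of_nonneg_right hAB e4.le
  have h4 : (B : ℝ) * Real.exp (-δ) ≤ B := mul_le_of_le_one_right (Nat.cast_nonneg _) e5
  refine ⟨⟨hA, ?_⟩, ⟨?_, ?_⟩, ⟨?_, ?_⟩, ?_, ?_⟩ <;> linarith

theorem LSat_mono {C C' : ℕ} (h : C ≤ C') {X : ℝ} (hX : 0 ≤ X) (hL : 1 ≤ Real.log X) {T : ℕ → ℝ}
    (hT : LSat C X T) : LSat C' X T := by
  intro F hF
  refine (hT F hF).trans ?_
  apply mul_le_mul_of_nonneg_left (pow_le_pow_right₀ hL h)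
  positivity

theorem LSat_TF {C1 C2 : ℕ} {ι : Type} {κ : ℕ} {δ : ℝ} {X A B : ℕ} {I : Finset ι} {b : ι → Blk}
    (hX : 0 < X) (hL : 5 ≤ Real.log X) (hI : (I.card : ℝ) ≤ Real.log X ^ 2)
    (h1 : LSat C1 X (TT1 A)) (h2 : LSat C1 X (TT1 (A * Real.exp δ)))
    (h3 : LSat C1 X (TT1 (B * Real.exp (-δ)))) (h4 : LSat C1 X (TT1 B))
    (h5 : ∀ i ∈ I, LSat C2 X ((b i).F κ (RX X))) :
    LSat (max C1 C2 + 3) X (TF κ δ X A B I b) := by
  intro F hF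
  have hL0 : 1 ≤ Real.log X := by linarith
  have hX0 : (0 : ℝ) ≤ X := Nat.cast_nonneg _
  obtain ⟨M, hM⟩ : ∃ M : ℝ, M = ((X : ℝ) + (X : ℝ) ^ (9999 / 10000 : ℝ) * F) * Real.log X ^ (max C1 C2) := ⟨_, rfl⟩
  have hM0 : 0 ≤ M := by rw [hM]; positivity
  have g1 := LSat_mono (le_max_left C1 C2) hX0 hL0 h1 F hF
  have g2 := LSat_mono (le_max_left C1 C2) hX0 hL0 h2 F hF
  have g3 := LSat_mono (le_max_left C1 C2) hX0 hL0 h3 F hF
  have g4 := LSat_mono (le_max_left C1 C2) hX0 hL0 h4 F hF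
  have g5 : ∀ i ∈ I, ∑ f ∈ Icc 2 F, (b i).F κ (RX X) f ≤ M := by
    intro i hi
    rw [hM]
    exact LSat_mono (le_max_right C1 C2) hX0 hL0 (h5 i hi) F hF
  rw [← hM] at g1 g2 g3 g4
  have e1 : ∑ f ∈ Icc 2 F, TF κ δ X A B I b f ≤ (4 + (I.card : ℝ)) * M := by
    unfold TF TP
    simp only [sum_add_distrib]
    rw [sum_comm]
    have := sum_le_sum g5
    rw [sum_const, nsmul_eq_mul] at this
    linarith
  refine e1.trans ?_
  have e2 : (4 + (I.card : ℝ)) ≤ Real.log X ^ 3 := by nlinarith [sq_nonneg (Real.log X)]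
  calc (4 + (I.card : ℝ)) * M ≤ Real.log X ^ 3 * M := mul_le_mul_of_nonneg_right e2 hM0
    _ = _ := by rw [hM]; ring

theorem TT1_le {X : ℝ} {ps f : ℕ} (hS : SCB X ps) (hf1 : Squarefree f) (hf2 : 1 < f)
    (hf3 : (f : ℝ) ≤ Real.exp (ll X ^ 6)) (hf4 : f.Coprime ps) {x : ℝ} (hx0 : 0 ≤ x)
    (hx1 : X ^ (1 / 20 : ℝ) ≤ x) (hx2 : x ≤ 3 * X) :
    TT1 x f ≤ Real.exp (ll X ^ 6) * (x * Real.exp (-(ll X) ^ 7 / 2)) := by
  unfold TT1
  have h1 : ∀ ψ ∈ Prim f, ‖psiLog x f ψ‖ ≤ x * Real.exp (-(ll X) ^ 7 / 2) := by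
    intro ψ hψ
    have hψ' : ψ.IsPrimitive := by
      classical
      simpa [Prim] using hψ
    exact (hS f hf1 hf2 hf3 hf4 ψ hψ').1 x hx1 hx2
  refine (sum_le_sum h1).trans ?_
  rw [sum_const, nsmul_eq_mul]
  apply mul_le_mul_of_nonneg_right _ (by positivity)
  refine (Pool.Agent.H398R2.BV.card_prim_le (by omega)).trans (le_trans ?_ hf3)
  exact_mod_cast Nat.totient_le f

theorem SCat_TF {ι : Type} {κ : ℕ} {δ : ℝ} {X A B ps : ℕ} {I : Finset ι} {b : ι → Blk}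
    (hδ : 0 < δ) (hl : 10 ≤ ll X) (hX : 0 < X) (hA : (X : ℝ) ^ (1 / 20 : ℝ) ≤ A)
    (hAB : (A : ℝ) * Real.exp (2 * δ) ≤ B) (hB : B ≤ X) (hI : (I.card : ℝ) ≤ Real.log X ^ 2)
    (hS : SCB X ps) (h5 : ∀ i ∈ I, SCat 12 X ps ((b i).F κ (RX X))) :
    SCat 16 X ps (TF κ δ X A B I b) := by
  intro f hf1 hf2 hf3 hf4
  have hX0 : (0 : ℝ) < X := by exact_mod_cast hX
  obtain ⟨⟨a1, a2⟩, ⟨b1, b2⟩, ⟨c1, c2⟩, d1, d2⟩ := pts hδ hA hAB hB
  set l := ll X with hl'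
  have hL0 : 0 < Real.log X := by
    by_contra hcon
    have h0 : 10 ≤ Real.log (Real.log X) := hl
    have h1 : (0 : ℝ) ≤ Real.log X := Real.log_natCast_nonneg X
    have h2 : Real.log (X : ℝ) = 0 := le_antisymm (not_lt.1 hcon) h1
    rw [h2, Real.log_zero] at h0
    linarith
  have hLe : Real.log X = Real.exp l := by
    rw [hl']
    unfold ll
    rw [Real.exp_log hL0]
  have g1 := TT1_le hS hf1 hf2 hf3 hf4 (Nat.cast_nonneg _) a1 a2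
  have g2 := TT1_le hS hf1 hf2 hf3 hf4 (by positivity) b1 b2
  have g3 := TT1_le hS hf1 hf2 hf3 hf4 (by positivity) c1 c2
  have g4 := TT1_le hS hf1 hf2 hf3 hf4 (Nat.cast_nonneg _) d1 d2
  have key : ∀ x : ℝ, x ≤ 3 * X → Real.exp (l ^ 6) * (x * Real.exp (-l ^ 7 / 2)) ≤
      3 * X * Real.exp (l ^ 6 + (-l ^ 7 / 2)) := by
    intro x hx
    rw [Real.exp_add]
    have : 0 < Real.exp (l ^ 6) := Real.exp_pos _
    have : 0 < Real.exp (-l ^ 7 / 2) := Real.exp_pos _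
    calc Real.exp (l ^ 6) * (x * Real.exp (-l ^ 7 / 2)) ≤
          Real.exp (l ^ 6) * (3 * X * Real.exp (-l ^ 7 / 2)) := by gcongr
      _ = _ := by ring
  have k1 := key _ a2
  have k2 := key _ b2
  have k3 := key _ c2
  have k4 := key _ d2
  have e1 : ∑ i ∈ I, (b i).F κ (RX X) f ≤ Real.log X ^ 2 * (X * Real.exp (-l ^ 7 / 12)) := by
    refine (sum_le_sum fun i hi => h5 i hi f hf1 hf2 hf3 hf4).trans ?_
    rw [sum_const, nsmul_eq_mul]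
    exact mul_le_mul_of_nonneg_right hI (by positivity)
  have e2 : Real.log X ^ 2 * (X * Real.exp (-l ^ 7 / 12)) = X * Real.exp (2 * l + (-l ^ 7 / 12)) := by
    rw [hLe, Real.exp_add, two_mul, Real.exp_add]
    ring
  have hl6 : (1000000 : ℝ) ≤ l ^ 6 := by
    calc (1000000 : ℝ) = 10 ^ 6 := by norm_num
      _ ≤ l ^ 6 := by gcongr
  have hl7 : l ^ 7 = l * l ^ 6 := by ring
  have hl76 : 10 * l ^ 6 ≤ l ^ 7 := by rw [hl7]; gcongr
  have hl71 : 1000000 * l ≤ l ^ 7 := by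
    rw [hl7, mul_comm l]
    gcongr
  have m1 : (12 : ℝ) * Real.exp (l ^ 6 + (-l ^ 7 / 2)) ≤ 1 / 2 * Real.exp (-l ^ 7 / 16) := by
    have h1 : Real.exp (l ^ 6 + (-l ^ 7 / 2)) ≤ Real.exp (-4) * Real.exp (-l ^ 7 / 16) := by
      rw [← Real.exp_add]
      apply Real.exp_le_exp.2
      linarith
    have h2 : Real.exp (-4) ≤ 1 / 24 := by
      rw [Real.exp_neg, inv_le_comm₀ (Real.exp_pos _) (by norm_num)]
      have h3 : Real.exp 4 = (Real.exp 1) ^ 4 := by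
        rw [← Real.exp_nat_mul]
        norm_num
      rw [h3]
      have h4 := Real.exp_one_gt_d9
      have h5 : (2.7 : ℝ) ^ 4 ≤ (Real.exp 1) ^ 4 := by
        apply pow_le_pow_left₀ (by norm_num)
        linarith
      norm_num at h5 ⊢
      linarith
    have h3 : 0 < Real.exp (-l ^ 7 / 16) := Real.exp_pos _
    nlinarith
  have m2 : Real.exp (2 * l + (-l ^ 7 / 12)) ≤ 1 / 2 * Real.exp (-l ^ 7 / 16) := by
    have h1 : Real.exp (2 * l + (-l ^ 7 / 12)) ≤ Real.exp (-1) * Real.exp (-l ^ 7 / 16) := by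
      rw [← Real.exp_add]
      apply Real.exp_le_exp.2
      linarith
    have h2 : Real.exp (-1) ≤ 1 / 2 := by
      rw [Real.exp_neg, inv_le_comm₀ (Real.exp_pos _) (by norm_num)]
      have h4 := Real.exp_one_gt_d9
      norm_num
      linarith
    have h3 : 0 < Real.exp (-l ^ 7 / 16) := Real.exp_pos _
    nlinarith
  have n1 : 12 * X * Real.exp (l ^ 6 + (-l ^ 7 / 2)) ≤ X * (1 / 2 * Real.exp (-l ^ 7 / 16)) := by
    calc 12 * (X : ℝ) * Real.exp (l ^ 6 + (-l ^ 7 / 2)) = X * (12 * Real.exp (l ^ 6 + (-l ^ 7 / 2))) := by ring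
      _ ≤ _ := mul_le_mul_of_nonneg_left m1 hX0.le
  have n2 : (X : ℝ) * Real.exp (2 * l + (-l ^ 7 / 12)) ≤ X * (1 / 2 * Real.exp (-l ^ 7 / 16)) :=
    mul_le_mul_of_nonneg_left m2 hX0.le
  unfold TF TP
  rw [e2] at e1
  have : (X : ℝ) * Real.exp (-l ^ 7 / 16) = X * (1 / 2 * Real.exp (-l ^ 7 / 16)) + X * (1 / 2 * Real.exp (-l ^ 7 / 16)) := by
    ring
  linarith

/-- the conclusion for the primes -/
def BP (κ : ℕ) (δ : ℝ) (X A B : ℕ) (S : Finset ℕ) (ps : ℕ) (E : ℝ) : Prop :=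
  ∀ r : ℕ → ℕ, (∀ q, 1 ≤ q → (r q).Coprime (WX X S ps * q)) →
  ∑ q ∈ QQ (WX X S ps) ps (RX X), (κ : ℝ) ^ q.primeFactors.card *
      |PT δ A B (WX X S ps * q) (r q) - PT1 δ A B / (Nat.totient (WX X S ps * q) : ℝ)| ≤
    E / (Nat.totient (WX X S ps) : ℝ)

/-- the conclusion for a block -/
def BB (κ : ℕ) (X : ℕ) (b : Blk) (S : Finset ℕ) (ps : ℕ) (E : ℝ) : Prop :=
  ∀ r : ℕ → ℕ, (∀ q, 1 ≤ q → (r q).Coprime (WX X S ps * q)) →
  ∑ q ∈ QQ (WX X S ps) ps (RX X), (κ : ℝ) ^ q.primeFactors.card *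
      EP b.M₀ b.M₁ b.T (r q) (WX X S ps * q) ≤ E / (Nat.totient (WX X S ps) : ℝ)

theorem ev_pow_log (e : ℝ) (he : e < 1) (U : ℕ) : ∃ X0 : ℕ, ∀ X : ℕ, X0 ≤ X →
    (X : ℝ) ^ e ≤ 1 / 2 * (X / Real.log X ^ U) := by
  have h1 : ∀ᶠ x : ℝ in atTop, ‖Real.log x ^ U‖ ≤ 1 / 2 * ‖x ^ (1 - e)‖ := by
    have := (isLittleO_log_rpow_atTop (show (0 : ℝ) < (1 - e) / (U + 1) by
      apply div_pos (by linarith); positivity)).pow (n := U + 1) (by omega)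
    have h2 : (fun x : ℝ => Real.log x ^ U) =o[atTop] fun x : ℝ => x ^ (1 - e) := by
      have h3 : (fun x : ℝ => Real.log x ^ U) =O[atTop] fun x : ℝ => Real.log x ^ (U + 1) := by
        apply Asymptotics.IsBigO.of_bound 1
        filter_upwards [Real.tendsto_log_atTop.eventually (eventually_ge_atTop 1)] with x hx
        rw [one_mul, norm_pow, norm_pow, Real.norm_of_nonneg (by linarith)]
        exact pow_le_pow_right₀ hx (by omega)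
      refine h3.trans_isLittleO (this.trans_eventuallyEq ?_)
      filter_upwards [eventually_gt_atTop 0] with x hx
      rw [← Real.rpow_natCast, ← Real.rpow_mul hx.le]
      congr 1
      push_cast
      field_simp
    exact h2.bound (by norm_num)
  have h2 := (tendsto_natCast_atTop_atTop (R := ℝ)).eventually
    (h1.and (eventually_gt_atTop (Real.exp 1)))
  obtain ⟨X0, hX0⟩ := eventually_atTop.1 h2
  refine ⟨X0, fun X hX => ?_⟩
  obtain ⟨g1, g2⟩ := hX0 X hX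
  have hX1 : (0 : ℝ) < X := lt_trans (Real.exp_pos _) g2
  have hL : 0 < Real.log X := by
    have := Real.log_lt_log (Real.exp_pos 1) g2
    rw [Real.log_exp] at this
    linarith
  rw [norm_pow, Real.norm_of_nonneg hL.le, Real.norm_of_nonneg (by positivity)] at g1
  rw [mul_div_assoc', le_div_iff₀ (by positivity)]
  calc (X : ℝ) ^ e * Real.log X ^ U ≤ (X : ℝ) ^ e * (1 / 2 * (X : ℝ) ^ (1 - e)) := by gcongr
    _ = 1 / 2 * ((X : ℝ) ^ e * (X : ℝ) ^ (1 - e)) := by ring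
    _ = 1 / 2 * X := by rw [← Real.rpow_add hX1]; norm_num

theorem bvr (hsc : St_SC0) (hpl : St_PL) (hpr : St_PR) (hrel : St_REL) (hlsp : St_LSP) (hbvp : St_BVP)
    (hbvb : St_BVB) (hbls : St_BLS) (hbsc : St_BSC) (κ U Z : ℕ) (hκ : 1 ≤ κ) : ∃ X1 : ℕ, ∃ PP : ℕ → ℕ,
    (∀ X : ℕ, X1 ≤ X → GoodP Z (PP X) ∧ (PP X : ℝ) ≤ Real.exp (ll X ^ 6)) ∧
    ∀ δ : ℝ, 0 < δ → δ ≤ 1 → ∃ X0 : ℕ, ∀ X : ℕ, X0 ≤ X → ∀ A B : ℕ,
      (X : ℝ) ^ (1 / 4 : ℝ) ≤ A → (A : ℝ) * Real.exp (2 * δ) ≤ B → B ≤ X →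
      ∀ (ι : Type) (I : Finset ι) (b : ι → Blk), (I.card : ℝ) ≤ Real.log X ^ 2 → (∀ i ∈ I, (b i).OK X) →
      ∃ S : Finset ℕ, GoodS ((X : ℝ) ^ (1 / 100 : ℝ)) S ∧ BP κ δ X A B S (PP X) (X / Real.log X ^ U) ∧
        ∀ i ∈ I, BB κ X (b i) S (PP X) (X / Real.log X ^ U) := by
  classical
  obtain ⟨Xp, hXp⟩ := scp hsc hpl hpr Z
  have hex : ∀ X : ℕ, ∃ ps : ℕ, Xp ≤ X → GoodP Z ps ∧ (ps : ℝ) ≤ Real.exp (ll X ^ 6) ∧ SCB X ps := by
    intro X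
    by_cases h : Xp ≤ X
    · obtain ⟨ps, hps⟩ := hXp X h
      exact ⟨ps, fun _ => hps⟩
    · exact ⟨0, fun h' => absurd h' h⟩
  choose PP hPP using hex
  obtain ⟨C1, Xa, hXa⟩ := hlsp
  obtain ⟨C2, Xb, hXb⟩ := hbls κ
  obtain ⟨Xc, hXc⟩ := hbsc κ
  set U' := U + 2 ^ (κ + 2) + 1 with hU'
  obtain ⟨Xd, hXd⟩ := hrel κ (max C1 C2 + 3) U' Z
  obtain ⟨Xe, hXe⟩ := hbvb κ hκ
  obtain ⟨Xf, hXf⟩ := ev_pow_log (9998 / 10000) (by norm_num) U
  obtain ⟨Xg, hXg⟩ := ev_pow_log (95 / 100) (by norm_num) U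
  have hll : Tendsto (fun X : ℕ => ll X) atTop atTop :=
    (Real.tendsto_log_atTop.comp Real.tendsto_log_atTop).comp tendsto_natCast_atTop_atTop
  obtain ⟨Xh, hXh⟩ := eventually_atTop.1 (hll.eventually (eventually_ge_atTop 10))
  obtain ⟨Xi, hXi⟩ := eventually_atTop.1
    ((Real.tendsto_log_atTop.comp (tendsto_natCast_atTop_atTop (R := ℝ))).eventually (eventually_ge_atTop 5))
  refine ⟨⌈Xp⌉₊, PP, fun X hX => ?_, fun δ hδ hδ1 => ?_⟩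
  · have := hPP X (Nat.ceil_le.1 hX)
    exact ⟨this.1, this.2.1⟩
  obtain ⟨Xj, hXj⟩ := hbvp κ δ hκ hδ hδ1
  refine ⟨max (max (max (max ⌈Xp⌉₊ ⌈Xa⌉₊) (max Xb Xc)) (max (max ⌈Xd⌉₊ Xe) (max Xf Xg))) (max (max Xh Xi) (max Xj 1)), ?_⟩
  intro X hX A B hA hAB hB ι I b hI hb
  simp only [max_le_iff] at hX
  obtain ⟨⟨⟨⟨h1, h2⟩, h3, h4⟩, ⟨h5, h6⟩, h7, h8⟩, ⟨h9, h10⟩, h11, h12⟩ := hX
  have hX0 : (0 : ℝ) < X := by exact_mod_cast h12
  have hX1 : (1 : ℝ) ≤ X := by exact_mod_cast h12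
  obtain ⟨p1, p2, p3⟩ := hPP X (Nat.ceil_le.1 h1)
  have hl := hXh X h9
  have hL := hXi X h10
  simp only [Function.comp] at hL
  have hA20 : (X : ℝ) ^ (1 / 20 : ℝ) ≤ A :=
    (Real.rpow_le_rpow_of_exponent_le hX1 (by norm_num)).trans hA
  obtain ⟨⟨a1, a2⟩, ⟨b1, b2⟩, ⟨c1, c2⟩, d1, d2⟩ := pts hδ hA hAB hB
  have hLS : LSat (max C1 C2 + 3) X (TF κ δ X A B I b) := by
    have hx := Nat.ceil_le.1 h2
    exact LSat_TF h12 hL hI (hXa X hx _ a1 a2) (hXa X hx _ b1 b2) (hXa X hx _ c1 c2) (hXa X hx _ d1 d2)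
      fun i hi => hXb X h3 _ _ _ _ (hb i hi)
  have hSC : SCat 16 X (PP X) (TF κ δ X A B I b) := by
    refine SCat_TF hδ hl h12 hA20 hAB hB hI p3 fun i hi => ?_
    refine hXc X h4 (PP X) ?_ _ _ _ _ (hb i hi)
    intro f hf1 hf2 hf3 hf4 χ hχ u hu1 hu2
    exact (p3 f hf1 hf2 hf3 hf4 χ hχ).2 u hu1 (by exact_mod_cast hu2)
  obtain ⟨S, hS1, hS2⟩ := hXd X (Nat.ceil_le.1 h5) (PP X) p1 _ (TF_nonneg κ δ X A B I b) hLS hSC
  have hW0 : (0 : ℝ) ≤ 1 / (Nat.totient (WX X S (PP X)) : ℝ) := by positivity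
  have hL1 : (1 : ℝ) ≤ Real.log X := by linarith
  have hLU : 0 < Real.log X ^ U := by positivity
  have hPSle : Real.log X ^ (2 ^ (κ + 2)) * PS κ X S (PP X) (TF κ δ X A B I b) ≤
      1 / 2 * (X / Real.log X ^ U) := by
    calc Real.log X ^ (2 ^ (κ + 2)) * PS κ X S (PP X) (TF κ δ X A B I b) ≤
          Real.log X ^ (2 ^ (κ + 2)) * (X / Real.log X ^ U') := by gcongr
      _ = X / (Real.log X ^ U * Real.log X) := by
          rw [hU']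
          obtain ⟨M, hM⟩ : ∃ M : ℕ, M = 2 ^ (κ + 2) := ⟨_, rfl⟩
          rw [← hM, pow_succ, pow_add]
          have h0 : Real.log (X : ℝ) ≠ 0 := by linarith
          field_simp
      _ ≤ X / (Real.log X ^ U * 2) := by
          apply div_le_div_of_nonneg_left hX0.le (by positivity)
          gcongr
          linarith
      _ = _ := by
          field_simp
  have hPS1 : PS κ X S (PP X) (TF κ δ X A B I b) ≤ 1 / 2 * (X / Real.log X ^ U) := by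
    refine le_trans ?_ hPSle
    apply le_mul_of_one_le_left (PS_nonneg _ _ _ _ _ (TF_nonneg κ δ X A B I b))
    exact one_le_pow₀ hL1
  refine ⟨S, hS1, ?_, ?_⟩
  · intro r hr
    refine (hXj X h11 A B ?_ hAB hB (PP X) S r hr).trans ?_
    · have : (0 : ℝ) < A := lt_of_lt_of_le (by positivity) hA
      exact_mod_cast this
    rw [div_eq_mul_one_div (X / Real.log X ^ U), mul_comm (X / Real.log X ^ U)]
    apply mul_le_mul_of_nonneg_left _ hW0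
    have g1 : Real.log X ^ (2 ^ (κ + 2)) * PS κ X S (PP X) (TP δ A B) ≤
        Real.log X ^ (2 ^ (κ + 2)) * PS κ X S (PP X) (TF κ δ X A B I b) := by
      apply mul_le_mul_of_nonneg_left _ (by positivity)
      exact PS_mono _ _ _ _ _ _ (TP_le_TF κ δ X A B I b)
    have g2 := hXf X h7
    linarith
  · intro i hi r hr
    refine (hXe X h6 _ _ _ _ (hb i hi) (PP X) S r hr).trans ?_
    rw [div_eq_mul_one_div (X / Real.log X ^ U), mul_comm (X / Real.log X ^ U)]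
    apply mul_le_mul_of_nonneg_left _ hW0
    have g1 : PS κ X S (PP X) (TB κ (RX X) (b i).M₀ (b i).M₁ (b i).Y (b i).T) ≤
        PS κ X S (PP X) (TF κ δ X A B I b) :=
      PS_mono _ _ _ _ _ _ fun f => TB_le_TF κ δ X A B I b f hi
    have g2 := hXg X h8
    linarith

end Pool.Agent.Q117.CR
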