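import Pool.Agent.Q117.CR.Main
import Pool.Agent.H373R2.BH.Local

/-!
# Chen's theorem in the classes modulo the divisors of `W`
-/

set_option autoImplicit false

namespace Pool.Agent.Q117.CR

open Finset Filter
open Pool.Agent.Y843.HS (Pr Pr_mem Pr_prime)
open Pool.Agent.Y843.HG (Z0 SP Adm)
open Pool.Agent.Y843.CH
open Pool.Agent.H378R2 (yy GoodS GoodP WW PW)

theorem prod_dvd_sub {s : Finset ℕ} (hs : ∀ p ∈ s, p.Prime) {q : ℕ} (hq : q ∣ ∏ p ∈ s, p) :
    q = ∏ p ∈ s.filter (fun p => p ∣ q), p := by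
  have hsq : Squarefree (∏ p ∈ s, p) := by
    refine Finset.squarefree_prod_of_pairwise_isCoprime (fun a ha b hb hab => ?_) (fun p hp => (hs p hp).squarefree)
    simp only [Function.onFun, ← Nat.coprime_iff_isRelPrime]
    exact (Nat.coprime_primes (hs a ha) (hs b hb)).2 hab
  have h0 : 0 < ∏ p ∈ s, p := prod_pos fun p hp => (hs p hp).pos
  have h1 : Squarefree q := hsq.squarefree_of_dvd hq
  have h2 : s.filter (fun p => p ∣ q) = q.primeFactors := by
    ext p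
    rw [mem_filter, Nat.mem_primeFactors]
    constructor
    · rintro ⟨h3, h4⟩
      exact ⟨hs p h3, h4, h1.ne_zero⟩
    · rintro ⟨h3, h4, _⟩
      refine ⟨?_, h4⟩
      obtain ⟨r, hr, hd⟩ := (h3.prime.dvd_finsetProd_iff _).1 (h4.trans hq)
      rwa [(Nat.prime_dvd_prime_iff_eq h3 (hs r hr)).1 hd]
  rw [h2, Nat.prod_primeFactors_of_squarefree h1]

open Classical in
/-- the number of the classes modulo a product of primes in a class modulo a divisor -/
theorem cls_card (s : Finset ℕ) (hs : ∀ p ∈ s, p.Prime) (q u : ℕ) (Z : ℕ → Finset ℕ) (hq : q ∣ ∏ p ∈ s, p)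
    (hZ : ∀ p ∈ s, ∀ c ∈ Z p, c < p) :
    (((range (∏ p ∈ s, p)).filter (fun x => ∀ p ∈ s, (p ∣ q → x % p = u % p) ∧ (¬ p ∣ q → x % p ∉ Z p))).card : ℝ) =
      ((∏ p ∈ s, p : ℕ) : ℝ) / q * ∏ p ∈ s.filter (fun p => ¬ p ∣ q), (1 - ((Z p).card : ℝ) / p) := by
  have hQ0 : 0 < ∏ p ∈ s, p := prod_pos fun p hp => (hs p hp).pos
  have hq0 : 0 < q := Nat.pos_of_dvd_of_pos hq hQ0
  have h1 := Pool.Agent.H373R2.BH.crt_count s hs (fun p r => (p ∣ q → r = u % p) ∧ (¬ p ∣ q → r ∉ Z p))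
  rw [h1]
  have h2 : ∀ p ∈ s, (((range p).filter (fun r => (p ∣ q → r = u % p) ∧ (¬ p ∣ q → r ∉ Z p))).card : ℝ) =
      if p ∣ q then 1 else (p : ℝ) * (1 - ((Z p).card : ℝ) / p) := by
    intro p hp
    have hp0 : (0 : ℝ) < p := by exact_mod_cast (hs p hp).pos
    split_ifs with h
    · have : (range p).filter (fun r => (p ∣ q → r = u % p) ∧ (¬ p ∣ q → r ∉ Z p)) = {u % p} := by
        ext r
        rw [mem_filter, mem_range, mem_singleton]
        constructor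
        · intro h3
          exact h3.2.1 h
        · rintro rfl
          exact ⟨Nat.mod_lt _ (hs p hp).pos, fun _ => rfl, fun h3 => absurd h h3⟩
      rw [this, card_singleton, Nat.cast_one]
    · have : (range p).filter (fun r => (p ∣ q → r = u % p) ∧ (¬ p ∣ q → r ∉ Z p)) = (range p) \ (Z p) := by
        ext r
        rw [mem_filter, Finset.mem_sdiff]
        constructor
        · rintro ⟨h3, h4⟩
          exact ⟨h3, h4.2 h⟩
        · rintro ⟨h3, h4⟩
          exact ⟨h3, fun h5 => absurd h5 h, fun _ => h4⟩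
      rw [this, card_sdiff_of_subset (fun c hc => mem_range.2 (hZ p hp c hc)), card_range,
        Nat.cast_sub (by
          have := card_le_card (show Z p ⊆ range p from fun c hc => mem_range.2 (hZ p hp c hc))
          rwa [card_range] at this)]
      field_simp
  rw [Nat.cast_prod, prod_congr rfl h2, prod_ite]
  rw [prod_const_one, one_mul, prod_mul_distrib]
  have h3 : ((∏ p ∈ s, p : ℕ) : ℝ) = (q : ℝ) * ∏ p ∈ s.filter (fun p => ¬ p ∣ q), (p : ℝ) := by
    have h4 := prod_dvd_sub hs hq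
    rw [← prod_filter_mul_prod_filter_not s (fun p => p ∣ q), ← h4]
    push_cast
    ring
  rw [h3]
  have hqr : (q : ℝ) ≠ 0 := by exact_mod_cast hq0.ne'
  field_simp

open Classical in
/-- **Chen's theorem in the classes modulo the divisors of `W`.** -/
theorem classes_of {r : ℕ} {c : ℝ} (hc : 0 ≤ c) {X A B W ps q u N : ℕ} {S : Finset ℕ} {h : ℤ} {Om : ℕ → Finset ℕ}
    {Y : ℕ} (hAB : A ≤ B) (hD : Dat r Y h Om) (hW : W = WX X S ps) (hWY : ∀ p : ℕ, p.Prime → p ∣ W → p ≤ Y)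
    (hmain : ∀ a : ℕ, (∀ l ∈ Pr 0 Y, l ∣ W → a % l ∉ Z0 Om l) →
      c * ((((B : ℝ) - A) / (W : ℝ)) * VD Om (W * ps) Y) ≤ ((GW A B N X Y W a h Om).card : ℝ))
    (hq : q ∣ W) (hu : ∀ l : ℕ, l.Prime → l ∣ q → u % l ∉ Z0 Om l) :
    c * ((((B : ℝ) - A) / (q : ℝ)) * ∏ l ∈ (Pr 0 Y).filter (fun l => ¬ l ∣ q), (1 - ((Z0 Om l).card : ℝ) / l)) ≤
      (((GD N X Y h Om).filter (fun p => (A < p ∧ p ≤ B) ∧ p ≡ u [MOD q])).card : ℝ) := by
  obtain ⟨s, hs⟩ : ∃ s, s = PW ((X : ℝ) ^ (1 / 100 : ℝ)) S ps := ⟨_, rfl⟩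
  have hWs : W = ∏ p ∈ s, p := by rw [hW, hs]; rfl
  have hsp : ∀ p ∈ s, p.Prime := by
    intro p hp
    rw [hs] at hp
    unfold PW at hp
    exact (mem_filter.1 hp).2.1
  have hsd : ∀ p ∈ s, p ∣ W := fun p hp => by rw [hWs]; exact dvd_prod_of_mem _ hp
  have hW0 : 0 < W := by rw [hW]; exact WX_pos _ _ _
  have hWr : (0 : ℝ) < W := by exact_mod_cast hW0
  have hq0 : 0 < q := Nat.pos_of_dvd_of_pos hq hW0
  have hqr : (0 : ℝ) < q := by exact_mod_cast hq0
  have hadm := hD.adm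
  have hlt : ∀ p ∈ s, ∀ c ∈ Z0 Om p, c < p := by
    intro p hp c hc
    exact hadm.lt (Pr_mem.2 ⟨⟨(hsp p hp).pos, hWY p (hsp p hp) (hsd p hp)⟩, hsp p hp⟩) c hc
  have hcard := cls_card s hsp q u (Z0 Om) (hWs ▸ hq) hlt
  rw [← hWs] at hcard
  set Cl := (range W).filter (fun x => ∀ p ∈ s, (p ∣ q → x % p = u % p) ∧ (¬ p ∣ q → x % p ∉ Z0 Om p)) with hCl
  have hcl : ∀ a ∈ Cl, c * ((((B : ℝ) - A) / (W : ℝ)) * VD Om (W * ps) Y) ≤ ((GW A B N X Y W a h Om).card : ℝ) := by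
    intro a ha
    apply hmain
    intro l hl hlW
    have hlp := Pr_prime hl
    have hls : l ∈ s := by
      rw [hWs] at hlW
      obtain ⟨r', hr', hd⟩ := (hlp.prime.dvd_finsetProd_iff _).1 hlW
      rwa [(Nat.prime_dvd_prime_iff_eq hlp (hsp r' hr')).1 hd]
    have h1 := (mem_filter.1 ha).2 l hls
    by_cases hlq : l ∣ q
    · rw [h1.1 hlq]
      exact hu l hlp hlq
    · exact h1.2 hlq
  have hmod : ∀ a ∈ Cl, a ≡ u [MOD q] := by
    intro a ha
    have hco : ∀ T : Finset ℕ, T ⊆ s.filter (fun p => p ∣ q) → a ≡ u [MOD ∏ p ∈ T, p] := by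
      intro T
      induction T using Finset.induction_on with
      | empty => intro _; rw [prod_empty]; exact Nat.modEq_one
      | insert p T hpT ih =>
        intro hT
        rw [prod_insert hpT]
        have hpm := hT (mem_insert_self p T)
        rw [mem_filter] at hpm
        rw [← Nat.modEq_and_modEq_iff_modEq_mul]
        · exact ⟨((mem_filter.1 ha).2 p hpm.1).1 hpm.2, ih fun x hx => hT (mem_insert_of_mem hx)⟩
        · apply Nat.Coprime.prod_right
          intro x hx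
          have hxm := hT (mem_insert_of_mem hx)
          rw [mem_filter] at hxm
          exact (Nat.coprime_primes (hsp p hpm.1) (hsp x hxm.1)).2 fun h => hpT (h ▸ hx)
    have h4 := prod_dvd_sub hsp (hWs ▸ hq)
    rw [h4]
    exact hco _ (Subset.refl _)
  have hdis : ((Cl.biUnion (fun a => GW A B N X Y W a h Om)).card : ℝ) = ∑ a ∈ Cl, ((GW A B N X Y W a h Om).card : ℝ) := by
    rw [card_biUnion, Nat.cast_sum]
    intro a ha b hb hab
    rw [Function.onFun, disjoint_left]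
    intro p hp hp'
    unfold GW at hp hp'
    rw [mem_filter] at hp hp'
    apply hab
    have h1 : a ≡ b [MOD W] := hp.2.2.symm.trans hp'.2.2
    exact Nat.ModEq.eq_of_lt_of_lt h1 (mem_range.1 (mem_filter.1 ha).1) (mem_range.1 (mem_filter.1 hb).1)
  have hsub : Cl.biUnion (fun a => GW A B N X Y W a h Om) ⊆
      (GD N X Y h Om).filter (fun p => (A < p ∧ p ≤ B) ∧ p ≡ u [MOD q]) := by
    intro p hp
    rw [mem_biUnion] at hp
    obtain ⟨a, ha, hp⟩ := hp
    unfold GW at hp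
    rw [mem_filter] at hp ⊢
    exact ⟨hp.1, hp.2.1, (hp.2.2.of_dvd hq).trans (hmod a ha)⟩
  have h5 : (Cl.card : ℝ) * (c * ((((B : ℝ) - A) / (W : ℝ)) * VD Om (W * ps) Y)) ≤
      (((GD N X Y h Om).filter (fun p => (A < p ∧ p ≤ B) ∧ p ≡ u [MOD q])).card : ℝ) := by
    calc (Cl.card : ℝ) * (c * ((((B : ℝ) - A) / (W : ℝ)) * VD Om (W * ps) Y))
        = ∑ a ∈ Cl, c * ((((B : ℝ) - A) / (W : ℝ)) * VD Om (W * ps) Y) := by rw [sum_const, nsmul_eq_mul]
      _ ≤ ∑ a ∈ Cl, ((GW A B N X Y W a h Om).card : ℝ) := sum_le_sum hcl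
      _ = ((Cl.biUnion (fun a => GW A B N X Y W a h Om)).card : ℝ) := hdis.symm
      _ ≤ _ := by exact_mod_cast card_le_card hsub
  refine le_trans ?_ h5
  rw [hcard]
  have hBA : (0 : ℝ) ≤ (B : ℝ) - A := by
    have : (A : ℝ) ≤ B := by exact_mod_cast hAB
    linarith
  have hf : ∀ p ∈ Pr 0 Y, 0 ≤ 1 - ((Z0 Om p).card : ℝ) / p ∧ 1 - ((Z0 Om p).card : ℝ) / p ≤ 1 := by
    intro p hp
    have h2 : (0 : ℝ) < p := by exact_mod_cast (Pr_prime hp).pos
    have h3 := hadm.card hp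
    have h4 := (hadm p hp).2.1
    constructor
    · rw [sub_nonneg, div_le_one h2, h3]
      exact_mod_cast h4.le
    · have : (0 : ℝ) ≤ ((Z0 Om p).card : ℝ) / p := by positivity
      linarith
  have hprod : ∏ l ∈ (Pr 0 Y).filter (fun l => ¬ l ∣ q), (1 - ((Z0 Om l).card : ℝ) / l) ≤
      (∏ p ∈ s.filter (fun p => ¬ p ∣ q), (1 - ((Z0 Om p).card : ℝ) / p)) * VD Om (W * ps) Y := by
    unfold VD
    have hdj : Disjoint (s.filter (fun p => ¬ p ∣ q)) ((Pr 0 Y).filter (fun l => ¬ l ∣ W * ps)) := by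
      rw [disjoint_left]
      intro p hp hp'
      exact (mem_filter.1 hp').2 (Dvd.dvd.mul_right (hsd p (mem_filter.1 hp).1) ps)
    rw [← prod_union hdj]
    have hsT : s.filter (fun p => ¬ p ∣ q) ∪ (Pr 0 Y).filter (fun l => ¬ l ∣ W * ps) ⊆
        (Pr 0 Y).filter (fun l => ¬ l ∣ q) := by
      intro p hp
      rw [mem_union] at hp
      rw [mem_filter]
      rcases hp with hp | hp
      · rw [mem_filter] at hp
        exact ⟨Pr_mem.2 ⟨⟨(hsp p hp.1).pos, hWY p (hsp p hp.1) (hsd p hp.1)⟩, hsp p hp.1⟩, hp.2⟩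
      · rw [mem_filter] at hp
        exact ⟨hp.1, fun hd => hp.2 (Dvd.dvd.mul_right (hd.trans hq) ps)⟩
    rw [← prod_sdiff hsT]
    apply mul_le_of_le_one_left
    · exact prod_nonneg fun p hp => (hf p (mem_filter.1 (hsT hp)).1).1
    · exact prod_le_one (fun p hp => (hf p (mem_filter.1 (Finset.mem_sdiff.1 hp).1).1).1)
        fun p hp => (hf p (mem_filter.1 (Finset.mem_sdiff.1 hp).1).1).2
  have hprod0 : 0 ≤ (((B : ℝ) - A) / (q : ℝ)) := div_nonneg hBA hqr.le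
  calc c * ((((B : ℝ) - A) / (q : ℝ)) * ∏ l ∈ (Pr 0 Y).filter (fun l => ¬ l ∣ q), (1 - ((Z0 Om l).card : ℝ) / l))
      ≤ c * ((((B : ℝ) - A) / (q : ℝ)) * ((∏ p ∈ s.filter (fun p => ¬ p ∣ q), (1 - ((Z0 Om p).card : ℝ) / p)) *
        VD Om (W * ps) Y)) := by
        apply mul_le_mul_of_nonneg_left _ hc
        exact mul_le_mul_of_nonneg_left hprod hprod0
    _ = _ := by
        field_simp

end Pool.Agent.Q117.CR
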