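import Pool.Agent.Q117.CR.Typ

/-!
# Size conditions, the modulus, the bad primes
-/

set_option autoImplicit false

namespace Pool.Agent.Q117.CR

open Finset Filter Pool.Agent.W23.DC Pool.Agent.Y660.RP
open Pool.Agent.Y843.HS (Pr VV Pr_mem Pr_prime)
open Pool.Agent.Y843.QD (vZ dvd_vZ)
open Pool.Agent.Y843.HG (Adm Z0 SP)
open Pool.Agent.Y843.CH
open Pool.Agent.Y840.CI
open Pool.Agent.H378R2 (yy z2 GoodS GoodP PW WW)

theorem ev_cond (t Z K U : ℕ) (ht : 1 ≤ t) (e0 : ℝ) (he0 : 0 < e0) (CJ : ℝ) : ∃ X0 : ℕ, ∀ X : ℕ, X0 ≤ X →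
    3 ≤ Real.log X ∧ Real.exp (ll X ^ 6) ≤ (X : ℝ) ^ (1 / (t : ℝ)) ∧
    Z ≤ z2 ((X : ℝ) ^ (1 / 100 : ℝ)) ∧ Z ≤ yy ((X : ℝ) ^ (1 / 100 : ℝ)) ∧
    (yy ((X : ℝ) ^ (1 / 100 : ℝ)) : ℝ) ≤ (X : ℝ) ^ (1 / (t : ℝ)) ∧
    (yy ((X : ℝ) ^ (1 / 100 : ℝ)) : ℝ) ≤ Real.log X ∧ 1 ≤ yy ((X : ℝ) ^ (1 / 100 : ℝ)) ∧
    (X : ℝ) ^ (51 / 100 : ℝ) ≤ e0 * X / Real.log X ^ K ∧ 2 ≤ (X : ℝ) ^ (1 / 1000 : ℝ) ∧
    (X : ℝ) ^ (1 / 50000 : ℝ) ≤ X / Real.log X ^ U ∧ 2 * (CJ * Real.log X + 1) ≤ Real.log X ^ 2 ∧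
    (X : ℝ) ^ (1 / 4 : ℝ) + 1 ≤ (X : ℝ) ^ (1 / 2 : ℝ) := by
  have ht0 : (0 : ℝ) < t := by exact_mod_cast ht
  have hnat := tendsto_natCast_atTop_atTop (R := ℝ)
  have hlog : Tendsto (fun X : ℝ => Real.log X) atTop atTop := Real.tendsto_log_atTop
  have hll : Tendsto (fun X : ℝ => Real.log (Real.log X)) atTop atTop := hlog.comp hlog
  have c1 := hlog.eventually (eventually_ge_atTop (max 3 (max (1 / (2 * e0)) (2 * CJ + 2))))
  have c2 : ∀ᶠ X : ℝ in atTop, Real.log (Real.log X) ^ 6 ≤ 1 / t * Real.log X := by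
    have h1 := (Real.isLittleO_pow_log_id_atTop (n := 6)).bound (show (0 : ℝ) < 1 / t by positivity)
    have h2 := hlog.eventually (h1.and (eventually_ge_atTop 1))
    filter_upwards [h2] with x hx
    obtain ⟨hx1, hx2⟩ := hx
    have h3 : 0 ≤ Real.log (Real.log x) := Real.log_nonneg hx2
    simp only [id] at hx1
    rwa [Real.norm_of_nonneg (by positivity), Real.norm_of_nonneg (by linarith)] at hx1
  have c3 := hll.eventually (eventually_ge_atTop ((Z : ℝ) + Real.log 100 + 1))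
  have c4 := hlog.eventually (eventually_ge_atTop (100000 * ((Z : ℝ) + 2)))
  have c5 : ∀ᶠ X : ℝ in atTop, ‖Real.log X‖ ≤ 1 * ‖X ^ (1 / (t : ℝ))‖ :=
    (isLittleO_log_rpow_atTop (by positivity)).bound one_pos
  have c6 : ∀ᶠ X : ℝ in atTop, (2 : ℝ) ≤ X ^ (1 / 1000 : ℝ) :=
    (tendsto_rpow_atTop (by norm_num)).eventually (eventually_ge_atTop _)
  have c7 : ∀ᶠ X : ℝ in atTop, (2 : ℝ) ≤ X ^ (1 / 4 : ℝ) :=
    (tendsto_rpow_atTop (by norm_num)).eventually (eventually_ge_atTop _)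
  have call := hnat.eventually (c1.and (c2.and (c3.and (c4.and (c5.and (c6.and (c7.and
    (eventually_ge_atTop 1))))))))
  obtain ⟨X1, hX1⟩ := eventually_atTop.1 call
  obtain ⟨X2, hX2⟩ := ev_pow_log (51 / 100) (by norm_num) (K + 1)
  obtain ⟨X3, hX3⟩ := ev_pow_log (1 / 50000) (by norm_num) U
  refine ⟨max X1 (max X2 X3), fun X hX => ?_⟩
  obtain ⟨d1, d2, d3, d4, d5, d6, d7, d8⟩ := hX1 X ((le_max_left _ _).trans hX)
  have e2 := hX2 X (((le_max_left _ _).trans (le_max_right _ _)).trans hX)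
  have e3 := hX3 X (((le_max_right _ _).trans (le_max_right _ _)).trans hX)
  have hX0 : (0 : ℝ) < X := by linarith
  have d11 : 3 ≤ Real.log X := (le_max_left _ _).trans d1
  have d12 : 1 / (2 * e0) ≤ Real.log X := ((le_max_left _ _).trans (le_max_right _ _)).trans d1
  have d13 : 2 * CJ + 2 ≤ Real.log X := ((le_max_right _ _).trans (le_max_right _ _)).trans d1
  have hL0 : 0 < Real.log X := by linarith
  have hX' : Real.log ((X : ℝ) ^ (1 / 100 : ℝ)) = 1 / 100 * Real.log X := Real.log_rpow hX0 _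
  have hyle : (yy ((X : ℝ) ^ (1 / 100 : ℝ)) : ℝ) ≤ Real.log X := by
    unfold yy
    rw [hX']
    refine (Nat.floor_le (by positivity)).trans ?_
    linarith
  have hyge : (Z : ℝ) + 1 ≤ yy ((X : ℝ) ^ (1 / 100 : ℝ)) := by
    unfold yy
    rw [hX']
    have := (Nat.lt_floor_add_one (1 / 100 * Real.log X / 1000)).le
    linarith
  have hygen : Z + 1 ≤ yy ((X : ℝ) ^ (1 / 100 : ℝ)) := by exact_mod_cast hyge
  refine ⟨d11, ?_, ?_, by omega, ?_, hyle, by omega, ?_, d6, ?_, ?_, ?_⟩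
  · rw [Real.rpow_def_of_pos hX0]
    apply Real.exp_le_exp.2
    unfold ll
    linarith
  · unfold z2
    rw [hX', Real.log_mul (by norm_num) hL0.ne']
    have h1 : Real.log (1 / 100 : ℝ) = - Real.log 100 := by rw [one_div, Real.log_inv]
    rw [h1]
    have h2 : (Z : ℝ) + 1 ≤ -Real.log 100 + Real.log (Real.log X) := by linarith
    have h3 : (1 : ℝ) ≤ -Real.log 100 + Real.log (Real.log X) := by
      have : (0 : ℝ) ≤ Z := Nat.cast_nonneg _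
      linarith
    have h4 : (Z : ℝ) ≤ (-Real.log 100 + Real.log (Real.log X)) ^ 3 := by
      calc (Z : ℝ) ≤ (-Real.log 100 + Real.log (Real.log X)) ^ 1 := by rw [pow_one]; linarith
        _ ≤ _ := pow_le_pow_right₀ h3 (by norm_num)
    exact_mod_cast h4.trans (Nat.le_ceil _)
  · refine hyle.trans ?_
    rw [one_mul, Real.norm_of_nonneg hL0.le, Real.norm_of_nonneg (by positivity)] at d5
    exact d5
  · refine e2.trans ?_
    rw [pow_succ, mul_div_assoc', div_le_div_iff₀ (by positivity) (by positivity)]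
    rw [div_le_iff₀ (by positivity)] at d12
    have h1 : 0 < Real.log X ^ K := by positivity
    have h2 : 0 < (X : ℝ) * Real.log X ^ K := by positivity
    nlinarith
  · refine e3.trans ?_
    have : 0 ≤ (X : ℝ) / Real.log X ^ U := by positivity
    linarith
  · nlinarith
  · have h1 : (X : ℝ) ^ (1 / 2 : ℝ) = (X : ℝ) ^ (1 / 4 : ℝ) * (X : ℝ) ^ (1 / 4 : ℝ) := by
      rw [← Real.rpow_add hX0]
      norm_num
    rw [h1]
    nlinarith

theorem prod_tele (y : ℕ) (hy : 1 ≤ y) : ∏ n ∈ Icc 2 y, ((n : ℝ) / ((n : ℝ) - 1)) = y := by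
  induction y with
  | zero => omega
  | succ y ih =>
    rcases Nat.eq_zero_or_pos y with h0 | h0
    · subst h0
      simp
    · rw [Finset.prod_Icc_succ_top (by omega), ih h0]
      push_cast
      have h1 : (y : ℝ) ≠ 0 := by exact_mod_cast h0.ne'
      rw [add_sub_cancel_right, mul_div_assoc', mul_div_cancel_left₀ _ h1]

/-- `W ≤ log X · φ(W)` -/
theorem W_phi {X : ℝ} {S : Finset ℕ} {ps : ℕ} (hy : 1 ≤ yy (X ^ (1 / 100 : ℝ)))
    (hL : (yy (X ^ (1 / 100 : ℝ)) : ℝ) ≤ Real.log X) :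
    (WX X S ps : ℝ) ≤ Real.log X * (Nat.totient (WX X S ps) : ℝ) := by
  unfold WX WW
  set P := PW (X ^ (1 / 100 : ℝ)) S ps with hP
  have hp : ∀ p ∈ P, p.Prime := by
    intro p hp
    rw [hP] at hp
    unfold PW at hp
    exact (mem_filter.1 hp).2.1
  have hsub : P ⊆ Icc 2 (yy (X ^ (1 / 100 : ℝ))) := by
    intro p hpp
    have h1 := (hp p hpp).two_le
    rw [hP] at hpp
    unfold PW at hpp
    rw [mem_filter, mem_Icc] at hpp
    exact mem_Icc.2 ⟨h1, hpp.1.2⟩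
  rw [totient_prodW hp]
  push_cast
  have hpos : 0 < ∏ p ∈ P, ((p : ℝ) - 1) := by
    apply prod_pos
    intro p hpp
    have : (1 : ℝ) < p := by exact_mod_cast (hp p hpp).one_lt
    linarith
  have h1 : ∏ p ∈ P, (p : ℝ) = (∏ p ∈ P, ((p : ℝ) / ((p : ℝ) - 1))) * ∏ p ∈ P, ((p : ℝ) - 1) := by
    rw [← prod_mul_distrib]
    apply prod_congr rfl
    intro p hpp
    have : (1 : ℝ) < p := by exact_mod_cast (hp p hpp).one_lt
    have : (p : ℝ) - 1 ≠ 0 := by linarith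
    field_simp
  rw [h1]
  apply mul_le_mul_of_nonneg_right _ hpos.le
  have h2 : ∏ p ∈ P, ((p : ℝ) / ((p : ℝ) - 1)) ≤ ∏ p ∈ Icc 2 (yy (X ^ (1 / 100 : ℝ))), ((p : ℝ) / ((p : ℝ) - 1)) := by
    have key : ∀ i ∈ Icc 2 (yy (X ^ (1 / 100 : ℝ))), (1 : ℝ) ≤ (i : ℝ) / ((i : ℝ) - 1) := by
      intro i hi
      have : (2 : ℝ) ≤ i := by exact_mod_cast (mem_Icc.1 hi).1
      rw [le_div_iff₀ (by linarith)]
      linarith
    rw [← prod_sdiff hsub]
    apply le_mul_of_one_le_left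
    · exact prod_nonneg fun i hi => by linarith [key i (hsub hi)]
    · exact Finset.one_le_prod fun i hi => key i (mem_sdiff.1 hi).1
  refine h2.trans ?_
  rw [prod_tele _ hy]
  exact hL

/-- the prime factors of the big modulus -/
theorem prime_dvd_WX {X : ℝ} {S : Finset ℕ} {ps q : ℕ} (hq : q.Prime) :
    q ∣ WX X S ps ↔ q ≤ yy (X ^ (1 / 100 : ℝ)) ∧ q ∉ S ∧ q ≠ ps := by
  unfold WX WW
  rw [hq.prime.dvd_finsetProd_iff]
  constructor
  · rintro ⟨p, hp, hd⟩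
    unfold PW at hp
    rw [mem_filter, mem_Icc] at hp
    rw [(Nat.prime_dvd_prime_iff_eq hq hp.2.1).1 hd]
    exact ⟨hp.1.2, hp.2.2⟩
  · rintro ⟨h1, h2, h3⟩
    refine ⟨q, ?_, dvd_rfl⟩
    unfold PW
    rw [mem_filter, mem_Icc]
    exact ⟨⟨hq.one_lt.le, h1⟩, hq, h2, h3⟩

/-- the small primes divide the big modulus -/
theorem small_dvd {X : ℝ} {S : Finset ℕ} {ps q Z : ℕ} (hq : q.Prime) (hqZ : q ≤ Z)
    (hS : GoodS (X ^ (1 / 100 : ℝ)) S) (hps : GoodP Z ps) (hz : Z ≤ z2 (X ^ (1 / 100 : ℝ)))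
    (hy : Z ≤ yy (X ^ (1 / 100 : ℝ))) : q ∣ WX X S ps := by
  rw [prime_dvd_WX hq]
  refine ⟨hqZ.trans hy, fun h => ?_, fun h => ?_⟩
  · have := (hS.1 q h).2.1
    omega
  · rcases hps with h1 | ⟨_, h1⟩
    · rw [h, h1] at hq
      exact Nat.not_prime_one hq
    · omega

theorem ps_not_dvd {X : ℝ} {S : Finset ℕ} {ps : ℕ} (hp : ps.Prime) : ¬ ps ∣ WX X S ps := by
  rw [prime_dvd_WX hp]
  exact fun h => h.2.2 rfl

open Classical in
/-- the number of the bad primes -/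
theorem BW_card {A B N X W a : ℕ} {h : ℤ} (hB : B ≤ X) (hW : 0 < W)
    (hWN : ∀ q : ℕ, q.Prime → q ∣ W → q ≤ lo N (1 / 4))
    (hN : 2 ≤ lo N (1 / 4)) (hN2 : lo N (1 / 4) ≤ N) :
    ((BW A B N W a h).card : ℝ) ≤ (X : ℝ) / W / lo N (1 / 4) + N := by
  set k := lo N (1 / 4) with hk
  have hsub : BW A B N W a h ⊆ ((Ioc k N).filter Nat.Prime).biUnion (fun q => (Ioc 0 (0 + X)).filter
      (fun p => p ≡ a [MOD W] ∧ p ≡ hr h (q ^ 2) [MOD (q ^ 2)])) := by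
    intro p hp
    unfold BW at hp
    rw [mem_filter, mem_PNX] at hp
    obtain ⟨⟨⟨h1, h2⟩, h3⟩, ha, q, hq, hqp, hd⟩ := hp
    rw [mem_biUnion]
    refine ⟨q, mem_filter.2 ⟨hq, hqp⟩, ?_⟩
    rw [mem_filter, mem_Ioc]
    refine ⟨⟨h3.pos, by omega⟩, ha, ?_⟩
    have hq0 : 0 < q ^ 2 := pow_pos hqp.pos 2
    rw [natAbs_dvd_iff h p _ hq0] at hd
    unfold Nat.ModEq
    rw [hd, Nat.mod_mod]
  have h1 : ((BW A B N W a h).card : ℝ) ≤ ∑ q ∈ (Ioc k N).filter Nat.Prime,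
      ((((Ioc 0 (0 + X)).filter (fun p => p ≡ a [MOD W] ∧ p ≡ hr h (q ^ 2) [MOD (q ^ 2)])).card : ℕ) : ℝ) := by
    have := (card_le_card hsub).trans card_biUnion_le
    exact_mod_cast this
  refine h1.trans ?_
  have h2 : ∀ q ∈ (Ioc k N).filter Nat.Prime,
      ((((Ioc 0 (0 + X)).filter (fun p => p ≡ a [MOD W] ∧ p ≡ hr h (q ^ 2) [MOD (q ^ 2)])).card : ℕ) : ℝ) ≤
      (X : ℝ) / W * ((q : ℝ) ^ 2)⁻¹ + 1 := by
    intro q hq
    rw [mem_filter, mem_Ioc] at hq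
    have hq0 : 0 < q ^ 2 := pow_pos hq.2.pos 2
    have hcop : W.Coprime (q ^ 2) := by
      apply Nat.Coprime.pow_right
      apply Nat.Coprime.symm
      rw [hq.2.coprime_iff_not_dvd]
      intro hd
      have := hWN q hq.2 hd
      omega
    obtain ⟨c, hc1, hc2⟩ := Nat.chineseRemainder hcop a (hr h (q ^ 2))
    have h3 := Pool.Agent.Y843.QD.card_class 0 X (W * q ^ 2) c (Nat.mul_pos hW hq0)
    have h4 := (abs_le.1 h3).2
    have h5 : (Ioc 0 (0 + X)).filter (fun p => p ≡ a [MOD W] ∧ p ≡ hr h (q ^ 2) [MOD (q ^ 2)]) ⊆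
        (Ioc 0 (0 + X)).filter (fun p => p ≡ c [MOD (W * q ^ 2)]) := by
      intro p hp
      rw [mem_filter] at hp ⊢
      refine ⟨hp.1, ?_⟩
      rw [← Nat.modEq_and_modEq_iff_modEq_mul hcop]
      exact ⟨hp.2.1.trans hc1.symm, hp.2.2.trans hc2.symm⟩
    have h6 : (((Ioc 0 (0 + X)).filter (fun p => p ≡ a [MOD W] ∧ p ≡ hr h (q ^ 2) [MOD (q ^ 2)])).card : ℝ) ≤
        (((Ioc 0 (0 + X)).filter (fun p => p ≡ c [MOD (W * q ^ 2)])).card : ℝ) := by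
      exact_mod_cast card_le_card h5
    have h7 : (X : ℝ) / ((W * q ^ 2 : ℕ) : ℝ) = (X : ℝ) / W * ((q : ℝ) ^ 2)⁻¹ := by
      push_cast
      rw [← div_div, div_eq_mul_inv ((X : ℝ) / W)]
    rw [h7] at h4
    linarith
  refine (sum_le_sum h2).trans ?_
  have h2' : ∑ q ∈ (Ioc k N).filter Nat.Prime, ((X : ℝ) / W * ((q : ℝ) ^ 2)⁻¹ + 1) ≤
      ∑ q ∈ Ioc k N, ((X : ℝ) / W * ((q : ℝ) ^ 2)⁻¹ + 1) :=
    sum_le_sum_of_subset_of_nonneg (filter_subset _ _) fun q _ _ => by positivity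
  refine h2'.trans ?_
  rw [sum_add_distrib, ← mul_sum, sum_const, Nat.card_Ioc, nsmul_eq_mul, mul_one]
  have h3 := sum_Ioc_inv_sq_le_sub (α := ℝ) (k := k) (n := N) (by omega) hN2
  have h4 : (0 : ℝ) ≤ (N : ℝ)⁻¹ := by positivity
  have h5 : (X : ℝ) / W * ∑ i ∈ Ioc k N, ((i : ℝ) ^ 2)⁻¹ ≤ (X : ℝ) / W * (k : ℝ)⁻¹ := by
    apply mul_le_mul_of_nonneg_left _ (by positivity)
    linarith
  have h6 : ((N - k : ℕ) : ℝ) ≤ N := by exact_mod_cast Nat.sub_le _ _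
  rw [div_eq_mul_inv ((X : ℝ) / W)]
  linarith

/-- `VD` is at least the full product -/
theorem VV_le_VD {r Y : ℕ} {Om : ℕ → Finset ℕ} (hOm : Adm r Y Om) (D : ℕ) : VV (Z0 Om) 0 Y ≤ VD Om D Y := by
  unfold VV VD
  have h0 : ∀ p ∈ Pr 0 Y, 0 ≤ 1 - ((Z0 Om p).card : ℝ) / p ∧ 1 - ((Z0 Om p).card : ℝ) / p ≤ 1 := by
    intro p hp
    have h2 : (0 : ℝ) < p := by exact_mod_cast (Pr_prime hp).pos
    have h3 := hOm.card hp
    have h4 := (hOm p hp).2.1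
    constructor
    · rw [sub_nonneg, div_le_one h2, h3]
      exact_mod_cast h4.le
    · have : 0 ≤ ((Z0 Om p).card : ℝ) / p := div_nonneg (Nat.cast_nonneg _) h2.le
      linarith
  rw [← Finset.prod_filter_mul_prod_filter_not (Pr 0 Y) (fun q => ¬ q ∣ D)]
  apply mul_le_of_le_one_right
  · exact Finset.prod_nonneg fun p hp => (h0 p (mem_filter.1 hp).1).1
  · exact Finset.prod_le_one (fun p hp => (h0 p (mem_filter.1 hp).1).1)
      fun p hp => (h0 p (mem_filter.1 hp).1).2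

theorem VD_nonneg {r Y : ℕ} {Om : ℕ → Finset ℕ} (hOm : Adm r Y Om) (D : ℕ) : 0 ≤ VD Om D Y :=
  (VV_nonneg hOm).trans (VV_le_VD hOm D)

end Pool.Agent.Q117.CR
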