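import Pool.Agent.Q117.CR.Bvr

/-!
# The remainders of the sieve problems modulo `W`
-/

set_option autoImplicit false

namespace Pool.Agent.Q117.CR

open Finset Filter Pool.Agent.W23.DC Pool.Agent.Y660.RP
open Pool.Agent.Y843.HS (Pr Pr_mem Pr_prime)
open Pool.Agent.Y843.QD (vZ dvd_vZ)
open Pool.Agent.Y843.HG (Adm Z0)
open Pool.Agent.Y843.CH
open Pool.Agent.H378R2.LSBV (QQ mem_QQ)

open Classical in
theorem rr_oneW {ι : Type} (Ω : Finset ι) (w : ι → ℕ) (z N m₀ a : ℕ) (cl : ℕ → Finset ℕ)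
    (hcl : ∀ p ∈ Pr z N, ∀ c ∈ cl p, c < p ∧ c ≠ 0) (hm₀ : 0 < m₀)
    (ha : a.Coprime m₀) (T E : ℝ) (d : ℕ) (hd : Squarefree d)
    (hdp : ∀ p ∈ d.primeFactors, p ∈ Pr z N) (hcop : ∀ p ∈ d.primeFactors, ¬ p ∣ m₀)
    (hE : ∀ c : ℕ, c < m₀ * d → c.Coprime (m₀ * d) →
      |((Ω.filter (fun i => w i ≡ c [MOD (m₀ * d)])).card : ℝ) -
        T / (Nat.totient (m₀ * d) : ℝ)| ≤ E) :
    Rr (Ω.filter (fun i => w i ≡ a [MOD m₀])) (fun i => vZ cl z N (w i)) (gC cl)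
      (T / (Nat.totient m₀ : ℝ)) d ≤ (∏ p ∈ d.primeFactors, ((cl p).card : ℝ)) * E := by
  have h := cls Ω w d.primeFactors (fun p hp => Nat.prime_of_mem_primeFactors hp) cl
    (fun p hp => hcl p (hdp p hp)) m₀ a hm₀ ha (fun p hp => hcop p hp) T E
  rw [Nat.prod_primeFactors_of_squarefree hd] at h
  have h1 := h hE
  unfold Rr
  rw [filter_filter]
  have e : (Ω.filter (fun i => w i ≡ a [MOD m₀] ∧ d ∣ vZ cl z N (w i))) =
      (Ω.filter (fun i => w i ≡ a [MOD m₀] ∧ ∀ p ∈ d.primeFactors, w i % p ∈ cl p)) := by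
    apply filter_congr
    intro i _
    rw [dvd_vZ_sq hd hdp]
  rw [e]
  exact h1

/-- classes, empty for the primes that divide `D` -/
structure ClD (κ z N D : ℕ) (cl : ℕ → Finset ℕ) : Prop extends Cl κ z N cl where
  emp : ∀ p ∈ Pr z N, p ∣ D → cl p = ∅

open Classical in
theorem rr_sumW {ι : Type} (Ω : Finset ι) (w : ι → ℕ) (κ z N W ps a : ℕ)
    (cl : ℕ → Finset ℕ) (hcl : ClD κ z N (W * ps) cl) (hW : 0 < W)
    (ha : a.Coprime W) (T : ℝ) (E : ℕ → ℝ)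
    (hE0 : ∀ d, 0 ≤ E d) (D : ℝ) (hD0 : 0 ≤ D) (hD : D ≤ N) (R : ℕ) (hR : ⌊D⌋₊ ≤ R)
    (hE : ∀ d ∈ QQ W ps R, ∀ c : ℕ, c < W * d → c.Coprime (W * d) →
      |((Ω.filter (fun i => w i ≡ c [MOD (W * d)])).card : ℝ) - T / (Nat.totient (W * d) : ℝ)| ≤ E d) :
    ∑ d ∈ Lv' z D, Rr (Ω.filter (fun i => w i ≡ a [MOD W])) (fun i => vZ cl z N (w i)) (gC cl)
      (T / (Nat.totient W : ℝ)) d ≤
    ∑ d ∈ QQ W ps R, (κ : ℝ) ^ d.primeFactors.card * E d := by
  have hmem : ∀ d ∈ Lv' z D, (1 ≤ d ∧ d ≤ ⌊D⌋₊) ∧ Squarefree d ∧ ∀ p ∈ d.primeFactors, p ∈ Pr z N := by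
    intro d hd
    unfold Lv' at hd
    rw [mem_filter, mem_Icc] at hd
    have h1 : (d : ℝ) ≤ D := (Nat.le_floor_iff hD0).1 hd.1.2
    refine ⟨hd.1, hd.2.1, fun p hp => ?_⟩
    rw [Pr_mem]
    refine ⟨⟨hd.2.2 p hp, ?_⟩, Nat.prime_of_mem_primeFactors hp⟩
    have h2 : p ≤ d := Nat.le_of_mem_primeFactors hp
    have h3 : (p : ℝ) ≤ N := by
      have : (p : ℝ) ≤ d := by exact_mod_cast h2
      linarith
    exact_mod_cast h3
  -- the moduli with a common factor contribute nothing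
  have hzero : ∀ d ∈ Lv' z D, ¬ d.Coprime (W * ps) →
      Rr (Ω.filter (fun i => w i ≡ a [MOD W])) (fun i => vZ cl z N (w i)) (gC cl)
        (T / (Nat.totient W : ℝ)) d = 0 := by
    intro d hd hnc
    obtain ⟨⟨h1, h2⟩, h3, h4⟩ := hmem d hd
    obtain ⟨q, hq, hqd⟩ := Nat.exists_prime_and_dvd hnc
    have hq1 : q ∣ d := hqd.trans (Nat.gcd_dvd_left _ _)
    have hq2 : q ∣ W * ps := hqd.trans (Nat.gcd_dvd_right _ _)
    have hqm : q ∈ d.primeFactors := Nat.mem_primeFactors.2 ⟨hq, hq1, by omega⟩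
    have he := hcl.emp q (h4 q hqm) hq2
    unfold Rr
    have e1 : (Ω.filter (fun i => w i ≡ a [MOD W])).filter (fun i => d ∣ vZ cl z N (w i)) = ∅ := by
      rw [filter_eq_empty_iff]
      intro i _ hdv
      have := ((dvd_vZ hq).1 (hq1.trans hdv)).2
      rw [he] at this
      simp at this
    have e2 : gp (gC cl) d = 0 := by
      show ∏ p ∈ d.primeFactors, gC cl p = 0
      apply prod_eq_zero hqm
      unfold gC
      rw [he]
      simp
    rw [e1, e2]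
    simp
  rw [← sum_filter_add_sum_filter_not (Lv' z D) (fun d => d.Coprime (W * ps))]
  have h0 : ∑ d ∈ (Lv' z D).filter (fun d => ¬ d.Coprime (W * ps)),
      Rr (Ω.filter (fun i => w i ≡ a [MOD W])) (fun i => vZ cl z N (w i)) (gC cl)
        (T / (Nat.totient W : ℝ)) d = 0 := by
    apply sum_eq_zero
    intro d hd
    rw [mem_filter] at hd
    exact hzero d hd.1 hd.2
  rw [h0, add_zero]
  have hQ : ∀ d ∈ (Lv' z D).filter (fun d => d.Coprime (W * ps)), d ∈ QQ W ps R := by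
    intro d hd
    rw [mem_filter] at hd
    obtain ⟨⟨h1, h2⟩, h3, h4⟩ := hmem d hd.1
    exact mem_QQ.2 ⟨⟨h1, h2.trans hR⟩, h3, hd.2⟩
  refine le_trans (sum_le_sum (g := fun d => (κ : ℝ) ^ d.primeFactors.card * E d) ?_)
    (sum_le_sum_of_subset_of_nonneg (fun d hd => hQ d hd) fun d _ _ => mul_nonneg (by positivity) (hE0 d))
  intro d hd
  have hdQ := hQ d hd
  rw [mem_filter] at hd
  obtain ⟨⟨h1, h2⟩, h3, h4⟩ := hmem d hd.1
  have hcopW : d.Coprime W := Nat.Coprime.coprime_mul_right_right hd.2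
  have h7 := rr_oneW Ω w z N W a cl hcl.lt hW ha T (E d) d h3 h4 (by
    intro p hp hpW
    have hpp := Nat.prime_of_mem_primeFactors hp
    have := Nat.Coprime.eq_one_of_dvd (hcopW.coprime_dvd_left (Nat.dvd_of_mem_primeFactors hp)) hpW
    exact hpp.one_lt.ne' this) (hE d hdQ)
  refine h7.trans ?_
  apply mul_le_mul_of_nonneg_right _ (hE0 _)
  calc ∏ p ∈ d.primeFactors, ((cl p).card : ℝ) ≤ ∏ p ∈ d.primeFactors, (κ : ℝ) := by
        apply Finset.prod_le_prod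
        · intro p _
          positivity
        · intro p hp
          exact_mod_cast hcl.card p (h4 p hp)
    _ = (κ : ℝ) ^ d.primeFactors.card := by rw [prod_const]

/-- a maximizing residue class -/
theorem exists_rmax (F : ℕ → ℕ → ℝ) : ∃ r : ℕ → ℕ, ∀ m : ℕ, 1 ≤ m → (r m).Coprime m ∧
    ∀ c : ℕ, c < m → c.Coprime m → F m c ≤ F m (r m) := by
  classical
  have hex : ∀ m : ℕ, ∃ r : ℕ, 1 ≤ m → r.Coprime m ∧ ∀ c : ℕ, c < m → c.Coprime m → F m c ≤ F m r := by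
    intro m
    rcases Nat.eq_zero_or_pos m with h0 | h0
    · exact ⟨0, fun h => by omega⟩
    have hne : ((range m).filter (fun c => c.Coprime m)).Nonempty := by
      rcases Nat.lt_or_ge 1 m with h | h
      · exact ⟨1, by rw [mem_filter, mem_range]; exact ⟨h, Nat.coprime_one_left m⟩⟩
      · have : m = 1 := by omega
        subst this
        exact ⟨0, by simp⟩
    obtain ⟨c, hc, hmax⟩ := exists_max_image _ (F m) hne
    rw [mem_filter] at hc
    refine ⟨c, fun _ => ⟨hc.2, fun c' h1 h2 => hmax c' ?_⟩⟩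
    rw [mem_filter, mem_range]
    exact ⟨h1, h2⟩
  choose r hr using hex
  exact ⟨r, hr⟩

end Pool.Agent.Q117.CR
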