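import Pool.Agent.Q117.CR.Stm
import Pool.Agent.Q117.GP.IntClass
import Pool.Agent.Y843.HG.VGold

/-! Project CR (helper117), job FB: the integers in a forbidden class modulo the exceptional prime (upper bound sieve). -/

set_option autoImplicit false

open Finset

namespace Pool.Agent.Q117.CR

open Pool.Agent.Y843.HS (Pr Pr_mem Pr_prime)
open Pool.Agent.Y843.HG (Adm Z0 V1 V1_bounds V1_pos)

namespace FB

/-- Bernoulli from below -/
theorem factor_low (k q : ℕ) (hq : 1 ≤ q) (hkq : 2 * k ≤ q) :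
    (1 - 1 / (q : ℝ)) ^ (2 * k) ≤ 1 - (k : ℝ) / q := by
  have hq0 : (0 : ℝ) < q := by exact_mod_cast hq
  have hk : 2 * (k : ℝ) ≤ q := by exact_mod_cast hkq
  have h1 : (1 - 1 / (q : ℝ)) * (1 + 1 / (q : ℝ)) ≤ 1 := by
    have : (1 - 1 / (q : ℝ)) * (1 + 1 / (q : ℝ)) = 1 - (1 / (q : ℝ)) ^ 2 := by ring
    rw [this]
    have := sq_nonneg (1 / (q : ℝ))
    linarith
  have h0 : 0 ≤ 1 - 1 / (q : ℝ) := by
    have : 1 / (q : ℝ) ≤ 1 := by
      rw [div_le_one hq0]; exact_mod_cast hq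
    linarith
  have hB : 1 + ((2 * k : ℕ) : ℝ) * (1 / (q : ℝ)) ≤ (1 + 1 / (q : ℝ)) ^ (2 * k) :=
    one_add_mul_le_pow (by have : 0 ≤ 1 / (q : ℝ) := by positivity
                           linarith) _
  have h2 : (1 - 1 / (q : ℝ)) ^ (2 * k) * (1 + 1 / (q : ℝ)) ^ (2 * k) ≤ 1 := by
    rw [← mul_pow]
    exact pow_le_one₀ (mul_nonneg h0 (by positivity)) h1
  set u : ℝ := (k : ℝ) / q with hu
  have hu0 : 0 ≤ u := by positivity
  have hu1 : u ≤ 1 / 2 := by
    rw [hu, div_le_iff₀ hq0]; linarith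
  have e1 : ((2 * k : ℕ) : ℝ) * (1 / (q : ℝ)) = 2 * u := by
    rw [hu]; push_cast; ring
  rw [e1] at hB
  have h3 : 1 ≤ (1 - u) * (1 + 2 * u) := by nlinarith
  have h4 : 0 ≤ (1 - 1 / (q : ℝ)) ^ (2 * k) := by positivity
  have h5 : (1 - 1 / (q : ℝ)) ^ (2 * k) * (1 + 2 * u) ≤ 1 :=
    (mul_le_mul_of_nonneg_left hB h4).trans h2
  have h6 : 0 < 1 + 2 * u := by linarith
  by_contra hcon
  push Not at hcon
  have h7 : (1 - u) * (1 + 2 * u) < (1 - 1 / (q : ℝ)) ^ (2 * k) * (1 + 2 * u) :=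
    mul_lt_mul_of_pos_right hcon h6
  linarith

theorem V1_split (M Y : ℕ) (h : M ≤ Y) :
    V1 Y = V1 M * ∏ p ∈ Pr M Y, (1 - 1 / (p : ℝ)) := by
  classical
  unfold V1
  have h1 : Pr 0 Y = Pr 0 M ∪ Pr M Y := by
    ext p
    rw [mem_union, Pr_mem, Pr_mem, Pr_mem]
    constructor
    · rintro ⟨⟨h1, h2⟩, h3⟩
      by_cases h4 : p ≤ M
      · exact Or.inl ⟨⟨h1, h4⟩, h3⟩
      · exact Or.inr ⟨⟨by omega, h2⟩, h3⟩
    · rintro (⟨⟨h1, h2⟩, h3⟩ | ⟨⟨h1, h2⟩, h3⟩)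
      · exact ⟨⟨h1, by omega⟩, h3⟩
      · exact ⟨⟨by omega, h2⟩, h3⟩
  rw [h1, prod_union]
  rw [disjoint_left]
  intro p hp hp'
  rw [Pr_mem] at hp hp'
  omega

/-- CRT for the exceptional prime -/
theorem crt_two (W ps a c : ℕ) (hW : 1 ≤ W) (hps : ps.Prime) (hnd : ¬ ps ∣ W) :
    ∃ a' : ℕ, ∀ n : ℕ, (n ≡ a [MOD W] ∧ n % ps = c) → n % (W * ps) = a' % (W * ps) := by
  have hcop : W.Coprime ps := ((hps.coprime_iff_not_dvd).mpr hnd).symm
  refine ⟨(Nat.chineseRemainder hcop a c : ℕ), ?_⟩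
  rintro n ⟨h1, h2⟩
  have h3 := (Nat.chineseRemainder hcop a c).2
  have h4 : n ≡ c [MOD ps] := by
    have : n % ps ≡ n [MOD ps] := Nat.mod_modEq n ps
    rw [h2] at this
    exact this.symm
  have h5 : n ≡ (Nat.chineseRemainder hcop a c : ℕ) [MOD W] := h1.trans h3.1.symm
  have h6 : n ≡ (Nat.chineseRemainder hcop a c : ℕ) [MOD ps] := h4.trans h3.2.symm
  exact (Nat.modEq_and_modEq_iff_modEq_mul hcop).mp ⟨h5, h6⟩

/-- the choice of the level -/
theorem choose_J (x : ℝ) (hx : 2 ≤ x) :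
    ∃ J : ℕ, ((2 ^ 2 ^ J : ℕ) : ℝ) ≤ x ∧ x < ((2 ^ 2 ^ J : ℕ) : ℝ) ^ 2 := by
  classical
  have hex : ∃ J : ℕ, x < ((2 ^ 2 ^ (J + 1) : ℕ) : ℝ) := by
    obtain ⟨n, hn⟩ := pow_unbounded_of_one_lt x (show (1 : ℝ) < 2 by norm_num)
    refine ⟨n, hn.trans_le ?_⟩
    push_cast
    apply pow_le_pow_right₀ (by norm_num)
    calc n ≤ n + 1 := by omega
      _ ≤ 2 ^ (n + 1) := (Nat.lt_two_pow_self).le
  refine ⟨Nat.find hex, ?_, ?_⟩
  · rcases Nat.eq_zero_or_pos (Nat.find hex) with h | h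
    · rw [h]; norm_num; exact hx
    · have h1 := Nat.find_min hex (m := Nat.find hex - 1) (by omega)
      rw [show Nat.find hex - 1 + 1 = Nat.find hex by omega] at h1
      exact not_lt.mp h1
  · have h1 := Nat.find_spec hex
    refine h1.trans_le (le_of_eq ?_)
    push_cast
    rw [← pow_mul]
    congr 1

end FB

open FB in
theorem fb : St_FB := by
  classical
  intro r t ht
  obtain ⟨C1, hC1, hI⟩ := Pool.Agent.Q117.GP.int_class
  obtain ⟨cV, CV, hcV, hCV, hV⟩ := V1_bounds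
  set b : ℕ := C1 * (r + 2) with hb
  have hbpos : 1 ≤ b := Nat.mul_pos (by omega) (by omega)
  have ht0 : (0 : ℝ) < t := by exact_mod_cast ht
  set θ : ℝ := 1 / (4 * t * (C1 * b : ℕ)) with hθ
  have hCb : (1 : ℝ) ≤ ((C1 * b : ℕ) : ℝ) := by
    exact_mod_cast Nat.mul_pos (by omega : 0 < C1) (by omega : 0 < b)
  have hθpos : 0 < θ := by positivity
  have hθt : θ ≤ 1 / t := by
    rw [hθ]
    apply one_div_le_one_div_of_le ht0
    nlinarith
  set c' : ℝ := (cV / CV * (θ * t / 2)) ^ (2 * (r + 1)) with hc'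
  have hc'pos : 0 < c' := by positivity
  refine ⟨2 * (r + 1) / c', b, by positivity, ?_⟩
  -- the threshold
  have hev : ∀ᶠ X : ℕ in Filter.atTop, (2 : ℝ) * (2 * (r + 1)) ≤ (X : ℝ) ^ (θ / 2) ∧
      ((r : ℝ) + 1) ≤ (X : ℝ) ^ (1 / 4 : ℝ) ∧ 1 < X := by
    have h1 : Filter.Tendsto (fun X : ℕ => (X : ℝ) ^ (θ / 2)) Filter.atTop Filter.atTop :=
      (tendsto_rpow_atTop (by positivity)).comp tendsto_natCast_atTop_atTop
    have h2 : Filter.Tendsto (fun X : ℕ => (X : ℝ) ^ (1 / 4 : ℝ)) Filter.atTop Filter.atTop :=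
      (tendsto_rpow_atTop (by norm_num)).comp tendsto_natCast_atTop_atTop
    filter_upwards [h1.eventually_ge_atTop ((2 : ℝ) * (2 * (r + 1))),
      h2.eventually_ge_atTop ((r : ℝ) + 1), Filter.eventually_gt_atTop 1] with X a1 a2 a3
    exact ⟨a1, a2, a3⟩
  obtain ⟨X0, hX0⟩ := Filter.eventually_atTop.mp hev
  refine ⟨X0, ?_⟩
  intro X hX W ps a A B Y Om hY hAdm hW hps hnd hbps hpsY hsmall hAB hBX
  obtain ⟨hXθ2, hX4, hX1⟩ := hX0 X hX
  have hXr : (1 : ℝ) < X := by exact_mod_cast hX1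
  have hXpos : (0 : ℝ) < X := by linarith
  have hlX : 0 < Real.log X := Real.log_pos hXr
  have hXθ : (X : ℝ) ^ (θ / 2) * (X : ℝ) ^ (θ / 2) = (X : ℝ) ^ θ := by
    rw [← Real.rpow_add hXpos]; congr 1; ring
  have hr0 : (0 : ℝ) ≤ r := by positivity
  have hXθge : 2 ≤ (X : ℝ) ^ θ := by
    rw [← hXθ]
    nlinarith
  obtain ⟨J, hJ1, hJ2⟩ := choose_J _ hXθge
  set M : ℕ := 2 ^ 2 ^ J with hM
  have hM1 : (X : ℝ) ^ (θ / 2) ≤ M := by
    by_contra hcon
    push Not at hcon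
    have h1 : (M : ℝ) ^ 2 ≤ (X : ℝ) ^ θ := by
      rw [← hXθ, sq]
      apply mul_le_mul hcon.le hcon.le (by positivity) (by positivity)
    linarith
  have hMr : 2 * (r + 1) ≤ M := by
    have : (2 : ℝ) * (r + 1) ≤ M := by nlinarith
    exact_mod_cast this
  have hM2 : 2 ≤ M := by omega
  have hMY : M ≤ Y := by
    rw [hY]
    apply Nat.le_floor
    refine hJ1.trans ?_
    exact Real.rpow_le_rpow_of_exponent_le hXr.le hθt
  set D : ℕ := W * ps with hD
  have hDpos : 1 ≤ D := Nat.mul_pos hW hps.pos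
  -- the two sets of primes
  set P : Finset ℕ := (Pr b M).filter (fun q => ¬ q ∣ D) with hP
  set P2 : Finset ℕ := (Pr (max b M) Y).filter (fun q => ¬ q ∣ D) with hP2
  have hPY : ∀ q ∈ P, q ∈ Pr 0 Y := by
    intro q hq
    rw [hP, mem_filter, Pr_mem] at hq
    rw [Pr_mem]
    exact ⟨⟨hq.1.2.pos, by omega⟩, hq.1.2⟩
  have hPY2 : ∀ q ∈ P2, q ∈ Pr 0 Y ∧ M < q := by
    intro q hq
    rw [hP2, mem_filter, Pr_mem] at hq
    rw [Pr_mem]
    have := hq.1.1.1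
    exact ⟨⟨⟨hq.1.2.pos, by omega⟩, hq.1.2⟩, by omega⟩
  have hbig : ∀ q : ℕ, q.Prime → ¬ q ∣ D → b < q := by
    intro q hq hqD
    by_contra hcon
    exact hqD ((hsmall q hq (by omega)).mul_right ps)
  have hfac : ∀ q ∈ Pr 0 Y, 0 ≤ 1 - ((Z0 Om q).card : ℝ) / q ∧
      1 - ((Z0 Om q).card : ℝ) / q ≤ 1 := by
    intro q hq
    have h1 := (hAdm q hq).2.1
    have h2 := hAdm.card hq
    have hq0 : (0 : ℝ) < q := by exact_mod_cast (Pr_prime hq).pos
    constructor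
    · rw [sub_nonneg, div_le_one hq0]
      have : (Z0 Om q).card ≤ q := by omega
      exact_mod_cast this
    · have : (0 : ℝ) ≤ ((Z0 Om q).card : ℝ) / q := by positivity
      linarith
  have hVD : VD Om D Y = (∏ q ∈ P, (1 - ((Z0 Om q).card : ℝ) / q)) *
      ∏ q ∈ P2, (1 - ((Z0 Om q).card : ℝ) / q) := by
    unfold VD
    rw [← prod_union]
    · apply prod_congr _ (fun _ _ => rfl)
      ext q
      rw [mem_union, hP, hP2, mem_filter, mem_filter, mem_filter, Pr_mem, Pr_mem, Pr_mem]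
      constructor
      · rintro ⟨⟨⟨h1, h2⟩, h3⟩, h4⟩
        have h5 := hbig q h3 h4
        by_cases h6 : q ≤ M
        · exact Or.inl ⟨⟨⟨h5, h6⟩, h3⟩, h4⟩
        · refine Or.inr ⟨⟨⟨?_, h2⟩, h3⟩, h4⟩
          omega
      · rintro (⟨⟨⟨h1, h2⟩, h3⟩, h4⟩ | ⟨⟨⟨h1, h2⟩, h3⟩, h4⟩)
        · exact ⟨⟨⟨h3.pos, by omega⟩, h3⟩, h4⟩
        · exact ⟨⟨⟨h3.pos, h2⟩, h3⟩, h4⟩
    · rw [disjoint_left]
      intro q hq hq'
      rw [hP, mem_filter, Pr_mem] at hq
      have := (hPY2 q hq').2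
      omega
  -- the lower bound for the second product
  have hlow : c' ≤ ∏ q ∈ P2, (1 - ((Z0 Om q).card : ℝ) / q) := by
    have hratio : cV / CV * (θ * t / 2) ≤ ∏ p ∈ Pr M Y, (1 - 1 / (p : ℝ)) := by
      have h1 := V1_split M Y hMY
      have hVM := V1_pos M
      have h2 := (hV Y (by omega)).1
      have h3 := (hV M hM2).2
      have hlM : 0 < Real.log M := Real.log_pos (by exact_mod_cast (by omega : 1 < M))
      have hlY : 0 < Real.log Y := Real.log_pos (by exact_mod_cast (by omega : 1 < Y))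
      have h4 : θ * Real.log X ≤ 2 * Real.log M := by
        have h5 : Real.log ((X : ℝ) ^ θ) ≤ Real.log ((M : ℝ) ^ 2) :=
          Real.log_le_log (by positivity) hJ2.le
        rw [Real.log_rpow hXpos, Real.log_pow] at h5
        push_cast at h5
        exact h5
      have h6 : t * Real.log Y ≤ Real.log X := by
        have h7 : (Y : ℝ) ≤ (X : ℝ) ^ (1 / (t : ℝ)) := by
          rw [hY]; exact Nat.floor_le (by positivity)
        have h8 := Real.log_le_log (by exact_mod_cast (by omega : 0 < Y)) h7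
        rw [Real.log_rpow hXpos] at h8
        calc t * Real.log Y ≤ t * (1 / (t : ℝ) * Real.log X) := by gcongr
          _ = Real.log X := by field_simp
      set Q : ℝ := ∏ p ∈ Pr M Y, (1 - 1 / (p : ℝ)) with hQ
      have hQ0 : 0 ≤ Q := prod_nonneg fun p hp => by
        have := (Pool.Agent.Y843.HG.fac1 (Pr_prime hp)).1
        linarith
      rw [h1] at h2
      have h9 : cV / Real.log Y ≤ CV / Real.log M * Q :=
        h2.trans (mul_le_mul_of_nonneg_right h3 hQ0)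
      have h10 : cV / Real.log Y * Real.log M ≤ CV * Q := by
        calc cV / Real.log Y * Real.log M ≤ (CV / Real.log M * Q) * Real.log M := by gcongr
          _ = CV * Q := by field_simp
      have h11 : θ * t / 2 ≤ Real.log M / Real.log Y := by
        rw [le_div_iff₀ hlY]
        nlinarith
      have h12 : cV * (θ * t / 2) ≤ CV * Q := by
        calc cV * (θ * t / 2) ≤ cV * (Real.log M / Real.log Y) := by gcongr
          _ = cV / Real.log Y * Real.log M := by ring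
          _ ≤ _ := h10
      calc cV / CV * (θ * t / 2) = cV * (θ * t / 2) / CV := by ring
        _ ≤ Q := by rw [div_le_iff₀ hCV]; linarith
    have h1 : ∏ q ∈ P2, (1 - 1 / (q : ℝ)) ^ (2 * (r + 1)) ≤
        ∏ q ∈ P2, (1 - ((Z0 Om q).card : ℝ) / q) := by
      apply prod_le_prod
      · intro q hq
        have := (Pool.Agent.Y843.HG.fac1 (Pr_prime (hPY2 q hq).1)).1
        apply pow_nonneg; linarith
      · intro q hq
        obtain ⟨hq1, hq2⟩ := hPY2 q hq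
        have h2 := factor_low (r + 1) q (Pr_prime hq1).pos (by omega)
        refine h2.trans ?_
        have h3 : (Z0 Om q).card ≤ r + 1 := by
          have := (hAdm q hq1).1
          have := hAdm.card hq1
          omega
        have hq0 : (0 : ℝ) < q := by exact_mod_cast (Pr_prime hq1).pos
        have h4 : ((Z0 Om q).card : ℝ) / q ≤ ((r + 1 : ℕ) : ℝ) / q := by
          apply div_le_div_of_nonneg_right _ hq0.le
          exact_mod_cast h3
        linarith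
    refine le_trans ?_ h1
    rw [prod_pow]
    rw [hc']
    apply pow_le_pow_left₀ (by positivity)
    refine hratio.trans ?_
    have hsub : P2 ⊆ Pr M Y := by
      intro q hq
      obtain ⟨hq1, hq2⟩ := hPY2 q hq
      rw [Pr_mem] at hq1 ⊢
      exact ⟨⟨hq2, hq1.1.2⟩, hq1.2⟩
    rw [← prod_sdiff hsub]
    apply mul_le_of_le_one_left
    · exact prod_nonneg fun p hp => by
        have := (Pool.Agent.Y843.HG.fac1 (Pr_prime (hsub hp))).1
        linarith
    · exact prod_le_one (fun p hp => by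
        have := (Pool.Agent.Y843.HG.fac1 (Pr_prime (mem_sdiff.1 hp).1)).1
        linarith) (fun p hp => (Pool.Agent.Y843.HG.fac1 (Pr_prime (mem_sdiff.1 hp).1)).2)
  set V : ℝ := ∏ q ∈ P, (1 - ((Z0 Om q).card : ℝ) / q) with hVdef
  have hV0 : 0 ≤ V := prod_nonneg fun q hq => (hfac q (hPY q hq)).1
  have hVle : V ≤ VD Om D Y / c' := by
    rw [le_div_iff₀ hc'pos, hVD]
    gcongr
  -- the count for one class
  have hclass : ∀ c : ℕ, ∃ a' : ℕ, ∀ n : ℕ, (n ≡ a [MOD W] ∧ n % ps = c) → n % D = a' % D :=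
    fun c => crt_two W ps a c hW hps hnd
  choose a' ha' using hclass
  set G : ℕ → Finset ℕ := fun c =>
    (Ioc A B).filter (fun n => n % D = a' c % D ∧ ∀ q ∈ P, n % q ∉ Z0 Om q) with hG
  have hBA : (((B - A : ℕ)) : ℝ) = (B : ℝ) - A := by
    push_cast [Nat.cast_sub hAB]; ring
  have hGc : ∀ c : ℕ, ((G c).card : ℝ) ≤ 2 * ((((B : ℝ) - A) / D) * V) + (X : ℝ) ^ (1 / 4 : ℝ) := by
    intro c
    have h1 := hI (r + 1) b J b (by rw [hb]) (by rw [hb]) P (by
        intro q hq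
        rw [hP, mem_filter, Pr_mem] at hq
        exact ⟨hq.1.2, hq.1.1.1, hq.1.1.2⟩) (Z0 Om) (by
        intro q hq
        refine ⟨?_, hAdm.lt (hPY q hq)⟩
        have := (hAdm q (hPY q hq)).1
        have := hAdm.card (hPY q hq)
        omega) D (a' c) A (B - A) hDpos (by
        intro q hq
        rw [hP, mem_filter] at hq
        exact hq.2)
    rw [show A + (B - A) = B by omega, hBA] at h1
    have h2 := (abs_le.mp h1).2
    have h3 : (1 / 2 : ℝ) ^ b ≤ 1 := pow_le_one₀ (by norm_num) (by norm_num)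
    have h4 : 0 ≤ ((B : ℝ) - A) / D * V := by
      have : (A : ℝ) ≤ B := by exact_mod_cast hAB
      apply mul_nonneg _ hV0
      apply div_nonneg (by linarith) (by positivity)
    have h5 : ((2 : ℝ) ^ 2 ^ J) ^ (C1 * b) ≤ (X : ℝ) ^ (1 / 4 : ℝ) := by
      have e1 : ((2 : ℝ) ^ 2 ^ J) = (M : ℝ) := by rw [hM]; push_cast; rfl
      rw [e1]
      calc (M : ℝ) ^ (C1 * b) ≤ ((X : ℝ) ^ θ) ^ (C1 * b) := by gcongr
        _ = (X : ℝ) ^ (θ * ((C1 * b : ℕ) : ℝ)) := by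
          rw [← Real.rpow_natCast, ← Real.rpow_mul hXpos.le]
        _ ≤ (X : ℝ) ^ (1 / 4 : ℝ) := by
          apply Real.rpow_le_rpow_of_exponent_le hXr.le
          rw [hθ]
          have h6 : (1 : ℝ) ≤ t := by exact_mod_cast ht
          rw [div_mul_eq_mul_div, one_mul, div_le_div_iff₀ (by positivity) (by norm_num)]
          nlinarith
    have h6 : (1 / 2 : ℝ) ^ b * (((B : ℝ) - A) / D * V) ≤ 1 * (((B : ℝ) - A) / D * V) :=
      mul_le_mul_of_nonneg_right h3 h4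
    have h7 : ((G c).card : ℝ) - ((B : ℝ) - A) / D * V ≤
        (1 / 2 : ℝ) ^ b * (((B : ℝ) - A) / D * V) + ((2 : ℝ) ^ 2 ^ J) ^ (C1 * b) := h2
    linarith
  have hpsmem : ps ∈ Pr 0 Y := by
    rw [Pr_mem]; exact ⟨⟨hps.pos, hpsY⟩, hps⟩
  have hcover : (Ioc A B).filter (fun n => n ≡ a [MOD W] ∧ n % ps ∈ Z0 Om ps ∧
      ∀ q ∈ Pr 0 Y, ¬ q ∣ W * ps → n % q ∉ Z0 Om q) ⊆ (Z0 Om ps).biUnion G := by
    intro n hn
    rw [mem_filter] at hn
    obtain ⟨h1, h2, h3, h4⟩ := hn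
    rw [mem_biUnion]
    refine ⟨n % ps, h3, ?_⟩
    rw [hG, mem_filter]
    refine ⟨h1, ha' _ n ⟨h2, rfl⟩, ?_⟩
    intro q hq
    apply h4 q (hPY q hq)
    rw [hP, mem_filter] at hq
    exact hq.2
  have hcardZ : ((Z0 Om ps).card : ℝ) ≤ (r : ℝ) + 1 := by
    have h1 := (hAdm ps hpsmem).1
    have h2 := hAdm.card hpsmem
    have : (Z0 Om ps).card ≤ r + 1 := by omega
    exact_mod_cast this
  have hBA0 : 0 ≤ (B : ℝ) - A := by
    have : (A : ℝ) ≤ B := by exact_mod_cast hAB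
    linarith
  have hDr : (0 : ℝ) < (D : ℝ) := by exact_mod_cast hDpos
  have hX14 : 0 ≤ (X : ℝ) ^ (1 / 4 : ℝ) := by positivity
  calc (((Ioc A B).filter (fun n => n ≡ a [MOD W] ∧ n % ps ∈ Z0 Om ps ∧
      ∀ q ∈ Pr 0 Y, ¬ q ∣ W * ps → n % q ∉ Z0 Om q)).card : ℝ)
      ≤ (((Z0 Om ps).biUnion G).card : ℝ) := by exact_mod_cast card_le_card hcover
    _ ≤ ∑ c ∈ Z0 Om ps, ((G c).card : ℝ) := by exact_mod_cast card_biUnion_le
    _ ≤ ∑ c ∈ Z0 Om ps, (2 * ((((B : ℝ) - A) / D) * V) + (X : ℝ) ^ (1 / 4 : ℝ)) :=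
        sum_le_sum fun c _ => hGc c
    _ = ((Z0 Om ps).card : ℝ) * (2 * ((((B : ℝ) - A) / D) * V) + (X : ℝ) ^ (1 / 4 : ℝ)) := by
        rw [sum_const, nsmul_eq_mul]
    _ ≤ ((r : ℝ) + 1) * (2 * ((((B : ℝ) - A) / D) * V) + (X : ℝ) ^ (1 / 4 : ℝ)) := by
        apply mul_le_mul_of_nonneg_right hcardZ
        positivity
    _ = 2 * (r + 1) * ((((B : ℝ) - A) / D) * V) + ((r : ℝ) + 1) * (X : ℝ) ^ (1 / 4 : ℝ) := by ring
    _ ≤ 2 * (r + 1) * ((((B : ℝ) - A) / D) * (VD Om D Y / c')) +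
        (X : ℝ) ^ (1 / 4 : ℝ) * (X : ℝ) ^ (1 / 4 : ℝ) := by
        gcongr
    _ = 2 * (r + 1) / c' * ((((B : ℝ) - A) / ((W : ℝ) * ps)) * VD Om D Y) + (X : ℝ) ^ (1 / 2 : ℝ) := by
        rw [← Real.rpow_add hXpos, hD]
        push_cast
        norm_num
        ring

end Pool.Agent.Q117.CR
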