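import Pool.Agent.Q117.CR.Stm

/-!
Project CR, job LSP (helper177): the large sieve bound for the log weight, conductors up to `X ^ 0.49954`.
-/

set_option autoImplicit false

namespace Pool.Agent.Q117.CR.LSP

open Finset Filter Topology
open Pool.Agent.Helper112 Pool.Agent.Helper112.TI Pool.Agent.Helper112.TII
open Pool.Agent.H410R2 Pool.Agent.H398R2.BV

/-- the main inequality for one dyadic block -/
theorem dyadic_ineq (X x y F : ℝ) (hX : 4 ≤ X) (hx1 : 1 ≤ x) (hx : x ≤ 3 * X) (U : ℕ)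
    (hU : X ^ (4 / 10000 : ℝ) ≤ U) (hy1 : 1 ≤ y) (hy : y ≤ 2 * F)
    (hF : F ≤ X ^ (49954 / 100000 : ℝ)) :
    y * (Real.sqrt x / (y / 2) + (Real.sqrt (x / U) + Real.sqrt (x / U)) + y) * Real.sqrt x ≤
      24 * (X + X ^ (9999 / 10000 : ℝ) * F) := by
  have hX0 : 0 < X := by linarith
  have hX1 : 1 ≤ X := by linarith
  have hx0 : 0 < x := by linarith
  have hy0 : 0 < y := by linarith
  have hF0 : 0 < F := by linarith
  have hsx : Real.sqrt x * Real.sqrt x = x := Real.mul_self_sqrt hx0.le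
  have hp : 0 < X ^ (4 / 10000 : ℝ) := by positivity
  have hsx2 : Real.sqrt x ≤ 2 * X ^ (1 / 2 : ℝ) := by
    rw [Real.sqrt_le_left (by positivity)]
    calc x ≤ 3 * X := hx
      _ ≤ 4 * X := by linarith
      _ = (2 * X ^ (1 / 2 : ℝ)) ^ 2 := by
          rw [mul_pow, ← Real.rpow_natCast (X ^ (1 / 2 : ℝ)), ← Real.rpow_mul hX0.le]; norm_num
  have h1 : Real.sqrt (x / U) ≤ 2 * X ^ (4998 / 10000 : ℝ) := by
    rw [Real.sqrt_le_left (by positivity)]
    calc x / U ≤ x / X ^ (4 / 10000 : ℝ) := div_le_div_of_nonneg_left hx0.le hp hU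
      _ ≤ (4 * X) / X ^ (4 / 10000 : ℝ) := by gcongr; linarith
      _ = 4 * X ^ (1 - 4 / 10000 : ℝ) := by rw [Real.rpow_sub hX0, Real.rpow_one]; ring
      _ = (2 * X ^ (4998 / 10000 : ℝ)) ^ 2 := by
          rw [mul_pow, ← Real.rpow_natCast (X ^ (4998 / 10000 : ℝ)), ← Real.rpow_mul hX0.le]
          norm_num
  have e1 : y * (Real.sqrt x / (y / 2)) * Real.sqrt x = 2 * x := by
    have : y * (Real.sqrt x / (y / 2)) = 2 * Real.sqrt x := by field_simp
    rw [this, mul_assoc, hsx]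
  have e2 : y * Real.sqrt (x / U) * Real.sqrt x ≤ 8 * (X ^ (9999 / 10000 : ℝ) * F) := by
    calc y * Real.sqrt (x / U) * Real.sqrt x ≤
        (2 * F) * (2 * X ^ (4998 / 10000 : ℝ)) * (2 * X ^ (1 / 2 : ℝ)) := by gcongr
      _ = 8 * (X ^ (4998 / 10000 + 1 / 2 : ℝ) * F) := by rw [Real.rpow_add hX0]; ring
      _ ≤ _ := by
          apply mul_le_mul_of_nonneg_left _ (by norm_num)
          apply mul_le_mul_of_nonneg_right _ hF0.le
          exact Real.rpow_le_rpow_of_exponent_le hX1 (by norm_num)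
  have e3 : y * y * Real.sqrt x ≤ 8 * (X ^ (9999 / 10000 : ℝ) * F) := by
    calc y * y * Real.sqrt x ≤
        (2 * F) * (2 * X ^ (49954 / 100000 : ℝ)) * (2 * X ^ (1 / 2 : ℝ)) := by
          gcongr
          linarith
      _ = 8 * (X ^ (49954 / 100000 + 1 / 2 : ℝ) * F) := by rw [Real.rpow_add hX0]; ring
      _ ≤ _ := by
          apply mul_le_mul_of_nonneg_left _ (by norm_num)
          apply mul_le_mul_of_nonneg_right _ hF0.le
          exact Real.rpow_le_rpow_of_exponent_le hX1 (by norm_num)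
  have : y * (Real.sqrt x / (y / 2) + (Real.sqrt (x / U) + Real.sqrt (x / U)) + y) * Real.sqrt x =
      y * (Real.sqrt x / (y / 2)) * Real.sqrt x + 2 * (y * Real.sqrt (x / U) * Real.sqrt x) +
        y * y * Real.sqrt x := by ring
  rw [this, e1]
  linarith

theorem typeII_sum (X x : ℝ) (hX : 4 ≤ X) (hL1 : 1 ≤ Real.log X) (hx1 : 1 ≤ x) (hx : x ≤ 3 * X)
    (h2 : 2 ≤ X ^ (4 / 10000 : ℝ)) (U : ℕ)
    (hU : X ^ (4 / 10000 : ℝ) ≤ U) (F : ℕ) (hF : (F : ℝ) ≤ X ^ (49954 / 100000 : ℝ)) :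
    ∑ f ∈ Icc 2 F, ∑ ψ ∈ Prim f, ‖TL x f ψ (LamII U U)‖ ≤
      (2 * Real.log X) * (12 * (2 * Real.log X * (3 * Real.log X) ^ 3 * (2 * Real.log X)) *
        (24 * (X + X ^ (9999 / 10000 : ℝ) * F))) := by
  have hX0 : 0 < X := by linarith
  have hX1 : 1 ≤ X := by linarith
  have hx0 : 0 < x := by linarith
  set L := Real.log X with hL
  have hlx0 : 0 ≤ Real.log x := Real.log_nonneg hx1
  have hlx : Real.log x ≤ 2 * L := by
    calc Real.log x ≤ Real.log (X * X) := Real.log_le_log hx0 (by nlinarith)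
      _ = 2 * L := by rw [Real.log_mul hX0.ne' hX0.ne']; ring
  have hp : 0 < X ^ (4 / 10000 : ℝ) := by positivity
  have hU1 : 1 ≤ U := by
    by_contra h
    have : U = 0 := by omega
    subst this
    simp at hU
    linarith
  have hmaps : ∀ f ∈ Icc 2 F, Nat.log 2 f ∈ range (⌊L⌋₊ + 1) := by
    intro f hf
    rw [mem_Icc] at hf
    have h3 : (f:ℝ) ≤ X ^ (49954 / 100000 : ℝ) := le_trans (by exact_mod_cast hf.2) hF
    rw [mem_range, Nat.lt_succ_iff]
    apply Nat.le_floor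
    have h4 : ((2:ℝ) ^ (Nat.log 2 f)) ≤ X ^ ((1:ℝ) / 2) := by
      calc ((2:ℝ) ^ (Nat.log 2 f)) ≤ f := by exact_mod_cast Nat.pow_log_le_self 2 (by omega)
        _ ≤ X ^ (49954 / 100000 : ℝ) := h3
        _ ≤ _ := Real.rpow_le_rpow_of_exponent_le hX1 (by norm_num)
    have h5 := Real.log_le_log (by positivity) h4
    rw [Real.log_pow, Real.log_rpow hX0] at h5
    have h6 : (0.5:ℝ) < Real.log 2 := by
      have := Real.log_two_gt_d9
      linarith
    have h7 : (0:ℝ) ≤ (Nat.log 2 f : ℝ) := by positivity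
    nlinarith
  rw [← sum_fiberwise_of_maps_to hmaps]
  have hblock : ∀ j ∈ range (⌊L⌋₊ + 1), ∑ f ∈ (Icc 2 F).filter (fun f => Nat.log 2 f = j),
      ∑ ψ ∈ Prim f, ‖TL x f ψ (LamII U U)‖ ≤
      12 * (2 * L * (3 * L) ^ 3 * (2 * L)) * (24 * (X + X ^ (9999 / 10000 : ℝ) * F)) := by
    intro j _
    rcases ((Icc 2 F).filter (fun f => Nat.log 2 f = j)).eq_empty_or_nonempty with
      hemp | ⟨f0, hf0⟩
    · rw [hemp, sum_empty]
      positivity
    have hsub : (Icc 2 F).filter (fun f => Nat.log 2 f = j) ⊆ Icc (2 ^ j) (2 ^ (j + 1)) := by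
      intro f hf
      rw [mem_filter, mem_Icc] at hf
      obtain ⟨h1, h2⟩ := hf
      rw [mem_Icc, ← h2]
      exact ⟨Nat.pow_log_le_self 2 (by omega), (Nat.lt_pow_succ_log_self (by norm_num) f).le⟩
    rw [mem_filter, mem_Icc] at hf0
    obtain ⟨h1, h3⟩ := hf0
    set y : ℝ := 2 ^ (j + 1) with hy
    have hy2j : (2:ℝ) ^ j = y / 2 := by rw [hy, pow_succ]; ring
    have hy1 : 1 ≤ y := one_le_pow₀ (by norm_num)
    have hj1 : (2:ℝ) ^ j ≤ f0 := by
      rw [← h3]; exact_mod_cast Nat.pow_log_le_self 2 (by omega)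
    have hf0F : (f0:ℝ) ≤ F := by exact_mod_cast h1.2
    have hyu : y ≤ 2 * (F:ℝ) := by
      have : y / 2 ≤ F := by rw [← hy2j]; exact hj1.trans hf0F
      linarith
    have hkey := dyadic_ineq X x y F hX hx1 hx U hU hy1 hyu hF
    have hyX : y ≤ X := by
      calc y ≤ 2 * (F:ℝ) := hyu
        _ ≤ X ^ (4 / 10000 : ℝ) * X ^ (49954 / 100000 : ℝ) := by gcongr
        _ = X ^ (4 / 10000 + 49954 / 100000 : ℝ) := by rw [Real.rpow_add hX0]
        _ ≤ X ^ (1 : ℝ) := Real.rpow_le_rpow_of_exponent_le hX1 (by norm_num)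
        _ = X := Real.rpow_one X
    have hlogy : Real.log y ≤ L := Real.log_le_log (by linarith) hyX
    have hlogy0 : 0 ≤ Real.log y := Real.log_nonneg hy1
    have hb := typeII_block x hx1 U U (2 ^ j) (2 ^ (j + 1)) hU1 hU1 Nat.one_le_two_pow
      Nat.one_le_two_pow
    push_cast at hb
    rw [← hy, hy2j] at hb
    have h0 : ∀ f : ℕ, 0 ≤ ∑ ψ ∈ Prim f, ‖TL x f ψ (LamII U U)‖ :=
      fun f => sum_nonneg fun _ _ => norm_nonneg _
    calc ∑ f ∈ (Icc 2 F).filter (fun f => Nat.log 2 f = j),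
          ∑ ψ ∈ Prim f, ‖TL x f ψ (LamII U U)‖ ≤
          ∑ f ∈ (Icc 2 F).filter (fun f => Nat.log 2 f = j),
            y * ((1 / (Nat.totient f : ℝ)) * ∑ ψ ∈ Prim f, ‖TL x f ψ (LamII U U)‖) := by
          apply sum_le_sum
          intro f hf
          have hf' := hsub hf
          rw [mem_Icc] at hf'
          have hfp : 0 < f := lt_of_lt_of_le (by positivity) hf'.1
          have hφ : (0:ℝ) < Nat.totient f := by exact_mod_cast Nat.totient_pos.mpr hfp
          have hφy : (Nat.totient f : ℝ) ≤ y := by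
            calc (Nat.totient f : ℝ) ≤ f := by exact_mod_cast Nat.totient_le f
              _ ≤ y := by rw [hy]; exact_mod_cast hf'.2
          have : 1 ≤ y * (1 / (Nat.totient f : ℝ)) := by
            rw [mul_one_div, le_div_iff₀ hφ]
            linarith
          calc _ = 1 * ∑ ψ ∈ Prim f, ‖TL x f ψ (LamII U U)‖ := by ring
            _ ≤ (y * (1 / (Nat.totient f : ℝ))) * ∑ ψ ∈ Prim f, ‖TL x f ψ (LamII U U)‖ :=
                mul_le_mul_of_nonneg_right this (h0 f)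
            _ = _ := by ring
      _ = y * ∑ f ∈ (Icc 2 F).filter (fun f => Nat.log 2 f = j),
            ((1 / (Nat.totient f : ℝ)) * ∑ ψ ∈ Prim f, ‖TL x f ψ (LamII U U)‖) := by
          rw [mul_sum]
      _ ≤ y * ∑ f ∈ Icc (2 ^ j) (2 ^ (j + 1)),
            ((1 / (Nat.totient f : ℝ)) * ∑ ψ ∈ Prim f, ‖TL x f ψ (LamII U U)‖) := by
          apply mul_le_mul_of_nonneg_left _ (by positivity)
          apply sum_le_sum_of_subset_of_nonneg hsub
          intro f _ _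
          exact mul_nonneg (by positivity) (h0 f)
      _ ≤ y * (12 * (1 + Real.log y) * (Real.sqrt x / (y / 2) +
            (Real.sqrt (x / U) + Real.sqrt (x / U)) + y) *
            (Real.sqrt x * (1 + Real.log x) ^ 3) * Real.log x) :=
          mul_le_mul_of_nonneg_left hb (by positivity)
      _ = 12 * ((1 + Real.log y) * (1 + Real.log x) ^ 3 * Real.log x) *
            (y * (Real.sqrt x / (y / 2) +
            (Real.sqrt (x / U) + Real.sqrt (x / U)) + y) * Real.sqrt x) := by ring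
      _ ≤ 12 * (2 * L * (3 * L) ^ 3 * (2 * L)) *
            (24 * (X + X ^ (9999 / 10000 : ℝ) * F)) := by
          apply mul_le_mul _ hkey (by positivity) (by positivity)
          apply mul_le_mul_of_nonneg_left _ (by norm_num)
          apply mul_le_mul _ hlx hlx0 (by positivity)
          apply mul_le_mul (by linarith) _ (by positivity) (by positivity)
          apply pow_le_pow_left₀ (by positivity)
          linarith
  refine (sum_le_sum hblock).trans ?_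
  rw [sum_const, nsmul_eq_mul, card_range]
  have h8 : ((⌊L⌋₊ + 1 : ℕ) : ℝ) ≤ 2 * L := by
    push_cast
    have := Nat.floor_le (show 0 ≤ L by linarith)
    linarith
  exact mul_le_mul_of_nonneg_right h8 (by positivity)

/-- the large sieve bound for the log weight -/
theorem ls_psiLog (X x : ℝ) (hX : 4 ≤ X) (hL1 : 1 ≤ Real.log X) (hx1 : 1 ≤ x) (hx : x ≤ 3 * X)
    (h2 : 2 ≤ X ^ (4 / 10000 : ℝ)) (F : ℕ) (hF : (F : ℝ) ≤ X ^ (49954 / 100000 : ℝ)) :
    ∑ f ∈ Icc 2 F, ∑ ψ ∈ Prim f, ‖psiLog x f ψ‖ ≤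
      128 * (X + X ^ (9999 / 10000 : ℝ) * F) * Real.log X ^ 2 +
      (2 * Real.log X) * (12 * (2 * Real.log X * (3 * Real.log X) ^ 3 * (2 * Real.log X)) *
        (24 * (X + X ^ (9999 / 10000 : ℝ) * F))) := by
  have hX0 : 0 < X := by linarith
  have hX1 : 1 ≤ X := by linarith
  have hx0 : 0 < x := by linarith
  set L := Real.log X with hL
  have hlx0 : 0 ≤ Real.log x := Real.log_nonneg hx1
  have hlx : Real.log x ≤ 2 * L := by
    calc Real.log x ≤ Real.log (X * X) := Real.log_le_log hx0 (by nlinarith)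
      _ = 2 * L := by rw [Real.log_mul hX0.ne' hX0.ne']; ring
  obtain ⟨U, hU1, hU2⟩ : ∃ U : ℕ, X ^ (4 / 10000 : ℝ) ≤ U ∧ (U:ℝ) ≤ 2 * X ^ (4 / 10000 : ℝ) := by
    refine ⟨⌈X ^ (4 / 10000 : ℝ)⌉₊, Nat.le_ceil _, ?_⟩
    have := (Nat.ceil_lt_add_one (show 0 ≤ X ^ (4 / 10000 : ℝ) by positivity)).le
    linarith
  have hU : 1 ≤ U := by
    have : (1:ℝ) ≤ U := by linarith
    exact_mod_cast this
  have h1 : ∑ f ∈ Icc 2 F, ∑ ψ ∈ Prim f, ‖psiLog x f ψ‖ ≤
      ∑ f ∈ Icc 2 F, ∑ ψ ∈ Prim f, 8 * (U:ℝ) * U * f * Real.log x ^ 2 +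
      ∑ f ∈ Icc 2 F, ∑ ψ ∈ Prim f, ‖TL x f ψ (LamII U U)‖ := by
    rw [← sum_add_distrib]
    apply sum_le_sum
    intro f hf
    rw [mem_Icc] at hf
    rw [← sum_add_distrib]
    apply sum_le_sum
    intro ψ hψ
    exact norm_psiLog_le x hx1 U U f hU hU hf.1 ψ (prim_ne_one hf.1 hψ)
  have h3 : ∑ f ∈ Icc 2 F, ∑ ψ ∈ Prim f, 8 * (U:ℝ) * U * f * Real.log x ^ 2 ≤
      128 * (X + X ^ (9999 / 10000 : ℝ) * F) * L ^ 2 := by
    have h3 : ∀ f ∈ Icc 2 F, ∑ ψ ∈ Prim f, 8 * (U:ℝ) * U * f * Real.log x ^ 2 ≤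
        (F:ℝ) * (8 * (U:ℝ) * U * F * (2 * L) ^ 2) := by
      intro f hf
      rw [mem_Icc] at hf
      have hfF : (f:ℝ) ≤ F := by exact_mod_cast hf.2
      rw [sum_const, nsmul_eq_mul]
      have hc : ((Prim f).card : ℝ) ≤ F := by
        calc ((Prim f).card : ℝ) ≤ Nat.totient f := card_prim_le (by omega)
          _ ≤ f := by exact_mod_cast Nat.totient_le f
          _ ≤ F := hfF
      apply mul_le_mul hc _ (by positivity) (by positivity)
      gcongr
    calc _ ≤ ∑ f ∈ Icc 2 F, (F:ℝ) * (8 * (U:ℝ) * U * F * (2 * L) ^ 2) := sum_le_sum h3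
      _ = ((Icc 2 F).card : ℝ) * ((F:ℝ) * (8 * (U:ℝ) * U * F * (2 * L) ^ 2)) := by
          rw [sum_const, nsmul_eq_mul]
      _ ≤ (F:ℝ) * ((F:ℝ) * (8 * (U:ℝ) * U * F * (2 * L) ^ 2)) := by
          apply mul_le_mul_of_nonneg_right _ (by positivity)
          rw [Nat.card_Icc]
          have : F + 1 - 2 ≤ F := by omega
          exact_mod_cast this
      _ = 32 * (((F:ℝ) ^ 2 * U ^ 2) * F) * L ^ 2 := by ring
      _ ≤ 32 * (((X ^ (49954 / 100000 : ℝ)) ^ 2 * (2 * X ^ (4 / 10000 : ℝ)) ^ 2) * F) * L ^ 2 := by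
          gcongr
      _ = 128 * (X ^ (99908 / 100000 + 8 / 10000 : ℝ) * F) * L ^ 2 := by
          rw [Real.rpow_add hX0]
          have e1 : (X ^ (49954 / 100000 : ℝ)) ^ 2 = X ^ (99908 / 100000 : ℝ) := by
            rw [← Real.rpow_natCast, ← Real.rpow_mul hX0.le]; norm_num
          have e2 : (X ^ (4 / 10000 : ℝ)) ^ 2 = X ^ (8 / 10000 : ℝ) := by
            rw [← Real.rpow_natCast, ← Real.rpow_mul hX0.le]; norm_num
          rw [e1, mul_pow, e2]; ring
      _ ≤ 128 * (X + X ^ (9999 / 10000 : ℝ) * F) * L ^ 2 := by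
          have : X ^ (99908 / 100000 + 8 / 10000 : ℝ) ≤ X ^ (9999 / 10000 : ℝ) :=
            Real.rpow_le_rpow_of_exponent_le hX1 (by norm_num)
          have h5 : X ^ (99908 / 100000 + 8 / 10000 : ℝ) * (F:ℝ) ≤
              X ^ (9999 / 10000 : ℝ) * F := mul_le_mul_of_nonneg_right this (by positivity)
          gcongr
          linarith
  have h4 := typeII_sum X x hX hL1 hx1 hx h2 U hU1 F hF
  rw [← hL] at h4
  linarith

end Pool.Agent.Q117.CR.LSP

namespace Pool.Agent.Q117.CR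

open Finset Filter Topology

/-- **LSP** -/
theorem lsp : St_LSP := by
  have h1 := (tendsto_rpow_atTop (show (0:ℝ) < 4 / 10000 by norm_num)).eventually_ge_atTop 2
  have h2 := Real.tendsto_log_atTop.eventually_ge_atTop (128 + 2 * 12 * 2 * 27 * 2 * 24 : ℝ)
  obtain ⟨X0, hX0⟩ := eventually_atTop.mp ((h1.and h2).and (eventually_ge_atTop (4:ℝ)))
  refine ⟨7, X0, fun X hX x hx1 hx2 F hF => ?_⟩
  obtain ⟨⟨h3, h4⟩, h5⟩ := hX0 X hX
  have hX1 : 1 ≤ X := by linarith
  have hx : 1 ≤ x := (Real.one_le_rpow hX1 (by norm_num)).trans hx1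
  have hL1 : 1 ≤ Real.log X := by linarith
  have h6 := LSP.ls_psiLog X x h5 hL1 hx hx2 h3 F hF
  unfold TT1
  refine h6.trans ?_
  set L := Real.log X with hL
  set M := X + X ^ (9999 / 10000 : ℝ) * F with hM
  have hM0 : 0 ≤ M := by positivity
  have h7 : L ^ 2 ≤ L ^ 6 := pow_le_pow_right₀ hL1 (by norm_num)
  calc 128 * M * L ^ 2 + 2 * L * (12 * (2 * L * (3 * L) ^ 3 * (2 * L)) * (24 * M)) =
      128 * M * L ^ 2 + (2 * 12 * 2 * 27 * 2 * 24) * M * L ^ 6 := by ring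
    _ ≤ 128 * M * L ^ 6 + (2 * 12 * 2 * 27 * 2 * 24) * M * L ^ 6 := by gcongr
    _ = (128 + 2 * 12 * 2 * 27 * 2 * 24) * (M * L ^ 6) := by ring
    _ ≤ L * (M * L ^ 6) := mul_le_mul_of_nonneg_right h4 (by positivity)
    _ = M * L ^ 7 := by ring

end Pool.Agent.Q117.CR
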