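import Pool.Agent.Q117.CR.Stm

/-!
Project CR (helper117), job MS: the mass of the trapezoid (helper162).
-/

set_option autoImplicit false

namespace Pool.Agent.Q117.CR

open Finset Filter
open Pool.Agent.Y843.CH (PNX card_PNX' pi1_eq)

lemma exp_le_two {x : ℝ} (hx : 0 ≤ x) (hx1 : x ≤ 1 / 2) : Real.exp x ≤ 1 + 2 * x := by
  have h1 := Real.one_sub_le_exp_neg x
  have h2 : 0 < Real.exp (-x) := Real.exp_pos _
  have h3 : Real.exp x * Real.exp (-x) = 1 := by rw [← Real.exp_add, add_neg_cancel, Real.exp_zero]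
  have h4 : (1 + 2 * x) * Real.exp (-x) ≥ 1 := by nlinarith
  by_contra hcon
  push Not at hcon
  nlinarith

theorem ms (hTZ : St_TZ) : St_MS := by
  classical
  intro θ hθ hθ1
  obtain ⟨κ, hκ⟩ : ∃ κ : ℝ, κ = θ / 1000000 := ⟨_, rfl⟩
  obtain ⟨η, hη⟩ : ∃ η : ℝ, η = θ / 100000000 := ⟨_, rfl⟩
  obtain ⟨δ, hδ⟩ : ∃ δ : ℝ, δ = θ / 100000 := ⟨_, rfl⟩
  have hκ0 : 0 < κ := by rw [hκ]; positivity
  have hη0 : 0 < η := by rw [hη]; positivity
  have hδ0 : 0 < δ := by rw [hδ]; positivity
  obtain ⟨N1, h1⟩ := Pool.Agent.Y840.CI.pi_bounds η hη0 (by rw [hη]; linarith)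
  obtain ⟨N2, h2⟩ := eventually_atTop.1 ((Real.tendsto_log_atTop.comp tendsto_natCast_atTop_atTop).eventually_ge_atTop
    (1000000 * Real.log (1 / κ)))
  refine ⟨max (max N1 N2) (max 4 (⌈2000000 / θ⌉₊)), ?_⟩
  intro N hN X hX1 hX2 A B hNA hAB hBX hθX
  have g1 : N1 ≤ N := ((le_max_left _ _).trans (le_max_left _ _)).trans hN
  have g2 : N2 ≤ N := ((le_max_right _ _).trans (le_max_left _ _)).trans hN
  have g3 : 4 ≤ N := ((le_max_left _ _).trans (le_max_right _ _)).trans hN
  have g4 : ⌈2000000 / θ⌉₊ ≤ N := ((le_max_right _ _).trans (le_max_right _ _)).trans hN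
  have hNX : N ≤ X := by nlinarith
  have hN4 : (4 : ℝ) ≤ N := by exact_mod_cast g3
  have hNXr : (N : ℝ) ≤ X := by exact_mod_cast hNX
  have hL : 0 < Real.log N := Real.log_pos (by linarith)
  have hLX : 0 < Real.log X := Real.log_pos (by linarith)
  have hLNX : Real.log N ≤ Real.log X := Real.log_le_log (by linarith) hNXr
  have hlogκ : 1000000 * Real.log (1 / κ) ≤ Real.log X := (h2 N g2).trans hLNX
  have hX6 : 2 ≤ θ / 1000000 * X := by
    have e1 : 2000000 / θ ≤ X := (Nat.ceil_le.1 g4).trans hNXr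
    rw [div_le_iff₀ hθ] at e1
    linarith
  have hA0 : (0 : ℝ) < A := by exact_mod_cast (by omega : 0 < A)
  have hAX : (A : ℝ) ≤ X := by exact_mod_cast hAB.trans hBX
  have hBXr : (B : ℝ) ≤ X := by exact_mod_cast hBX
  have hB0 : (0 : ℝ) < B := by exact_mod_cast (by omega : 0 < B)
  have hX0 : (0 : ℝ) < X := by linarith
  have hab : (A : ℝ) * Real.exp (2 * δ) ≤ B := by
    have e1 := exp_le_two (x := 2 * δ) (by linarith) (by rw [hδ]; linarith)
    have e2 : (A : ℝ) * Real.exp (2 * δ) ≤ A * (1 + 2 * (2 * δ)) := mul_le_mul_of_nonneg_left e1 hA0.le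
    have e3 : 4 * δ * A ≤ 4 * δ * X := mul_le_mul_of_nonneg_left hAX (by linarith)
    have e4 : 4 * δ * X ≤ θ * X := mul_le_mul_of_nonneg_right (by rw [hδ]; linarith) hX0.le
    linarith
  have htz : ∀ p : ℕ, 1 ≤ p → 0 ≤ tz δ A B p ∧ tz δ A B p ≤ 1 ∧ (A * Real.exp δ ≤ p → (p : ℝ) ≤ B * Real.exp (-δ) → tz δ A B p = 1) := by
    intro p hp
    obtain ⟨t1, t2, _, _, t5⟩ := hTZ δ A B p hδ0 hA0 hab hp
    exact ⟨t1, t2, t5⟩
  obtain ⟨a1, a2⟩ := h1 N g1 X hX1 hX2 A hNA (hAB.trans hBX)
  obtain ⟨b1, b2⟩ := h1 N g1 X hX1 hX2 B (hNA.trans hAB) hBX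
  have hcAB : ((PNX A B).card : ℝ) = (Nat.primeCounting B : ℝ) - Nat.primeCounting A := by
    rw [card_PNX' hAB, pi1_eq, pi1_eq]
  rw [← hδ]
  constructor
  · -- lower bound
    obtain ⟨a', ha'⟩ : ∃ a' : ℕ, a' = max ⌈A * Real.exp δ⌉₊ ⌈κ * X⌉₊ := ⟨_, rfl⟩
    obtain ⟨b', hb'⟩ : ∃ b' : ℕ, b' = ⌊B * Real.exp (-δ)⌋₊ := ⟨_, rfl⟩
    have c1 : A * Real.exp δ ≤ a' := by
      rw [ha']
      exact (Nat.le_ceil _).trans (by exact_mod_cast le_max_left _ _)
    have c2 : κ * X ≤ a' := by
      rw [ha']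
      exact (Nat.le_ceil _).trans (by exact_mod_cast le_max_right _ _)
    have c3 : (b' : ℝ) ≤ B * Real.exp (-δ) := by
      rw [hb']
      exact Nat.floor_le (by positivity)
    have c4 : (a' : ℝ) ≤ A + 2 * δ * X + κ * X + 1 := by
      have e1 := exp_le_two (x := δ) hδ0.le (by rw [hδ]; linarith)
      have e2 : (A : ℝ) * Real.exp δ ≤ A * (1 + 2 * δ) := mul_le_mul_of_nonneg_left e1 hA0.le
      have e3 : 2 * δ * A ≤ 2 * δ * X := mul_le_mul_of_nonneg_left hAX (by linarith)
      have e4 : 0 ≤ κ * X := by positivity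
      have e5 : 0 ≤ δ * X := by positivity
      rw [ha', Nat.cast_max, max_le_iff]
      constructor
      · have := (Nat.ceil_lt_add_one (show (0 : ℝ) ≤ A * Real.exp δ by positivity)).le
        linarith
      · have := (Nat.ceil_lt_add_one (show (0 : ℝ) ≤ κ * X by positivity)).le
        linarith
    have c5 : B - δ * X - 1 ≤ (b' : ℝ) := by
      have e1 := Real.one_sub_le_exp_neg δ
      have e2 : (B : ℝ) * (1 - δ) ≤ B * Real.exp (-δ) := mul_le_mul_of_nonneg_left e1 hB0.le
      have e3 : δ * B ≤ δ * X := mul_le_mul_of_nonneg_left hBXr hδ0.le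
      have e4 := Nat.lt_floor_add_one (B * Real.exp (-δ))
      rw [← hb'] at e4
      linarith
    have hAa' : A ≤ a' := by
      have : (A : ℝ) ≤ a' := by
        refine le_trans ?_ c1
        exact le_mul_of_one_le_right hA0.le (Real.one_le_exp hδ0.le)
      exact_mod_cast this
    have hb'B : b' ≤ B := by
      have : (b' : ℝ) ≤ B := by
        refine c3.trans ?_
        exact mul_le_of_le_one_right hB0.le (Real.exp_le_one_iff.2 (by linarith))
      exact_mod_cast this
    have d1 : (b' : ℝ) - a' - 9 * η * X ≥ (1 - 1 / 10000) * ((B : ℝ) - A) := by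
      have e1 : δ * X = 1 / 100000 * (θ * X) := by rw [hδ]; ring
      have e2 : κ * X = 1 / 1000000 * (θ * X) := by rw [hκ]; ring
      have e3 : η * X = 1 / 100000000 * (θ * X) := by rw [hη]; ring
      have e4 : 2 ≤ 1 / 1000000 * (θ * X) := by linarith
      have e5 : 0 ≤ θ * X := by positivity
      linarith
    have hab' : a' ≤ b' := by
      have : (a' : ℝ) ≤ b' := by
        have e5 : 0 ≤ θ * X := by positivity
        have e6 : 0 ≤ η * X := by positivity
        linarith
      exact_mod_cast this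
    obtain ⟨p1, p2⟩ := h1 N g1 X hX1 hX2 a' (hNA.trans hAa') ((hab'.trans hb'B).trans hBX)
    obtain ⟨q1, q2⟩ := h1 N g1 X hX1 hX2 b' ((hNA.trans hAa').trans hab') (hb'B.trans hBX)
    have hcard : ((PNX a' b').card : ℝ) = (Nat.primeCounting b' : ℝ) - Nat.primeCounting a' := by
      rw [card_PNX' hab', pi1_eq, pi1_eq]
    have hsub : PNX a' b' ⊆ (Ioc A B).filter Nat.Prime := by
      intro p hp
      unfold PNX at hp
      rw [mem_filter, mem_Ioc] at hp ⊢
      exact ⟨⟨by omega, by omega⟩, hp.2⟩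
    have hlow : ((PNX a' b').card : ℝ) * ((1 - 1 / 1000000) * Real.log X) ≤ PT1 δ A B := by
      unfold PT1
      rw [← nsmul_eq_mul, ← sum_const]
      refine le_trans (b := ∑ p ∈ PNX a' b', tz δ A B p * Real.log p) (sum_le_sum ?_) (sum_le_sum_of_subset_of_nonneg hsub ?_)
      · intro p hp
        unfold PNX at hp
        rw [mem_filter, mem_Ioc] at hp
        obtain ⟨⟨r1, r2⟩, r3⟩ := hp
        have r1' : (a' : ℝ) < p := by exact_mod_cast r1
        have r2' : (p : ℝ) ≤ b' := by exact_mod_cast r2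
        rw [(htz p r3.pos).2.2 (by linarith) (by linarith), one_mul]
        have s1 : Real.log (κ * X) ≤ Real.log p := Real.log_le_log (by positivity) (by linarith)
        rw [Real.log_mul hκ0.ne' hX0.ne'] at s1
        have s2 : Real.log (1 / κ) = -Real.log κ := by rw [one_div, Real.log_inv]
        rw [s2] at hlogκ
        linarith
      · intro p hp _
        rw [mem_filter] at hp
        exact mul_nonneg (htz p hp.2.pos).1 (Real.log_nonneg (by exact_mod_cast hp.2.one_lt.le))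
    rw [le_div_iff₀ hLX]
    refine le_trans ?_ hlow
    have f1 : (1 - 1 / 10000) * ((B : ℝ) - A) / (2 * Real.log N) ≤ ((PNX a' b').card : ℝ) := by
      rw [hcard]
      have f2 : ((b' : ℝ) - 2 * η * X) / (2 * Real.log N) - ((a' : ℝ) + 7 * η * X) / (2 * Real.log N) =
          ((b' : ℝ) - a' - 9 * η * X) / (2 * Real.log N) := by ring
      have f3 : (1 - 1 / 10000) * ((B : ℝ) - A) / (2 * Real.log N) ≤ ((b' : ℝ) - a' - 9 * η * X) / (2 * Real.log N) :=
        div_le_div_of_nonneg_right d1 (by linarith)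
      linarith
    have hAB0 : 0 ≤ ((B : ℝ) - A) / Real.log N := by
      apply div_nonneg _ hL.le
      have : 0 ≤ θ * X := by positivity
      linarith
    calc 4995 / 10000 * (((B : ℝ) - A) / Real.log N) * Real.log X ≤
          ((1 - 1 / 10000) * (1 - 1 / 1000000) / 2) * (((B : ℝ) - A) / Real.log N) * Real.log X := by
            apply mul_le_mul_of_nonneg_right _ hLX.le
            apply mul_le_mul_of_nonneg_right _ hAB0
            norm_num
      _ = (1 - 1 / 10000) * ((B : ℝ) - A) / (2 * Real.log N) * ((1 - 1 / 1000000) * Real.log X) := by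
            field_simp
      _ ≤ _ := mul_le_mul_of_nonneg_right f1 (by linarith)
  · -- upper bound
    rw [div_le_iff₀ hLX]
    have f1 : PT1 δ A B ≤ ((PNX A B).card : ℝ) * Real.log X := by
      unfold PT1 PNX
      rw [← nsmul_eq_mul, ← sum_const]
      apply sum_le_sum
      intro p hp
      rw [mem_filter, mem_Ioc] at hp
      obtain ⟨⟨r1, r2⟩, r3⟩ := hp
      have hp1 : (1 : ℝ) ≤ p := by exact_mod_cast r3.one_lt.le
      have hpX : (p : ℝ) ≤ X := by
        have : (p : ℝ) ≤ B := by exact_mod_cast r2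
        linarith
      have s1 : Real.log p ≤ Real.log X := Real.log_le_log (by linarith) hpX
      have s0 : 0 ≤ Real.log p := Real.log_nonneg hp1
      obtain ⟨t1, t2, _⟩ := htz p r3.pos
      calc tz δ A B p * Real.log p ≤ 1 * Real.log p := mul_le_mul_of_nonneg_right t2 s0
        _ ≤ _ := by rw [one_mul]; exact s1
    refine f1.trans (mul_le_mul_of_nonneg_right ?_ hLX.le)
    rw [hcAB]
    have f2 : ((B : ℝ) + 7 * η * X) / (2 * Real.log N) - ((A : ℝ) - 2 * η * X) / (2 * Real.log N) =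
        ((B : ℝ) - A + 9 * η * X) / (2 * Real.log N) := by ring
    have f3 : ((B : ℝ) - A + 9 * η * X) / (2 * Real.log N) ≤ (2 * ((B : ℝ) - A)) / (2 * Real.log N) := by
      apply div_le_div_of_nonneg_right _ (by linarith)
      have e3 : η * X = 1 / 100000000 * (θ * X) := by rw [hη]; ring
      have e5 : 0 ≤ θ * X := by positivity
      linarith
    have f4 : (2 * ((B : ℝ) - A)) / (2 * Real.log N) = ((B : ℝ) - A) / Real.log N := by
      rw [mul_div_mul_left _ _ (by norm_num)]
    linarith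

end Pool.Agent.Q117.CR
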