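import Pool.Agent.Q117.CR.Stm
import Pool.Agent.H378R2.M1

/-! Project CR (helper117), job PL: from the tent weight to the log weight. -/

set_option autoImplicit false

open Finset

namespace Pool.Agent.Q117.CR

open Pool.Agent.H378R2
open Pool.Agent.H378R2.M1
open Pool.Agent.H410R2 (psiLog)

namespace PL

theorem abel (a : ℕ → ℂ) (J : ℕ) :
    ∑ j ∈ range J, ((j : ℂ) + 1) * (a (j + 2) - 2 * a (j + 1) + a j) =
      a 0 - ((J : ℂ) + 1) * a J + (J : ℂ) * a (J + 1) := by
  induction J with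
  | zero => simp
  | succ J ih =>
    rw [sum_range_succ, ih]
    push_cast
    ring

theorem psiLog_zero (x : ℝ) (hx : x < 1) (f : ℕ) (χ : DirichletCharacter ℂ f) :
    psiLog x f χ = 0 := by
  unfold psiLog
  have : ⌊x⌋₊ = 0 := by
    rw [Nat.floor_eq_zero]; exact hx
  rw [this]
  simp

theorem decomp (x : ℝ) (hx : 0 < x) (f : ℕ) (χ : DirichletCharacter ℂ f) (J : ℕ)
    (hJ : x * Real.exp (-(J : ℝ) / 2) < 1) :
    psiLog x f χ = ∑ j ∈ range J, ((j : ℂ) + 1) * psiPhi χ (x * Real.exp (-1 - (j : ℝ) / 2)) := by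
  have h1 := abel (fun j => psiLog (x * Real.exp (-(j : ℝ) / 2)) f χ) J
  have h2 : psiLog (x * Real.exp (-(J : ℝ) / 2)) f χ = 0 := psiLog_zero _ hJ f χ
  have h3 : psiLog (x * Real.exp (-((J + 1 : ℕ) : ℝ) / 2)) f χ = 0 := by
    apply psiLog_zero
    refine lt_of_le_of_lt ?_ hJ
    apply mul_le_mul_of_nonneg_left _ hx.le
    apply Real.exp_le_exp.mpr
    push_cast
    linarith
  simp only [h2, h3, mul_zero, sub_zero, add_zero] at h1
  have h4 : x * Real.exp (-((0 : ℕ) : ℝ) / 2) = x := by simp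
  rw [h4] at h1
  rw [← h1]
  apply sum_congr rfl
  intro j _
  congr 1
  rw [LSBV.psiPhi_eq _ (by positivity)]
  have e1 : Real.exp (1 / 2) * (x * Real.exp (-1 - (j : ℝ) / 2)) =
      x * Real.exp (-((j + 1 : ℕ) : ℝ) / 2) := by
    rw [mul_left_comm, ← Real.exp_add]
    push_cast
    congr 2
    ring
  have e2 : Real.exp 1 * (x * Real.exp (-1 - (j : ℝ) / 2)) =
      x * Real.exp (-(j : ℝ) / 2) := by
    rw [mul_left_comm, ← Real.exp_add]
    congr 2
    ring
  have e3 : x * Real.exp (-1 - (j : ℝ) / 2) = x * Real.exp (-((j + 2 : ℕ) : ℝ) / 2) := by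
    push_cast
    congr 2
    ring
  rw [e1, e2, e3]

theorem Phi_nonneg (u : ℝ) : 0 ≤ Phi u := le_max_left _ _

theorem Phi_le (u : ℝ) : Phi u ≤ 1 := by
  unfold Phi
  apply max_le (by norm_num)
  have := abs_nonneg (Real.log u - 1 / 2)
  linarith

theorem trivial_bound {f : ℕ} (χ : DirichletCharacter ℂ f) (y L : ℝ) (hy : 0 < y) (hL : 0 ≤ L)
    (h : Real.log (3 * y) ≤ L) : ‖psiPhi χ y‖ ≤ 3 * y * L := by
  unfold psiPhi
  refine (norm_sum_le _ _).trans ?_
  have h1 : ∀ n ∈ Icc 1 ⌊3 * y⌋₊,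
      ‖((Phi (n / y) * ArithmeticFunction.vonMangoldt n : ℝ) : ℂ) * χ (n : ZMod f)‖ ≤ L := by
    intro n hn
    rw [mem_Icc] at hn
    have hn0 : (0 : ℝ) < n := by exact_mod_cast hn.1
    have hn3 : (n : ℝ) ≤ 3 * y := (Nat.cast_le.mpr hn.2).trans (Nat.floor_le (by positivity))
    rw [norm_mul, Complex.norm_real, Real.norm_of_nonneg
      (mul_nonneg (Phi_nonneg _) ArithmeticFunction.vonMangoldt_nonneg)]
    have h2 : ArithmeticFunction.vonMangoldt n ≤ L :=
      (ArithmeticFunction.vonMangoldt_le_log).trans ((Real.log_le_log hn0 hn3).trans h)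
    have h3 : ‖χ (n : ZMod f)‖ ≤ 1 := DirichletCharacter.norm_le_one χ _
    have h4 : Phi (n / y) * ArithmeticFunction.vonMangoldt n ≤ 1 * L :=
      mul_le_mul (Phi_le _) h2 ArithmeticFunction.vonMangoldt_nonneg (by norm_num)
    calc _ ≤ (1 * L) * 1 := mul_le_mul h4 h3 (norm_nonneg _) (by linarith)
      _ = L := by ring
  refine (sum_le_sum h1).trans ?_
  rw [sum_const, Nat.card_Icc, nsmul_eq_mul]
  have h5 : ((⌊3 * y⌋₊ + 1 - 1 : ℕ) : ℝ) ≤ 3 * y := by
    rw [Nat.add_sub_cancel]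
    exact Nat.floor_le (by positivity)
  exact mul_le_mul_of_nonneg_right h5 hL

theorem exp_ge (j : ℕ) : ((j : ℝ) + 1) * Real.exp (-1 - (j : ℝ) / 2) ≤ 1 := by
  have h1 : (j : ℝ) + 1 ≤ Real.exp (1 + (j : ℝ) / 2) := by
    have h2 := Real.add_one_le_exp ((j : ℝ) / 2)
    have h3 := Real.exp_one_gt_d9
    rw [Real.exp_add]
    have h4 : (0 : ℝ) ≤ j := by positivity
    nlinarith [Real.exp_pos ((j : ℝ) / 2)]
  have h5 : Real.exp (-1 - (j : ℝ) / 2) = (Real.exp (1 + (j : ℝ) / 2))⁻¹ := by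
    rw [← Real.exp_neg]; congr 1; ring
  rw [h5, ← div_eq_mul_inv, div_le_one (Real.exp_pos _)]
  exact h1

end PL

open PL in
theorem pl : St_PL := by
  obtain ⟨a, ha⟩ := exp_dominates 400 7
  refine ⟨Real.exp (Real.exp (max a 4)), fun X hX f χ hH x hx1 hx2 => ?_⟩
  unfold ll at hH ⊢
  set lam := Real.log (Real.log X) with hlam
  have hXpos : 0 < X := (Real.exp_pos _).trans_le hX
  have hL : Real.exp (max a 4) ≤ Real.log X := by
    rw [Real.le_log_iff_exp_le hXpos]; exact hX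
  have hLpos : 0 < Real.log X := (Real.exp_pos _).trans_le hL
  have hlam1 : max a 4 ≤ lam := by
    rw [hlam, Real.le_log_iff_exp_le hLpos]; exact hL
  have hlam4 : 4 ≤ lam := (le_max_right _ _).trans hlam1
  have hlama : a ≤ lam := (le_max_left _ _).trans hlam1
  have hexplam : Real.exp lam = Real.log X := by rw [hlam, Real.exp_log hLpos]
  have hdom := ha lam hlama
  have hlam1' : 1 ≤ lam := by linarith
  have hp7 : lam ≤ lam ^ 7 := le_self_pow₀ hlam1' (by norm_num)
  have hL8 : 8 ≤ Real.log X := by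
    rw [← hexplam]
    have h1 := Real.add_one_le_exp (lam / 2)
    have h2 : Real.exp lam = Real.exp (lam / 2) * Real.exp (lam / 2) := by
      rw [← Real.exp_add]; congr 1; ring
    rw [h2]
    nlinarith
  have hX1 : 1 ≤ X := by
    have : 0 ≤ Real.exp (max a 4) := (Real.exp_pos _).le
    exact (Real.one_le_exp this).trans hX
  have hx20 : 1 ≤ X ^ (1 / 20 : ℝ) := Real.one_le_rpow hX1 (by norm_num)
  have hxpos : 0 < x := by linarith
  have hlog3 : Real.log 3 ≤ 2 := by
    have := Real.log_le_sub_one_of_pos (show (0 : ℝ) < 3 by norm_num)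
    linarith
  have hlogx : Real.log x ≤ Real.log X + 2 := by
    have h1 : Real.log x ≤ Real.log (3 * X) := Real.log_le_log hxpos hx2
    rw [Real.log_mul (by norm_num) hXpos.ne'] at h1
    linarith
  have hlogx0 : 0 ≤ Real.log x := Real.log_nonneg (by linarith)
  set J : ℕ := ⌊2 * Real.log x⌋₊ + 1 with hJdef
  have hJ1 : 2 * Real.log x < J := by
    rw [hJdef]; push_cast; exact Nat.lt_floor_add_one _
  have hJ2 : (J : ℝ) ≤ 4 * Real.log X := by
    rw [hJdef]; push_cast
    have := Nat.floor_le (show 0 ≤ 2 * Real.log x by positivity)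
    linarith
  have hJx : x * Real.exp (-(J : ℝ) / 2) < 1 := by
    have h1 : x = Real.exp (Real.log x) := (Real.exp_log hxpos).symm
    rw [h1, ← Real.exp_add]
    apply Real.exp_lt_one_iff.mpr
    linarith
  rw [decomp x hxpos f χ J hJx]
  set E : ℝ := Real.exp (-lam ^ 7) with hE
  -- bound of each term
  have hterm : ∀ j ∈ range J, ‖((j : ℂ) + 1) * psiPhi χ (x * Real.exp (-1 - (j : ℝ) / 2))‖ ≤
      x * E + 12 * Real.log X ^ 2 * X ^ (1 / 40 : ℝ) := by
    intro j hj
    rw [mem_range] at hj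
    set y : ℝ := x * Real.exp (-1 - (j : ℝ) / 2) with hy
    have hypos : 0 < y := by positivity
    have hnorm : ‖((j : ℂ) + 1)‖ = (j : ℝ) + 1 := by
      have : ((j : ℂ) + 1) = (((j : ℝ) + 1 : ℝ) : ℂ) := by push_cast; rfl
      rw [this, Complex.norm_real, Real.norm_of_nonneg (by positivity)]
    rw [norm_mul, hnorm]
    have hyx : y ≤ x := by
      rw [hy]
      have : Real.exp (-1 - (j : ℝ) / 2) ≤ 1 := by
        apply Real.exp_le_one_iff.mpr
        have : (0 : ℝ) ≤ j := by positivity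
        linarith
      nlinarith
    have hX40 : 0 < X ^ (1 / 40 : ℝ) := by positivity
    rcases le_total (X ^ (1 / 40 : ℝ)) y with h | h
    · have h1 := hH y h (by linarith)
      have h2 : ((j : ℝ) + 1) * y ≤ x := by
        rw [hy]
        have := exp_ge j
        calc ((j : ℝ) + 1) * (x * Real.exp (-1 - (j : ℝ) / 2)) =
            x * (((j : ℝ) + 1) * Real.exp (-1 - (j : ℝ) / 2)) := by ring
          _ ≤ x * 1 := mul_le_mul_of_nonneg_left this hxpos.le
          _ = x := by ring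
      calc ((j : ℝ) + 1) * ‖psiPhi χ y‖ ≤ ((j : ℝ) + 1) * (y * E) := by gcongr
        _ = (((j : ℝ) + 1) * y) * E := by ring
        _ ≤ x * E := by gcongr
        _ ≤ _ := by
          have : 0 ≤ 12 * Real.log X ^ 2 * X ^ (1 / 40 : ℝ) := by positivity
          linarith
    · have h1 : Real.log (3 * y) ≤ Real.log X := by
        have h3 : Real.log (3 * y) = Real.log 3 + Real.log y := Real.log_mul (by norm_num) hypos.ne'
        have h4 : Real.log y ≤ Real.log (X ^ (1 / 40 : ℝ)) := Real.log_le_log hypos h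
        rw [Real.log_rpow hXpos] at h4
        linarith
      have h2 := trivial_bound χ y (Real.log X) hypos hLpos.le h1
      have h5 : (j : ℝ) + 1 ≤ 4 * Real.log X := by
        have : ((j + 1 : ℕ) : ℝ) ≤ J := by exact_mod_cast hj
        push_cast at this
        linarith
      calc ((j : ℝ) + 1) * ‖psiPhi χ y‖ ≤ (4 * Real.log X) * (3 * X ^ (1 / 40 : ℝ) * Real.log X) := by
            apply mul_le_mul h5 _ (norm_nonneg _) (by positivity)
            refine h2.trans ?_
            gcongr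
        _ = 12 * Real.log X ^ 2 * X ^ (1 / 40 : ℝ) := by ring
        _ ≤ _ := by
          have : 0 ≤ x * E := by positivity
          linarith
  refine (norm_sum_le _ _).trans ((sum_le_sum hterm).trans ?_)
  rw [sum_const, card_range, nsmul_eq_mul]
  have hstep : (J : ℝ) * (x * E + 12 * Real.log X ^ 2 * X ^ (1 / 40 : ℝ)) ≤
      4 * Real.log X * (x * E) + 48 * Real.log X ^ 3 * X ^ (1 / 40 : ℝ) := by
    calc (J : ℝ) * (x * E + 12 * Real.log X ^ 2 * X ^ (1 / 40 : ℝ)) ≤
        (4 * Real.log X) * (x * E + 12 * Real.log X ^ 2 * X ^ (1 / 40 : ℝ)) := by gcongr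
      _ = _ := by ring
  refine hstep.trans ?_
  -- first part
  have h8 : (8 : ℝ) ≤ Real.exp lam := by rw [hexplam]; exact hL8
  have hbig : 3 * lam ≤ lam ^ 7 / 2 := by
    have h1 : lam ^ 7 = lam ^ 6 * lam := by ring
    have h2 : (4 : ℝ) ^ 6 ≤ lam ^ 6 := by gcongr
    norm_num at h2
    nlinarith
  have p1 : 4 * Real.log X * (x * E) ≤ x * Real.exp (-lam ^ 7 / 2) / 2 := by
    have h1 : E = Real.exp (-lam ^ 7 / 2) * Real.exp (-lam ^ 7 / 2) := by
      rw [hE, ← Real.exp_add]; congr 1; ring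
    have h2 : 8 * Real.log X * Real.exp (-lam ^ 7 / 2) ≤ 1 := by
      calc 8 * Real.log X * Real.exp (-lam ^ 7 / 2) ≤
          Real.exp lam * Real.exp lam * Real.exp (-lam ^ 7 / 2) := by
            rw [← hexplam]; gcongr
        _ = Real.exp (2 * lam - lam ^ 7 / 2) := by
            rw [← Real.exp_add, ← Real.exp_add]; congr 1; ring
        _ ≤ 1 := by
            apply Real.exp_le_one_iff.mpr
            linarith
    rw [h1]
    calc 4 * Real.log X * (x * (Real.exp (-lam ^ 7 / 2) * Real.exp (-lam ^ 7 / 2))) =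
        (8 * Real.log X * Real.exp (-lam ^ 7 / 2)) * (x * Real.exp (-lam ^ 7 / 2) / 2) := by ring
      _ ≤ 1 * (x * Real.exp (-lam ^ 7 / 2) / 2) := by gcongr
      _ = _ := by ring
  -- second part
  have p2 : 48 * Real.log X ^ 3 * X ^ (1 / 40 : ℝ) ≤ x * Real.exp (-lam ^ 7 / 2) / 2 := by
    have h1 : X ^ (1 / 40 : ℝ) * X ^ (1 / 40 : ℝ) ≤ x := by
      rw [← Real.rpow_add hXpos]
      norm_num
      norm_num at hx1
      exact hx1
    have h2 : X ^ (1 / 40 : ℝ) = Real.exp (Real.exp lam / 40) := by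
      rw [Real.rpow_def_of_pos hXpos, hexplam]; congr 1; ring
    have h3 : 96 * Real.log X ^ 3 ≤ X ^ (1 / 40 : ℝ) * Real.exp (-lam ^ 7 / 2) := by
      have h4 : (96 : ℝ) ≤ Real.exp lam ^ 3 := by
        calc (96 : ℝ) ≤ 8 ^ 3 := by norm_num
          _ ≤ Real.exp lam ^ 3 := by gcongr
      rw [h2, ← hexplam, ← Real.exp_add]
      calc 96 * Real.exp lam ^ 3 ≤ Real.exp lam ^ 3 * Real.exp lam ^ 3 := by gcongr
        _ = Real.exp (6 * lam) := by
          rw [← Real.exp_nat_mul, ← Real.exp_add]; congr 1; push_cast; ring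
        _ ≤ Real.exp (Real.exp lam / 40 + -lam ^ 7 / 2) := by
          apply Real.exp_le_exp.mpr
          linarith
    calc 48 * Real.log X ^ 3 * X ^ (1 / 40 : ℝ) = (96 * Real.log X ^ 3) * X ^ (1 / 40 : ℝ) / 2 := by ring
      _ ≤ (X ^ (1 / 40 : ℝ) * Real.exp (-lam ^ 7 / 2)) * X ^ (1 / 40 : ℝ) / 2 := by gcongr
      _ = (X ^ (1 / 40 : ℝ) * X ^ (1 / 40 : ℝ)) * Real.exp (-lam ^ 7 / 2) / 2 := by ring
      _ ≤ _ := by gcongr
  linarith

end Pool.Agent.Q117.CR
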