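import Pool.Agent.Q117.CR.Stm
import Pool.Agent.Y843.CH.Prod

/-!
# Project CR, job PRW: the products of the local densities
-/

set_option autoImplicit false

namespace Pool.Agent.Q117.CR

open Finset Filter
open Pool.Agent.Y660.RP (P1 mem_P1)
open Pool.Agent.Y843.HS (Pr Pr_mem Pr_prime)
open Pool.Agent.Y843.HG (Adm Z0 V1)
open Pool.Agent.Y843.CH (Dat ZA gC V1_pos Pr_split_prod arith_p arith_q2 hr)

namespace PRW

theorem totient_ratio {W : ℕ} (hW : 1 ≤ W) :
    (Nat.totient W : ℝ) / W = ∏ p ∈ W.primeFactors, (1 - 1 / (p : ℝ)) := by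
  have h1 := Nat.totient_eq_mul_prod_factors W
  have h2 : (0 : ℝ) < W := by exact_mod_cast hW
  have h3 : (Nat.totient W : ℝ) = W * ∏ p ∈ W.primeFactors, (1 - (p : ℝ)⁻¹) := by
    have h4 : ((Nat.totient W : ℚ) : ℝ) = ((W * ∏ p ∈ W.primeFactors, (1 - (p : ℚ)⁻¹) : ℚ) : ℝ) := by
      rw [h1]
    push_cast at h4
    exact h4
  rw [h3, mul_div_cancel_left₀ _ h2.ne']
  apply prod_congr rfl
  intro p _
  rw [one_div]

theorem half_le {p : ℕ} (hp : p.Prime) : (1 : ℝ) / 2 ≤ 1 - 1 / (p : ℝ) := by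
  have h1 : (2 : ℝ) ≤ p := by exact_mod_cast hp.two_le
  have h2 : 1 / (p : ℝ) ≤ 1 / 2 := one_div_le_one_div_of_le (by norm_num) h1
  linarith

/-- the primes that divide the modulus -/
theorem prod_div {W ps Y : ℕ} (hW : 1 ≤ W) (hWY : ∀ q : ℕ, q.Prime → q ∣ W → q ≤ Y)
    (hps : ps = 1 ∨ (ps.Prime ∧ ¬ ps ∣ W ∧ ps ≤ Y)) :
    (Nat.totient W : ℝ) / W * (1 / 2) ≤ ∏ p ∈ (Pr 0 Y).filter (fun q => q ∣ W * ps), (1 - 1 / (p : ℝ)) := by
  rw [totient_ratio hW]
  have hpos : 0 ≤ ∏ p ∈ W.primeFactors, (1 - 1 / (p : ℝ)) := by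
    apply Finset.prod_nonneg
    intro p hp
    have := half_le (Nat.prime_of_mem_primeFactors hp)
    linarith
  rcases hps with rfl | ⟨h1, h2, h3⟩
  · have e : (Pr 0 Y).filter (fun q => q ∣ W * 1) = W.primeFactors := by
      ext p
      rw [mem_filter, Pr_mem, mul_one, Nat.mem_primeFactors]
      constructor
      · rintro ⟨⟨_, h2⟩, h3⟩
        exact ⟨h2, h3, by omega⟩
      · rintro ⟨h1, h2, _⟩
        exact ⟨⟨⟨h1.pos, hWY p h1 h2⟩, h1⟩, h2⟩
    rw [e]
    linarith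
  · have e : (Pr 0 Y).filter (fun q => q ∣ W * ps) = insert ps W.primeFactors := by
      ext p
      rw [mem_filter, Pr_mem, mem_insert, Nat.mem_primeFactors]
      constructor
      · rintro ⟨⟨_, h4⟩, h5⟩
        rcases (h4.dvd_mul).1 h5 with h6 | h6
        · exact Or.inr ⟨h4, h6, by omega⟩
        · exact Or.inl ((Nat.prime_dvd_prime_iff_eq h4 h1).1 h6)
      · rintro (rfl | ⟨h4, h5, _⟩)
        · exact ⟨⟨⟨h1.pos, h3⟩, h1⟩, dvd_mul_left _ _⟩
        · exact ⟨⟨⟨h4.pos, hWY p h4 h5⟩, h4⟩, h5.mul_right _⟩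
    have hn : ps ∉ W.primeFactors := fun h => h2 (Nat.dvd_of_mem_primeFactors h)
    rw [e, prod_insert hn]
    have h4 := half_le h1
    nlinarith

theorem lt_N {N q : ℕ} {ε : ℝ} (hε : ε ≤ 1) (hN : 8 ≤ N) (hq : (q : ℝ) < (N : ℝ) ^ ε) : q ≤ N := by
  have h1 : (1 : ℝ) ≤ N := by exact_mod_cast (by omega : 1 ≤ N)
  have h2 : (N : ℝ) ^ ε ≤ (N : ℝ) ^ (1 : ℝ) := Real.rpow_le_rpow_of_exponent_le h1 hε
  rw [Real.rpow_one] at h2
  have h3 : (q : ℝ) ≤ N := by linarith
  exact_mod_cast h3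

end PRW

open PRW in
theorem prw : St_PRW := by
  classical
  intro r N z Y W ps ε h Om D hzY hYw hε hN hz hY3 hW hzW hWY hps
  have hYN : Y ≤ N := lt_N hε hN hYw
  set M : ℕ := W * ps with hM
  have hfacA : ∀ p, p.Prime → z < p → 0 ≤ 1 - gC (ZA h Y Om) p ∧ 1 - gC (ZA h Y Om) p ≤ 1 := by
    intro p hp hzp
    have h1 := (D.cA hp).1
    have h2 : (0 : ℝ) < (p : ℝ) - 1 := by
      have : (1 : ℝ) < p := by exact_mod_cast hp.one_lt
      linarith
    unfold gC
    constructor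
    · rw [sub_nonneg, div_le_one h2]
      have h3 : (ZA h Y Om p).card + 1 ≤ p := by omega
      have h4 : (((ZA h Y Om p).card : ℝ)) + 1 ≤ p := by exact_mod_cast h3
      linarith
    · have : 0 ≤ ((ZA h Y Om p).card : ℝ) / ((p : ℝ) - 1) := by positivity
      linarith
  have hval1 : ∀ p, p ∣ M → gC (ZAD M h Y Om) p = 0 := by
    intro p hp
    unfold gC ZAD
    rw [if_pos hp]
    simp
  have hval2 : ∀ p, ¬ p ∣ M → gC (ZAD M h Y Om) p = gC (ZA h Y Om) p := by
    intro p hp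
    unfold gC ZAD
    rw [if_neg hp]
  have hfac : ∀ p, p.Prime → z < p → 0 ≤ 1 - gC (ZAD M h Y Om) p ∧ 1 - gC (ZAD M h Y Om) p ≤ 1 := by
    intro p hp hzp
    by_cases hd : p ∣ M
    · rw [hval1 p hd]
      norm_num
    · rw [hval2 p hd]
      exact hfacA p hp hzp
  have hsplit : P1 N z ε = Pr z Y ∪ (P1 N z ε).filter (fun p => Y < p) := by
    ext p
    rw [mem_union, mem_filter, mem_P1, Pr_mem]
    constructor
    · rintro ⟨⟨h1, h2⟩, h3, h4⟩
      rcases Nat.lt_or_ge Y p with h | h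
      · exact Or.inr ⟨⟨⟨h1, h2⟩, h3, h4⟩, h⟩
      · exact Or.inl ⟨⟨h1, h⟩, h3⟩
    · rintro (⟨⟨h1, h2⟩, h3⟩ | ⟨h1, -⟩)
      · refine ⟨⟨h1, by omega⟩, h3, ?_⟩
        have : (p : ℝ) ≤ Y := by exact_mod_cast h2
        exact lt_of_le_of_lt this hYw
      · exact h1
  have hdisj : Disjoint (Pr z Y) ((P1 N z ε).filter (fun p => Y < p)) := by
    rw [disjoint_left]
    intro p hp hp'
    rw [Pr_mem] at hp
    rw [mem_filter] at hp'
    omega
  rw [hsplit, prod_union hdisj]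
  have hVY := V1_pos Y
  have hVN := V1_pos N
  -- the first product
  have hA0 : 0 ≤ ∏ p ∈ Pr z Y, (1 - gC (ZAD M h Y Om) p) :=
    Finset.prod_nonneg fun p hp => (hfac p (Pr_prime hp) (Pr_mem.1 hp).1.1).1
  have hA : VD Om M Y * ((Nat.totient W : ℝ) / W) * (1 / (2 * V1 Y)) ≤
      ∏ p ∈ Pr z Y, (1 - gC (ZAD M h Y Om) p) := by
    have e0 : (Pr 0 Y).filter (fun q => ¬ q ∣ M) = (Pr z Y).filter (fun q => ¬ q ∣ M) := by
      ext p
      rw [mem_filter, mem_filter, Pr_mem, Pr_mem]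
      constructor
      · rintro ⟨⟨⟨h1, h2⟩, h3⟩, h4⟩
        refine ⟨⟨⟨?_, h2⟩, h3⟩, h4⟩
        by_contra hc
        exact h4 ((hzW p h3 (by omega)).mul_right _)
      · rintro ⟨⟨⟨h1, h2⟩, h3⟩, h4⟩
        exact ⟨⟨⟨h3.pos, h2⟩, h3⟩, h4⟩
    have e1 : ∏ p ∈ Pr z Y, (1 - gC (ZAD M h Y Om) p) =
        ∏ p ∈ (Pr z Y).filter (fun q => ¬ q ∣ M), (1 - gC (ZA h Y Om) p) := by
      rw [← prod_filter_mul_prod_filter_not (Pr z Y) (fun q => q ∣ M)]
      have e2 : ∏ p ∈ (Pr z Y).filter (fun q => q ∣ M), (1 - gC (ZAD M h Y Om) p) = 1 := by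
        apply Finset.prod_eq_one
        intro p hp
        rw [hval1 p (mem_filter.1 hp).2, sub_zero]
      rw [e2, one_mul]
      apply prod_congr rfl
      intro p hp
      rw [hval2 p (mem_filter.1 hp).2]
    have e3 : VD Om M Y = (∏ p ∈ (Pr z Y).filter (fun q => ¬ q ∣ M), (1 - gC (ZA h Y Om) p)) *
        ∏ p ∈ (Pr 0 Y).filter (fun q => ¬ q ∣ M), (1 - 1 / (p : ℝ)) := by
      unfold VD
      rw [e0, ← prod_mul_distrib]
      apply prod_congr rfl
      intro p hp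
      rw [mem_filter, Pr_mem] at hp
      have h2 : (1 : ℝ) < p := by exact_mod_cast hp.1.2.one_lt
      rw [D.adm.card (Pr_mem.2 ⟨⟨hp.1.2.pos, hp.1.1.2⟩, hp.1.2⟩)]
      unfold gC ZA
      rw [if_pos hp.1.1.2]
      push_cast
      exact arith_p h2
    have e4 : V1 Y = (∏ p ∈ (Pr 0 Y).filter (fun q => q ∣ M), (1 - 1 / (p : ℝ))) *
        ∏ p ∈ (Pr 0 Y).filter (fun q => ¬ q ∣ M), (1 - 1 / (p : ℝ)) := by
      unfold V1
      rw [prod_filter_mul_prod_filter_not]
    have e5 := prod_div (Y := Y) hW hWY hps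
    rw [← hM] at e5
    set a := ∏ p ∈ (Pr z Y).filter (fun q => ¬ q ∣ M), (1 - gC (ZA h Y Om) p) with ha
    set b := ∏ p ∈ (Pr 0 Y).filter (fun q => ¬ q ∣ M), (1 - 1 / (p : ℝ)) with hb
    set c := ∏ p ∈ (Pr 0 Y).filter (fun q => q ∣ M), (1 - 1 / (p : ℝ)) with hc
    have ha0 : 0 ≤ a := by rw [← e1]; exact hA0
    have hb0 : 0 < b := by
      rw [hb]
      apply Finset.prod_pos
      intro p hp
      have := half_le (Pr_prime (mem_filter.1 hp).1)
      linarith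
    have hc0 : 0 < c := by
      rw [hc]
      apply Finset.prod_pos
      intro p hp
      have := half_le (Pr_prime (mem_filter.1 hp).1)
      linarith
    rw [e1, e3, e4]
    have e6 : a * b * ((Nat.totient W : ℝ) / W) * (1 / (2 * (c * b))) =
        a * (((Nat.totient W : ℝ) / W * (1 / 2)) / c) := by
      field_simp
    rw [e6]
    have e7 : ((Nat.totient W : ℝ) / W * (1 / 2)) / c ≤ 1 := by
      rw [div_le_one hc0]
      exact e5
    calc a * (((Nat.totient W : ℝ) / W * (1 / 2)) / c) ≤ a * 1 := mul_le_mul_of_nonneg_left e7 ha0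
      _ = a := mul_one a
  -- the second product
  have hB : (V1 N / V1 Y) ^ 2 ≤ ∏ p ∈ (P1 N z ε).filter (fun p => Y < p), (1 - gC (ZAD M h Y Om) p) := by
    have hr2 : (∏ p ∈ Pr Y N, (1 - 1 / (p : ℝ))) = V1 N / V1 Y := by
      rw [eq_div_iff hVY.ne', mul_comm]
      unfold V1
      exact Pr_split_prod _ (Nat.zero_le _) hYN
    rw [← hr2, ← Finset.prod_pow]
    have hsub : (P1 N z ε).filter (fun p => Y < p) ⊆ Pr Y N := by
      intro p hp
      rw [mem_filter, mem_P1] at hp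
      exact Pr_mem.2 ⟨⟨hp.2, hp.1.1.2⟩, hp.1.2.1⟩
    have hone : ∀ p : ℕ, p.Prime → (1 - 1 / (p : ℝ)) ^ 2 ≤ 1 := by
      intro p hp
      have h1 : (1 : ℝ) < p := by exact_mod_cast hp.one_lt
      have h2 : 1 / (p : ℝ) ≤ 1 := by
        rw [div_le_one (by linarith)]
        linarith
      have h3 : 0 ≤ 1 / (p : ℝ) := by positivity
      nlinarith
    have hle : ∏ p ∈ Pr Y N, (1 - 1 / (p : ℝ)) ^ 2 ≤
        ∏ p ∈ (P1 N z ε).filter (fun p => Y < p), (1 - 1 / (p : ℝ)) ^ 2 := by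
      rw [← Finset.prod_sdiff hsub]
      have e1 : ∏ p ∈ Pr Y N \ (P1 N z ε).filter (fun p => Y < p), (1 - 1 / (p : ℝ)) ^ 2 ≤ 1 := by
        apply Finset.prod_le_one
        · intro p _
          positivity
        · intro p hp
          exact hone p (Pr_prime (mem_sdiff.1 hp).1)
      have e2 : 0 ≤ ∏ p ∈ (P1 N z ε).filter (fun p => Y < p), (1 - 1 / (p : ℝ)) ^ 2 :=
        Finset.prod_nonneg fun p _ => by positivity
      nlinarith
    refine hle.trans ?_
    apply Finset.prod_le_prod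
    · intro p _
      positivity
    · intro p hp
      have hp' := Pr_mem.1 (hsub hp)
      have hpp := hp'.2
      by_cases hd : p ∣ M
      · rw [hval1 p hd, sub_zero]
        exact hone p hpp
      · rw [hval2 p hd]
        have h1 : (3 : ℝ) ≤ p := by exact_mod_cast (show 3 ≤ p by omega)
        have h2 : ((ZA h Y Om p).card : ℝ) ≤ 1 := by
          unfold ZA
          rw [if_neg (by omega)]
          have := card_le_card (erase_subset 0 ({hr h p} : Finset ℕ))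
          rw [card_singleton] at this
          exact_mod_cast this
        have h3 : gC (ZA h Y Om) p ≤ 1 / ((p : ℝ) - 1) := by
          unfold gC
          apply div_le_div_of_nonneg_right h2
          linarith
        have h4 := arith_q2 h1
        linarith
  exact mul_le_mul hA hB (by positivity) hA0

end Pool.Agent.Q117.CR
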