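import Pool.Agent.Q117.CR.Stm
import Pool.Agent.H378R2.LSBV7

/-!
Project CR, job REL (helper177): random removal of primes for one function of the conductor.
-/

set_option autoImplicit false

namespace Pool.Agent.Q117.CR.REL

open Finset Filter Topology
open Pool.Agent.H378R2 Pool.Agent.H378R2.LSBV
open Pool.Agent.Helper112 Pool.Agent.H398R2.BV

/-- the weight is at most `b ^ (ε - 1)` -/
theorem wt_le_eps (A : ℕ) : ∃ C : ℝ, 0 < C ∧ ∀ b : ℕ, 1 ≤ b →
    wt A b ≤ C * (b : ℝ) ^ (1 / 100000 : ℝ) / b := by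
  obtain ⟨C, hC, hd⟩ := divisor_bound (1 / (100000 * (A + 1))) (by positivity)
  refine ⟨C ^ (A + 1), by positivity, fun b hb => ?_⟩
  have hb0 : (0:ℝ) < b := by exact_mod_cast hb
  have h1 := one_div_totient_le b hb
  have h2 : (2:ℝ) ^ b.primeFactors.card ≤ b.divisors.card := by
    exact_mod_cast two_pow_omega_le b (by omega)
  have h3 : wt A b ≤ (b.divisors.card : ℝ) ^ (A + 1) / b := by
    unfold wt
    calc (b.divisors.card : ℝ) ^ A / (Nat.totient b : ℝ) =
        (b.divisors.card : ℝ) ^ A * (1 / (Nat.totient b : ℝ)) := by ring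
      _ ≤ (b.divisors.card : ℝ) ^ A * (2 ^ b.primeFactors.card / b) :=
          mul_le_mul_of_nonneg_left h1 (by positivity)
      _ ≤ (b.divisors.card : ℝ) ^ A * (b.divisors.card / b) := by gcongr
      _ = _ := by rw [pow_succ]; ring
  refine h3.trans ?_
  apply div_le_div_of_nonneg_right _ hb0.le
  calc (b.divisors.card : ℝ) ^ (A + 1) ≤ (C * (b:ℝ) ^ (1 / (100000 * (A + 1)) : ℝ)) ^ (A + 1) :=
        pow_le_pow_left₀ (by positivity) (hd b hb) _
    _ = C ^ (A + 1) * ((b:ℝ) ^ (1 / (100000 * (A + 1)) : ℝ)) ^ (A + 1) := by rw [mul_pow]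
    _ = _ := by
        congr 1
        rw [← Real.rpow_natCast, ← Real.rpow_mul hb0.le]
        congr 1
        push_cast
        field_simp

theorem eps_le_sqrt (b : ℝ) (hb : 1 ≤ b) : b ^ (1 / 100000 : ℝ) / b ≤ 1 / Real.sqrt b := by
  have hb0 : 0 < b := by linarith
  have h1 : b ^ (1 / 100000 : ℝ) ≤ Real.sqrt b := by
    rw [Real.sqrt_eq_rpow]
    exact Real.rpow_le_rpow_of_exponent_le hb (by norm_num)
  rw [div_le_div_iff₀ hb0 (Real.sqrt_pos.mpr hb0), one_mul]
  calc b ^ (1 / 100000 : ℝ) * Real.sqrt b ≤ Real.sqrt b * Real.sqrt b :=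
        mul_le_mul_of_nonneg_right h1 (Real.sqrt_nonneg _)
    _ = b := Real.mul_self_sqrt hb0.le

/-- membership facts for the pairs -/
theorem pairs_facts (X' : ℝ) (ps R : ℕ) (S : Finset ℕ) (p : ℕ × ℕ) (hp : p ∈ pairs X' ps R S) :
    p.1 ∣ WW X' S ps ∧ 1 ≤ p.1 ∧ 1 ≤ p.2 ∧ p.2 ≤ R ∧ Squarefree p.2 ∧
      p.2.Coprime (WW X' S ps * ps) ∧ p.1 * p.2 ≠ 1 := by
  unfold pairs at hp
  rw [mem_filter, mem_product, Nat.mem_divisors, mem_QQ] at hp
  obtain ⟨⟨⟨ha, _⟩, ⟨hb1, hb2⟩, hb3, hb4⟩, h5⟩ := hp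
  exact ⟨ha, Nat.pos_of_dvd_of_pos ha (WW_pos X' S ps), hb1, hb2, hb3, hb4, h5⟩

/-- case A -/
theorem sumA (X' : ℝ) (ps R D Ω Z : ℕ) (hps : GoodP Z ps) (P S : Finset ℕ) (T : ℕ → ℝ)
    (hT : ∀ f, 0 ≤ T f) (E M : ℝ) (hE : 0 ≤ E) (hM : 0 ≤ M)
    (hsize : ∀ p ∈ pairs X' ps R S, p.2 ≤ D → (P ∩ p.1.primeFactors).card < Ω →
      ((p.1 * p.2 : ℕ) : ℝ) ≤ E)
    (hsc : ∀ f : ℕ, Squarefree f → 1 < f → (f : ℝ) ≤ E → f.Coprime ps → T f ≤ M) :
    ∑ p ∈ (pairs X' ps R S).filter (fun p => p.2 ≤ D ∧ (P ∩ p.1.primeFactors).card < Ω),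
      T (p.1 * p.2) ≤ E * M := by
  set G := (Icc 2 ⌊E⌋₊).filter (fun f => Squarefree f ∧ f.Coprime ps) with hG
  have h1 : ∑ p ∈ (pairs X' ps R S).filter (fun p => p.2 ≤ D ∧ (P ∩ p.1.primeFactors).card < Ω),
      T (p.1 * p.2) ≤ ∑ f ∈ G, T f := by
    apply pair_inj T hT (WW X' S ps) ps R G
    · intro p hp
      rw [mem_filter] at hp
      have := hp.1
      unfold pairs at this
      rw [mem_filter] at this
      exact this.1
    · intro p hp
      rw [mem_filter] at hp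
      have hs := hsize p hp.1 hp.2.1 hp.2.2
      obtain ⟨ha, ha1, hb1, hb2, hb3, hb4, h5⟩ := pairs_facts X' ps R S p hp.1
      have h6 : 0 < p.1 * p.2 := Nat.mul_pos ha1 hb1
      rw [hG, mem_filter, mem_Icc]
      refine ⟨⟨by omega, Nat.le_floor hs⟩, ?_, ?_⟩
      · have hc : p.1.Coprime p.2 := by
          have : p.2.Coprime (WW X' S ps) := Nat.Coprime.coprime_mul_right_right hb4
          exact (this.coprime_dvd_right ha).symm
        rw [Nat.squarefree_mul hc]
        exact ⟨(WW_squarefree X' S ps).squarefree_of_dvd ha, hb3⟩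
      · apply Nat.Coprime.mul_left
        · exact (WW_coprime_ps X' S ps Z hps).coprime_dvd_left ha
        · exact Nat.Coprime.coprime_mul_left_right hb4
  refine h1.trans ?_
  have h2 : ∀ f ∈ G, T f ≤ M := by
    intro f hf
    rw [hG, mem_filter, mem_Icc] at hf
    obtain ⟨⟨hf1, hf2⟩, hf3, hf4⟩ := hf
    have hfe : (f:ℝ) ≤ E := (Nat.le_floor_iff hE).mp hf2
    exact hsc f hf3 (by omega) hfe hf4
  refine (sum_le_sum h2).trans ?_
  rw [sum_const, nsmul_eq_mul]
  apply mul_le_mul_of_nonneg_right _ hM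
  have : G.card ≤ ⌊E⌋₊ := by
    refine (card_filter_le _ _).trans ?_
    rw [Nat.card_Icc]
    omega
  calc (G.card : ℝ) ≤ ⌊E⌋₊ := by exact_mod_cast this
    _ ≤ _ := Nat.floor_le hE

/-- one dyadic block of case C -/
theorem blockC (A C ps R D j : ℕ) (X X' C5 K : ℝ) (hX : 1 ≤ X) (hC5 : 0 < C5)
    (hwt : ∀ b : ℕ, 1 ≤ b → wt A b ≤ C5 * (b : ℝ) ^ (1 / 100000 : ℝ) / b)
    (T : ℕ → ℝ) (hT : ∀ f, 0 ≤ T f) (hLS : LSat C X T) (hK : 0 < K)
    (hD : ∀ b : ℕ, D < b → K ^ 2 ≤ b) (S : Finset ℕ)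
    (hV : (primorial (yy X') : ℝ) ≤ X ^ (1 / 50000 : ℝ))
    (hR : (R : ℝ) ≤ X ^ (4995 / 10000 : ℝ)) (h2 : 2 ≤ X ^ (1 / 50000 : ℝ)) :
    ∑ p ∈ ((pairs X' ps R S).filter (fun p => ¬ p.2 ≤ D)).filter (fun p => Nat.log 2 p.2 = j),
      wt A p.2 * T (p.1 * p.2) ≤
    C5 * (X / K + 2 * X ^ (99993 / 100000 : ℝ)) * Real.log X ^ C := by
  have hX0 : 0 < X := by linarith
  have hL0 : 0 ≤ Real.log X := Real.log_nonneg hX
  rcases (((pairs X' ps R S).filter (fun p => ¬ p.2 ≤ D)).filter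
    (fun p => Nat.log 2 p.2 = j)).eq_empty_or_nonempty with hemp | ⟨p0, hp0⟩
  · rw [hemp, sum_empty]
    positivity
  rw [mem_filter, mem_filter] at hp0
  obtain ⟨⟨hp0, hp0D⟩, hp0j⟩ := hp0
  obtain ⟨_, _, hb1, hb2, _, _, _⟩ := pairs_facts X' ps R S p0 hp0
  set B : ℝ := (2:ℝ) ^ j with hB
  have hB0 : 0 < B := by positivity
  have hBR : B ≤ X ^ (4995 / 10000 : ℝ) := by
    have h3 : ((2 ^ Nat.log 2 p0.2 : ℕ) : ℝ) ≤ (p0.2 : ℝ) := by
      exact_mod_cast Nat.pow_log_le_self 2 (by omega)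
    rw [hp0j] at h3
    push_cast at h3
    calc B ≤ (p0.2 : ℝ) := h3
      _ ≤ R := by exact_mod_cast hb2
      _ ≤ _ := hR
  set V := primorial (yy X') with hVdef
  set F : ℕ := 2 ^ (j + 1) * V with hF
  have hFle : (F : ℝ) ≤ X ^ (49954 / 100000 : ℝ) := by
    rw [hF]
    push_cast
    calc (2:ℝ) ^ (j + 1) * V = 2 * (B * V) := by rw [hB, pow_succ]; ring
      _ ≤ X ^ (1 / 50000 : ℝ) * (X ^ (4995 / 10000 : ℝ) * X ^ (1 / 50000 : ℝ)) := by
          gcongr
      _ = X ^ (1 / 50000 + (4995 / 10000 + 1 / 50000) : ℝ) := by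
          rw [Real.rpow_add hX0, Real.rpow_add hX0]
      _ ≤ _ := Real.rpow_le_rpow_of_exponent_le hX (by norm_num)
  set w : ℝ := min (C5 / K) (C5 * X ^ (1 / 100000 : ℝ) / B) with hw
  have hw0 : 0 ≤ w := by
    apply le_min <;> positivity
  have hwp : ∀ p ∈ ((pairs X' ps R S).filter (fun p => ¬ p.2 ≤ D)).filter
      (fun p => Nat.log 2 p.2 = j), wt A p.2 * T (p.1 * p.2) ≤ w * T (p.1 * p.2) := by
    intro p hp
    rw [mem_filter, mem_filter] at hp
    obtain ⟨⟨hp, hpD⟩, hpj⟩ := hp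
    obtain ⟨_, _, hc1, hc2, _, _, _⟩ := pairs_facts X' ps R S p hp
    apply mul_le_mul_of_nonneg_right _ (hT _)
    have hb0 : (0:ℝ) < p.2 := by exact_mod_cast hc1
    have hb1' : (1:ℝ) ≤ p.2 := by exact_mod_cast hc1
    apply le_min
    · refine (hwt p.2 hc1).trans ?_
      rw [mul_div_assoc]
      have h4 := eps_le_sqrt (p.2 : ℝ) hb1'
      have h5 : K ≤ Real.sqrt p.2 := Real.le_sqrt_of_sq_le (hD p.2 (by omega))
      calc C5 * ((p.2 : ℝ) ^ (1 / 100000 : ℝ) / p.2) ≤ C5 * (1 / Real.sqrt p.2) :=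
            mul_le_mul_of_nonneg_left h4 hC5.le
        _ ≤ C5 * (1 / K) := by
            apply mul_le_mul_of_nonneg_left _ hC5.le
            exact one_div_le_one_div_of_le hK h5
        _ = C5 / K := by ring
    · refine (hwt p.2 hc1).trans ?_
      have h3 : ((2 ^ Nat.log 2 p.2 : ℕ) : ℝ) ≤ (p.2 : ℝ) := by
        exact_mod_cast Nat.pow_log_le_self 2 (by omega)
      rw [hpj] at h3
      push_cast at h3
      have h4 : (p.2 : ℝ) ≤ X := by
        calc (p.2 : ℝ) ≤ R := by exact_mod_cast hc2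
          _ ≤ X ^ (4995 / 10000 : ℝ) := hR
          _ ≤ X ^ (1 : ℝ) := Real.rpow_le_rpow_of_exponent_le hX (by norm_num)
          _ = X := Real.rpow_one X
      apply div_le_div₀ (by positivity) _ hB0 h3
      apply mul_le_mul_of_nonneg_left _ hC5.le
      exact Real.rpow_le_rpow hb0.le h4 (by norm_num)
  refine (sum_le_sum hwp).trans ?_
  rw [← mul_sum]
  have h3 : ∑ p ∈ ((pairs X' ps R S).filter (fun p => ¬ p.2 ≤ D)).filter
      (fun p => Nat.log 2 p.2 = j), T (p.1 * p.2) ≤ ∑ f ∈ Icc 2 F, T f := by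
    apply pair_inj T hT (WW X' S ps) ps R
    · intro p hp
      rw [mem_filter, mem_filter] at hp
      have := hp.1.1
      unfold pairs at this
      rw [mem_filter] at this
      exact this.1
    · intro p hp
      rw [mem_filter, mem_filter] at hp
      obtain ⟨⟨hp, hpD⟩, hpj⟩ := hp
      obtain ⟨ha, ha1, hc1, hc2, _, _, h5⟩ := pairs_facts X' ps R S p hp
      have h6 : 0 < p.1 * p.2 := Nat.mul_pos ha1 hc1
      rw [mem_Icc]
      refine ⟨by omega, ?_⟩
      have h7 : p.1 ≤ V := Nat.le_of_dvd (primorial_pos _) (ha.trans (WW_dvd_primorial X' S ps))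
      have h8 : p.2 ≤ 2 ^ (j + 1) := by
        rw [← hpj]
        exact (Nat.lt_pow_succ_log_self (by norm_num) p.2).le
      rw [hF, mul_comm]
      exact Nat.mul_le_mul h8 h7
  have h4 : ∑ f ∈ Icc 2 F, T f ≤ (X + X ^ (9999 / 10000 : ℝ) * F) * Real.log X ^ C := hLS F hFle
  calc w * _ ≤ w * ((X + X ^ (9999 / 10000 : ℝ) * F) * Real.log X ^ C) :=
        mul_le_mul_of_nonneg_left (h3.trans h4) hw0
    _ = (w * X + w * (X ^ (9999 / 10000 : ℝ) * F)) * Real.log X ^ C := by ring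
    _ ≤ (C5 / K * X + (C5 * X ^ (1 / 100000 : ℝ) / B) *
          (X ^ (9999 / 10000 : ℝ) * (2 * B * X ^ (1 / 50000 : ℝ)))) * Real.log X ^ C := by
        apply mul_le_mul_of_nonneg_right _ (by positivity)
        apply add_le_add
        · exact mul_le_mul_of_nonneg_right (min_le_left _ _) hX0.le
        · apply mul_le_mul (min_le_right _ _) _ (by positivity) (by positivity)
          apply mul_le_mul_of_nonneg_left _ (by positivity)
          rw [hF]
          push_cast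
          calc (2:ℝ) ^ (j + 1) * V = 2 * B * V := by rw [hB, pow_succ]; ring
            _ ≤ _ := mul_le_mul_of_nonneg_left hV (by positivity)
    _ = C5 * (X / K + 2 * (X ^ (1 / 100000 : ℝ) * X ^ (9999 / 10000 : ℝ) *
          X ^ (1 / 50000 : ℝ))) * Real.log X ^ C := by
        field_simp
    _ = _ := by
        rw [← Real.rpow_add hX0, ← Real.rpow_add hX0]
        norm_num

/-- case C -/
theorem sumC (A C ps R D : ℕ) (X X' C5 K : ℝ) (hX : 1 ≤ X) (hL1 : 1 ≤ Real.log X) (hC5 : 0 < C5)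
    (hwt : ∀ b : ℕ, 1 ≤ b → wt A b ≤ C5 * (b : ℝ) ^ (1 / 100000 : ℝ) / b)
    (T : ℕ → ℝ) (hT : ∀ f, 0 ≤ T f) (hLS : LSat C X T) (hK : 0 < K)
    (hD : ∀ b : ℕ, D < b → K ^ 2 ≤ b) (S : Finset ℕ)
    (hV : (primorial (yy X') : ℝ) ≤ X ^ (1 / 50000 : ℝ))
    (hR : (R : ℝ) ≤ X ^ (4995 / 10000 : ℝ)) (h2 : 2 ≤ X ^ (1 / 50000 : ℝ)) :
    ∑ p ∈ (pairs X' ps R S).filter (fun p => ¬ p.2 ≤ D), wt A p.2 * T (p.1 * p.2) ≤
    3 * Real.log X * (C5 * (X / K + 2 * X ^ (99993 / 100000 : ℝ)) * Real.log X ^ C) := by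
  have hX0 : 0 < X := by linarith
  set L := Real.log X with hL
  have hmaps : ∀ p ∈ (pairs X' ps R S).filter (fun p => ¬ p.2 ≤ D),
      Nat.log 2 p.2 ∈ range (⌊2 * L⌋₊ + 1) := by
    intro p hp
    rw [mem_filter] at hp
    obtain ⟨_, _, hc1, hc2, _, _, _⟩ := pairs_facts X' ps R S p hp.1
    rw [mem_range, Nat.lt_succ_iff]
    apply Nat.le_floor
    have h4 : ((2:ℝ) ^ (Nat.log 2 p.2)) ≤ X := by
      calc ((2:ℝ) ^ (Nat.log 2 p.2)) ≤ p.2 := by exact_mod_cast Nat.pow_log_le_self 2 (by omega)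
        _ ≤ R := by exact_mod_cast hc2
        _ ≤ X ^ (4995 / 10000 : ℝ) := hR
        _ ≤ X ^ (1 : ℝ) := Real.rpow_le_rpow_of_exponent_le hX (by norm_num)
        _ = X := Real.rpow_one X
    have h5 := Real.log_le_log (by positivity) h4
    rw [Real.log_pow] at h5
    have h6 : (0.5:ℝ) < Real.log 2 := by
      have := Real.log_two_gt_d9
      linarith
    have h7 : (0:ℝ) ≤ (Nat.log 2 p.2 : ℝ) := by positivity
    nlinarith
  rw [← sum_fiberwise_of_maps_to hmaps]
  refine (sum_le_sum (fun j _ => blockC A C ps R D j X X' C5 K hX hC5 hwt T hT hLS hK hD S hV hR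
    h2)).trans ?_
  rw [sum_const, nsmul_eq_mul, card_range]
  apply mul_le_mul_of_nonneg_right _ (by positivity)
  push_cast
  have := Nat.floor_le (show 0 ≤ 2 * L by linarith)
  linarith

/-- the polynomial inequality for case A -/
theorem poly3 (l U : ℝ) (hU : 0 ≤ U) (hl : 16 * (U + 2) ≤ l) :
    l ^ 6 + -l ^ 7 / 16 ≤ -((U + 1) * l) := by
  have hl1 : 1 ≤ l := by linarith
  have h6 : 0 < l ^ 6 := by positivity
  have h1 : 16 * (U + 2) * l ^ 6 ≤ l ^ 7 := by
    calc 16 * (U + 2) * l ^ 6 ≤ l * l ^ 6 := mul_le_mul_of_nonneg_right hl h6.le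
      _ = l ^ 7 := by ring
  have h2 : l ≤ l ^ 6 := by
    calc l = l ^ 1 := (pow_one l).symm
      _ ≤ l ^ 6 := pow_le_pow_right₀ hl1 (by norm_num)
  have h3 : (U + 1) * l ≤ (U + 1) * l ^ 6 := mul_le_mul_of_nonneg_left h2 (by linarith)
  nlinarith

/-- the small weights -/
theorem wt_le_one (A : ℕ) (C5 : ℝ) (hC5 : 0 < C5)
    (hwt : ∀ b : ℕ, 1 ≤ b → wt A b ≤ C5 * (b : ℝ) ^ (1 / 100000 : ℝ) / b) (b : ℕ) (hb : 1 ≤ b) :
    wt A b ≤ C5 := by
  have hb1 : (1:ℝ) ≤ b := by exact_mod_cast hb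
  refine (hwt b hb).trans ?_
  rw [mul_div_assoc]
  have h1 := eps_le_sqrt (b:ℝ) hb1
  have h2 : 1 / Real.sqrt b ≤ 1 := by
    rw [div_le_one (Real.sqrt_pos.mpr (by linarith)), Real.one_le_sqrt]
    exact hb1
  calc C5 * ((b:ℝ) ^ (1 / 100000 : ℝ) / b) ≤ C5 * 1 :=
        mul_le_mul_of_nonneg_left (h1.trans h2) hC5.le
    _ = C5 := mul_one C5

/-- all the cases -/
theorem sum_all (A C ps R D Ω Z : ℕ) (hps : GoodP Z ps) (X X' C5 K E M M2 : ℝ) (hX : 1 ≤ X)
    (hL1 : 1 ≤ Real.log X) (hC5 : 0 < C5)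
    (hwt : ∀ b : ℕ, 1 ≤ b → wt A b ≤ C5 * (b : ℝ) ^ (1 / 100000 : ℝ) / b)
    (T : ℕ → ℝ) (hT : ∀ f, 0 ≤ T f) (hLS : LSat C X T) (hK : 0 < K)
    (hD : ∀ b : ℕ, D < b → K ^ 2 ≤ b) (P S : Finset ℕ)
    (hV : (primorial (yy X') : ℝ) ≤ X ^ (1 / 50000 : ℝ))
    (hR : (R : ℝ) ≤ X ^ (4995 / 10000 : ℝ)) (h2 : 2 ≤ X ^ (1 / 50000 : ℝ))
    (hE : 0 ≤ E) (hM : 0 ≤ M)
    (hsize : ∀ p ∈ pairs X' ps R S, p.2 ≤ D → (P ∩ p.1.primeFactors).card < Ω →
      ((p.1 * p.2 : ℕ) : ℝ) ≤ E)
    (hsc : ∀ f : ℕ, Squarefree f → 1 < f → (f : ℝ) ≤ E → f.Coprime ps → T f ≤ M)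
    (hB : ∑ p ∈ pairB X' ps D D Ω P S, T (p.1 * p.2) ≤ 3 * M2) :
    ∑ p ∈ pairs X' ps R S, wt A p.2 * T (p.1 * p.2) ≤ C5 * (E * M) + C5 * (3 * M2) +
      3 * Real.log X * (C5 * (X / K + 2 * X ^ (99993 / 100000 : ℝ)) * Real.log X ^ C) := by
  rw [← sum_filter_add_sum_filter_not (pairs X' ps R S) (fun p => p.2 ≤ D)]
  have hC := sumC A C ps R D X X' C5 K hX hL1 hC5 hwt T hT hLS hK hD S hV hR h2
  have hAB : ∑ p ∈ (pairs X' ps R S).filter (fun p => p.2 ≤ D), wt A p.2 * T (p.1 * p.2) ≤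
      C5 * (E * M + 3 * M2) := by
    calc _ ≤ ∑ p ∈ (pairs X' ps R S).filter (fun p => p.2 ≤ D), C5 * T (p.1 * p.2) := by
          apply sum_le_sum
          intro p hp
          rw [mem_filter] at hp
          obtain ⟨_, _, hc1, _, _, _, _⟩ := pairs_facts X' ps R S p hp.1
          exact mul_le_mul_of_nonneg_right (wt_le_one A C5 hC5 hwt p.2 hc1) (hT _)
      _ = C5 * ∑ p ∈ (pairs X' ps R S).filter (fun p => p.2 ≤ D), T (p.1 * p.2) := by
          rw [mul_sum]
      _ ≤ _ := by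
          apply mul_le_mul_of_nonneg_left _ hC5.le
          rw [← sum_filter_add_sum_filter_not _
            (fun p : ℕ × ℕ => (P ∩ p.1.primeFactors).card < Ω), filter_filter, filter_filter]
          apply add_le_add (sumA X' ps R D Ω Z hps P S T hT E M hE hM hsize hsc)
          refine le_trans ?_ hB
          apply sum_le_sum_of_subset_of_nonneg
          · intro p hp
            rw [mem_filter] at hp
            obtain ⟨hp1, hp2, hp3⟩ := hp
            unfold pairs at hp1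
            rw [mem_filter, mem_product, mem_QQ] at hp1
            unfold pairB
            rw [mem_filter, mem_product, mem_QQ]
            exact ⟨⟨hp1.1.1, ⟨hp1.1.2.1.1, hp2⟩, hp1.1.2.2⟩, hp1.2, hp2, by omega⟩
          · intro p _ _
            exact hT _
  linarith

end Pool.Agent.Q117.CR.REL

namespace Pool.Agent.Q117.CR

open Finset Filter Topology
open Pool.Agent.H378R2 Pool.Agent.H378R2.LSBV
open Pool.Agent.Helper112 Pool.Agent.H398R2.BV

/-- **REL** -/
theorem rel : St_REL := by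
  classical
  intro A C U Z
  obtain ⟨C5, hC5, hwt⟩ := REL.wt_le_eps A
  set k := C + U + 2 with hk
  have hlog : Tendsto Real.log atTop atTop := Real.tendsto_log_atTop
  have hloglog : Tendsto (fun X : ℝ => Real.log (Real.log X)) atTop atTop := hlog.comp hlog
  have ev : ∀ᶠ X : ℝ in atTop, ∀ ps : ℕ, GoodP Z ps →
      ∀ T : ℕ → ℝ, (∀ f, 0 ≤ T f) → LSat C X T → SCat 16 X ps T →
      ∃ S : Finset ℕ, GoodS (X ^ (1 / 100 : ℝ)) S ∧ PS A X S ps T ≤ X / Real.log X ^ U := by
    filter_upwards [eventually_ge_atTop (4:ℝ),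
      hloglog.eventually_ge_atTop (6 * k + 30 + 16 * (U + 2) : ℝ),
      hlog.eventually_ge_atTop (24 * C5 * 100 ^ k + 4 * C5 + 100),
      ev_log (24 * C5) (C + U + 1) (7 / 100000) (by norm_num),
      ev_log 1 (2 * k) (7 / 100000) (by norm_num),
      (tendsto_rpow_atTop (show (0:ℝ) < 1 / 50000 by norm_num)).eventually_ge_atTop 2]
      with X h1 h2 h3 h4 h5 h6
    intro ps hps T hT hLS hSC
    have hX0 : 0 < X := by linarith
    have hX1 : 1 ≤ X := by linarith
    have hLpos : 100 ≤ Real.log X := by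
      have : 0 ≤ 24 * C5 * 100 ^ k + 4 * C5 := by positivity
      linarith
    have hL1 : 1 ≤ Real.log X := by linarith
    set X' := X ^ (1 / 100 : ℝ) with hX'
    have hX'1 : 1 ≤ X' := Real.one_le_rpow hX1 (by norm_num)
    have hX'0 : 0 < X' := by linarith
    set L := Real.log X with hL
    have hL0 : 0 < L := by linarith
    have hlogX' : Real.log X' = L / 100 := by
      rw [hX', Real.log_rpow hX0]; ring
    set L' := L / 100 with hL'
    have hL'1 : 1 ≤ L' := by rw [hL', le_div_iff₀ (by norm_num)]; linarith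
    have hL'0 : 0 < L' := by linarith
    have hL'L : L' ≤ L := by rw [hL']; linarith
    set l := ll X with hl
    have hll : l = Real.log L := by rw [hl]; rfl
    set l' := Real.log L' with hl'
    have h100 : Real.log 100 ≤ 5 := by
      have h7 : Real.log 100 ≤ Real.log (2 ^ 7) := Real.log_le_log (by norm_num) (by norm_num)
      rw [Real.log_pow] at h7
      have := Real.log_two_lt_d9
      push_cast at h7
      linarith
    have hl'l : l' = l - Real.log 100 := by
      rw [hl', hL', Real.log_div hL0.ne' (by norm_num), hll]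
    have hkr : (0:ℝ) ≤ k := by positivity
    have hUr : (0:ℝ) ≤ U := by positivity
    have hlb : (6 * k + 30 + 16 * (U + 2) : ℝ) ≤ l := by rw [hll]; exact h2
    have hl20 : 6 * (k:ℝ) + 20 ≤ l' := by rw [hl'l]; linarith
    have hl0 : 0 < l' := by linarith
    have hll' : l' ≤ l := by
      rw [hl'l]
      have : 0 ≤ Real.log 100 := Real.log_nonneg (by norm_num)
      linarith
    have hexpl : Real.exp l' = L' := Real.exp_log hL'0
    have hexpl2 : Real.exp l = L := by rw [hll]; exact Real.exp_log hL0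
    -- parameters
    set R := RX X with hR
    set V := primorial (yy X') with hV
    set D := ⌊L' ^ (2 * k)⌋₊ with hD
    set Ω := ⌈(3 * k : ℕ) * l' ^ 4⌉₊ with hΩ
    set κ := 1 / l' ^ 3 with hκ
    set P := (Icc 1 (yy X')).filter (fun p => p.Prime ∧ z2 X' < p) with hP
    set K := L' ^ k with hK
    have hK0 : 0 < K := by positivity
    set M := 2 * X * L ^ C / K with hM
    have hM0 : 0 < M := by positivity
    have hl3 : (1:ℝ) ≤ l' ^ 3 := one_le_pow₀ (by linarith)
    have hκ0 : 0 ≤ κ := by positivity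
    have hκ1 : κ ≤ 1 := by
      rw [hκ, div_le_one (by positivity)]
      exact hl3
    have hRle : (R : ℝ) ≤ X ^ (4995 / 10000 : ℝ) := Nat.floor_le (by positivity)
    have hVle : (V : ℝ) ≤ X ^ (1 / 50000 : ℝ) := by
      refine (primorial_yy_le X' hX'1).trans (le_of_eq ?_)
      rw [hX', ← Real.rpow_mul hX0.le]
      norm_num
    have hDle : (D : ℝ) ≤ L' ^ (2 * k) := Nat.floor_le (by positivity)
    have hDle2 : (D : ℝ) ≤ X ^ (7 / 100000 : ℝ) := by
      calc (D : ℝ) ≤ L' ^ (2 * k) := hDle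
        _ ≤ L ^ (2 * k) := pow_le_pow_left₀ hL'0.le hL'L _
        _ = 1 * L ^ (2 * k) := by ring
        _ ≤ _ := h5
    set F := V * D with hF
    have hFle : (F : ℝ) ≤ X ^ (9 / 100000 : ℝ) := by
      rw [hF]
      push_cast
      calc (V : ℝ) * D ≤ X ^ (1 / 50000 : ℝ) * X ^ (7 / 100000 : ℝ) := by gcongr
        _ = X ^ (1 / 50000 + 7 / 100000 : ℝ) := by rw [Real.rpow_add hX0]
        _ = _ := by norm_num
    have hall : ∑ f ∈ Icc 2 F, T f ≤ M * K := by
      have h7 := hLS F (hFle.trans (Real.rpow_le_rpow_of_exponent_le hX1 (by norm_num)))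
      refine h7.trans ?_
      have h8 : X ^ (9999 / 10000 : ℝ) * F ≤ X := by
        calc X ^ (9999 / 10000 : ℝ) * F ≤ X ^ (9999 / 10000 : ℝ) * X ^ (9 / 100000 : ℝ) := by
              gcongr
          _ = X ^ (9999 / 10000 + 9 / 100000 : ℝ) := by rw [Real.rpow_add hX0]
          _ ≤ X ^ (1:ℝ) := Real.rpow_le_rpow_of_exponent_le hX1 (by norm_num)
          _ = X := Real.rpow_one X
      have h9 : M * K = (X + X) * L ^ C := by
        rw [hM]
        field_simp
        ring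
      rw [h9]
      apply mul_le_mul_of_nonneg_right _ (by positivity)
      linarith
    have hyL : (yy X' : ℝ) ≤ L' := by
      have h7 : (yy X' : ℝ) ≤ Real.log X' / 1000 := Nat.floor_le (by rw [hlogX']; positivity)
      rw [hlogX'] at h7
      linarith
    -- random set
    have hE1 : ∑ S ∈ P.powerset, ww P κ S * ∑ q ∈ S, (1:ℝ) / q ≤ 2 / l' ^ 2 := by
      rw [sum_ww_inv]
      have h7 : ∑ q ∈ P, (1:ℝ) / q ≤ 1 + l' := by
        calc ∑ q ∈ P, (1:ℝ) / q ≤ ∑ q ∈ Icc 1 (yy X'), (1:ℝ) / q := by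
              apply sum_le_sum_of_subset_of_nonneg (filter_subset _ _)
              intro i _ _
              positivity
          _ ≤ 1 + Real.log (yy X') := harm_le' _
          _ ≤ 1 + l' := by
              rcases Nat.eq_zero_or_pos (yy X') with h | h
              · rw [h]; simp; linarith
              · have : Real.log (yy X') ≤ l' :=
                  Real.log_le_log (by exact_mod_cast h) hyL
                linarith
      calc κ * ∑ q ∈ P, (1:ℝ) / q ≤ κ * (1 + l') := mul_le_mul_of_nonneg_left h7 hκ0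
        _ ≤ κ * (2 * l') := mul_le_mul_of_nonneg_left (by linarith) hκ0
        _ = 2 / l' ^ 2 := by
            rw [hκ]
            have : l' ≠ 0 := by linarith
            field_simp
    have hE2 : ∑ S ∈ P.powerset, ww P κ S * ∑ p ∈ pairB X' ps D D Ω P S, T (p.1 * p.2) ≤ M := by
      refine (caseB T hT X' ps D D Ω F P κ hκ0 hκ1 le_rfl).trans ?_
      have h7 : (1 - κ) ^ Ω ≤ Real.exp (-((3 * k : ℕ) * l')) := by
        apply pow_le_exp κ l' (3 * k) Ω hκ1
        have h8 : ((3 * k : ℕ) : ℝ) * l' ^ 4 ≤ Ω := Nat.le_ceil _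
        calc ((3 * k : ℕ) : ℝ) * l' = κ * (((3 * k : ℕ) : ℝ) * l' ^ 4) := by
              rw [hκ]
              have : l' ≠ 0 := by linarith
              field_simp
          _ ≤ κ * Ω := mul_le_mul_of_nonneg_left h8 hκ0
      have h8 : Real.exp (-((3 * k : ℕ) * l')) = 1 / L' ^ (3 * k) := by
        rw [Real.exp_neg, Real.exp_nat_mul, hexpl, one_div]
      rw [h8] at h7
      have hT0 : 0 ≤ ∑ f ∈ Icc 2 F, T f := sum_nonneg fun f _ => hT f
      calc (1 - κ) ^ Ω * (D * ∑ f ∈ Icc 2 F, T f) ≤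
          (1 / L' ^ (3 * k)) * (L' ^ (2 * k) * (M * K)) := by
            apply mul_le_mul h7 _ (by positivity) (by positivity)
            exact mul_le_mul hDle hall hT0 (by positivity)
        _ = M * ((L' ^ (2 * k) * L' ^ k) / L' ^ (3 * k)) := by rw [hK]; ring
        _ = M := by
            rw [← pow_add, show 2 * k + k = 3 * k by ring, div_self (by positivity), mul_one]
    obtain ⟨S, hSP, hS1, hS2⟩ := exists_good P κ hκ0 hκ1 (fun S => ∑ q ∈ S, (1:ℝ) / q)
      (fun S => ∑ p ∈ pairB X' ps D D Ω P S, T (p.1 * p.2))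
      (fun S => sum_nonneg fun _ _ => by positivity)
      (fun S => sum_nonneg fun _ _ => hT _) (2 / l' ^ 2) M (by positivity) hM0 hE1 hE2
    refine ⟨S, ⟨?_, ?_⟩, ?_⟩
    · intro q hq
      have := hSP hq
      rw [hP, mem_filter, mem_Icc] at this
      exact ⟨this.2.1, this.2.2, this.1.2⟩
    · rw [hlogX']
      calc ∑ q ∈ S, (1:ℝ) / q ≤ 3 * (2 / l' ^ 2) := hS1
        _ = 6 / l' ^ 2 := by ring
    -- case A
    have hsize : ∀ p ∈ pairs X' ps R S, p.2 ≤ D → (P ∩ p.1.primeFactors).card < Ω →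
        ((p.1 * p.2 : ℕ) : ℝ) ≤ Real.exp (l ^ 6) := by
      intro p hp hpD hpΩ
      obtain ⟨ha, _, _, _, _, _, _⟩ := REL.pairs_facts X' ps R S p hp
      have h7 := size_caseA X' ps Ω S p.1 ha hpΩ L' hL'1 hyL
      have h8 : (p.2 : ℝ) ≤ L' ^ (2 * k) :=
        le_trans (by exact_mod_cast hpD) hDle
      have hz : (z2 X' : ℝ) ≤ l' ^ 3 + 1 := by
        unfold z2
        rw [hlogX']
        exact (Nat.ceil_lt_add_one (by positivity)).le
      have hΩle : (Ω : ℝ) ≤ (3 * k : ℕ) * l' ^ 4 + 1 := (Nat.ceil_lt_add_one (by positivity)).le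
      have h4e : (4:ℝ) ≤ Real.exp 2 := by
        have h := Real.exp_one_gt_d9
        have : Real.exp 2 = Real.exp 1 * Real.exp 1 := by rw [← Real.exp_add]; norm_num
        rw [this]
        nlinarith
      push_cast
      calc (p.1 : ℝ) * p.2 ≤ (4 ^ (z2 X') * L' ^ Ω) * L' ^ (2 * k) :=
            mul_le_mul h7 h8 (by positivity) (by positivity)
        _ ≤ ((Real.exp 2) ^ (z2 X') * L' ^ Ω) * L' ^ (2 * k) := by gcongr
        _ = Real.exp (2 * z2 X' + Ω * l' + (2 * k : ℕ) * l') := by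
            rw [Real.exp_add, Real.exp_add, Real.exp_nat_mul, Real.exp_nat_mul, hexpl,
              ← Real.exp_nat_mul, mul_comm (2:ℝ) (z2 X' : ℝ)]
        _ ≤ Real.exp (l ^ 6) := by
            apply Real.exp_le_exp.mpr
            have hp1 := poly1 l' ((3 * k : ℕ) : ℝ) ((2 * k : ℕ) : ℝ) (by positivity)
              (by positivity) (by push_cast; linarith)
            have h9 : (Ω : ℝ) * l' ≤ l' * ((3 * k : ℕ) * l' ^ 4 + 1) := by
              rw [mul_comm]
              exact mul_le_mul_of_nonneg_left hΩle (by linarith)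
            have h10 : l' ^ 6 ≤ l ^ 6 := pow_le_pow_left₀ hl0.le hll' _
            linarith
    have hmain := REL.sum_all A C ps R D Ω Z hps X X' C5 K (Real.exp (l ^ 6))
      (X * Real.exp (-l ^ 7 / 16)) M hX1 hL1 hC5 hwt T hT hLS hK0
      (fun b hb => by
        have h7 : L' ^ (2 * k) < b := (Nat.floor_lt (by positivity)).mp hb
        rw [hK, ← pow_mul, mul_comm]
        exact h7.le) P S hVle hRle h6 (by positivity) (by positivity) hsize hSC hS2
    have hPS : PS A X S ps T = ∑ p ∈ pairs X' ps R S, wt A p.2 * T (p.1 * p.2) := rfl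
    rw [hPS]
    refine hmain.trans ?_
    have hq0 : (0:ℝ) < 100 ^ k := by positivity
    have hLU0 : 0 < L ^ U := by positivity
    have hKL : K * 100 ^ k = L ^ (C + U) * L ^ 2 := by
      rw [hK, hL', div_pow, div_mul_cancel₀ _ hq0.ne', hk, ← pow_add]
    have hLbig : 24 * C5 * 100 ^ k ≤ L := by linarith
    have t1 : C5 * (Real.exp (l ^ 6) * (X * Real.exp (-l ^ 7 / 16))) ≤ (1 / 4) * (X / L ^ U) := by
      have h7 : Real.exp (l ^ 6) * Real.exp (-l ^ 7 / 16) ≤ 1 / L ^ (U + 1) := by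
        rw [← Real.exp_add]
        calc Real.exp (l ^ 6 + -l ^ 7 / 16) ≤ Real.exp (-((U + 1 : ℕ) * l)) := by
              apply Real.exp_le_exp.mpr
              have := REL.poly3 l (U:ℝ) hUr (by linarith)
              push_cast
              linarith
          _ = 1 / L ^ (U + 1) := by rw [Real.exp_neg, Real.exp_nat_mul, hexpl2, one_div]
      calc C5 * (Real.exp (l ^ 6) * (X * Real.exp (-l ^ 7 / 16))) =
          C5 * X * (Real.exp (l ^ 6) * Real.exp (-l ^ 7 / 16)) := by ring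
        _ ≤ C5 * X * (1 / L ^ (U + 1)) := mul_le_mul_of_nonneg_left h7 (by positivity)
        _ = (C5 / L) * (X / L ^ U) := by
            rw [pow_succ]
            field_simp
        _ ≤ (1 / 4) * (X / L ^ U) := by
            apply mul_le_mul_of_nonneg_right _ (by positivity)
            rw [div_le_div_iff₀ hL0 (by norm_num)]
            have : 0 ≤ 24 * C5 * 100 ^ k := by positivity
            linarith
    have t2 : C5 * (3 * M) ≤ (1 / 4) * (X / L ^ U) := by
      have h7 : 24 * C5 * L ^ (C + U) ≤ K := by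
        have h8 : 24 * C5 * L ^ (C + U) * 100 ^ k ≤ K * 100 ^ k := by
          rw [hKL]
          calc 24 * C5 * L ^ (C + U) * 100 ^ k = L ^ (C + U) * (24 * C5 * 100 ^ k) := by ring
            _ ≤ L ^ (C + U) * L ^ 2 := by
                apply mul_le_mul_of_nonneg_left _ (by positivity)
                nlinarith
        exact le_of_mul_le_mul_right h8 hq0
      calc C5 * (3 * M) = (24 * C5 * L ^ (C + U) / K) * ((1 / 4) * (X / L ^ U)) := by
            rw [hM, pow_add]
            field_simp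
            ring
        _ ≤ 1 * ((1 / 4) * (X / L ^ U)) := by
            apply mul_le_mul_of_nonneg_right _ (by positivity)
            rw [div_le_one hK0]
            exact h7
        _ = _ := one_mul _
    have t3 : 3 * L * (C5 * (X / K) * L ^ C) ≤ (1 / 4) * (X / L ^ U) := by
      have h7 : 12 * C5 * L ^ (C + U + 1) ≤ K := by
        have h8 : 12 * C5 * L ^ (C + U + 1) * 100 ^ k ≤ K * 100 ^ k := by
          rw [hKL]
          calc 12 * C5 * L ^ (C + U + 1) * 100 ^ k =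
              L ^ (C + U) * ((12 * C5 * 100 ^ k) * L) := by ring
            _ ≤ L ^ (C + U) * L ^ 2 := by
                apply mul_le_mul_of_nonneg_left _ (by positivity)
                rw [pow_two]
                apply mul_le_mul_of_nonneg_right _ hL0.le
                have : 0 ≤ 12 * C5 * 100 ^ k := by positivity
                linarith
        exact le_of_mul_le_mul_right h8 hq0
      calc 3 * L * (C5 * (X / K) * L ^ C) =
          (12 * C5 * L ^ (C + U + 1) / K) * ((1 / 4) * (X / L ^ U)) := by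
            rw [pow_add, pow_add]
            field_simp
            ring
        _ ≤ 1 * ((1 / 4) * (X / L ^ U)) := by
            apply mul_le_mul_of_nonneg_right _ (by positivity)
            rw [div_le_one hK0]
            exact h7
        _ = _ := one_mul _
    have t4 : 3 * L * (C5 * (2 * X ^ (99993 / 100000 : ℝ)) * L ^ C) ≤ (1 / 4) * (X / L ^ U) := by
      calc 3 * L * (C5 * (2 * X ^ (99993 / 100000 : ℝ)) * L ^ C) =
          (24 * C5 * L ^ (C + U + 1)) * X ^ (99993 / 100000 : ℝ) * ((1 / 4) * (1 / L ^ U)) := by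
            rw [pow_add, pow_add]
            field_simp
            ring
        _ ≤ X ^ (7 / 100000 : ℝ) * X ^ (99993 / 100000 : ℝ) * ((1 / 4) * (1 / L ^ U)) := by
            gcongr
        _ = (1 / 4) * (X / L ^ U) := by
            rw [← Real.rpow_add hX0, show (7 / 100000 + 99993 / 100000 : ℝ) = 1 by norm_num,
              Real.rpow_one]
            ring
    have e1 : 3 * L * (C5 * (X / K + 2 * X ^ (99993 / 100000 : ℝ)) * L ^ C) =
        3 * L * (C5 * (X / K) * L ^ C) +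
          3 * L * (C5 * (2 * X ^ (99993 / 100000 : ℝ)) * L ^ C) := by ring
    rw [e1]
    linarith
  obtain ⟨X0, hX0⟩ := eventually_atTop.mp ev
  exact ⟨X0, fun X hX ps hps T hT hLS hSC => hX0 X hX ps hps T hT hLS hSC⟩

end Pool.Agent.Q117.CR
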