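import Pool.Agent.Q117.CR.Stm

/-! Project CR (helper117), job TZ: the trapezoid. -/

set_option autoImplicit false

namespace Pool.Agent.Q117.CR

theorem tz0 : St_TZ := by
  intro δ a b n hδ ha hab hn
  have hn0 : (0 : ℝ) < n := by exact_mod_cast hn
  have hb : 0 < b := lt_of_lt_of_le (by positivity) hab
  have e1 : Real.log (b / n) = Real.log b - Real.log n := Real.log_div hb.ne' hn0.ne'
  have e2 : Real.log (b * Real.exp (-δ) / n) = Real.log b - δ - Real.log n := by
    rw [Real.log_div (by positivity) hn0.ne', Real.log_mul hb.ne' (Real.exp_ne_zero _), Real.log_exp]; ring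
  have e3 : Real.log (a * Real.exp δ / n) = Real.log a + δ - Real.log n := by
    rw [Real.log_div (by positivity) hn0.ne', Real.log_mul ha.ne' (Real.exp_ne_zero _), Real.log_exp]
  have e4 : Real.log (a / n) = Real.log a - Real.log n := Real.log_div ha.ne' hn0.ne'
  have hL : Real.log a + 2 * δ ≤ Real.log b := by
    have := Real.log_le_log (by positivity) hab
    rwa [Real.log_mul ha.ne' (Real.exp_ne_zero _), Real.log_exp] at this
  have key : tz δ a b n = (max 0 (Real.log b - Real.log n) - max 0 (Real.log b - δ - Real.log n) -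
      max 0 (Real.log a + δ - Real.log n) + max 0 (Real.log a - Real.log n)) / δ := by
    unfold tz lp
    rw [e1, e2, e3, e4]
  rw [key]
  set α := Real.log a
  set β := Real.log b
  set v := Real.log (n : ℝ)
  have c : ∀ x : ℝ, (0 ≤ x ∧ max 0 x = x) ∨ (x ≤ 0 ∧ max 0 x = 0) := by
    intro x
    rcases le_total 0 x with h | h
    · exact Or.inl ⟨h, max_eq_right h⟩
    · exact Or.inr ⟨h, max_eq_left h⟩
  refine ⟨?_, ?_, fun h => ?_, fun h => ?_, fun h h' => ?_⟩
  · apply div_nonneg _ hδ.le
    rcases c (β - v) with ⟨h1, g1⟩ | ⟨h1, g1⟩ <;> rcases c (β - δ - v) with ⟨h2, g2⟩ | ⟨h2, g2⟩ <;>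
      rcases c (α + δ - v) with ⟨h3, g3⟩ | ⟨h3, g3⟩ <;> rcases c (α - v) with ⟨h4, g4⟩ | ⟨h4, g4⟩ <;>
      rw [g1, g2, g3, g4] <;> linarith
  · rw [div_le_one hδ]
    rcases c (β - v) with ⟨h1, g1⟩ | ⟨h1, g1⟩ <;> rcases c (β - δ - v) with ⟨h2, g2⟩ | ⟨h2, g2⟩ <;>
      rcases c (α + δ - v) with ⟨h3, g3⟩ | ⟨h3, g3⟩ <;> rcases c (α - v) with ⟨h4, g4⟩ | ⟨h4, g4⟩ <;>
      rw [g1, g2, g3, g4] <;> linarith
  · have hv : v ≤ α := Real.log_le_log hn0 h
    rw [max_eq_right (by linarith), max_eq_right (by linarith), max_eq_right (by linarith), max_eq_right (by linarith)]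
    have : β - v - (β - δ - v) - (α + δ - v) + (α - v) = 0 := by ring
    rw [this, zero_div]
  · have hv : β ≤ v := Real.log_le_log hb h
    rw [max_eq_left (by linarith), max_eq_left (by linarith), max_eq_left (by linarith), max_eq_left (by linarith)]
    simp
  · have h1 : α + δ ≤ v := by
      have := Real.log_le_log (by positivity) h
      rwa [Real.log_mul ha.ne' (Real.exp_ne_zero _), Real.log_exp] at this
    have h2 : v ≤ β - δ := by
      have := Real.log_le_log hn0 h'
      rwa [Real.log_mul hb.ne' (Real.exp_ne_zero _), Real.log_exp] at this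
    rw [max_eq_right (by linarith), max_eq_right (by linarith), max_eq_left (by linarith), max_eq_left (by linarith)]
    rw [div_eq_one_iff_eq hδ.ne']; ring

end Pool.Agent.Q117.CR
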