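import Pool.Agent.Q117.CR.Fin
import Pool.Agent.Q117.CR.Tz0
import Pool.Agent.Q117.CR.Bsc
import Pool.Agent.Q117.CR.Bvb
import Pool.Agent.Q117.CR.Fb
import Pool.Agent.Q117.CR.Lsp
import Pool.Agent.Q117.CR.MS
import Pool.Agent.Q117.CR.Pl
import Pool.Agent.Q117.CR.Prw
import Pool.Agent.Q117.CR.Rel
import Pool.Agent.Q117.CR.Sc0
import Pool.Agent.Q153.CR.BVP
import Pool.Agent.Q153.CR.TRAP
import Pool.Agent.Q237.CR.Pr
import Pool.Agent.Q237.CR.Swb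
import Pool.Agent.Y261.CH.Core
import Pool.Agent.Y48.CH.Mass
import Pool.Agent.Y484.CH.Num
import Pool.Agent.Y73.CH.Wt

/-! Project CR (helper117): the theorem. -/

set_option autoImplicit false

namespace Pool.Agent.Q117.CR

open Finset Pool.Agent.Q117.GP

/-- Chen's theorem relative to a smooth modulus -/
theorem chenW (r : ℕ) : ∃ t : ℕ, 1 ≤ t ∧ ∃ c : ℝ, 0 < c ∧ CW r t c := chenW_of
  (bvr sc0 pl pr1 rel lsp (Pool.Agent.Q153.CR.bvp (Pool.Agent.Q153.CR.trap tz0)) (bvb swb) bls bsc)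
  tz0 (ms tz0) fb prw Pool.Agent.Y261.CH.core (Pool.Agent.Y48.CH.mass Pool.Agent.Y484.CH.num)
  Pool.Agent.Y484.CH.num Pool.Agent.Y73.CH.wt r

/-- Chen's theorem in every admissible consecutive pattern -/
theorem pattern (k : ℕ) (hk : 1 ≤ k) : ∃ t : ℕ, 1 ≤ t ∧
    ∃ c' : ℝ, 0 < c' ∧ ∃ X0 : ℝ, ∀ X : ℝ, X0 ≤ X → ∀ H : Finset ℕ, H.card = k →
    (∀ h ∈ H, (h : ℝ) ≤ c' * Rk X) → Pool.Agent.Q117.GP.Adm H → ∀ a ∈ H, ∀ b ∈ H, a ≠ b →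
      X ^ (99 / 100 : ℝ) ≤ ((PtsC t X (c' * Rk X) H a b).card : ℝ) := by
  obtain ⟨t, ht, c, hc, hCW⟩ := chenW k
  exact ⟨t, ht, pattern_of k t hk ht c hc hCW⟩

end Pool.Agent.Q117.CR
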