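import Pool.Agent.Q117.CR.Cond

/-!
# Numerical steps of the final assembly
-/

set_option autoImplicit false

namespace Pool.Agent.Q117.CR

open Finset Filter Pool.Agent.W23.DC Pool.Agent.Y660.RP
open Pool.Agent.Y843.HS (Pr VV Pr_mem Pr_prime)
open Pool.Agent.Y843.QD (vZ dvd_vZ)
open Pool.Agent.Y843.HG (Adm Z0 SP V1 V1_bounds log_floor VV_low)
open Pool.Agent.Y843.CH
open Pool.Agent.Y840.CI
open Pool.Agent.H378R2 (yy z2 GoodS GoodP)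

theorem exp_le_two_N {x : ℝ} (h0 : 0 ≤ x) (h1 : x ≤ 1) : Real.exp x ≤ 1 + 2 * x := by
  have h := Real.exp_bound' h0 h1 (n := 2) (by norm_num)
  simp [Finset.sum_range_succ] at h
  nlinarith

theorem num_EB {X W φ lX : ℝ} {K : ℕ} (hX : 0 ≤ X) (hW : 0 < W) (hφ : 0 < φ) (h : W ≤ lX * φ) (hl : 3 ≤ lX) :
    3 * ((X / lX ^ (K + 6)) / φ) ≤ (X / W) / lX ^ (K + 4) := by
  have hlX : 0 < lX := by linarith
  have h1 : 1 / φ ≤ lX / W := by
    rw [div_le_div_iff₀ hφ hW]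
    linarith
  calc 3 * ((X / lX ^ (K + 6)) / φ) = 3 * (X / lX ^ (K + 6)) * (1 / φ) := by ring
    _ ≤ 3 * (X / lX ^ (K + 6)) * (lX / W) := by gcongr
    _ = 3 * (X / W) / lX ^ (K + 5) := by
        rw [pow_succ lX (K + 5)]
        field_simp
    _ ≤ (X / W) / lX ^ (K + 4) := by
        rw [pow_succ lX (K + 4), div_le_div_iff₀ (by positivity) (by positivity)]
        have h3 : 0 ≤ X / W * lX ^ (K + 4) := by positivity
        nlinarith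

theorem num_half {X : ℝ} {N W e : ℝ} {K : ℕ} (hX : 1 ≤ X) (hN : N ≤ X ^ (1 / 2 : ℝ)) (hN0 : 0 ≤ N) (hW : 0 < W)
    (hWle : W ≤ X ^ (1 / 50000 : ℝ)) (h2 : 2 ≤ X ^ (1 / 1000 : ℝ)) (hl : 0 < Real.log X)
    (he : 0 ≤ e)
    (h8 : X ^ (51 / 100 : ℝ) ≤ e / 8 * X / Real.log X ^ K) :
    N + X ^ (1 / 2 : ℝ) ≤ e / 2 * (X / W) / Real.log X ^ K := by
  have hX0 : 0 < X := by linarith
  have h2 : (N + X ^ (1 / 2 : ℝ)) * W ≤ X ^ (51 / 100 : ℝ) := by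
    calc (N + X ^ (1 / 2 : ℝ)) * W ≤ (X ^ (1 / 1000 : ℝ) * X ^ (1 / 2 : ℝ)) * X ^ (1 / 50000 : ℝ) := by
          apply mul_le_mul _ hWle hW.le (by positivity)
          have : 0 < X ^ (1 / 2 : ℝ) := by positivity
          nlinarith
      _ = X ^ (1 / 1000 + 1 / 2 + 1 / 50000 : ℝ) := by
          rw [Real.rpow_add hX0, Real.rpow_add hX0]
      _ ≤ X ^ (51 / 100 : ℝ) := Real.rpow_le_rpow_of_exponent_le hX (by norm_num)
  have h3 := h2.trans h8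
  have h4 : e / 2 * (X / W) / Real.log X ^ K = (e / 2 * X / Real.log X ^ K) / W := by
    field_simp
  rw [h4, le_div_iff₀ hW]
  refine h3.trans ?_
  apply div_le_div_of_nonneg_right _ (by positivity)
  nlinarith

theorem num_lo {X W lo N e lX : ℝ} {K : ℕ} (hN : 0 ≤ N) (hW : 0 < W) (hl : 0 < lX)
    (h : X / lo + N ≤ e * X / lX ^ K) : X / W / lo ≤ e * (X / W) / lX ^ K := by
  have h1 : X / lo ≤ e * X / lX ^ K := by linarith
  have h2 : X / W / lo = (X / lo) / W := by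
    rw [div_div, div_div, mul_comm]
  have h4 : e * (X / W) / lX ^ K = (e * X / lX ^ K) / W := by
    field_simp
  rw [h2, h4]
  exact div_le_div_of_nonneg_right h1 hW.le

theorem num_err {X W θ cm cV lX D Q : ℝ} {K : ℕ} (hW : 0 < W) (hl : 0 < lX) (hcm : 0 < cm)
    (hcV : 0 < cV) (hD : θ * X ≤ D) (hD0 : 0 ≤ D) (hQ : cV / lX ^ K ≤ Q) :
    2 * (cm * cV * θ / 8) * (X / W / lX ^ K) ≤ cm / 4 * (D / W * Q) := by
  have h1 : 2 * (cm * cV * θ / 8) * (X / W / lX ^ K) = cm / 4 * ((θ * X) / W) * (cV / lX ^ K) := by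
    ring
  rw [h1]
  have h3 : 0 ≤ cm / 4 * (D / W) := by positivity
  calc cm / 4 * ((θ * X) / W) * (cV / lX ^ K) ≤ cm / 4 * (D / W) * (cV / lX ^ K) := by gcongr
    _ ≤ cm / 4 * (D / W) * Q := mul_le_mul_of_nonneg_left hQ h3
    _ = _ := by ring

theorem num_fin {cm m a1 L EB J Bd Ex G lo N sq e0 EE : ℝ} (hml : cm * m ≤ a1)
    (hfin : a1 - L * EB - 1 / 2 * (2 * (J * (L * EB))) - (Bd + Ex) ≤ G)
    (hBd : Bd ≤ lo + N) (hEx : Ex ≤ cm / 4 * m + sq)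
    (hEr : L * EB + 1 / 2 * (2 * (J * (L * EB))) + (lo + (N + sq)) ≤ 2 * e0 * EE)
    (hE2 : 2 * e0 * EE ≤ cm / 4 * m) : cm / 2 * m ≤ G := by
  linarith

/-- the exceptional prime -/
theorem EW_card {r X t Zf Z A B Y W ps a : ℕ} {Cf cm D Q : ℝ} {Om : ℕ → Finset ℕ} (hCf : 0 < Cf) (hcm : 0 < cm)
    (hD : D = (B : ℝ) - A) (hD0 : 0 ≤ D) (hQ : Q = VD Om (W * ps) Y) (hQ0 : 0 ≤ Q)
    (hZf : Zf ≤ Z) (hZc : 4 * Cf / cm ≤ Z) (hps : GoodP Z ps) (hYd : Y = ⌊(X : ℝ) ^ (1 / (t : ℝ))⌋₊)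
    (hadm : Adm r Y Om) (hW : 0 < W) (hpsW : ¬ ps ∣ W ∨ ps = 1) (hpsY : ps ≤ Y)
    (hsd : ∀ q : ℕ, q.Prime → q ≤ Z → q ∣ W) (hAB : A ≤ B) (hBX : B ≤ X)
    (H : ∀ (W ps a A B Y : ℕ) (Om : ℕ → Finset ℕ), Y = ⌊(X : ℝ) ^ (1 / (t : ℝ))⌋₊ → Adm r Y Om → 1 ≤ W →
      ps.Prime → ¬ ps ∣ W → Zf < ps → ps ≤ Y → (∀ q : ℕ, q.Prime → q ≤ Zf → q ∣ W) → A ≤ B → B ≤ X →
      (((Ioc A B).filter (fun n => n ≡ a [MOD W] ∧ n % ps ∈ Z0 Om ps ∧
        ∀ q ∈ Pr 0 Y, ¬ q ∣ W * ps → n % q ∉ Z0 Om q)).card : ℝ) ≤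
      Cf * ((((B : ℝ) - A) / ((W : ℝ) * ps)) * VD Om (W * ps) Y) + (X : ℝ) ^ (1 / 2 : ℝ)) :
    ((EW A B Y W ps a Om).card : ℝ) ≤ cm / 4 * (D / W * Q) + (X : ℝ) ^ (1 / 2 : ℝ) := by
  classical
  have hWr : (0 : ℝ) < W := by exact_mod_cast hW
  rcases hps with h1 | ⟨h1, hZps⟩
  · have h4 : EW A B Y W ps a Om = ∅ := by
      unfold EW
      rw [filter_eq_empty_iff]
      rintro p _ ⟨_, h5, _⟩
      rw [h1] at h5
      exact Nat.not_prime_one h5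
    rw [h4, card_empty, Nat.cast_zero]
    positivity
  · have hpsW' : ¬ ps ∣ W := by
      rcases hpsW with h | h
      · exact h
      · rw [h] at h1
        exact absurd h1 Nat.not_prime_one
    have h5 := H W ps a A B Y Om hYd hadm hW h1 hpsW' (by omega) hpsY
      (fun q hq hqZ => hsd q hq (hqZ.trans hZf)) hAB hBX
    rw [← hQ, ← hD] at h5
    have h6 : ((EW A B Y W ps a Om).card : ℝ) ≤ (((Ioc A B).filter (fun n => n ≡ a [MOD W] ∧ n % ps ∈ Z0 Om ps ∧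
        ∀ q ∈ Pr 0 Y, ¬ q ∣ W * ps → n % q ∉ Z0 Om q)).card : ℝ) := by
      apply Nat.cast_le.2
      apply card_le_card
      intro p hp
      unfold EW at hp
      rw [mem_filter, mem_PNX] at hp
      rw [mem_filter, mem_Ioc]
      exact ⟨hp.1.1, hp.2.1, hp.2.2.2.1, hp.2.2.2.2⟩
    refine h6.trans (le_trans (le_of_eq (by congr!)) (h5.trans ?_))
    have hpsr : (Z : ℝ) < ps := by exact_mod_cast hZps
    have hps0 : (0 : ℝ) < ps := lt_of_le_of_lt (Nat.cast_nonneg _) hpsr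
    have h7 : Cf * ((D / ((W : ℝ) * ps)) * Q) = (Cf / ps) * (D / W * Q) := by
      field_simp
    rw [h7]
    have h8 : Cf / ps ≤ cm / 4 := by
      rw [div_le_div_iff₀ hps0 (by norm_num)]
      have h9 := hZc
      rw [div_le_iff₀ hcm] at h9
      have h10 : (Z : ℝ) * cm ≤ ps * cm := mul_le_mul_of_nonneg_right hpsr.le hcm.le
      linarith
    have hm0 : 0 ≤ D / W * Q := by positivity
    have := mul_le_mul_of_nonneg_right h8 hm0
    linarith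

end Pool.Agent.Q117.CR
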