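import Pool.Agent.Q117.CR.Top
import Pool.Agent.Q117.GP.Apply

/-!
# Chen's theorem in patterns: preparations
-/

set_option autoImplicit false

namespace Pool.Agent.Q117.CR

open Finset Filter
open Pool.Agent.Y843.HS (Pr VV Pr_mem Pr_prime)
open Pool.Agent.Y843.HG (Z0 SP VV_low)
open Pool.Agent.Y843.CH
open Pool.Agent.H378R2 (yy z2 GoodS GoodP WW)
open Pool.Agent.Q117.GP (Rk OmH)

/-- Rankin's function at the small scale -/
theorem Rk_scale : ∃ X0 : ℝ, ∀ X : ℝ, X0 ≤ X → Rk X ≤ 400 * Rk ((⌊3 * X⌋₊ : ℝ) ^ (1 / 100 : ℝ)) := by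
  have hlog := Real.tendsto_log_atTop
  have h2 : Tendsto (fun X : ℝ => Real.log (Real.log X)) atTop atTop := hlog.comp hlog
  have h3 : Tendsto (fun X : ℝ => Real.log (Real.log (Real.log X))) atTop atTop := hlog.comp h2
  have h4 : Tendsto (fun X : ℝ => Real.log (Real.log (Real.log (Real.log X)))) atTop atTop := hlog.comp h3
  have hev : ∀ᶠ X : ℝ in atTop, Rk X ≤ 400 * Rk ((⌊3 * X⌋₊ : ℝ) ^ (1 / 100 : ℝ)) := by
    filter_upwards [eventually_ge_atTop (1 : ℝ), hlog.eventually_ge_atTop 4, h2.eventually_ge_atTop (2 * Real.log 100 + 2),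
      h3.eventually_ge_atTop 2, h4.eventually_ge_atTop 2] with X g1 g2 g3 g4 g5
    obtain ⟨T, hT⟩ : ∃ T, T = Real.log X := ⟨_, rfl⟩
    obtain ⟨A, hA⟩ : ∃ A, A = Real.log T := ⟨_, rfl⟩
    obtain ⟨B, hB⟩ : ∃ B, B = Real.log A := ⟨_, rfl⟩
    obtain ⟨D, hD⟩ : ∃ D, D = Real.log B := ⟨_, rfl⟩
    have hR : Rk X = T * A * D / B ^ 2 := by
      unfold Rk
      rw [← hT, ← hA, ← hB, ← hD]
    rw [← hT] at g2 g3 g4 g5
    rw [← hA] at g3 g4 g5
    rw [← hB] at g4 g5
    rw [← hD] at g5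
    have hX0 : 0 < X := by linarith
    have hl100 : 0 < Real.log 100 := Real.log_pos (by norm_num)
    have hl2 : 0 < Real.log 2 := Real.log_pos (by norm_num)
    have hl2' : Real.log 2 ≤ 1 := by
      have := Real.log_two_lt_d9
      linarith
    -- the new scale
    have hF1 : X ≤ (⌊3 * X⌋₊ : ℝ) := by
      have := (Nat.lt_floor_add_one (3 * X)).le
      linarith
    have hF2 : (⌊3 * X⌋₊ : ℝ) ≤ 3 * X := Nat.floor_le (by linarith)
    obtain ⟨T', hT'⟩ : ∃ T', T' = Real.log ((⌊3 * X⌋₊ : ℝ) ^ (1 / 100 : ℝ)) := ⟨_, rfl⟩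
    obtain ⟨A', hA'⟩ : ∃ A', A' = Real.log T' := ⟨_, rfl⟩
    obtain ⟨B', hB'⟩ : ∃ B', B' = Real.log A' := ⟨_, rfl⟩
    obtain ⟨D', hD'⟩ : ∃ D', D' = Real.log B' := ⟨_, rfl⟩
    have hR' : Rk ((⌊3 * X⌋₊ : ℝ) ^ (1 / 100 : ℝ)) = T' * A' * D' / B' ^ 2 := by
      unfold Rk
      rw [← hT', ← hA', ← hB', ← hD']
    have e1 : T' = 1 / 100 * Real.log (⌊3 * X⌋₊ : ℝ) := by
      rw [hT', Real.log_rpow (by linarith)]
    have e2 : T ≤ Real.log (⌊3 * X⌋₊ : ℝ) := by
      rw [hT]
      exact Real.log_le_log hX0 hF1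
    have e3 : Real.log (⌊3 * X⌋₊ : ℝ) ≤ Real.log 3 + T := by
      rw [hT, ← Real.log_mul (by norm_num) hX0.ne']
      exact Real.log_le_log (by linarith) hF2
    have e4 : Real.log 3 ≤ 2 := by
      have := Real.log_le_sub_one_of_pos (show (0 : ℝ) < 3 by norm_num)
      linarith
    have t1 : T / 100 ≤ T' := by rw [e1]; linarith
    have t2 : T' ≤ T := by rw [e1]; linarith
    have hT0 : 0 < T := by linarith
    have hT'0 : 0 < T' := by linarith
    have a1 : A - Real.log 100 ≤ A' := by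
      have h5 := Real.log_le_log (by positivity) t1
      rw [Real.log_div hT0.ne' (by norm_num), ← hA, ← hA'] at h5
      exact h5
    have a2 : A' ≤ A := by
      rw [hA', hA]
      exact Real.log_le_log hT'0 t2
    have a3 : A / 2 ≤ A' := by linarith
    have hA0 : 0 < A := by linarith
    have hA'0 : 0 < A' := by linarith
    have b1 : B - Real.log 2 ≤ B' := by
      have h5 := Real.log_le_log (by positivity) a3
      rw [Real.log_div hA0.ne' (by norm_num), ← hB, ← hB'] at h5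
      exact h5
    have b2 : B' ≤ B := by
      rw [hB', hB]
      exact Real.log_le_log hA'0 a2
    have b3 : B / 2 ≤ B' := by linarith
    have hB0 : 0 < B := by linarith
    have hB'0 : 0 < B' := by linarith
    have d1 : D - Real.log 2 ≤ D' := by
      have h5 := Real.log_le_log (by positivity) b3
      rw [Real.log_div hB0.ne' (by norm_num), ← hD, ← hD'] at h5
      exact h5
    have d3 : D / 2 ≤ D' := by linarith
    have hD0 : 0 < D := by linarith
    rw [hR, hR']
    have f1 : T * A * D ≤ 400 * (T' * A' * D') := by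
      calc T * A * D = 400 * (T / 100 * (A / 2) * (D / 2)) := by ring
        _ ≤ 400 * (T' * A' * D') := by gcongr
    have f2 : B' ^ 2 ≤ B ^ 2 := pow_le_pow_left₀ hB'0.le b2 2
    rw [mul_div_assoc']
    apply div_le_div₀ _ f1 (by positivity) f2
    have : 0 ≤ D' := by linarith
    positivity
  obtain ⟨X0, h⟩ := eventually_atTop.1 hev
  exact ⟨X0, h⟩

lemma OmH_key {a h q p : ℕ} (hq : 0 < q) : (a + h * (q - 1)) % q = p % q ↔ a ≡ p + h [MOD q] := by
  have h3 : a + h * (q - 1) + h = a + h * q := by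
    have h4 : h * (q - 1) + h = h * q := by
      obtain ⟨m, rfl⟩ : ∃ m, q = m + 1 := ⟨q - 1, by omega⟩
      rw [Nat.add_sub_cancel]
      ring
    omega
  have h5 : a + h * q ≡ a [MOD q] := by
    have : a + h * q ≡ a + 0 [MOD q] := Nat.ModEq.add_left a ((Nat.modEq_zero_iff_dvd).2 (dvd_mul_left q h))
    simpa using this
  constructor
  · intro h1
    have h2 : a + h * (q - 1) ≡ p [MOD q] := h1
    have h6 := h2.add_right h
    rw [h3] at h6
    exact h5.symm.trans h6
  · intro h1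
    have h6 : a + h * (q - 1) + h ≡ p + h [MOD q] := by
      rw [h3]
      exact h5.trans h1
    exact Nat.ModEq.add_right_cancel' h h6

/-- membership in the forbidden classes -/
lemma mem_Z0_OmH {H : Finset ℕ} {a p q : ℕ} (hq : 0 < q) : p % q ∈ Z0 (OmH H a) q ↔
    q ∣ p ∨ ∃ h ∈ H, h ≠ a ∧ a ≡ p + h [MOD q] := by
  unfold Z0
  rw [mem_insert]
  constructor
  · rintro (h1 | h1)
    · exact Or.inl (Nat.dvd_of_mod_eq_zero h1)
    · unfold OmH at h1
      rw [mem_filter, mem_image] at h1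
      obtain ⟨⟨h, hh, h2⟩, h3⟩ := h1
      rw [mem_erase] at hh
      exact Or.inr ⟨h, hh.2, hh.1, (OmH_key hq).1 h2⟩
  · rintro (h1 | ⟨h, hh, hne, h2⟩)
    · exact Or.inl (Nat.mod_eq_zero_of_dvd h1)
    · by_cases h0 : p % q = 0
      · exact Or.inl h0
      · right
        unfold OmH
        rw [mem_filter, mem_image]
        exact ⟨⟨h, mem_erase.2 ⟨hne, hh⟩, (OmH_key hq).2 h2⟩, h0⟩

/-- the data of the pattern -/
theorem pat_dat {H : Finset ℕ} {k a b Y : ℕ} (hH : H.card = k) (hadm : Pool.Agent.Q117.GP.Adm H) (ha : a ∈ H)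
    (hb : b ∈ H) (hab : a ≠ b) : Dat k Y ((a : ℤ) - b) (OmH H a) := by
  constructor
  · intro q hq
    have hqp := Pr_prime hq
    have hsys := Pool.Agent.Q117.GP.OmH_sys (a := a) hH
    refine ⟨hsys.card q hqp, ?_, hsys.zero q hqp, hsys.lt q hqp⟩
    -- the missing class
    obtain ⟨r, hr⟩ := hadm q hqp
    obtain ⟨c, hc⟩ : ∃ c : ℕ, c = (a + r) % q := ⟨_, rfl⟩
    have hcq : c < q := by rw [hc]; exact Nat.mod_lt _ hqp.pos
    have hc0 : c ≠ 0 := by
      intro h0
      rw [hc] at h0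
      apply hr a ha
      rw [add_comm]
      exact Nat.dvd_of_mod_eq_zero h0
    have hcn : c ∉ OmH H a q := by
      intro h1
      have h2 : (a + r) % q ∈ Z0 (OmH H a) q := by
        rw [← hc]
        exact mem_insert_of_mem h1
      rw [mem_Z0_OmH hqp.pos] at h2
      rcases h2 with h2 | ⟨h, hh, _, h3⟩
      · apply hr a ha
        rw [add_comm]
        exact h2
      · have h4 : a + 0 ≡ a + (r + h) [MOD q] := by
          rw [add_zero, ← add_assoc]
          exact h3
        have h5 := Nat.ModEq.add_left_cancel' a h4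
        exact hr h hh ((Nat.modEq_zero_iff_dvd).1 h5.symm)
    have h0n := hsys.zero q hqp
    have hsub : insert 0 (insert c (OmH H a q)) ⊆ range q := by
      intro x hx
      rw [mem_insert, mem_insert] at hx
      rw [mem_range]
      rcases hx with rfl | rfl | hx
      · exact hqp.pos
      · exact hcq
      · exact hsys.lt q hqp x hx
    have h1 := card_le_card hsub
    rw [card_range, card_insert_of_notMem, card_insert_of_notMem hcn] at h1
    · omega
    · rw [mem_insert, not_or]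
      exact ⟨fun h => hc0 h.symm, h0n⟩
  · intro q hq
    have hqp := Pr_prime hq
    have h1 : hr ((a : ℤ) - b) q = (a + b * (q - 1)) % q := by
      rw [← hr_nat (a + b * (q - 1)) hqp.pos, hr_eq_iff _ _ hqp.pos]
      have h2 : ((a + b * (q - 1) : ℕ) : ℤ) = (a : ℤ) - b + b * q := by
        have := hqp.pos
        push_cast [Nat.cast_sub (show 1 ≤ q by omega)]
        ring
      rw [h2]
      rw [Int.modEq_iff_dvd]
      have h3 : (a : ℤ) - b + b * q - (a - b) = b * q := by ring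
      rw [h3]
      exact Dvd.intro_left _ rfl
    rw [h1]
    have h2 : (a + b * (q - 1)) % q ∈ Z0 (OmH H a) q := by
      rw [mem_Z0_OmH hqp.pos]
      exact Or.inr ⟨b, hb, hab.symm, (OmH_key hqp.pos).1 rfl⟩
    exact h2

end Pool.Agent.Q117.CR
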