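import Pool.Agent.Q117.CR.Wp

/-!
# Chen's weights modulo `W`
-/

set_option autoImplicit false

namespace Pool.Agent.Q117.CR

open Finset Filter Pool.Agent.W23.DC Pool.Agent.Y660.RP
open Pool.Agent.Y843.HS (Pr Pr_mem Pr_prime)
open Pool.Agent.Y843.QD (vZ dvd_vZ)
open Pool.Agent.Y843.HG (Adm Z0 SP)
open Pool.Agent.Y843.CH

/-- the setting -/
structure StW (r N X z Y W ps a : ℕ) (ε : ℝ) (h : ℤ) (Om : ℕ → Finset ℕ) : Prop where
  D : Dat r Y h Om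
  N8 : 8 ≤ N
  N4 : (2 : ℝ) < (N : ℝ) ^ (1 / 4 : ℝ)
  NX : N ^ 2 ≤ X
  XN : X < (N + 1) ^ 2
  hX : h.natAbs ≤ X
  zY : z ≤ Y
  Yw : (Y : ℝ) < (N : ℝ) ^ ε
  e0 : 0 < ε
  e1 : ε ≤ 1 / 8
  W0 : 0 < W
  m : ∀ q ∈ Pr 0 z, q ∣ W
  mY : ∀ q : ℕ, q.Prime → q ∣ W → q ≤ Y
  a : ∀ q ∈ Pr 0 Y, q ∣ W → a % q ∉ Z0 Om q
  p : ps = 1 ∨ (ps.Prime ∧ ¬ ps ∣ W ∧ ps ≤ Y)

/-- the classes for the products -/
noncomputable def ZTD (D : ℕ) (h s : ℤ) (Y : ℕ) (Om : ℕ → Finset ℕ) (q : ℕ) : Finset ℕ :=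
  if q ∣ D then ∅ else ZT h s Y Om q

theorem StW.dY {r N X z Y W ps a : ℕ} {ε : ℝ} {h : ℤ} {Om : ℕ → Finset ℕ}
    (S : StW r N X z Y W ps a ε h Om) {q : ℕ} (hq : q.Prime) (hd : q ∣ W * ps) : q ≤ Y := by
  rcases (hq.dvd_mul).1 hd with h1 | h1
  · exact S.mY q hq h1
  · rcases S.p with h2 | ⟨h2, _, h3⟩
    · rw [h2] at h1
      exact absurd (Nat.dvd_one.1 h1) hq.one_lt.ne'
    · rwa [(Nat.prime_dvd_prime_iff_eq hq h2).1 h1]

theorem StW.clA {r N X z Y W ps a : ℕ} {ε : ℝ} {h : ℤ} {Om : ℕ → Finset ℕ}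
    (S : StW r N X z Y W ps a ε h Om) : ClD (r + 1) z N (W * ps) (ZAD (W * ps) h Y Om) := by
  have h0 := S.D.clA z N
  refine ⟨⟨?_, ?_⟩, ?_⟩
  · intro p hp
    unfold ZAD
    split_ifs
    · simp
    · exact h0.card p hp
  · intro p hp c hc
    unfold ZAD at hc
    split_ifs at hc
    · simp at hc
    · exact h0.lt p hp c hc
  · intro p _ hd
    unfold ZAD
    rw [if_pos hd]

theorem StW.clT {r N X z Y W ps a : ℕ} {ε : ℝ} {h : ℤ} {Om : ℕ → Finset ℕ}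
    (S : StW r N X z Y W ps a ε h Om) {s : ℤ} (hs : s = 1 ∨ s = -1) :
    ClD (r + 1) z N (W * ps) (ZTD (W * ps) h s Y Om) := by
  have h0 := S.D.clT hs z N
  refine ⟨⟨?_, ?_⟩, ?_⟩
  · intro p hp
    unfold ZTD
    split_ifs
    · simp
    · exact h0.card p hp
  · intro p hp c hc
    unfold ZTD at hc
    split_ifs at hc
    · simp at hc
    · exact h0.lt p hp c hc
  · intro p _ hd
    unfold ZTD
    rw [if_pos hd]

theorem StW.gT {r N X z Y W ps a : ℕ} {ε : ℝ} {h : ℤ} {Om : ℕ → Finset ℕ}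
    (S : StW r N X z Y W ps a ε h Om) {s : ℤ} (hs : s = 1 ∨ s = -1) {q : ℕ} (hq : q.Prime) :
    gC (ZTD (W * ps) h s Y Om) q = gC (ZAD (W * ps) h Y Om) q := by
  unfold gC ZTD ZAD
  split_ifs
  · rfl
  · rw [S.D.cT hs hq]

theorem StW.dg {r N X z Y W ps a : ℕ} {ε : ℝ} {h : ℤ} {Om : ℕ → Finset ℕ}
    (S : StW r N X z Y W ps a ε h Om) :
    Dg (r + 1) z ((N : ℝ) ^ ε) h.natAbs (gC (ZAD (W * ps) h Y Om)) := by
  have h0 := S.D.dg z S.Yw
  constructor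
  · intro p hp hz
    have h1 := h0.1 p hp hz
    by_cases hd : p ∣ W * ps
    · have h2 : gC (ZAD (W * ps) h Y Om) p = 0 := by
        unfold gC ZAD
        rw [if_pos hd]
        simp
      rw [h2]
      exact ⟨le_rfl, h1.1.trans h1.2⟩
    · have h2 : gC (ZAD (W * ps) h Y Om) p = gC (ZA h Y Om) p := by
        unfold gC ZAD
        rw [if_neg hd]
      rw [h2]
      exact h1
  · intro p hp hwp
    have hd : ¬ p ∣ W * ps := by
      intro hd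
      have h1 : (p : ℝ) ≤ Y := by exact_mod_cast S.dY hp hd
      linarith [S.Yw]
    have h2 : gC (ZAD (W * ps) h Y Om) p = gC (ZA h Y Om) p := by
      unfold gC ZAD
      rw [if_neg hd]
    rw [h2]
    exact h0.2 p hp hwp

theorem StW.dgT {r N X z Y W ps a : ℕ} {ε : ℝ} {h : ℤ} {Om : ℕ → Finset ℕ}
    (S : StW r N X z Y W ps a ε h Om) {s : ℤ} (hs : s = 1 ∨ s = -1) :
    Dg (r + 1) z ((N : ℝ) ^ ε) h.natAbs (gC (ZTD (W * ps) h s Y Om)) := by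
  have h1 := S.dg
  constructor
  · intro p hp hz
    rw [S.gT hs hp]
    exact h1.1 p hp hz
  · intro p hp hwp
    rw [S.gT hs hp]
    exact h1.2 p hp hwp

theorem StW.cop_a {r N X z Y W ps a : ℕ} {ε : ℝ} {h : ℤ} {Om : ℕ → Finset ℕ}
    (S : StW r N X z Y W ps a ε h Om) : a.Coprime W := by
  rw [Nat.coprime_iff_gcd_eq_one]
  by_contra hcon
  obtain ⟨q, hq, hqd⟩ := Nat.exists_prime_and_dvd hcon
  have h1 : q ∣ W := hqd.trans (Nat.gcd_dvd_right _ _)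
  have h2 : q ∣ a := hqd.trans (Nat.gcd_dvd_left _ _)
  apply S.a q (Pr_mem.2 ⟨⟨hq.pos, S.mY q hq h1⟩, hq⟩) h1
  rw [Nat.mod_eq_zero_of_dvd h2]
  exact mem_insert_self _ _

theorem StW.cop {r N X z Y W ps a : ℕ} {ε : ℝ} {h : ℤ} {Om : ℕ → Finset ℕ}
    (S : StW r N X z Y W ps a ε h Om) {s : ℤ} (hs : s = 1 ∨ s = -1) :
    (hr (s * ((a : ℤ) - h)) W).Coprime W := by
  apply Nat.Coprime.symm
  rw [Nat.coprime_iff_gcd_eq_one]
  by_contra hcon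
  obtain ⟨q, hq, hqd⟩ := Nat.exists_prime_and_dvd hcon
  have h1 : q ∣ W := hqd.trans (Nat.gcd_dvd_left _ _)
  have h2 : q ∣ hr (s * ((a : ℤ) - h)) W := hqd.trans (Nat.gcd_dvd_right _ _)
  have h3 : (q : ℤ) ∣ s * ((a : ℤ) - h) := by
    have h4 : (q : ℤ) ∣ ((hr (s * ((a : ℤ) - h)) W : ℕ) : ℤ) := Int.natCast_dvd_natCast.2 h2
    rw [hr_cast _ S.W0] at h4
    have h5 : ((W : ℕ) : ℤ) ∣ s * ((a : ℤ) - h) - (s * ((a : ℤ) - h)) % W :=
      Int.dvd_self_sub_emod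
    have h6 := (Int.natCast_dvd_natCast.2 h1).trans h5
    have h7 := dvd_add h6 h4
    rwa [sub_add_cancel] at h7
  have h4 : (q : ℤ) ∣ (a : ℤ) - h := by
    rcases hs with rfl | rfl
    · simpa using h3
    · have := h3
      rw [neg_one_mul] at this
      exact (Int.dvd_neg).1 this
  have hqY : q ∈ Pr 0 Y := Pr_mem.2 ⟨⟨hq.pos, S.mY q hq h1⟩, hq⟩
  have h5 : hr h q = a % q := by
    rw [← hr_nat a hq.pos, hr_eq_iff _ _ hq.pos, Int.modEq_iff_dvd]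
    exact h4
  apply S.a q hqY h1
  rw [← h5]
  exact S.D.hm q hqY

open Classical in
/-- the primes of the sieve -/
noncomputable def O1W (A B N z Y W ps a : ℕ) (ε : ℝ) (h : ℤ) (Om : ℕ → Finset ℕ) : Finset ℕ :=
  (PNX A B).filter (fun p => p ≡ a [MOD W] ∧
    ∀ q ∈ P1 N z ε, ¬ q ∣ vZ (ZAD (W * ps) h Y Om) z N p)

theorem StW.lt_N {r N X z Y W ps a : ℕ} {ε : ℝ} {h : ℤ} {Om : ℕ → Finset ℕ}
    (S : StW r N X z Y W ps a ε h Om) {u : ℝ} (hu : u ≤ 1) {q : ℕ} (hq : (q : ℝ) < (N : ℝ) ^ u) : q ≤ N := by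
  have hN1 : (1 : ℝ) ≤ N := by exact_mod_cast (by have := S.N8; omega : 1 ≤ N)
  have h1 : (N : ℝ) ^ u ≤ N := by
    calc (N : ℝ) ^ u ≤ (N : ℝ) ^ (1 : ℝ) := Real.rpow_le_rpow_of_exponent_le hN1 hu
      _ = N := Real.rpow_one _
  have h2 : (q : ℝ) < N := lt_of_lt_of_le hq h1
  have : q < N := by exact_mod_cast h2
  omega

theorem mod_neW {A B N : ℕ} (hA : N ≤ A) {p q : ℕ} (hp : p ∈ PNX A B) (hq : q.Prime) (hqN : q ≤ N) :
    p % q ≠ 0 := by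
  intro h0
  rw [mem_PNX] at hp
  have h7 := (Nat.prime_dvd_prime_iff_eq hq hp.2).1 (Nat.dvd_of_mod_eq_zero h0)
  omega

theorem StW.F1 {r N X z Y W ps a A B : ℕ} {ε : ℝ} {h : ℤ} {Om : ℕ → Finset ℕ}
    (S : StW r N X z Y W ps a ε h Om) (hA : N ≤ A) {p : ℕ} (hp : p ∈ O1W A B N z Y W ps a ε h Om) :
    ∀ q ∈ Pr 0 Y, q ≠ ps → p % q ∉ Z0 Om q := by
  classical
  intro q hq hqps
  unfold O1W at hp
  rw [mem_filter] at hp
  obtain ⟨hp1, hp2, hp3⟩ := hp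
  have hqp := Pr_prime hq
  by_cases hqW : q ∣ W
  · have h3 : p % q = a % q := hp2.of_dvd hqW
    rw [h3]
    exact S.a q hq hqW
  · have hnd : ¬ q ∣ W * ps := by
      intro hd
      rcases (hqp.dvd_mul).1 hd with h1 | h1
      · exact hqW h1
      · rcases S.p with h2 | ⟨h2, _, _⟩
        · rw [h2] at h1
          exact absurd (Nat.dvd_one.1 h1) hqp.one_lt.ne'
        · exact hqps ((Nat.prime_dvd_prime_iff_eq hqp h2).1 h1)
    have hzq : z < q := by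
      by_contra hcon
      exact hqW (S.m q (Pr_mem.2 ⟨⟨hqp.pos, not_lt.1 hcon⟩, hqp⟩))
    have hqw : (q : ℝ) < (N : ℝ) ^ ε := by
      have : (q : ℝ) ≤ Y := by exact_mod_cast (Pr_mem.1 hq).1.2
      exact lt_of_le_of_lt this S.Yw
    have hqN := S.lt_N (by have := S.e1; linarith) hqw
    have h2 := hp3 q (mem_P1.2 ⟨⟨hzq, hqN⟩, hqp, hqw⟩)
    rw [dvd_vZ hqp] at h2
    have h3 : p % q ∉ ZAD (W * ps) h Y Om q := fun h3 => h2 ⟨Pr_mem.2 ⟨⟨hzq, hqN⟩, hqp⟩, h3⟩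
    unfold ZAD ZA at h3
    rw [if_neg hnd, if_pos (Pr_mem.1 hq).1.2] at h3
    unfold Z0
    rw [mem_insert, not_or]
    exact ⟨mod_neW hA hp1 hqp hqN, h3⟩

theorem StW.F2 {r N X z Y W ps a A B : ℕ} {ε : ℝ} {h : ℤ} {Om : ℕ → Finset ℕ}
    (S : StW r N X z Y W ps a ε h Om) (hA : N ≤ A) {p : ℕ} (hp : p ∈ O1W A B N z Y W ps a ε h Om)
    (hps : ps.Prime → p % ps ∉ Z0 Om ps)
    (hI : ∀ q ∈ pr N ε (1 / 4), ¬ q ∣ vZ (ZAD (W * ps) h Y Om) z N p) :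
    ∀ q : ℕ, q.Prime → q ∣ (h - p).natAbs → (N : ℝ) ^ (1 / 4 : ℝ) ≤ q := by
  classical
  intro q hqp hd
  by_contra hcon
  rw [not_le] at hcon
  have hN2 : 2 ≤ N := by have := S.N8; omega
  have hqN := S.lt_N (by norm_num) hcon
  have F1 := S.F1 hA hp
  unfold O1W at hp
  rw [mem_filter] at hp
  obtain ⟨hp1, hp2, hp3⟩ := hp
  rw [natAbs_dvd_iff h p q hqp.pos] at hd
  rcases Nat.lt_or_ge Y q with h1 | h1
  · have hzq : z < q := lt_of_le_of_lt S.zY h1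
    have hnd' : ¬ q ∣ W * ps := fun hd' => by
      have := S.dY hqp hd'
      omega
    have hnd : ¬ q ∣ vZ (ZAD (W * ps) h Y Om) z N p := by
      rcases lt_or_ge (q : ℝ) ((N : ℝ) ^ ε) with h2 | h2
      · exact hp3 q (mem_P1.2 ⟨⟨hzq, hqN⟩, hqp, h2⟩)
      · exact hI q (mem_pr.2 ⟨⟨hqp.one_lt.le, hqN⟩, hqp, (le_tt_iff hN2 hqp _).2 h2,
          (tt_lt_iff hN2 hqp _).2 hcon⟩)
    apply hnd
    rw [dvd_vZ hqp]
    refine ⟨Pr_mem.2 ⟨⟨hzq, hqN⟩, hqp⟩, ?_⟩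
    unfold ZAD ZA
    rw [if_neg hnd', if_neg (by omega), mem_erase, mem_singleton]
    exact ⟨mod_neW hA hp1 hqp hqN, hd.symm⟩
  · have h2 := Pr_mem.2 ⟨⟨hqp.pos, h1⟩, hqp⟩
    by_cases hqps : q = ps
    · apply hps (hqps ▸ hqp)
      rw [← hqps, ← hd]
      exact S.D.hm q h2
    · apply F1 q h2 hqps
      rw [← hd]
      exact S.D.hm q h2

theorem StW.F3 {r N X z Y W ps a A B : ℕ} {ε : ℝ} {h : ℤ} {Om : ℕ → Finset ℕ}
    (S : StW r N X z Y W ps a ε h Om) (hA : N ≤ A) {p : ℕ} (hp : p ∈ O1W A B N z Y W ps a ε h Om)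
    {q : ℕ} (hq : q ∈ pr N (1 / 4) (667 / 1000)) :
    q ∣ vZ (ZAD (W * ps) h Y Om) z N p ↔ q ∣ (h - p).natAbs := by
  classical
  have hN2 : 2 ≤ N := by have := S.N8; omega
  have hN1 : (1 : ℝ) ≤ N := by exact_mod_cast (by omega : 1 ≤ N)
  unfold O1W at hp
  rw [mem_filter] at hp
  obtain ⟨hp1, hp2, hp3⟩ := hp
  have hqp := (mem_pr.1 hq).2.1
  have hqN := (mem_pr.1 hq).1.2
  have h1 := (le_tt_iff hN2 hqp _).1 (mem_pr.1 hq).2.2.1
  have h2 : (Y : ℝ) < q := by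
    calc (Y : ℝ) < (N : ℝ) ^ ε := S.Yw
      _ ≤ (N : ℝ) ^ (1 / 4 : ℝ) :=
          Real.rpow_le_rpow_of_exponent_le hN1 (by have := S.e1; linarith)
      _ ≤ q := h1
  have h3 : Y < q := by exact_mod_cast h2
  have hnd' : ¬ q ∣ W * ps := fun hd' => by
    have := S.dY hqp hd'
    omega
  rw [natAbs_dvd_iff h p q hqp.pos, dvd_vZ hqp]
  unfold ZAD ZA
  rw [if_neg hnd', if_neg (by omega), mem_erase, mem_singleton]
  constructor
  · rintro ⟨-, -, h4⟩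
    exact h4.symm
  · intro h4
    exact ⟨Pr_mem.2 ⟨⟨by have := S.zY; omega, hqN⟩, hqp⟩, mod_neW hA hp1 hqp hqN, h4.symm⟩

open Classical in
/-- the good primes of the interval `(A, B]` in the class -/
noncomputable def GW (A B N X Y W a : ℕ) (h : ℤ) (Om : ℕ → Finset ℕ) : Finset ℕ :=
  (GD N X Y h Om).filter (fun p => (A < p ∧ p ≤ B) ∧ p ≡ a [MOD W])

open Classical in
/-- the primes of the critical type -/
noncomputable def TW (A B N z Y W ps a : ℕ) (h : ℤ) (Om : ℕ → Finset ℕ) : Finset ℕ :=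
  (PNX A B).filter (fun p => p ≡ a [MOD W] ∧ (∀ q ∈ Pr z Y, ¬ q ∣ W * ps → p % q ∉ Z0 Om q) ∧
    Ty N (h - p).natAbs)

open Classical in
/-- the bad primes -/
noncomputable def BW (A B N W a : ℕ) (h : ℤ) : Finset ℕ :=
  (PNX A B).filter (fun p => p ≡ a [MOD W] ∧
    ∃ q : ℕ, q ∈ Ioc (lo N (1 / 4)) N ∧ q.Prime ∧ q ^ 2 ∣ (h - p).natAbs)

open Classical in
/-- the primes of a forbidden class modulo the exceptional prime -/
noncomputable def EW (A B Y W ps a : ℕ) (Om : ℕ → Finset ℕ) : Finset ℕ :=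
  (PNX A B).filter (fun p => p ≡ a [MOD W] ∧ ps.Prime ∧ p % ps ∈ Z0 Om ps ∧
    ∀ q ∈ Pr 0 Y, ¬ q ∣ W * ps → p % q ∉ Z0 Om q)

open Classical in
theorem StW.point {r N X z Y W ps a A B : ℕ} {ε : ℝ} {h : ℤ} {Om : ℕ → Finset ℕ}
    (S : StW r N X z Y W ps a ε h Om) (hA : N ≤ A) (hB : B ≤ X)
    (hW : ∀ n : ℕ, 1 ≤ n → n ≤ 3 * N ^ 2 →
      (∀ p : ℕ, p.Prime → p ∣ n → (N : ℝ) ^ (1 / 4 : ℝ) ≤ p) →
      (∀ p : ℕ, p.Prime → p ^ 2 ∣ n → (N : ℝ) ^ (667 / 1000 : ℝ) ≤ p) →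
      n.primeFactorsList.length ≤ 2 ∨ 2 ≤ ((pr N (1 / 4) (667 / 1000)).filter (fun q => q ∣ n)).card ∨
      (((pr N (1 / 4) (667 / 1000)).filter (fun q => q ∣ n)).card = 1 ∧ Ty N n))
    {p : ℕ} (hp : p ∈ O1W A B N z Y W ps a ε h Om) :
    II N ε (vZ (ZAD (W * ps) h Y Om) z N p) *
      (1 - 1 / 2 * ∑ q ∈ pr N (1 / 4) (667 / 1000), (if q ∣ vZ (ZAD (W * ps) h Y Om) z N p then 1 else 0)) ≤
    (if p ∈ GW A B N X Y W a h Om then (1 : ℝ) else 0) +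
      1 / 2 * (if p ∈ TW A B N z Y W ps a h Om then (1 : ℝ) else 0) +
      (if p ∈ BW A B N W a h then (1 : ℝ) else 0) + (if p ∈ EW A B Y W ps a Om then (1 : ℝ) else 0) := by
  have hN2 : 2 ≤ N := by have := S.N8; omega
  have hrhs : (0 : ℝ) ≤ (if p ∈ GW A B N X Y W a h Om then (1 : ℝ) else 0) +
      1 / 2 * (if p ∈ TW A B N z Y W ps a h Om then (1 : ℝ) else 0) +
      (if p ∈ BW A B N W a h then (1 : ℝ) else 0) + (if p ∈ EW A B Y W ps a Om then (1 : ℝ) else 0) := by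
    split_ifs <;> norm_num
  by_cases hI : ∀ q ∈ pr N ε (1 / 4), ¬ q ∣ vZ (ZAD (W * ps) h Y Om) z N p
  swap
  · unfold II
    rw [if_neg hI, zero_mul]
    exact hrhs
  have hI1 : II N ε (vZ (ZAD (W * ps) h Y Om) z N p) = 1 := by
    unfold II
    rw [if_pos hI]
  have F1 := S.F1 hA hp
  have hp' := hp
  unfold O1W at hp'
  rw [mem_filter] at hp'
  obtain ⟨hp1, hp2, hp3⟩ := hp'
  have hp1' := mem_PNX.1 hp1
  have hsum0 : (0 : ℝ) ≤ ∑ q ∈ pr N (1 / 4) (667 / 1000),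
      (if q ∣ vZ (ZAD (W * ps) h Y Om) z N p then (1 : ℝ) else 0) :=
    Finset.sum_nonneg fun q _ => by split_ifs <;> norm_num
  have hF1' : ∀ q ∈ Pr 0 Y, ¬ q ∣ W * ps → p % q ∉ Z0 Om q := by
    intro q hq hnd
    apply F1 q hq
    rintro rfl
    exact hnd (dvd_mul_left _ _)
  by_cases hE : ps.Prime ∧ p % ps ∈ Z0 Om ps
  · have hEW : p ∈ EW A B Y W ps a Om := by
      unfold EW
      rw [mem_filter]
      exact ⟨hp1, hp2, hE.1, hE.2, hF1'⟩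
    rw [if_pos hEW, hI1, one_mul]
    have h5 : (0 : ℝ) ≤ (if p ∈ GW A B N X Y W a h Om then (1 : ℝ) else 0) +
      1 / 2 * (if p ∈ TW A B N z Y W ps a h Om then (1 : ℝ) else 0) +
      (if p ∈ BW A B N W a h then (1 : ℝ) else 0) := by split_ifs <;> norm_num
    linarith
  have hE' : ps.Prime → p % ps ∉ Z0 Om ps := fun h1 h2 => hE ⟨h1, h2⟩
  have hF1 : ∀ q ∈ Pr 0 Y, p % q ∉ Z0 Om q := by
    intro q hq
    by_cases hqps : q = ps
    · rw [hqps]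
      exact hE' (hqps ▸ Pr_prime hq)
    · exact F1 q hq hqps
  have F2 := S.F2 hA hp hE' hI
  set n := (h - (p : ℤ)).natAbs with hn
  have hsum : ∑ q ∈ pr N (1 / 4) (667 / 1000),
      (if q ∣ vZ (ZAD (W * ps) h Y Om) z N p then (1 : ℝ) else 0) =
      (((pr N (1 / 4) (667 / 1000)).filter (fun q => q ∣ n)).card : ℝ) := by
    rw [← Finset.sum_boole]
    apply Finset.sum_congr rfl
    intro q hq
    rw [if_congr (S.F3 hA hp hq) rfl rfl]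
  rw [hI1, one_mul, hsum]
  have h2n : ¬ 2 ∣ n := by
    intro hd
    have := F2 2 Nat.prime_two hd
    have h4 := S.N4
    push_cast at this
    linarith
  have hn0 : 1 ≤ n := by
    rcases Nat.eq_zero_or_pos n with h0 | h0
    · rw [h0] at h2n
      exact absurd (dvd_zero 2) h2n
    · exact h0
  have hn3 : n ≤ 3 * N ^ 2 := by
    have h1 := S.XN
    have h2 := S.hX
    have h3 := S.N8
    have h4 : n ≤ h.natAbs + p := by omega
    have h5 := hp1'.1.2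
    have h6 : p ≤ X := h5.trans hB
    nlinarith
  have hne : h ≠ p := by
    intro h0
    rw [hn, h0] at hn0
    simp at hn0
  have hcard0 : (0 : ℝ) ≤ (((pr N (1 / 4) (667 / 1000)).filter (fun q => q ∣ n)).card : ℝ) := Nat.cast_nonneg _
  have hE0 : (0 : ℝ) ≤ (if p ∈ EW A B Y W ps a Om then (1 : ℝ) else 0) := by split_ifs <;> norm_num
  by_cases hB' : p ∈ BW A B N W a h
  · rw [if_pos hB']
    have h5 : (0 : ℝ) ≤ (if p ∈ GW A B N X Y W a h Om then (1 : ℝ) else 0) +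
      1 / 2 * (if p ∈ TW A B N z Y W ps a h Om then (1 : ℝ) else 0) := by split_ifs <;> norm_num
    linarith
  · have hsq : ∀ q : ℕ, q.Prime → q ^ 2 ∣ n → (N : ℝ) ^ (667 / 1000 : ℝ) ≤ q := by
      intro q hq hd
      by_contra hcon
      rw [not_le] at hcon
      apply hB'
      unfold BW
      rw [mem_filter]
      refine ⟨hp1, hp2, q, ?_, hq, hd⟩
      rw [mem_Ioc, lo_lt_iff (by omega)]
      exact ⟨F2 q hq ((dvd_pow_self q two_ne_zero).trans hd), S.lt_N (by norm_num) hcon⟩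
    rcases hW n hn0 hn3 F2 hsq with h6 | h6 | ⟨h6, h7⟩
    · have hG : p ∈ GW A B N X Y W a h Om := by
        unfold GW GD SP
        rw [mem_filter, mem_filter, mem_filter, mem_Ioc]
        exact ⟨⟨⟨⟨hp1'.2.pos, hp1'.1.2.trans hB⟩, hp1'.2, hF1⟩, hne, h6, F2⟩, hp1'.1, hp2⟩
      rw [if_pos hG]
      have h5 : (0 : ℝ) ≤ 1 / 2 * (if p ∈ TW A B N z Y W ps a h Om then (1 : ℝ) else 0) +
        (if p ∈ BW A B N W a h then (1 : ℝ) else 0) := by split_ifs <;> norm_num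
      linarith
    · have h8 : (2 : ℝ) ≤ (((pr N (1 / 4) (667 / 1000)).filter (fun q => q ∣ n)).card : ℝ) := by
        exact_mod_cast h6
      linarith
    · have hT : p ∈ TW A B N z Y W ps a h Om := by
        unfold TW
        rw [mem_filter]
        refine ⟨hp1, hp2, fun q hq hnd => hF1' q ?_ hnd, h7⟩
        rw [Pr_mem] at hq ⊢
        exact ⟨⟨hq.2.pos, hq.1.2⟩, hq.2⟩
      rw [if_pos hT, h6]
      have h5 : (0 : ℝ) ≤ (if p ∈ GW A B N X Y W a h Om then (1 : ℝ) else 0) +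
        (if p ∈ BW A B N W a h then (1 : ℝ) else 0) := by split_ifs <;> norm_num
      push_cast
      linarith

open Classical in
theorem StW.sum {r N X z Y W ps a A B K : ℕ} {ε δ : ℝ} {h : ℤ} {Om : ℕ → Finset ℕ}
    (S : StW r N X z Y W ps a ε h Om) (hA : N ≤ A) (hB : B ≤ X) (hTZ : TZ1 δ X A B)
    (hW : ∀ n : ℕ, 1 ≤ n → n ≤ 3 * N ^ 2 →
      (∀ p : ℕ, p.Prime → p ∣ n → (N : ℝ) ^ (1 / 4 : ℝ) ≤ p) →
      (∀ p : ℕ, p.Prime → p ^ 2 ∣ n → (N : ℝ) ^ (667 / 1000 : ℝ) ≤ p) →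
      n.primeFactorsList.length ≤ 2 ∨ 2 ≤ ((pr N (1 / 4) (667 / 1000)).filter (fun q => q ∣ n)).card ∨
      (((pr N (1 / 4) (667 / 1000)).filter (fun q => q ∣ n)).card = 1 ∧ Ty N n)) :
    ∑ x ∈ (((OW K δ X A B).filter (fun x => x.1 ≡ a [MOD W])).filter
        (fun x => ∀ q ∈ P1 N z ε, ¬ q ∣ vZ (ZAD (W * ps) h Y Om) z N x.1)),
      II N ε (vZ (ZAD (W * ps) h Y Om) z N x.1) *
      (1 - 1 / 2 * ∑ q ∈ pr N (1 / 4) (667 / 1000),
        (if q ∣ vZ (ZAD (W * ps) h Y Om) z N x.1 then 1 else 0)) ≤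
    K * (((GW A B N X Y W a h Om).card : ℝ) + 1 / 2 * ((TW A B N z Y W ps a h Om).card : ℝ) +
      ((BW A B N W a h).card : ℝ) + ((EW A B Y W ps a Om).card : ℝ)) := by
  rw [filter_filter]
  have e1 := sum_OW (K := K) hTZ (fun p => p ≡ a [MOD W] ∧
    ∀ q ∈ P1 N z ε, ¬ q ∣ vZ (ZAD (W * ps) h Y Om) z N p)
    (fun p => II N ε (vZ (ZAD (W * ps) h Y Om) z N p) *
      (1 - 1 / 2 * ∑ q ∈ pr N (1 / 4) (667 / 1000),
        (if q ∣ vZ (ZAD (W * ps) h Y Om) z N p then 1 else 0)))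
  refine le_trans (le_of_eq ?_) (le_trans (le_of_eq e1) ?_)
  · congr!
  have hO : (PNX A B).filter (fun p => p ≡ a [MOD W] ∧
      ∀ q ∈ P1 N z ε, ¬ q ∣ vZ (ZAD (W * ps) h Y Om) z N p) = O1W A B N z Y W ps a ε h Om := by
    unfold O1W
    congr!
  have hPN : ∀ p ∈ O1W A B N z Y W ps a ε h Om, p ∈ PNX A B := by
    intro p hp
    unfold O1W at hp
    exact (mem_filter.1 hp).1
  have h1 : ∑ p ∈ O1W A B N z Y W ps a ε h Om, (mu K δ X A B p : ℝ) *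
      (II N ε (vZ (ZAD (W * ps) h Y Om) z N p) *
      (1 - 1 / 2 * ∑ q ∈ pr N (1 / 4) (667 / 1000),
        (if q ∣ vZ (ZAD (W * ps) h Y Om) z N p then 1 else 0))) ≤
      ∑ p ∈ O1W A B N z Y W ps a ε h Om, (K : ℝ) * ((if p ∈ GW A B N X Y W a h Om then (1 : ℝ) else 0) +
      1 / 2 * (if p ∈ TW A B N z Y W ps a h Om then (1 : ℝ) else 0) +
      (if p ∈ BW A B N W a h then (1 : ℝ) else 0) + (if p ∈ EW A B Y W ps a Om then (1 : ℝ) else 0)) := by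
    apply Finset.sum_le_sum
    intro p hp
    have h2 := S.point hA hB hW hp
    have h3 : (mu K δ X A B p : ℝ) ≤ K := by exact_mod_cast mu_le hTZ (hPN p hp)
    have h4 : (0 : ℝ) ≤ (if p ∈ GW A B N X Y W a h Om then (1 : ℝ) else 0) +
      1 / 2 * (if p ∈ TW A B N z Y W ps a h Om then (1 : ℝ) else 0) +
      (if p ∈ BW A B N W a h then (1 : ℝ) else 0) + (if p ∈ EW A B Y W ps a Om then (1 : ℝ) else 0) := by
      split_ifs <;> norm_num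
    calc _ ≤ (mu K δ X A B p : ℝ) * ((if p ∈ GW A B N X Y W a h Om then (1 : ℝ) else 0) +
      1 / 2 * (if p ∈ TW A B N z Y W ps a h Om then (1 : ℝ) else 0) +
      (if p ∈ BW A B N W a h then (1 : ℝ) else 0) + (if p ∈ EW A B Y W ps a Om then (1 : ℝ) else 0)) :=
          mul_le_mul_of_nonneg_left h2 (Nat.cast_nonneg _)
      _ ≤ _ := mul_le_mul_of_nonneg_right h3 h4
  refine le_trans (le_of_eq ?_) (h1.trans ?_)
  · rw [← hO]
  rw [← Finset.mul_sum, Finset.sum_add_distrib, Finset.sum_add_distrib, Finset.sum_add_distrib,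
    ← Finset.mul_sum]
  apply mul_le_mul_of_nonneg_left _ (Nat.cast_nonneg _)
  have key : ∀ T : Finset ℕ, ∑ p ∈ O1W A B N z Y W ps a ε h Om, (if p ∈ T then (1 : ℝ) else 0) ≤ T.card := by
    intro T
    rw [Finset.sum_boole]
    apply Nat.cast_le.2
    apply card_le_card
    intro p hp
    exact (mem_filter.1 hp).2
  have h1 := key (GW A B N X Y W a h Om)
  have h2 := key (TW A B N z Y W ps a h Om)
  have h3 := key (BW A B N W a h)
  have h4 := key (EW A B Y W ps a Om)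
  linarith

end Pool.Agent.Q117.CR
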