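import Pool.Agent.Q117.CR.Stm

/-!
# The exceptional prime
-/

set_option autoImplicit false

namespace Pool.Agent.Q117.CR

open Finset Filter
open Pool.Agent.H378R2 (GoodS GoodP WW psiPhi)
open Pool.Agent.H410R2 (psiLog)

/-- the bounds for the small conductors -/
def SCB (X : ℝ) (ps : ℕ) : Prop := ∀ f : ℕ, Squarefree f → 1 < f → (f : ℝ) ≤ Real.exp (ll X ^ 6) →
  f.Coprime ps → ∀ χ : DirichletCharacter ℂ f, χ.IsPrimitive →
    (∀ x : ℝ, X ^ (1 / 20 : ℝ) ≤ x → x ≤ 3 * X → ‖psiLog x f χ‖ ≤ x * Real.exp (-(ll X) ^ 7 / 2)) ∧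
    ∀ u : ℕ, X ^ (1 / 10 : ℝ) ≤ (u : ℝ) → (u : ℝ) ≤ X →
      ‖∑ p ∈ (Icc 1 u).filter Nat.Prime, χ (p : ZMod f)‖ ≤ u * Real.exp (-(ll X) ^ 7 / 8)

theorem exists_psR (Z fs : ℕ) (h : fs = 0 ∨ primorial Z < fs) (R : ℝ) (hR : 1 ≤ R) :
    ∃ ps, GoodP Z ps ∧ (ps : ℝ) ≤ R ∧
      ∀ f : ℕ, 1 < f → Squarefree f → f.Coprime ps → (f : ℝ) ≤ R → f ≠ fs := by
  by_cases hc : Squarefree fs ∧ 1 < fs ∧ (fs : ℝ) ≤ R
  · obtain ⟨hsq, h1, hfR⟩ := hc
    have h2 : primorial Z < fs := by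
      rcases h with h | h
      · omega
      · exact h
    have h3 : ∃ p, p.Prime ∧ p ∣ fs ∧ Z < p := by
      by_contra hcon
      push Not at hcon
      have h4 : fs ∣ primorial Z := by
        rw [← Nat.prod_primeFactors_of_squarefree hsq]
        unfold primorial
        apply prod_dvd_prod_of_subset
        intro p hp
        rw [mem_filter, mem_range]
        have hp' := Nat.prime_of_mem_primeFactors hp
        have := hcon p hp' (Nat.dvd_of_mem_primeFactors hp)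
        exact ⟨by omega, hp'⟩
      have := Nat.le_of_dvd (primorial_pos Z) h4
      omega
    obtain ⟨p, hp, hpf, hpZ⟩ := h3
    refine ⟨p, Or.inr ⟨hp, hpZ⟩, ?_, ?_⟩
    · exact le_trans (by exact_mod_cast Nat.le_of_dvd (by omega) hpf) hfR
    · intro f hf1 hf2 hf3 _ hff
      rw [hff] at hf3
      have := Nat.Coprime.eq_one_of_dvd hf3.symm hpf
      exact hp.one_lt.ne' this
  · refine ⟨1, Or.inl rfl, by push_cast; exact hR, ?_⟩
    intro f hf1 hf2 _ hf4 hff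
    exact hc ⟨hff ▸ hf2, hff ▸ hf1, hff ▸ hf4⟩

theorem scp (hsc : St_SC0) (hpl : St_PL) (hpr : St_PR) (Z : ℕ) : ∃ X0 : ℝ, ∀ X : ℝ, X0 ≤ X →
    ∃ ps : ℕ, GoodP Z ps ∧ (ps : ℝ) ≤ Real.exp (ll X ^ 6) ∧ SCB X ps := by
  obtain ⟨X1, h1⟩ := hsc (primorial Z)
  obtain ⟨X2, h2⟩ := hpl
  obtain ⟨X3, h3⟩ := hpr
  refine ⟨max X1 (max X2 X3), fun X hX => ?_⟩
  have hX1 : X1 ≤ X := (le_max_left _ _).trans hX
  have hX2 : X2 ≤ X := ((le_max_left _ _).trans (le_max_right _ _)).trans hX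
  have hX3 : X3 ≤ X := ((le_max_right _ _).trans (le_max_right _ _)).trans hX
  obtain ⟨fs, hfs, h4⟩ := h1 X hX1
  obtain ⟨ps, hps, hps1, hps2⟩ := exists_psR Z fs hfs (Real.exp (ll X ^ 6))
    (Real.one_le_exp (by positivity))
  refine ⟨ps, hps, hps1, ?_⟩
  intro f hf1 hf2 hf3 hf4 χ hχ
  have h5 := h2 X hX2 f χ (h4 f hf2 hf3 (hps2 f hf2 hf1 hf4 hf3) χ hχ)
  exact ⟨h5, h3 X hX3 f χ h5⟩

end Pool.Agent.Q117.CR
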