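import Pool.Agent.Q117.CR.Cls

/-!
# The size of the modulus `W`
-/

set_option autoImplicit false

namespace Pool.Agent.Q117.CR

open Finset Filter
open Pool.Agent.H378R2 (yy z2 GoodS GoodP WW PW)

theorem log_scale {X : ℝ} (hX : 0 < X) : Real.log (X ^ (1 / 100 : ℝ)) = Real.log X / 100 := by
  rw [Real.log_rpow hX]; ring

theorem yy_scale {X : ℝ} (hX : 0 < X) : yy (X ^ (1 / 100 : ℝ)) = ⌊Real.log X / 100000⌋₊ := by
  unfold yy
  rw [log_scale hX]
  congr 1
  ring

theorem sum_union_le' (A B : Finset ℕ) (f : ℕ → ℝ) (hf : ∀ p, 0 ≤ f p) :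
    ∑ p ∈ A ∪ B, f p ≤ ∑ p ∈ A, f p + ∑ p ∈ B, f p := by
  rw [← sum_union_inter]
  have : 0 ≤ ∑ p ∈ A ∩ B, f p := sum_nonneg fun p _ => hf p
  linarith

/-- the size of the modulus -/
theorem WX_size : ∃ X0 : ℝ, ∀ X : ℝ, X0 ≤ X → ∀ (S : Finset ℕ) (ps : ℕ), GoodS (X ^ (1 / 100 : ℝ)) S →
    (∀ p ∈ S, (ll X) ^ 2 ≤ (p : ℝ)) ∧ ∑ p ∈ S, (1 : ℝ) / p ≤ 7 / (ll X) ^ 2 ∧
    X ^ (1 / 300000 : ℝ) ≤ (WX X S ps : ℝ) := by
  have hlog := Real.tendsto_log_atTop
  have hll : Tendsto (fun X : ℝ => ll X) atTop atTop := hlog.comp hlog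
  have hy : Tendsto (fun X : ℝ => ((⌊Real.log X / 100000⌋₊ : ℕ) : ℝ)) atTop atTop :=
    (tendsto_natCast_atTop_atTop.comp (tendsto_nat_floor_atTop (α := ℝ))).comp
      (hlog.atTop_div_const (by norm_num))
  have e1 : ∀ᶠ y : ℝ in atTop, 1 / 100 * y ≥ Real.log (y + 1) + Real.log y := by
    have h1 := (Real.isLittleO_log_id_atTop.bound (show (0 : ℝ) < 1 / 400 by norm_num))
    filter_upwards [h1, eventually_ge_atTop (2 : ℝ)] with y hy1 hy2
    simp only [id, Real.norm_eq_abs] at hy1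
    have h2 : 0 ≤ Real.log y := Real.log_nonneg (by linarith)
    rw [abs_of_nonneg h2, abs_of_pos (show (0 : ℝ) < y by linarith)] at hy1
    have h3 : Real.log (y + 1) ≤ Real.log (y * y) := Real.log_le_log (by linarith) (by nlinarith)
    rw [Real.log_mul (by linarith) (by linarith)] at h3
    linarith
  have e2 : ∀ᶠ y : ℝ in atTop, 2 * √y * Real.log y ≤ 1 / 100 * y := by
    have h1 := (isLittleO_log_rpow_atTop (show (0 : ℝ) < 1 / 2 by norm_num)).bound (show (0 : ℝ) < 1 / 200 by norm_num)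
    filter_upwards [h1, eventually_ge_atTop (2 : ℝ)] with y hy1 hy2
    have h2 : 0 ≤ Real.log y := Real.log_nonneg (by linarith)
    simp only [Real.norm_eq_abs] at hy1
    rw [abs_of_nonneg h2, abs_of_nonneg (by positivity), ← Real.sqrt_eq_rpow] at hy1
    have h3 := Real.mul_self_sqrt (show (0 : ℝ) ≤ y by linarith)
    have h4 : 0 ≤ √y := Real.sqrt_nonneg y
    nlinarith
  obtain ⟨X0, hX0⟩ := eventually_atTop.1 ((hy.eventually (e1.and (e2.and (eventually_ge_atTop (2 : ℝ))))).and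
    ((hll.eventually (eventually_ge_atTop (500 : ℝ))).and ((hlog.eventually (eventually_ge_atTop (10 ^ 8 : ℝ))).and
      (eventually_ge_atTop (10 : ℝ)))))
  refine ⟨X0, fun X hX S ps hS => ?_⟩
  obtain ⟨⟨f1, f2, f3⟩, f4, f5, f6⟩ := hX0 X hX
  have hX1 : 0 < X := by linarith
  obtain ⟨y, hyd⟩ : ∃ y : ℕ, y = ⌊Real.log X / 100000⌋₊ := ⟨_, rfl⟩
  rw [← hyd] at f1 f2 f3
  have hyy : yy (X ^ (1 / 100 : ℝ)) = y := by rw [yy_scale hX1, hyd]
  have hyL : (y : ℝ) ≤ Real.log X / 100000 := by rw [hyd]; exact Nat.floor_le (by positivity)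
  have hyL2 : Real.log X / 100000 < (y : ℝ) + 1 := by rw [hyd]; exact Nat.lt_floor_add_one _
  -- the small scale
  obtain ⟨l, hl⟩ : ∃ l, l = ll X := ⟨_, rfl⟩
  have hl' : Real.log (Real.log (X ^ (1 / 100 : ℝ))) = l - Real.log 100 := by
    rw [log_scale hX1, Real.log_div (by linarith) (by norm_num), hl]
    rfl
  rw [← hl] at f4 ⊢
  have h100 : Real.log 100 ≤ 5 := by
    rw [Real.log_le_iff_le_exp (by norm_num)]
    have h1 : (2.7 : ℝ) ≤ Real.exp 1 := by linarith [Real.exp_one_gt_d9]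
    calc (100 : ℝ) ≤ 2.7 ^ 5 := by norm_num
      _ ≤ (Real.exp 1) ^ 5 := pow_le_pow_left₀ (by norm_num) h1 5
      _ = Real.exp 5 := by rw [← Real.exp_nat_mul]; norm_num
  have h100' : 0 < Real.log 100 := Real.log_pos (by norm_num)
  obtain ⟨hS1, hS2⟩ := hS
  rw [hl'] at hS2
  have hsum : ∑ p ∈ S, (1 : ℝ) / p ≤ 7 / l ^ 2 := by
    refine hS2.trans ?_
    rw [div_le_div_iff₀ (by nlinarith) (by positivity)]
    nlinarith
  have hlow : ∀ p ∈ S, l ^ 2 ≤ (p : ℝ) := by
    intro p hp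
    have h1 := (hS1 p hp).2.1
    have h2 : (z2 (X ^ (1 / 100 : ℝ)) : ℝ) ≤ p := by exact_mod_cast h1.le
    refine le_trans ?_ h2
    unfold z2
    refine le_trans ?_ (Nat.le_ceil _)
    rw [hl']
    have h3 : l - 5 ≤ l - Real.log 100 := by linarith
    have h4 : (l - 5) ^ 3 ≤ (l - Real.log 100) ^ 3 := pow_le_pow_left₀ (by linarith) h3 3
    nlinarith [sq_nonneg (l - 5)]
  refine ⟨hlow, hsum, ?_⟩
  -- the logarithm of `W`
  have hWl : Real.log (WX X S ps : ℝ) = ∑ p ∈ PW (X ^ (1 / 100 : ℝ)) S ps, Real.log p := by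
    unfold WX WW
    rw [Nat.cast_prod, Real.log_prod]
    intro p hp
    unfold PW at hp
    have := (mem_filter.1 hp).2.1.pos
    positivity
  have hth := Chebyshev.theta_ge y
  have hth2 : Chebyshev.theta (y : ℝ) = ∑ p ∈ (Icc 1 y).filter Nat.Prime, Real.log p := by
    rw [Chebyshev.theta_eq_sum_Icc]
    rw [Nat.floor_natCast]
    apply sum_congr _ (fun _ _ => rfl)
    ext p
    rw [mem_filter, mem_filter, mem_Icc, mem_Icc]
    constructor
    · rintro ⟨⟨_, h2⟩, h3⟩
      exact ⟨⟨h3.pos, h2⟩, h3⟩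
    · rintro ⟨⟨_, h2⟩, h3⟩
      exact ⟨⟨Nat.zero_le _, h2⟩, h3⟩
  have hsplit : ∑ p ∈ (Icc 1 y).filter Nat.Prime, Real.log p ≤
      ∑ p ∈ PW (X ^ (1 / 100 : ℝ)) S ps, Real.log p + (∑ p ∈ S, Real.log p + Real.log y) := by
    have hsub : (Icc 1 y).filter Nat.Prime ⊆ PW (X ^ (1 / 100 : ℝ)) S ps ∪ (S ∪ ((Icc 1 y).filter (fun p => p = ps))) := by
      intro p hp
      rw [mem_filter] at hp
      rw [mem_union, mem_union]
      by_cases h1 : p ∈ S
      · exact Or.inr (Or.inl h1)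
      · by_cases h2 : p = ps
        · exact Or.inr (Or.inr (mem_filter.2 ⟨hp.1, h2⟩))
        · left
          unfold PW
          rw [mem_filter, hyy]
          exact ⟨hp.1, hp.2, h1, h2⟩
    have hnn : ∀ p : ℕ, 0 ≤ Real.log p := fun p => Real.log_natCast_nonneg p
    refine (sum_le_sum_of_subset_of_nonneg hsub fun p _ _ => hnn p).trans ?_
    refine (sum_union_le' _ _ _ hnn).trans ?_
    have h5 := sum_union_le' S ((Icc 1 y).filter (fun p => p = ps)) (fun p => Real.log p) hnn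
    have h6 : ∑ p ∈ (Icc 1 y).filter (fun p => p = ps), Real.log p ≤ Real.log y := by
      have h7 : (Icc 1 y).filter (fun p => p = ps) ⊆ {ps} := by
        intro p hp
        rw [mem_singleton]
        exact (mem_filter.1 hp).2
      by_cases h8 : ps ∈ Icc 1 y
      · refine (sum_le_sum_of_subset_of_nonneg h7 fun p _ _ => hnn p).trans ?_
        rw [sum_singleton]
        rw [mem_Icc] at h8
        exact Real.log_le_log (by exact_mod_cast h8.1) (by exact_mod_cast h8.2)
      · have h9 : (Icc 1 y).filter (fun p => p = ps) = ∅ := by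
          ext p
          simp only [mem_filter, notMem_empty, iff_false, not_and]
          rintro h10 rfl
          exact h8 h10
        rw [h9, sum_empty]
        exact hnn y
    linarith
  have hSl : ∑ p ∈ S, Real.log p ≤ 1 / 50 * y := by
    have h1 : ∀ p ∈ S, Real.log p ≤ ((y : ℝ) * l) * ((1 : ℝ) / p) := by
      intro p hp
      have h2 := (hS1 p hp).2.2
      rw [hyy] at h2
      have h3 := (hS1 p hp).1.pos
      have h4 : (0 : ℝ) < p := by exact_mod_cast h3
      have h5 : (p : ℝ) ≤ y := by exact_mod_cast h2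
      have h6 : Real.log p ≤ l := by
        rw [hl]
        unfold ll
        apply Real.log_le_log h4
        have : Real.log X / 100000 ≤ Real.log X := by
          apply div_le_self (by linarith) (by norm_num)
        linarith
      have h7 : 0 ≤ Real.log p := Real.log_natCast_nonneg p
      rw [mul_one_div, le_div_iff₀ h4]
      calc Real.log p * p ≤ l * y := by
            apply mul_le_mul h6 h5 h4.le (by linarith)
        _ = y * l := mul_comm _ _
    refine (sum_le_sum h1).trans ?_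
    rw [← mul_sum]
    have h8 : (y : ℝ) * l * ∑ p ∈ S, (1 : ℝ) / p ≤ y * l * (7 / l ^ 2) :=
      mul_le_mul_of_nonneg_left hsum (by positivity)
    refine h8.trans ?_
    have h9 : (y : ℝ) * l * (7 / l ^ 2) = y * (7 / l) := by
      have : l ≠ 0 := by linarith
      field_simp
    rw [h9, mul_comm]
    apply mul_le_mul_of_nonneg_right _ (Nat.cast_nonneg _)
    rw [div_le_div_iff₀ (by linarith) (by norm_num)]
    linarith
  have hW : (0 : ℝ) < WX X S ps := by exact_mod_cast WX_pos X S ps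
  rw [← Real.log_le_log_iff (by positivity) hW, Real.log_rpow hX1, hWl]
  rw [hth2] at hth
  have hl2 := Real.log_two_gt_d9
  have h10 : (0 : ℝ) ≤ y := Nat.cast_nonneg _
  nlinarith

end Pool.Agent.Q117.CR
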