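import Pool.Agent.Q117.CR.Num

/-!
# The main inequality for one `X`
-/

set_option autoImplicit false

namespace Pool.Agent.Q117.CR

open Finset Filter Pool.Agent.W23.DC Pool.Agent.Y660.RP
open Pool.Agent.Y843.HS (Pr VV Pr_mem Pr_prime)
open Pool.Agent.Y843.QD (vZ dvd_vZ)
open Pool.Agent.Y843.HG (Adm Z0 SP V1 V1_bounds log_floor VV_low)
open Pool.Agent.Y843.CH
open Pool.Agent.Y840.CI
open Pool.Agent.H378R2 (yy z2 GoodS GoodP)

/-- the lower bound -/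
theorem lowX {r N X z Y ps a A B W Km : ℕ} {Sd : Finset ℕ} {ε A0 δ' E P V G T Bd Ex EB : ℝ} {h : ℤ}
    {Om : ℕ → Finset ℕ} (hWd : W = WX X Sd ps) (S : StW r N X z Y W ps a ε h Om)
    (hN4000 : 4000 ≤ N) (hh : h ≠ 0) (hNA : N ≤ A) (hBX : B ≤ X) (hlX1 : 1 ≤ Real.log X)
    (hCB : CB (r + 1) z N ε A0 (A0 / 10000)) (hTZ : TZ1 δ' X A B)
    (hBP : BP (r + 1) δ' X A B Sd ps E) (hφE : (W.totient : ℝ) ≤ E)
    (hKm : Km = X ^ ((r + 1) + 3)) (hWt : ∀ n : ℕ, 1 ≤ n → n ≤ 3 * N ^ 2 →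
      (∀ p : ℕ, p.Prime → p ∣ n → (N : ℝ) ^ (1 / 4 : ℝ) ≤ p) →
      (∀ p : ℕ, p.Prime → p ^ 2 ∣ n → (N : ℝ) ^ (667 / 1000 : ℝ) ≤ p) →
      n.primeFactorsList.length ≤ 2 ∨ 2 ≤ ((pr N (1 / 4) (667 / 1000)).filter (fun q => q ∣ n)).card ∨
      (((pr N (1 / 4) (667 / 1000)).filter (fun q => q ∣ n)).card = 1 ∧ Ty N n))
    (hP : P = PT1 δ' A B / Real.log X) (hP0 : 0 ≤ P)
    (hVd : V = ∏ p ∈ P1 N z ε, (1 - gC (ZAD (W * ps) h Y Om) p))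
    (hG : G = ((GW A B N X Y W a h Om).card : ℝ)) (hT : T = ((TW A B N z Y W ps a h Om).card : ℝ))
    (hBd : Bd = ((BW A B N W a h).card : ℝ)) (hEx : Ex = ((EW A B Y W ps a Om).card : ℝ))
    (hEB : EB = 3 * (E / (Nat.totient W : ℝ))) :
    ε * (P / (Nat.totient W : ℝ) * V) * (A0 * (1000 / 998 * LBc) - A0 / 10000) -
      Real.log N * EB ≤ G + 1 / 2 * T + (Bd + Ex) := by
  classical
  have hNr : (4000 : ℝ) ≤ N := by exact_mod_cast hN4000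
  have hL : 0 < Real.log N := Real.log_pos (by linarith)
  have hX4 : 4000 ≤ X := le_of_sq_le hN4000 S.NX
  have hKm0 : (0 : ℝ) < Km := by
    have : 0 < Km := by rw [hKm]; exact pow_pos (by omega) _
    exact_mod_cast this
  have hEA : ∑ d ∈ Lv' z ((N : ℝ) ^ (999 / 1000 : ℝ)), Rr ((OW Km δ' X A B).filter
        (fun x => x.1 ≡ a [MOD W])) (fun x => vZ (ZAD (W * ps) h Y Om) z N x.1) (gC (ZAD (W * ps) h Y Om))
        (((Km : ℝ) * P) / (Nat.totient W : ℝ)) d ≤ (Km : ℝ) * EB := by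
    have h1 := aerW (κ := r + 1) (z := z) (N := N) (X := X) (A := A) (B := B) (ps := ps) (a := a) (S := Sd)
      (δ := δ') (E := E) (cl := ZAD (W * ps) h Y Om) hTZ hBX hlX1 (by omega) S.NX (by
        rw [← hWd]
        exact S.clA) (by
        rw [← hWd]
        exact S.cop_a) hBP (by
        rw [← hWd]
        exact hφE)
    rw [← hWd, ← hKm, ← hP, ← hEB] at h1
    exact h1
  have hh0 : h.natAbs ≠ 0 := Int.natAbs_ne_zero.2 hh
  have hhN : h.natAbs ≤ N ^ 3 := by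
    have h7 : (N + 1) ^ 2 ≤ N ^ 3 := sq_le_cube (le_trans (by norm_num) hN4000)
    have h5 := S.hX
    have h6 := S.XN
    omega
  have hlow := (hCB (ℕ × ℕ) ((OW Km δ' X A B).filter (fun x => x.1 ≡ a [MOD W]))
    (fun x => vZ (ZAD (W * ps) h Y Om) z N x.1)
    (gC (ZAD (W * ps) h Y Om)) (((Km : ℝ) * P) / (Nat.totient W : ℝ)) h.natAbs (by positivity) hh0 hhN
    (by
      have h5 := S.dg
      exact_mod_cast h5)).1
  rw [← hVd] at hlow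
  have hsum := S.sum (K := Km) (δ := δ') hNA hBX hTZ hWt
  rw [← hG, ← hT, ← hBd, ← hEx] at hsum
  have h1 : ε * (((Km : ℝ) * P) / (Nat.totient W : ℝ) * V) * (A0 * (1000 / 998 * LBc) - A0 / 10000) -
      Real.log N * ((Km : ℝ) * EB) ≤ Km * (G + 1 / 2 * T + Bd + Ex) := by
    refine le_trans ?_ hsum
    refine le_trans ?_ hlow
    have := mul_le_mul_of_nonneg_left hEA hL.le
    linarith
  have h2 : ε * (((Km : ℝ) * P) / (Nat.totient W : ℝ) * V) * (A0 * (1000 / 998 * LBc) - A0 / 10000) -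
      Real.log N * ((Km : ℝ) * EB) = Km * (ε * (P / (Nat.totient W : ℝ) * V) *
        (A0 * (1000 / 998 * LBc) - A0 / 10000) - Real.log N * EB) := by
    ring
  rw [h2] at h1
  have h3 := le_of_mul_le_mul_left h1 hKm0
  linarith

/-- the upper bound -/
theorem upX {r N X z Y ps a A B W J : ℕ} {Sd : Finset ℕ} {ε A0 δ E V T EB : ℝ} {h : ℤ}
    {Om : ℕ → Finset ℕ} (hWd : W = WX X Sd ps) (S : StW r N X z Y W ps a ε h Om)
    (hN4000 : 4000 ≤ N) (hh : h ≠ 0) (hNA : N ≤ A) (hδ0 : 0 ≤ δ) (hJ1 : 1 ≤ J)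
    (hCB : CB (r + 1) z N ε A0 (A0 / 10000)) (hE0 : 0 ≤ E)
    (hBB : ∀ i ∈ ({1, -1} : Finset ℤ) ×ˢ range J, BB (r + 1) X (blk A B N X J δ h i) Sd ps E)
    (hVd : V = ∏ p ∈ P1 N z ε, (1 - gC (ZAD (W * ps) h Y Om) p))
    (hT : T = ((TW A B N z Y W ps a h Om).card : ℝ))
    (hEB : EB = 3 * (E / (Nat.totient W : ℝ))) :
    T ≤ ε * ((∑ j ∈ range J, ms' A B N X J δ h 1 j + ∑ j ∈ range J, ms' A B N X J δ h (-1) j) /
        (Nat.totient W : ℝ) * V) *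
        (1000 / 998 * A0 + A0 / 10000) + 2 * (J * (Real.log N * EB)) := by
  classical
  have hNr : (4000 : ℝ) ≤ N := by exact_mod_cast hN4000
  have hL : 0 < Real.log N := Real.log_pos (by linarith)
  have hty := typ_leW (A := A) (B := B) (N := N) (X := X) (J := J) (z := z) (Y := Y) (W := W) (ps := ps)
    (a := a) (ε := ε) (δ := δ) (h := h) (Om := Om) (by omega) hNA hJ1 hδ0 S.W0
  have hbl : ∀ s : ℤ, (s = 1 ∨ s = -1) → ∑ j ∈ range J, ((FTW A B N X J z Y W ps a ε δ h Om s j).card : ℝ) ≤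
      ε * ((∑ j ∈ range J, ms' A B N X J δ h s j) / (Nat.totient W : ℝ) * V) * (1000 / 998 * A0 + A0 / 10000) +
        J * (Real.log N * EB) := by
    intro s hs
    have h1 : ∀ j ∈ range J, ((FTW A B N X J z Y W ps a ε δ h Om s j).card : ℝ) ≤
        ε * (ms' A B N X J δ h s j / (Nat.totient W : ℝ) * V) * (1000 / 998 * A0 + A0 / 10000) +
          Real.log N * EB := by
      intro j hj
      have h2 := blockW (Sd := Sd) (E := E) (δ := δ) (J := J) (A := A) (B := B) (ps := ps) (X := X)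
        (by rw [← hWd]; exact S) hh hN4000 hCB hs (j := j) (hBB (s, j) (by
          rw [mem_product]
          refine ⟨?_, hj⟩
          rcases hs with rfl | rfl <;> simp))
      rw [← hWd, ← hVd] at h2
      refine h2.trans ?_
      have h3 : E / (Nat.totient W : ℝ) ≤ EB := by
        rw [hEB]
        have : 0 ≤ E / (Nat.totient W : ℝ) := by positivity
        linarith
      have := mul_le_mul_of_nonneg_left h3 hL.le
      linarith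
    refine (Finset.sum_le_sum h1).trans (le_of_eq ?_)
    rw [Finset.sum_add_distrib, Finset.sum_const, card_range, nsmul_eq_mul]
    congr 1
    rw [Finset.sum_div, Finset.sum_mul, Finset.mul_sum, Finset.sum_mul]
  have h1 := hbl 1 (Or.inl rfl)
  have h2 := hbl (-1) (Or.inr rfl)
  have h3 : T ≤
      ∑ j ∈ range J, ((FTW A B N X J z Y W ps a ε δ h Om 1 j).card : ℝ) +
      ∑ j ∈ range J, ((FTW A B N X J z Y W ps a ε δ h Om (-1) j).card : ℝ) := by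
    rw [hT]
    exact_mod_cast hty
  have h4 : ε * ((∑ j ∈ range J, ms' A B N X J δ h 1 j + ∑ j ∈ range J, ms' A B N X J δ h (-1) j) /
      (Nat.totient W : ℝ) * V) * (1000 / 998 * A0 + A0 / 10000) =
      ε * ((∑ j ∈ range J, ms' A B N X J δ h 1 j) / (Nat.totient W : ℝ) * V) *
        (1000 / 998 * A0 + A0 / 10000) +
      ε * ((∑ j ∈ range J, ms' A B N X J δ h (-1) j) / (Nat.totient W : ℝ) * V) *
        (1000 / 998 * A0 + A0 / 10000) := by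
    ring
  linarith

/-- the main inequality -/
theorem stepX {r N X z Y t ps a A B W J K b Z Zf : ℕ} {Sd : Finset ℕ}
    {ε A0 δ δ' θ E cV c1 C1 k cm CJ Cf e0 : ℝ} {h : ℤ} {Om : ℕ → Finset ℕ}
    (hWd : W = WX X Sd ps) (S : StW r N X z Y W ps a ε h Om)
    (hN4000 : 4000 ≤ N) (hNd : N = Nat.sqrt X) (hh : h ≠ 0) (hNA : N ≤ A) (hAB : A ≤ B) (hBX : B ≤ X)
    (hθ : 0 < θ) (hθX : θ * X ≤ (B : ℝ) - A) (hθX4 : 4000 ≤ θ * X)
    (hδ0 : 0 < δ) (hδ4 : δ ≤ 1 / 4000) (hδd : δ = θ / 8000) (hJ1 : 1 ≤ J)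
    (hlam : (N : ℝ) ^ (417 / 1000 / (J : ℝ)) ≤ 1 + δ) (hJ2 : (J : ℝ) ≤ CJ * Real.log N + 1)
    (hCJ0 : 0 < CJ) (hb1 : CJ + 2 ≤ b) (ht0 : (0 : ℝ) < t) (hYd : Y = ⌊(X : ℝ) ^ (1 / (t : ℝ))⌋₊)
    (hA0 : 0 < A0) (hCB : CB (r + 1) z N ε A0 (A0 / 10000)) (hMB : MB' N δ) (hNm : St_NUM)
    (hTZ : TZ1 δ' X A B) (hE : E = X / Real.log X ^ (K + 6))
    (hBP : BP (r + 1) δ' X A B Sd ps E)
    (hBB : ∀ i ∈ ({1, -1} : Finset ℤ) ×ˢ range J, BB (r + 1) X (blk A B N X J δ h i) Sd ps E)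
    (hφE : (W.totient : ℝ) ≤ E) (hWt : ∀ n : ℕ, 1 ≤ n → n ≤ 3 * N ^ 2 →
      (∀ p : ℕ, p.Prime → p ∣ n → (N : ℝ) ^ (1 / 4 : ℝ) ≤ p) →
      (∀ p : ℕ, p.Prime → p ^ 2 ∣ n → (N : ℝ) ^ (667 / 1000 : ℝ) ≤ p) →
      n.primeFactorsList.length ≤ 2 ∨ 2 ≤ ((pr N (1 / 4) (667 / 1000)).filter (fun q => q ∣ n)).card ∨
      (((pr N (1 / 4) (667 / 1000)).filter (fun q => q ∣ n)).card = 1 ∧ Ty N n))
    (p1 : 4995 / 10000 * (((B : ℝ) - A) / Real.log N) ≤ PT1 δ' A B / Real.log X)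
    (p2 : PT1 δ' A B / Real.log X ≤ ((B : ℝ) - A) / Real.log N)
    (hprw : St_PRW) (hz2 : r + 2 ≤ z) (hY3 : 3 ≤ Y) (hZz : z ≤ Z)
    (hsd : ∀ q : ℕ, q.Prime → q ≤ Z → q ∣ W) (hps : GoodP Z ps)
    (hC1 : 0 < C1) (hc1 : 0 < c1) (y2 : Real.log X / (2 * t) ≤ Real.log Y)
    (hVbY : V1 Y ≤ C1 / Real.log Y) (hVbN : c1 / Real.log N ≤ V1 N)
    (hk : k = (1 / 2) / (2 * t * C1) * (c1 / (t * C1)) ^ 2) (hcm : cm = 4 / 10000 * A0 * ε * k)
    (hcV : 0 < cV) (hVV : cV / Real.log X ^ K ≤ VV (Z0 Om) 0 Y)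
    (hWphi : (W : ℝ) ≤ Real.log X * (W.totient : ℝ)) (hWle : (W : ℝ) ≤ (X : ℝ) ^ (1 / 50000 : ℝ))
    (hl3 : 3 ≤ Real.log X) (he0 : e0 = cm * cV * θ / 8)
    (s3 : 2 ≤ lo N (1 / 4)) (s4 : lo N (1 / 4) ≤ N)
    (s8 : (X : ℝ) / lo N (1 / 4) + N ≤ e0 / 2 * X / Real.log X ^ K)
    (s9 : b * Real.log X ^ K ≤ e0 / 2 * Real.log X ^ (K + 2))
    (q8 : (X : ℝ) ^ (51 / 100 : ℝ) ≤ e0 / 8 * X / Real.log X ^ K) (q9 : 2 ≤ (X : ℝ) ^ (1 / 1000 : ℝ))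
    (hCf : 0 < Cf) (hZf : Zf ≤ Z) (hZc : 4 * Cf / cm ≤ Z)
    (H : ∀ (W ps a A B Y : ℕ) (Om : ℕ → Finset ℕ), Y = ⌊(X : ℝ) ^ (1 / (t : ℝ))⌋₊ → Adm r Y Om → 1 ≤ W →
      ps.Prime → ¬ ps ∣ W → Zf < ps → ps ≤ Y → (∀ q : ℕ, q.Prime → q ≤ Zf → q ∣ W) → A ≤ B → B ≤ X →
      (((Ioc A B).filter (fun n => n ≡ a [MOD W] ∧ n % ps ∈ Z0 Om ps ∧
        ∀ q ∈ Pr 0 Y, ¬ q ∣ W * ps → n % q ∉ Z0 Om q)).card : ℝ) ≤
      Cf * ((((B : ℝ) - A) / ((W : ℝ) * ps)) * VD Om (W * ps) Y) + (X : ℝ) ^ (1 / 2 : ℝ)) :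
    cm / 2 * ((((B : ℝ) - A) / (W : ℝ)) * VD Om (W * ps) Y) ≤
      ((GW A B N X Y W a h Om).card : ℝ) := by
  classical
  have hNr : (4000 : ℝ) ≤ N := by exact_mod_cast hN4000
  have hL : 0 < Real.log N := Real.log_pos (by linarith)
  have hX4 : 4000 ≤ X := le_of_sq_le hN4000 S.NX
  have hXr : (4000 : ℝ) ≤ X := by exact_mod_cast hX4
  have hX0 : (0 : ℝ) < X := by linarith
  obtain ⟨g1, g2⟩ := log_sq (show 4 ≤ N by omega) S.NX S.XN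
  have hlX : 0 < Real.log X := by linarith
  have hlX1 : 1 ≤ Real.log X := by linarith
  have hLlX : Real.log N ≤ Real.log X := by linarith
  have hWr : (0 : ℝ) < W := by exact_mod_cast S.W0
  have hφ0 : (0 : ℝ) < W.totient := by exact_mod_cast Nat.totient_pos.2 S.W0
  obtain ⟨P, hPd⟩ : ∃ P : ℝ, P = PT1 δ' A B / Real.log X := ⟨_, rfl⟩
  obtain ⟨V, hVd⟩ : ∃ V : ℝ, V = ∏ p ∈ P1 N z ε, (1 - gC (ZAD (W * ps) h Y Om) p) := ⟨_, rfl⟩
  obtain ⟨G, hG⟩ : ∃ G : ℝ, G = ((GW A B N X Y W a h Om).card : ℝ) := ⟨_, rfl⟩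
  obtain ⟨T, hT⟩ : ∃ T : ℝ, T = ((TW A B N z Y W ps a h Om).card : ℝ) := ⟨_, rfl⟩
  obtain ⟨Bd, hBd⟩ : ∃ Bd : ℝ, Bd = ((BW A B N W a h).card : ℝ) := ⟨_, rfl⟩
  obtain ⟨Ex, hEx⟩ : ∃ Ex : ℝ, Ex = ((EW A B Y W ps a Om).card : ℝ) := ⟨_, rfl⟩
  obtain ⟨EB, hEB⟩ : ∃ EB : ℝ, EB = 3 * (E / (Nat.totient W : ℝ)) := ⟨_, rfl⟩
  obtain ⟨Q, hQd⟩ : ∃ Q : ℝ, Q = VD Om (W * ps) Y := ⟨_, rfl⟩
  obtain ⟨D, hDd⟩ : ∃ D : ℝ, D = (B : ℝ) - A := ⟨_, rfl⟩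
  have hE0 : 0 < E := by rw [hE]; positivity
  have hBA0 : 0 ≤ D := by
    have : (A : ℝ) ≤ B := by exact_mod_cast hAB
    rw [hDd]
    linarith
  have hε := S.e0
  have hk0 : 0 < k := by rw [hk]; positivity
  have hcm0 : 0 < cm := by rw [hcm]; positivity
  have he00 : 0 < e0 := by rw [he0]; positivity
  rw [← hPd] at p1 p2
  rw [← hDd] at p1 p2 hθX
  have hW0' : 0 ≤ D / Real.log N := by positivity
  have hP0 : 0 ≤ P := le_trans (by positivity) p1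
  have hlow2 := lowX hWd S hN4000 hh hNA hBX hlX1 hCB hTZ hBP hφE rfl hWt hPd hP0 hVd hG hT hBd hEx hEB
  have hup := upX hWd S hN4000 hh hNA hδ0.le hJ1 hCB hE0.le hBB hVd hT hEB
  have hpsW := S.p
  have hpl := hprw r N z Y W ps ε h Om S.D S.zY S.Yw (by have := S.e1; linarith) (by omega)
    hz2 hY3 S.W0 (fun q hq hqz => hsd q hq (hqz.trans hZz)) S.mY hpsW
  rw [← hVd, ← hQd] at hpl
  have hQ0 : 0 ≤ Q := by rw [hQd]; exact VD_nonneg S.D.adm _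
  have hVY := V1_pos Y
  have hVN := V1_pos N
  have hQ' : 0 ≤ Q * ((Nat.totient W : ℝ) / W) := by positivity
  have hpl' : Q * ((Nat.totient W : ℝ) / W) * ((1 / 2) / V1 Y) * (V1 N / V1 Y) ^ 2 ≤ V := by
    refine le_trans (le_of_eq ?_) hpl
    have : (1 / 2 : ℝ) / V1 Y = 1 / (2 * V1 Y) := by rw [div_div]
    rw [this]
  have hV0 : 0 ≤ V := le_trans (by positivity) hpl'
  have hM2 := mass2' S.toSt hAB hBX hθ hδ0 hδ4 hδd (by rw [← hDd]; exact hθX) hθX4 hN4000 hMB hJ1 hlam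
  rw [← hDd] at hM2
  have hfin := arith_final hε hV0 hφ0 hA0 hNm.1 hW0' p1 p2 hM2 hlow2 hup
  have hkf := kfac hQ' (by norm_num : (0 : ℝ) < 1 / 2) hVY hVN hC1 hc1 ht0 hlX hL y2 g1 hVbY hVbN hpl'
  rw [← hk] at hkf
  have hml := main_low hA0 hε hφ0 hBA0 hL g1 hk0 hQ' hkf
  have hml' : cm * (D / W * Q) ≤ 2 / 10000 * A0 * (ε * (V / (Nat.totient W : ℝ))) * (D / Real.log N) := by
    refine le_trans (le_of_eq ?_) hml
    rw [hcm]
    field_simp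
  have hQX : cV / Real.log X ^ K ≤ Q := by
    rw [hQd]
    exact hVV.trans (VV_le_VD S.D.adm _)
  -- the bad primes
  have hloY : ∀ q : ℕ, q.Prime → q ∣ W → q ≤ lo N (1 / 4) := by
    intro q hq hqW
    by_contra hcon
    rw [not_le, lo_lt_iff (by omega)] at hcon
    have h1 : (q : ℝ) ≤ Y := by exact_mod_cast S.mY q hq hqW
    have h2 : (N : ℝ) ^ ε ≤ (N : ℝ) ^ (1 / 4 : ℝ) :=
      Real.rpow_le_rpow_of_exponent_le (by linarith) (by have := S.e1; linarith)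
    have h3 := S.Yw
    linarith
  have hBW := BW_card (A := A) (B := B) (N := N) (X := X) (W := W) (a := a) (h := h) hBX S.W0 hloY s3 s4
  rw [← hBd] at hBW
  have hEW := EW_card (r := r) (X := X) (t := t) (Zf := Zf) (Z := Z) (a := a) hCf hcm0 hDd hBA0 hQd hQ0 hZf hZc
    hps hYd S.D.adm S.W0 (by
      rcases hpsW with h1 | h1
      · exact Or.inr h1
      · exact Or.inl h1.2.1) (by
      rcases hpsW with h1 | h1
      · rw [h1]; omega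
      · exact h1.2.2) hsd hAB hBX H
  rw [← hEx] at hEW
  have hXW0 : (0 : ℝ) ≤ (X : ℝ) / W := by positivity
  have hEB' : EB ≤ ((X : ℝ) / W) / Real.log X ^ (K + 4) := by
    rw [hEB, hE]
    exact num_EB hX0.le hWr hφ0 hWphi hl3
  have hEB0 : 0 ≤ EB := by rw [hEB]; positivity
  have hNh : (N : ℝ) ≤ (X : ℝ) ^ (1 / 2 : ℝ) := by
    rw [← Real.sqrt_eq_rpow, hNd]
    exact Real.nat_sqrt_le_real_sqrt
  have hXhalf := num_half (by linarith) hNh (Nat.cast_nonneg N) hWr hWle q9 hlX he00.le q8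
  have hlo' := num_lo (K := K) (Nat.cast_nonneg N) hWr hlX s8
  have hEr := errs_le (K := K) (c := e0) (CJ := CJ) (b := b) (lX := Real.log X) (X := (X : ℝ) / W)
    (EB := EB) (lo := (X : ℝ) / W / lo N (1 / 4)) (N := (N : ℝ) + (X : ℝ) ^ (1 / 2 : ℝ)) (J := J) hL hLlX hlX1
    hXW0 hJ2 (Nat.cast_nonneg J) hCJ0.le hb1 (by
      have : 0 ≤ e0 / 2 * Real.log X ^ (K + 2) := by positivity
      linarith) hEB' hEB0 (by
      have h1 : e0 * ((X : ℝ) / W) / Real.log X ^ K =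
        e0 / 2 * ((X : ℝ) / W) / Real.log X ^ K + e0 / 2 * ((X : ℝ) / W) / Real.log X ^ K := by ring
      linarith)
  have hE2 := num_err (X := (X : ℝ)) (W := (W : ℝ)) (θ := θ) (K := K) hWr hlX hcm0 hcV hθX hBA0 hQX
  rw [← he0] at hE2
  rw [← hG, ← hQd, ← hDd]
  exact num_fin hml' hfin hBW hEW hEr hE2

end Pool.Agent.Q117.CR
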