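import Pool.Agent.Y840.CI.Asy
import Pool.Agent.Y261.CH.Blv1
import Pool.Agent.H378R2.LSBV6

/-!
Project CR (helper117): Chen's theorem relative to a large smooth modulus `W` (a product of primes `≤ log X`, `W ≤ X ^ (1/50000)`).

Every `St_X` below is the statement of one job; the doc comment is its complete proof. The file of a job is
`Pool/Agent/Q117/CR/<Name>.lean`, the theorem has the name given in the comment (namespace `Pool.Agent.Q117.CR`).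
-/

set_option autoImplicit false

namespace Pool.Agent.Q117.CR

open Finset Filter
open Pool.Agent.H378R2 (GoodS GoodP WW psiPhi)
open Pool.Agent.H378R2.LSBV (QQ wt)
open Pool.Agent.H398R2.BV (Prim)
open Pool.Agent.H410R2 (psiLog psiLogAP psiLog1)
open Pool.Agent.Helper112
open Pool.Agent.Y261.CH (al be EP PP)
open Pool.Agent.Y660.RP (P1)
open Pool.Agent.Y843.HS (Pr)
open Pool.Agent.Y843.HG (Adm Z0 V1)
open Pool.Agent.Y843.CH (Dat ZA gC)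

/-- the big modulus (for the scale `X ^ (1/100)`): all primes `≤ yy (X ^ (1/100)) = ⌊log X / 100000⌋` except those of `S` and `ps` -/
noncomputable def WX (X : ℝ) (S : Finset ℕ) (ps : ℕ) : ℕ := WW (X ^ (1 / 100 : ℝ)) S ps

/-- the level -/
noncomputable def RX (X : ℝ) : ℕ := ⌊X ^ (4995 / 10000 : ℝ)⌋₊

/-- `log log X` -/
noncomputable def ll (X : ℝ) : ℝ := Real.log (Real.log X)

/-- a large sieve bound for a nonnegative function of the conductor -/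
def LSat (C : ℕ) (X : ℝ) (T : ℕ → ℝ) : Prop := ∀ F : ℕ, (F : ℝ) ≤ X ^ (49954 / 100000 : ℝ) →
  ∑ f ∈ Icc 2 F, T f ≤ (X + X ^ (9999 / 10000 : ℝ) * F) * Real.log X ^ C

/-- small conductors prime to `ps` -/
def SCat (s : ℝ) (X : ℝ) (ps : ℕ) (T : ℕ → ℝ) : Prop := ∀ f : ℕ, Squarefree f → 1 < f →
  (f : ℝ) ≤ Real.exp (ll X ^ 6) → f.Coprime ps → T f ≤ X * Real.exp (-(ll X) ^ 7 / s)

/-- the sum over the conductors `a b`, `a ∣ W`, `b ≤ R` -/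
noncomputable def PS (A : ℕ) (X : ℝ) (S : Finset ℕ) (ps : ℕ) (T : ℕ → ℝ) : ℝ :=
  ∑ p ∈ ((WX X S ps).divisors ×ˢ QQ (WX X S ps) ps (RX X)).filter (fun p => p.1 * p.2 ≠ 1),
    wt A p.2 * T (p.1 * p.2)

/-- **REL** (theorem `rel : St_REL`): random removal of primes, for one function of the conductor, level `X ^ 0.4995`.

Proof. Adapt `Pool/Agent/H378R2/LSBV4.lean`-`LSBV7.lean` (there the function is `TT X f = ∑ |psiPhi ψ X|`, the level is `X ^ (1/100)`, and the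
scale of `W` is `X`; here the scale of `W` is `X' = X ^ (1/100)`: `ww`, `sum_ww_inv`, `exists_good`, `caseB` and `wt_le`, `wt_nonneg`,
`pair_inj`, `size_caseA`, `poly1`, `primorial_yy_le`, `pow_le_exp` are general and can be imported; `T` is general in `caseB` and `pair_inj`).
`l = log log X`, `l' = log log X' = l - log 100`, `L = log X`, `D = ⌊L ^ (2 k)⌋`, `Ω = ⌈3 k l' ^ 4⌉`, `κ = 1 / l' ^ 3`, `P` = primes of
`(z2 X', yy X']`, `k` large in terms of `A, C, U`. `W = WX X S ps ≤ primorial (yy X') ≤ X' ^ (1/500) = X ^ (1/50000)` (`primorial_yy_le`),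
`R = RX X`. Pairs `(a, b)`:
(A) `b ≤ D` and `|P ∩ primeFactors a| < Ω`: `a b ≤ 4 ^ (z2 X') L ^ Ω D ≤ exp (l ^ 6)`, squarefree, prime to `ps`, so by `SCat` (as in `sum_pairsA`)
the sum is `≤ C5 exp (l ^ 6) X exp (- l ^ 7 / 16)`.
(B) `b ≤ D`, `|P ∩ primeFactors a| ≥ Ω`: `caseB` with `R := D` and `F := primorial (yy X') * D` (`≤ X ^ (1/10000)`, so the sum of `T` up to `F` is
`≤ 2 X L ^ C` by `LSat`): the expectation over `S` is `≤ (1 - κ) ^ Ω D 2 X L ^ C ≤ (L / 100) ^ (-3 k) L ^ (2 k) 2 X L ^ C`; `exists_good` gives `S` (together with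
`∑_{q ∈ S} 1 / q ≤ 6 / l' ^ 2`, as in `bv_of`).
(C) `b > D`: for the blocks `B < b ≤ 2 B`, `B = D 2 ^ j` (at most `2 L` blocks), `wt A b ≤ C' b ^ (ε - 1)`, `ε = 1 / 100000`
(`divisor_bound` with a small exponent and `one_div_totient_le`, as in `wt_le`), and by `pair_inj` the sum of `T (a b)` over the block is
`≤ ∑_{2 ≤ f ≤ 2 B W} T f ≤ (X + X ^ 0.9999 2 B W) L ^ C` (for `B ≤ R`: `2 B W ≤ X ^ 0.49954`), so the block contributes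
`≤ C' (X B ^ (ε - 1) + 2 X ^ 0.99992 B ^ ε) L ^ C ≤ C' (X / √D + X ^ 0.99995) L ^ C`. -/
def St_REL : Prop := ∀ A C U Z : ℕ, ∃ X0 : ℝ, ∀ X : ℝ, X0 ≤ X → ∀ ps : ℕ, GoodP Z ps →
  ∀ T : ℕ → ℝ, (∀ f, 0 ≤ T f) → LSat C X T → SCat 16 X ps T →
  ∃ S : Finset ℕ, GoodS (X ^ (1 / 100 : ℝ)) S ∧ PS A X S ps T ≤ X / Real.log X ^ U

/-- **SC0** (theorem `sc0 : St_SC0`): one exceptional conductor for all the scales `y ∈ [X ^ (1/40), 3 X]`.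

Proof. Copy the proof of `Pool.Agent.H378R2.small_conductor`, the theorem at the end of `Pool/Agent/H378R2/M1.lean` (from `nzr_exc` in `M1c.lean` and
`contour` in `M1g.lean`). There `fs` is chosen for `l = 2 (log log X) ^ 8` only, and `contour` is applied with `X`; here apply `contour` with `y` in place of
`X`, `c = 1 + 1 / log y` (so `y ^ c = e y ≤ 3 y`), the same `δ = d / l ^ 18`, `T = exp (lam ^ 8)`, `M`. With `lam = log log X`: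
`log y ≥ exp lam / 40`, `log y ≤ log (3 X) ≤ 2 exp lam`, so `y ^ (1 - δ) = y exp (- δ log y) ≤ y exp (- δ exp lam / 40)` and
`1 / (c - 1) ^ 2 = log y ^ 2 ≤ 4 exp (2 lam)`; `exp_dominates` gives the room for the constants `40` and `4`. -/
def St_SC0 : Prop := ∀ Z : ℕ, ∃ X0 : ℝ, ∀ X : ℝ, X0 ≤ X → ∃ fs : ℕ, (fs = 0 ∨ Z < fs) ∧
  ∀ f : ℕ, 1 < f → (f : ℝ) ≤ Real.exp (ll X ^ 6) → f ≠ fs → ∀ χ : DirichletCharacter ℂ f, χ.IsPrimitive →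
    ∀ y : ℝ, X ^ (1 / 40 : ℝ) ≤ y → y ≤ 3 * X → ‖psiPhi χ y‖ ≤ y * Real.exp (-(ll X) ^ 7)

/-- **PL** (theorem `pl : St_PL`): from the tent weight to the log weight.

Proof. `max 0 (-v) = ∑_{j ≥ 0} (j + 1) max 0 (1/2 - |v + 1 + j/2 - 1/2|)` (piecewise linear interpolation with the nodes `-j/2`), that is
`max 0 (log (x / n)) = ∑_{j < J} (j + 1) Phi (n / (x exp (-1 - j/2)))` for all `n ≥ 1` as soon as `x exp (-J/2) < 1` (`n ≥ 1`; prove it by the second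
difference `Phi_eq` in `Pool/Agent/H378R2/LSBV1.lean`: `Phi (n / y) = lp (y / n) - 2 lp (e^(1/2) y / n) + lp (e y / n)`, `lp = max 0 ∘ log`, and Abel summation, the
boundary terms vanish), so `psiLog x f χ = ∑_{j < J} (j + 1) psiPhi χ (x exp (-1 - j/2))` (`psiPhi_eq` in the same file does this for characters). The
terms with `y_j = x exp (-1 - j/2) ≥ X ^ (1/40)` are `≤ (j + 1) exp (-1 - j/2) x exp (- l ^ 7)`, total `≤ 10 x exp (- l ^ 7)`; for the others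
use the trivial bound `|psiPhi χ y| ≤ ∑_{n ≤ 3 y} Λ n ≤ 3 y log (3 y + 2) ≤ X ^ (1/30)` (`Λ n ≤ log n`), `(j + 1) ≤ 2 J`, `J ≤ 4 log X`: total
`≤ 100 log X ^ 2 X ^ (1/30) ≤ X ^ (1/25) ≤ x X ^ (-1/100)`. -/
def St_PL : Prop := ∃ X0 : ℝ, ∀ X : ℝ, X0 ≤ X → ∀ (f : ℕ) (χ : DirichletCharacter ℂ f),
  (∀ y : ℝ, X ^ (1 / 40 : ℝ) ≤ y → y ≤ 3 * X → ‖psiPhi χ y‖ ≤ y * Real.exp (-(ll X) ^ 7)) →
  ∀ x : ℝ, X ^ (1 / 20 : ℝ) ≤ x → x ≤ 3 * X → ‖psiLog x f χ‖ ≤ x * Real.exp (-(ll X) ^ 7 / 2)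

/-- **PR** (theorem `pr1 : St_PR`): from the log weight to the primes, for one character.

Proof. `l = log log X`, `η = exp (- l ^ 7 / 4)`. For `X ^ (1/20) ≤ v ≤ X`: `(psiLog (v e^η) - psiLog v) / η = ∑_{n ≤ v} Λ χ + ∑_{v < n ≤ v e^η} Λ χ log (v e^η / n) / η`,
the last sum is in absolute value `≤ ∑_{v < n ≤ v e^η} Λ n ≤ (2 η v + 1) log (3 X)`; so `|ψ(v, χ)| ≤ (4 · 3 v exp (- l^7/2)) / η + (2 η v + 1) log (3 X) ≤ v exp (- l ^ 7 / 5)`.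
Abel summation: `∑_{2 ≤ n ≤ u} Λ χ / log n = ψ(u) / log u + ∑_{2 ≤ n < u} ψ(n) (1 / log n - 1 / log (n + 1))`; the `n < X ^ (1/20)` trivially
(`|ψ(n)| ≤ n log n`, total `≤ X ^ (1/20) log X`, and `u ≥ X ^ (1/10)`), the others are `≤ u exp (- l ^ 7 / 5) · 2`. The proper prime powers contribute at most
the number of the proper prime powers `≤ u`, `≤ √u log u` (`Λ (p ^ k) / log (p ^ k) = 1 / k`). -/
def St_PR : Prop := ∃ X0 : ℝ, ∀ X : ℝ, X0 ≤ X → ∀ (f : ℕ) (χ : DirichletCharacter ℂ f),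
  (∀ x : ℝ, X ^ (1 / 20 : ℝ) ≤ x → x ≤ 3 * X → ‖psiLog x f χ‖ ≤ x * Real.exp (-(ll X) ^ 7 / 2)) →
  ∀ u : ℕ, X ^ (1 / 10 : ℝ) ≤ (u : ℝ) → (u : ℝ) ≤ X →
    ‖∑ p ∈ (Icc 1 u).filter Nat.Prime, χ (p : ZMod f)‖ ≤ u * Real.exp (-(ll X) ^ 7 / 8)

/-- the primitive characters mod `f`, log weight -/
noncomputable def TT1 (x : ℝ) (f : ℕ) : ℝ := ∑ ψ ∈ Prim f, ‖psiLog x f ψ‖

/-- **LSP** (theorem `lsp : St_LSP`): the large sieve bound for the log weight.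

Proof. As `LSBV.ls_psiLog` (`Pool/Agent/H378R2/LSBV1.lean`), from `norm_psiLog_le` (`H398R2/BV5.lean`) and `typeII_block` (`H398R2/BV4.lean`; see how
`LSBV.typeII_sum` uses it), with `U = V = ⌈X ^ (4/10000)⌉`. Type I: `∑_{f ≤ F} φ(f) 8 U ^ 2 f log x ^ 2 ≤ 8 U ^ 2 F ^ 3 log x ^ 2` and
`U ^ 2 F ^ 2 ≤ 4 X ^ (0.0008 + 0.99908) = 4 X ^ 0.99988`. Type II, dyadic blocks `f ∈ [G, 2 G]`, `G ≤ F`: `φ(f) ≤ 2 G`, so
`2 G · 12 (1 + log (2 G)) (√x / G + 2 √(x / U) + 2 G) √x (1 + log x) ^ 3 log x ≤ log X ^ C (x + G x X ^ (-0.0002) + G ^ 2 √x)`, and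
`G √x ≤ X ^ 0.49954 · 2 X ^ (1/2)`; at most `2 log X` blocks. -/
def St_LSP : Prop := ∃ (C : ℕ) (X0 : ℝ), ∀ X : ℝ, X0 ≤ X → ∀ x : ℝ, X ^ (1 / 4 : ℝ) ≤ x → x ≤ 3 * X → LSat C X (TT1 x)

/-- `max 0 (log x)` -/
noncomputable def lp (x : ℝ) : ℝ := max 0 (Real.log x)

/-- the trapezoid: `0` outside of `(a, b)`, `1` between `a e^δ` and `b e^(-δ)`, in `[0, 1]` (for `a e^(2 δ) ≤ b`) -/
noncomputable def tz (δ a b : ℝ) (n : ℕ) : ℝ :=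
  (lp (b / n) - lp (b * Real.exp (-δ) / n) - lp (a * Real.exp δ / n) + lp (a / n)) / δ

/-- the weighted primes of a class -/
noncomputable def PT (δ : ℝ) (A B m c : ℕ) : ℝ :=
  ∑ p ∈ (Ioc A B).filter (fun p => p.Prime ∧ p ≡ c [MOD m]), tz δ A B p * Real.log p

/-- the weighted primes -/
noncomputable def PT1 (δ : ℝ) (A B : ℕ) : ℝ := ∑ p ∈ (Ioc A B).filter Nat.Prime, tz δ A B p * Real.log p

/-- the function of the conductor for the weighted primes -/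
noncomputable def TP (δ : ℝ) (A B : ℕ) (f : ℕ) : ℝ :=
  TT1 A f + TT1 (A * Real.exp δ) f + TT1 (B * Real.exp (-δ)) f + TT1 B f

/-- **TZ** (theorem `tzb : St_TZ`): the trapezoid.

Proof. With `v = log n`, `α = log a`, `β = log b`, `α + 2 δ ≤ β`: the cases `v ≤ α`, `α ≤ v ≤ α + δ`, `α + δ ≤ v ≤ β - δ`, `β - δ ≤ v ≤ β`, `β ≤ v`. -/
def St_TZ : Prop := ∀ (δ a b : ℝ) (n : ℕ), 0 < δ → 0 < a → a * Real.exp (2 * δ) ≤ b → 1 ≤ n →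
  0 ≤ tz δ a b n ∧ tz δ a b n ≤ 1 ∧ ((n : ℝ) ≤ a → tz δ a b n = 0) ∧ (b ≤ (n : ℝ) → tz δ a b n = 0) ∧
  (a * Real.exp δ ≤ n → (n : ℝ) ≤ b * Real.exp (-δ) → tz δ a b n = 1)

/-- **TRAP** (theorem `trap : St_TZ → St_TRAP`): the weighted primes of a class and primitive characters.

Proof. `δ⁻¹ (psiLogAP B m c - psiLogAP (B e^(-δ)) m c - psiLogAP (A e^δ) m c + psiLogAP A m c) = ∑_{n ≤ B, n ≡ c} Λ n tz n`, the same for `psiLog1`;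
`Pool.Agent.H398R2.BV.disc_le` (`H398R2/BA2.lean`) for each of the four (`ω(m) ≤ 2 log m`, `om_le` in `Y261/CH/Blv0.lean`); the proper prime powers contribute to
`∑ Λ n tz n` between `0` and `∑_{p^k ≤ X, k ≥ 2} log p ≤ 3 √X log X ^ 2` (in the class and in total). -/
def St_TRAP : Prop := ∀ δ : ℝ, 0 < δ → δ ≤ 1 → ∃ X0 : ℕ, ∀ X : ℕ, X0 ≤ X → ∀ A B : ℕ, 1 ≤ A →
  (A : ℝ) * Real.exp (2 * δ) ≤ B → B ≤ X → ∀ m c : ℕ, 1 ≤ m → m ≤ X → c.Coprime m →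
  |PT δ A B m c - PT1 δ A B / (Nat.totient m : ℝ)| ≤
    (1 / δ) * ((1 / (Nat.totient m : ℝ)) * ∑ f ∈ m.divisors.filter (fun f => f ≠ 1), TP δ A B f) +
      (X : ℝ) ^ (5001 / 10000 : ℝ)

/-- **BVP** (theorem `bvp : St_TRAP → St_BVP`): the weighted primes modulo `W q` on average over `q`.

Proof. `St_TRAP` for `m = W q ≤ X` (`W ≤ X ^ (1/50000)`: `LSBV.primorial_yy_le` for `X ^ (1/100)`, `LSBV.WW_dvd_primorial`), `κ ^ ω(q) ≤ τ(q) ^ κ` (`κ ≤ 2 ^ κ`,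
`two_pow_omega_le`), `LSBV.main_swap` with `T = TP δ A B`, `LSBV.sum_wt κ (RX X) ≤ (1 + log R) ^ (2 ^ (κ + 1)) ≤ log X ^ (2 ^ (κ + 1))`, `1 / δ ≤ log X`; the error terms:
`∑_{q ≤ R} κ ^ ω(q) X ^ 0.5001 ≤ R C X ^ 0.00005 X ^ 0.5001` (`pow_omega_le` in `H398R2/BV1.lean`), times `φ(W) ≤ X ^ 0.00002`. -/
def St_BVP : Prop := ∀ (κ : ℕ) (δ : ℝ), 1 ≤ κ → 0 < δ → δ ≤ 1 → ∃ X0 : ℕ, ∀ X : ℕ, X0 ≤ X → ∀ A B : ℕ, 1 ≤ A →
  (A : ℝ) * Real.exp (2 * δ) ≤ B → B ≤ X → ∀ (ps : ℕ) (S : Finset ℕ), ∀ r : ℕ → ℕ,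
  (∀ q, 1 ≤ q → (r q).Coprime (WX X S ps * q)) →
  ∑ q ∈ QQ (WX X S ps) ps (RX X), (κ : ℝ) ^ q.primeFactors.card *
      |PT δ A B (WX X S ps * q) (r q) - PT1 δ A B / (Nat.totient (WX X S ps * q) : ℝ)| ≤
    (1 / (Nat.totient (WX X S ps) : ℝ)) *
      (Real.log X ^ (2 ^ (κ + 2)) * PS κ X S ps (TP δ A B) + (X : ℝ) ^ (9998 / 10000 : ℝ))

/-- **MS** (theorem `ms : St_TZ → St_MS`): the mass of the trapezoid.

Proof. Prime number theorem, for instance `Pool.Agent.Y840.CI.pi_bounds` (with `η = θ / 10 ^ 8`, for the points between `N` and `X`) or an asymptotic for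
`∑_{p ≤ x} log p`. With `δ = θ / 100000`: `tz ≤ 1` and `log p ≤ log X`, so `PT1 / log X ≤ π(B) - π(A) ≤ ((B - A) + 9 η X) / (2 log N) ≤ (B - A) / log N`
(see `pnt_int` in `Y840/CI/Asy.lean`). Lower bound: let `a' = ⌈A e^δ⌉`, `b' = ⌊B e^(-δ)⌋`; restrict to `max (a', X / 10 ^ 6) < p ≤ b'` where `tz = 1` and
`log p ≥ log X - 6 log 10 ≥ (1 - 10 ^ (-6)) log X`; so `PT1 / log X ≥ (1 - 10 ^ (-6)) (π(b') - π(max ..)) ≥ (1 - 10^(-6)) ((B - A) - 2 δ X - X / 10 ^ 6 · .. ) / (2 log N)`; if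
`θ` is small take `X θ / 10 ^ 6` in place of `X / 10 ^ 6`. The target has `0.4995` in place of `0.5`. -/
def St_MS : Prop := ∀ θ : ℝ, 0 < θ → θ ≤ 1 → ∃ N₀ : ℕ, ∀ N : ℕ, N₀ ≤ N → ∀ X : ℕ, N ^ 2 ≤ X → X < (N + 1) ^ 2 →
  ∀ A B : ℕ, N ≤ A → A ≤ B → B ≤ X → θ * X ≤ (B : ℝ) - A →
    4995 / 10000 * (((B : ℝ) - A) / Real.log N) ≤ PT1 (θ / 100000) A B / Real.log X ∧
      PT1 (θ / 100000) A B / Real.log X ≤ ((B : ℝ) - A) / Real.log N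

/-- the conditions on a block of the bilinear sum -/
structure BlkOK (X M₀ M₁ Y : ℕ) (T : Finset ℕ) : Prop where
  a : (X : ℝ) ^ (1 / 9 : ℝ) ≤ M₀
  b : M₀ ≤ M₁
  c : (M₁ : ℝ) ≤ (X : ℝ) ^ (2 / 5 : ℝ)
  d : M₁ * Y ≤ 5 * X
  e : ∀ n ∈ T, 1 ≤ n ∧ n ≤ Y ∧ ∀ p ∈ n.primeFactors, (X : ℝ) ^ (1 / 9 : ℝ) ≤ (p : ℝ)

/-- the function of the conductor for a block -/
noncomputable def TB (A R M₀ M₁ Y : ℕ) (T : Finset ℕ) (f : ℕ) : ℝ :=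
  ∑ e ∈ Icc 1 R, wt A e * BLB.P M₁ Y (BLB.res e (al M₀)) (BLB.res e (be T)) f

/-- **SWB** (theorem `swb : St_SWB`): swapping the summations for the bilinear sums.

Proof. As `LSBV.main_swap` and `LSBV.sum_wt_dvd` in `Pool/Agent/H378R2/LSBV3.lean`. The `f ∣ W q` are `a b`, `a ∣ W`, `b ∣ q` (`LSBV.sum_divisors_coprime`), `W q / f = (W / a) (q / b)` and
`res (W q / f) α = res (q / b) α` for `α = al M₀` (a prime `> M₀` is prime to `W / a`) and `α = be T`. With `q = b e`, `e ≤ R`: `1 / φ(W q) = 1 / (φ(W) φ(q))`, `wt A q ≤ wt A b wt A e`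
(`LSBV.wt_mul_le`); for fixed `b` the map `q ↦ e` is injective. -/
def St_SWB : Prop := ∀ (A W ps R M₀ M₁ Y : ℕ) (T : Finset ℕ), 1 ≤ W →
  (∀ p : ℕ, p.Prime → p ∣ W → p ≤ M₀ ∧ ∀ n ∈ T, ¬ p ∣ n) →
  ∑ q ∈ QQ W ps R, (q.divisors.card : ℝ) ^ A * ∑ f ∈ (W * q).divisors.filter (fun f => f ≠ 1),
      (1 / (Nat.totient (W * q) : ℝ)) * BLB.P M₁ Y (BLB.res (W * q / f) (al M₀)) (BLB.res (W * q / f) (be T)) f ≤
    (1 / (Nat.totient W : ℝ)) * ∑ p ∈ (W.divisors ×ˢ QQ W ps R).filter (fun p => p.1 * p.2 ≠ 1),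
      wt A p.2 * TB A R M₀ M₁ Y T (p.1 * p.2)

/-- **BVB** (theorem `bvb : St_SWB → St_BVB`): a block modulo `W q` on average over `q`.

Proof. `Pool.Agent.Y261.CH.EP_E` and `BLB.step12` (`m = W q`), `κ ^ ω(q) ≤ τ(q) ^ κ`, `St_SWB` with `A = κ` (a prime `p ∣ W` is `≤ yy (X ^ (1/100)) ≤ log X < X ^ (1/9)`). The rest of `EP_E`:
`Pool.Agent.Y261.CH.BB_le` (`w = X ^ (1/9)`) and `om_le`: `BB ≤ 2 log (W q) 2 M₁ Y / w ≤ 40 log X X ^ (8/9)`, `∑_q κ ^ ω(q) / φ(q) ≤ (2 log X) ^ K` (`sum_pow_omega_div_totient`), and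
`1 / φ(W q) = 1 / (φ(W) φ(q))`. -/
def St_BVB : Prop := ∀ κ : ℕ, 1 ≤ κ → ∃ X0 : ℕ, ∀ X : ℕ, X0 ≤ X → ∀ (M₀ M₁ Y : ℕ) (T : Finset ℕ), BlkOK X M₀ M₁ Y T →
  ∀ (ps : ℕ) (S : Finset ℕ), ∀ r : ℕ → ℕ, (∀ q, 1 ≤ q → (r q).Coprime (WX X S ps * q)) →
  ∑ q ∈ QQ (WX X S ps) ps (RX X), (κ : ℝ) ^ q.primeFactors.card * EP M₀ M₁ T (r q) (WX X S ps * q) ≤
    (1 / (Nat.totient (WX X S ps) : ℝ)) *
      (PS κ X S ps (TB κ (RX X) M₀ M₁ Y T) + (X : ℝ) ^ (95 / 100 : ℝ))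

/-- **BLS** (theorem `bls : St_BLS`): the large sieve bound for a block.

Proof. For every `e`: `BLB.P_sieve` (with `1 ≤ f / φ(f)`), `sq_al`, `sq_be` (`Y261/CH/Blv1.lean`): `∑_{f ≤ F} P ≤ 6 (√M₁ + F) (√Y + F) √M₁ √Y`; `M₁ Y ≤ 5 X`, `√M₁ ≤ X ^ (1/5)`,
`√Y √(M₁ Y) = M₁ Y / √M₁ ≤ 5 X ^ (17/18)`, `F √(5 X) ≤ 3 X ^ 0.99954`. The sum of `wt A e`: `LSBV.sum_wt`. -/
def St_BLS : Prop := ∀ A : ℕ, ∃ C X0 : ℕ, ∀ X : ℕ, X0 ≤ X → ∀ (M₀ M₁ Y : ℕ) (T : Finset ℕ), BlkOK X M₀ M₁ Y T →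
  LSat C X (TB A (RX X) M₀ M₁ Y T)

/-- **BSC** (theorem `bsc : St_BSC`): small conductors for a block.

Proof. Adapt `A_al`, `A_be`, `P_le` in `Pool/Agent/Y261/CH/Blv0.lean` (the sum over the primes of `(M₀, M₁]` is the difference of the sums up to `M₁` and `M₀`, both in `[X ^ (1/10), X]`; the
restriction to the primes not dividing `e` costs `ω(e) ≤ 2 log X`): `P M₁ Y (res e (al M₀)) (res e (be T)) f ≤ φ(f) (2 M₁ exp (- l ^ 7 / 8) + 2 log X) Y`, `M₁ Y ≤ 5 X`,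
`Y ≤ 5 X ^ (8/9)`, `f ≤ exp (l ^ 6)`; the sum of `wt A e`, `e ≤ R`: `≤ (1 + log R) ^ (2 ^ (A + 1))` (`LSBV.sum_wt`). -/
def St_BSC : Prop := ∀ A : ℕ, ∃ X0 : ℕ, ∀ X : ℕ, X0 ≤ X → ∀ ps : ℕ,
  (∀ f : ℕ, Squarefree f → 1 < f → (f : ℝ) ≤ Real.exp (ll X ^ 6) → f.Coprime ps →
    ∀ χ : DirichletCharacter ℂ f, χ.IsPrimitive → ∀ u : ℕ, (X : ℝ) ^ (1 / 10 : ℝ) ≤ (u : ℝ) → u ≤ X →
      ‖∑ p ∈ (Icc 1 u).filter Nat.Prime, χ (p : ZMod f)‖ ≤ u * Real.exp (-(ll X) ^ 7 / 8)) →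
  ∀ (M₀ M₁ Y : ℕ) (T : Finset ℕ), BlkOK X M₀ M₁ Y T → SCat 12 X ps (TB A (RX X) M₀ M₁ Y T)

/-- the sieve product over the primes that do not divide `D` -/
noncomputable def VD (Om : ℕ → Finset ℕ) (D Y : ℕ) : ℝ :=
  ∏ q ∈ (Pr 0 Y).filter (fun q => ¬ q ∣ D), (1 - ((Z0 Om q).card : ℝ) / q)

open Classical in
/-- **FB** (theorem `fb : St_FB`): the integers in a forbidden class modulo the exceptional prime (upper bound sieve).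

Proof. `n ≡ a (mod W)` and `n % ps = c`: a class modulo `W ps` for each of the at most `r + 1` elements `c` of `Z0 Om ps`. `Pool.Agent.Q117.GP.int_class`
(`Pool/Agent/Q117/GP/IntClass.lean`) with `κ = r + 1`, `D = W ps`, `b = C1 (r + 2)`, `z0 = Z = C1 (r + 2)`, `Om := Z0 Om`, `J` maximal with `2 ^ 2 ^ J ≤ X ^ (1 / (4 t C1 b))` (so that
`(2 ^ 2 ^ J) ^ (C1 b) ≤ X ^ (1/4)` and `2 ^ 2 ^ J ≤ Y`, and `2 ^ 2 ^ (J + 1) > X ^ (1 / (4 t C1 b))`), `P` = the primes of `(Z, 2 ^ 2 ^ J]` not dividing `W ps`: the count is at most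
`(r + 1) (2 (B - A) / (W ps) ∏_{P} (1 - |Z0 Om q| / q) + X ^ (1/4))`. Finally `VD Om (W ps) Y = ∏_P · ∏_{2 ^ 2 ^ J < q ≤ Y, q ∤ W ps} (..)` (all primes `≤ Z` divide `W`), and the last product is at
least `∏_{2 ^ 2 ^ J < q ≤ Y} (1 - (r + 1) / q) ≥ c(r, t) > 0` (Mertens: the quotient of the logarithms of the end points is bounded; `V1_bounds` or `VV_low` in `Y843/HG/VGold.lean`). -/
def St_FB : Prop := ∀ r t : ℕ, 1 ≤ t → ∃ (C : ℝ) (Z : ℕ), 0 < C ∧ ∃ X0 : ℕ, ∀ X : ℕ, X0 ≤ X →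
  ∀ (W ps a A B Y : ℕ) (Om : ℕ → Finset ℕ), Y = ⌊(X : ℝ) ^ (1 / (t : ℝ))⌋₊ → Adm r Y Om → 1 ≤ W → ps.Prime → ¬ ps ∣ W →
    Z < ps → ps ≤ Y → (∀ q : ℕ, q.Prime → q ≤ Z → q ∣ W) → A ≤ B → B ≤ X →
    (((Ioc A B).filter (fun n => n ≡ a [MOD W] ∧ n % ps ∈ Z0 Om ps ∧
      ∀ q ∈ Pr 0 Y, ¬ q ∣ W * ps → n % q ∉ Z0 Om q)).card : ℝ) ≤
      C * ((((B : ℝ) - A) / ((W : ℝ) * ps)) * VD Om (W * ps) Y) + (X : ℝ) ^ (1 / 2 : ℝ)

/-- the classes of the primes, none for the primes that divide `D` -/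
noncomputable def ZAD (D : ℕ) (h : ℤ) (Y : ℕ) (Om : ℕ → Finset ℕ) (q : ℕ) : Finset ℕ := if q ∣ D then ∅ else ZA h Y Om q

/-- **PRW** (theorem `prw : St_PRW`): the products of the local densities.

Proof. As `St.prod_low` in `Pool/Agent/Y843/CH/Prod.lean`. The factor of a prime `q ∣ W ps` is `1`. For the primes `z < q ≤ Y`, `q ∤ W ps`:
`1 - |Z0 Om q| / q = (1 - gC q) (1 - 1 / q)` (`arith_p`), so their product is `VD Om (W ps) Y / ∏_{z < q ≤ Y, q ∤ W ps} (1 - 1 / q)` (the primes `≤ z` divide `W`), and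
`∏_{q ≤ Y, q ∤ W ps} (1 - 1 / q) = V1 Y / ∏_{q ∣ W ps} (1 - 1 / q) ≤ V1 Y · (W / φ(W)) · 2`. For the primes `Y < q < N ^ ε` the factor is at least `(1 - 1 / q) ^ 2` (`arith_q2`), as there. -/
def St_PRW : Prop := ∀ (r N z Y W ps : ℕ) (ε : ℝ) (h : ℤ) (Om : ℕ → Finset ℕ), Dat r Y h Om → z ≤ Y →
  (Y : ℝ) < (N : ℝ) ^ ε → ε ≤ 1 → 8 ≤ N → r + 2 ≤ z → 3 ≤ Y → 1 ≤ W → (∀ q : ℕ, q.Prime → q ≤ z → q ∣ W) →
  (∀ q : ℕ, q.Prime → q ∣ W → q ≤ Y) → (ps = 1 ∨ (ps.Prime ∧ ¬ ps ∣ W ∧ ps ≤ Y)) →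
  VD Om (W * ps) Y * ((Nat.totient W : ℝ) / W) * (1 / (2 * V1 Y)) * (V1 N / V1 Y) ^ 2 ≤
    ∏ p ∈ P1 N z ε, (1 - gC (ZAD (W * ps) h Y Om) p)

end Pool.Agent.Q117.CR
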