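import Pool.Agent.Q117.CR.Step

/-!
# Chen's theorem relative to a large smooth modulus
-/

set_option autoImplicit false

namespace Pool.Agent.Q117.CR

open Finset Filter Pool.Agent.W23.DC Pool.Agent.Y660.RP
open Pool.Agent.Y843.HS (Pr VV Pr_mem Pr_prime)
open Pool.Agent.Y843.QD (vZ dvd_vZ)
open Pool.Agent.Y843.HG (Adm Z0 SP V1 V1_bounds log_floor VV_low)
open Pool.Agent.Y843.CH
open Pool.Agent.Y840.CI
open Pool.Agent.H378R2 (yy z2 GoodS GoodP)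

/-- the conclusion of `bvr` -/
def BVR (κ U Z : ℕ) : Prop := ∃ X1 : ℕ, ∃ PP : ℕ → ℕ,
    (∀ X : ℕ, X1 ≤ X → GoodP Z (PP X) ∧ (PP X : ℝ) ≤ Real.exp (ll X ^ 6)) ∧
    ∀ δ : ℝ, 0 < δ → δ ≤ 1 → ∃ X0 : ℕ, ∀ X : ℕ, X0 ≤ X → ∀ A B : ℕ,
      (X : ℝ) ^ (1 / 4 : ℝ) ≤ A → (A : ℝ) * Real.exp (2 * δ) ≤ B → B ≤ X →
      ∀ (ι : Type) (I : Finset ι) (b : ι → Blk), (I.card : ℝ) ≤ Real.log X ^ 2 → (∀ i ∈ I, (b i).OK X) →
      ∃ S : Finset ℕ, GoodS ((X : ℝ) ^ (1 / 100 : ℝ)) S ∧ BP κ δ X A B S (PP X) (X / Real.log X ^ U) ∧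
        ∀ i ∈ I, BB κ X (b i) S (PP X) (X / Real.log X ^ U)

theorem VV_ge {r Y K : ℕ} {X cV : ℝ} {Om : ℕ → Finset ℕ} (hadm : Adm r Y Om)
    (hV : ∀ Z : ℕ → Finset ℕ, (∀ p ∈ Pr 0 Y, (Z p).card ≤ r + 1 ∧ (Z p).card < p ∧ ∀ c ∈ Z p, c < p) →
      cV / Real.log Y ^ K ≤ VV Z 0 Y) (hcV : 0 < cV) (hYX : (Y : ℝ) ≤ X) (hY : 2 ≤ Y) :
    cV / Real.log X ^ K ≤ VV (Z0 Om) 0 Y := by
  have hVVl := hV (Z0 Om) (by
    intro p hp
    refine ⟨?_, ?_, hadm.lt hp⟩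
    · rw [hadm.card hp]
      have := (hadm p hp).1
      omega
    · rw [hadm.card hp]
      exact (hadm p hp).2.1)
  have hlYX : Real.log Y ≤ Real.log X :=
    Real.log_le_log (by exact_mod_cast (show 0 < Y by omega)) hYX
  have hlY0 : 0 < Real.log Y := Real.log_pos (by exact_mod_cast (show 1 < Y by omega))
  refine le_trans ?_ hVVl
  apply div_le_div_of_nonneg_left hcV.le (by positivity)
  exact pow_le_pow_left₀ hlY0.le hlYX _

theorem chenW_of (hBV : ∀ κ U Z : ℕ, 1 ≤ κ → BVR κ U Z) (htz : St_TZ) (hms : St_MS) (hfb : St_FB)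
    (hprw : St_PRW) (hC : St_CORE) (hM : St_MASS) (hNm : St_NUM) (hWt : St_WT) (r : ℕ) :
    ∃ t : ℕ, 1 ≤ t ∧ ∃ c : ℝ, 0 < c ∧ ∃ X1 : ℕ, ∃ PP : ℕ → ℕ,
    (∀ X : ℕ, X1 ≤ X → GoodP 2 (PP X) ∧ (PP X : ℝ) ≤ Real.exp (ll X ^ 6)) ∧
    ∀ θ : ℝ, 0 < θ → θ ≤ 1 → ∃ X₀ : ℕ, ∀ X : ℕ, X₀ ≤ X → ∀ h : ℤ, h ≠ 0 → h.natAbs ≤ X →
      ∀ A B : ℕ, Nat.sqrt X ≤ A → A ≤ B → B ≤ X → θ * X ≤ (B : ℝ) - A →
      ∃ S : Finset ℕ, GoodS ((X : ℝ) ^ (1 / 100 : ℝ)) S ∧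
        ∀ Om : ℕ → Finset ℕ, Dat r ⌊(X : ℝ) ^ (1 / (t : ℝ))⌋₊ h Om → ∀ a : ℕ,
          (∀ q ∈ Pr 0 ⌊(X : ℝ) ^ (1 / (t : ℝ))⌋₊, q ∣ WX X S (PP X) → a % q ∉ Z0 Om q) →
          c * ((((B : ℝ) - A) / (WX X S (PP X) : ℝ)) *
            VD Om (WX X S (PP X) * PP X) ⌊(X : ℝ) ^ (1 / (t : ℝ))⌋₊) ≤
          ((GW A B (Nat.sqrt X) X ⌊(X : ℝ) ^ (1 / (t : ℝ))⌋₊ (WX X S (PP X)) a h Om).card : ℝ) := by
  classical
  obtain ⟨A0, C0, hA0, hcore⟩ := hC (r + 1) (by omega)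
  set z := max C0 (r + 5) with hz
  have hzC : C0 ≤ z := le_max_left _ _
  have hzr : r + 5 ≤ z := le_max_right _ _
  obtain ⟨ε, hε, hε8, N0, hN02, hN0⟩ := hcore z hzC (A0 / 10000) (by positivity)
  set t := ⌈4 / ε⌉₊ with ht
  have ht4 : 4 / ε ≤ t := Nat.le_ceil _
  have ht1 : 1 ≤ t := Nat.one_le_iff_ne_zero.2 (Nat.ceil_pos.2 (by positivity)).ne'
  have ht0 : (0 : ℝ) < t := by exact_mod_cast ht1
  obtain ⟨Cf, Zf, hCf, Xf, hXf⟩ := hfb r t ht1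
  set K := 2 * (r + 1) with hK
  obtain ⟨N4, hN4⟩ := hWt
  obtain ⟨cV, hcV, hV⟩ := VV_low (r + 1)
  obtain ⟨c1, C1, hc1, hC1, hVb⟩ := V1_bounds
  obtain ⟨X6, hX6⟩ := log_floor t ht1
  set k := (1 / 2) / (2 * t * C1) * (c1 / (t * C1)) ^ 2 with hk
  have hk0 : 0 < k := by positivity
  set cm := 4 / 10000 * A0 * ε * k with hcm
  have hcm0 : 0 < cm := by positivity
  set Z := max (max z Zf) (max ⌈4 * Cf / cm⌉₊ 2) with hZ
  have hZz : z ≤ Z := (le_max_left _ _).trans (le_max_left _ _)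
  have hZf : Zf ≤ Z := (le_max_right _ _).trans (le_max_left _ _)
  have hZc : 4 * Cf / cm ≤ Z := (Nat.le_ceil _).trans (by
    exact_mod_cast (le_max_left _ _).trans (le_max_right _ _))
  have hZ2 : 2 ≤ Z := (le_max_right _ _).trans (le_max_right _ _)
  set U := K + 6 with hU
  obtain ⟨Xb, PP, hPP, hbv⟩ := hBV (r + 1) U Z (by omega)
  refine ⟨t, ht1, cm / 2, by positivity, Xb, PP, fun X hX => ?_, ?_⟩
  · obtain ⟨h1, h2⟩ := hPP X hX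
    refine ⟨?_, h2⟩
    rcases h1 with h1 | ⟨h1, h3⟩
    · exact Or.inl h1
    · exact Or.inr ⟨h1, by omega⟩
  intro θ hθ hθ1
  obtain ⟨δ, hδd⟩ : ∃ δ : ℝ, δ = θ / 8000 := ⟨_, rfl⟩
  obtain ⟨δ', hδ'd⟩ : ∃ δ' : ℝ, δ' = θ / 100000 := ⟨_, rfl⟩
  have hδ0 : 0 < δ := by rw [hδd]; positivity
  have hδ4 : δ ≤ 1 / 4000 := by rw [hδd]; linarith
  have hδ'0 : 0 < δ' := by rw [hδ'd]; positivity
  have hδ'1 : δ' ≤ 1 := by rw [hδ'd]; linarith
  obtain ⟨N3, hN3⟩ := hM δ hδ0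
  obtain ⟨N5, hN5⟩ := hms θ hθ hθ1
  obtain ⟨Xc, hXc⟩ := hbv δ' hδ'0 hδ'1
  set CJ := 1 / Real.log (1 + δ) with hCJ
  have hCJ0 : 0 < CJ := by
    have : 0 < Real.log (1 + δ) := Real.log_pos (by linarith)
    positivity
  set e0 := cm * cV * θ / 8 with he0
  have he00 : 0 < e0 := by positivity
  set b := max (max ⌈CJ + 2⌉₊ (z + 5)) (max (2 * (r + 1) + 5) (max ⌈4000 / θ⌉₊ 4000)) with hb
  have hb1 : CJ + 2 ≤ b := by
    have h1 : ((⌈CJ + 2⌉₊ : ℕ) : ℝ) ≤ b := by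
      exact_mod_cast (le_max_left _ _).trans (le_max_left _ _)
    exact (Nat.le_ceil _).trans h1
  have hb2 : z + 5 ≤ b := (le_max_right _ _).trans (le_max_left _ _)
  have hb3 : 2 * (r + 1) + 5 ≤ b := (le_max_left _ _).trans (le_max_right _ _)
  have hb4 : 4000 ≤ b := (le_max_right _ _).trans ((le_max_right _ _).trans (le_max_right _ _))
  have hb5 : 4000 / θ ≤ b := by
    have h1 : ((⌈4000 / θ⌉₊ : ℕ) : ℝ) ≤ b := by
      exact_mod_cast (le_max_left _ _).trans ((le_max_right _ _).trans (le_max_right _ _))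
    exact (Nat.le_ceil _).trans h1
  obtain ⟨N7, hN7⟩ := sizes ε hε t ht4 K (e0 / 2) (by positivity) b
  obtain ⟨Xd, hXd⟩ := ev_cond t Z K U ht1 (e0 / 8) (by positivity) CJ
  set NM := max (max (max N0 N3) (max N4 N5)) N7 with hNM
  refine ⟨max (max (max Xb Xc) (max Xd Xf)) (max X6 ((NM + 1) ^ 2)), ?_⟩
  intro X hX h hh hhX A B hNA hAB hBX hθX
  have hXXb : Xb ≤ X := ((le_max_left _ _).trans ((le_max_left _ _).trans (le_max_left _ _))).trans hX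
  have hXXc : Xc ≤ X := ((le_max_right _ _).trans ((le_max_left _ _).trans (le_max_left _ _))).trans hX
  have hXXd : Xd ≤ X := ((le_max_left _ _).trans ((le_max_right _ _).trans (le_max_left _ _))).trans hX
  have hXXf : Xf ≤ X := ((le_max_right _ _).trans ((le_max_right _ _).trans (le_max_left _ _))).trans hX
  have hXX6 : X6 ≤ X := ((le_max_left _ _).trans (le_max_right _ _)).trans hX
  have hXX7 : (NM + 1) ^ 2 ≤ X := ((le_max_right _ _).trans (le_max_right _ _)).trans hX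
  set N := Nat.sqrt X with hN
  have hNX : N ^ 2 ≤ X := Nat.sqrt_le' X
  have hXN : X < (N + 1) ^ 2 := Nat.lt_succ_sqrt' X
  have hNMN : NM ≤ N := by
    exact le_sqrt_aux hXX7
  have hNN0 : N0 ≤ N := ((le_max_left _ _).trans ((le_max_left _ _).trans (le_max_left _ _))).trans hNMN
  have hNN3 : N3 ≤ N := ((le_max_right _ _).trans ((le_max_left _ _).trans (le_max_left _ _))).trans hNMN
  have hNN4 : N4 ≤ N := ((le_max_left _ _).trans ((le_max_right _ _).trans (le_max_left _ _))).trans hNMN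
  have hNN5 : N5 ≤ N := ((le_max_right _ _).trans ((le_max_right _ _).trans (le_max_left _ _))).trans hNMN
  have hNN7 : N7 ≤ N := (le_max_right _ _).trans hNMN
  obtain ⟨s1, s2, s3, s4, s5, s6, s7, s8, s9⟩ := hN7 N hNN7 X hNX hXN
  obtain ⟨y1, y2⟩ := hX6 X hXX6
  obtain ⟨q1, q2, q3, q4, q5, q6, q7, q8, q9, q10, q11, q12⟩ := hXd X hXXd
  set w := (X : ℝ) ^ (1 / (t : ℝ)) with hw
  set Y := ⌊w⌋₊ with hY
  have hw0 : 0 ≤ w := by positivity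
  have hYw : (Y : ℝ) ≤ w := Nat.floor_le hw0
  have hbY : b ≤ Y := Nat.le_floor s5
  have hN4000 : 4000 ≤ N := hb4.trans s1
  have hNr : (4000 : ℝ) ≤ N := by exact_mod_cast hN4000
  have hX4 : 4000 ≤ X := le_of_sq_le hN4000 hNX
  have hXr : (4000 : ℝ) ≤ X := by exact_mod_cast hX4
  have hX0 : (0 : ℝ) < X := by linarith
  have hbX : (b : ℝ) ≤ X := by exact_mod_cast le_of_sq_le s1 hNX
  have hθX4 : 4000 ≤ θ * X := by
    have h1 := hb5.trans hbX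
    rw [div_le_iff₀ hθ] at h1
    linarith
  have hL : 0 < Real.log N := Real.log_pos (by linarith)
  obtain ⟨g1, g2⟩ := log_sq (show 4 ≤ N by omega) hNX hXN
  have hlX : 0 < Real.log X := by linarith
  have hlX1 : 1 ≤ Real.log X := by linarith
  have hLlX : Real.log N ≤ Real.log X := by linarith
  -- the number of blocks
  obtain ⟨J, hJd⟩ : ∃ J : ℕ, J = ⌈417 / 1000 * Real.log N / Real.log (1 + δ)⌉₊ := ⟨_, rfl⟩
  obtain ⟨hJ1, hlam, hJ2⟩ := lam_le' δ hδ0 N J (by omega) hJd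
  rw [← hCJ] at hJ2
  -- the random modulus
  have hXA : (X : ℝ) ^ (1 / 4 : ℝ) ≤ A := by
    have h1 : (X : ℝ) ^ (1 / 2 : ℝ) ≤ (N : ℝ) + 1 := by
      rw [← Real.sqrt_eq_rpow]
      apply Real.sqrt_le_iff.2
      constructor
      · positivity
      · exact_mod_cast hXN.le
    have h2 : (N : ℝ) ≤ A := by exact_mod_cast hNA
    linarith
  have hAp : 0 < A := by omega
  have hAr : (0 : ℝ) < A := by exact_mod_cast hAp
  have hAX : (A : ℝ) ≤ X := by exact_mod_cast hAB.trans hBX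
  have hABδ : (A : ℝ) * Real.exp (2 * δ') ≤ B := by
    have h1 : Real.exp (2 * δ') ≤ 1 + 2 * (2 * δ') := exp_le_two_N (by positivity) (by rw [hδ'd]; linarith)
    have h2 : (A : ℝ) * Real.exp (2 * δ') ≤ A * (1 + 2 * (2 * δ')) := mul_le_mul_of_nonneg_left h1 hAr.le
    have h3 : (A : ℝ) * (4 * δ') ≤ θ * X := by
      calc (A : ℝ) * (4 * δ') ≤ X * (4 * δ') := by gcongr
        _ ≤ X * θ := by
            apply mul_le_mul_of_nonneg_left _ hX0.le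
            rw [hδ'd]
            linarith
        _ = θ * X := by ring
    nlinarith
  obtain ⟨Sd, hSd, hBP, hBB⟩ := hXc X hXXc A B hXA hABδ hBX (ℤ × ℕ) (({1, -1} : Finset ℤ) ×ˢ range J)
    (blk A B N X J δ h) (by
      rw [card_product, card_range]
      have h1 : ({1, -1} : Finset ℤ).card = 2 := by decide
      rw [h1]
      push_cast
      have h2 : CJ * Real.log N ≤ CJ * Real.log X := mul_le_mul_of_nonneg_left hLlX hCJ0.le
      linarith) (by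
      rintro ⟨s, j⟩ hi
      rw [mem_product, mem_range] at hi
      exact blk_ok hNX hhX hAB hBX hδ0 hδ4 hN4000 s7 hJ1 hlam hi.2)
  obtain ⟨hps, hpsle⟩ := hPP X hXXb
  obtain ⟨ps, hpsd⟩ : ∃ ps : ℕ, ps = PP X := ⟨_, rfl⟩
  rw [← hpsd] at hps hpsle hBP hBB ⊢
  refine ⟨Sd, hSd, ?_⟩
  intro Om D a ha
  obtain ⟨W, hWd⟩ : ∃ W : ℕ, W = WX X Sd ps := ⟨_, rfl⟩
  have hW0 : 0 < W := by rw [hWd]; exact WX_pos _ _ _
  have hWr : (0 : ℝ) < W := by exact_mod_cast hW0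
  have hφ0 : (0 : ℝ) < W.totient := by exact_mod_cast Nat.totient_pos.2 hW0
  have hφW : (W.totient : ℝ) ≤ W := by exact_mod_cast Nat.totient_le W
  have hWle : (W : ℝ) ≤ (X : ℝ) ^ (1 / 50000 : ℝ) := by
    rw [hWd]
    exact WX_le (by linarith) _ _
  have hWphi : (W : ℝ) ≤ Real.log X * (W.totient : ℝ) := by
    rw [hWd]
    exact W_phi q7 q6
  have hsd : ∀ q : ℕ, q.Prime → q ≤ Z → q ∣ W := by
    intro q hq hqZ
    rw [hWd]
    exact small_dvd hq hqZ hSd hps q3 q4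
  have hWY : ∀ q : ℕ, q.Prime → q ∣ W → q ≤ Y := by
    intro q hq hqW
    rw [hWd, prime_dvd_WX hq] at hqW
    apply Nat.le_floor
    have h1 : (q : ℝ) ≤ (yy ((X : ℝ) ^ (1 / 100 : ℝ)) : ℝ) := by exact_mod_cast hqW.1
    exact h1.trans q5
  have hpsY : ps ≤ Y := Nat.le_floor (hpsle.trans q2)
  have hpsW : ps = 1 ∨ (ps.Prime ∧ ¬ ps ∣ W ∧ ps ≤ Y) := by
    rcases hps with h1 | ⟨h1, h2⟩
    · exact Or.inl h1
    · refine Or.inr ⟨h1, ?_, hpsY⟩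
      rw [hWd]
      exact ps_not_dvd h1
  rw [← hWd] at ha ⊢
  have S : StW r N X z Y W ps a ε h Om :=
    ⟨D, by omega, s2, hNX, hXN, hhX, by omega, lt_of_le_of_lt hYw s6, hε, hε8, hW0,
      fun q hq => hsd q (Pr_prime hq) ((Pr_mem.1 hq).1.2.trans hZz), hWY, ha, hpsW⟩
  have hφE : (W.totient : ℝ) ≤ X / Real.log X ^ U := hφW.trans (hWle.trans q10)
  have hYX : (Y : ℝ) ≤ X := by
    have h1 : w ≤ X := by
      calc w ≤ (X : ℝ) ^ (1 : ℝ) := by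
            apply Real.rpow_le_rpow_of_exponent_le (by linarith)
            rw [div_le_one ht0]
            exact_mod_cast ht1
        _ = X := Real.rpow_one _
    linarith
  have hVX := VV_ge D.adm (hV Y (by omega)) hcV hYX (by omega)
  obtain ⟨p1, p2⟩ := hN5 N hNN5 X hNX hXN A B hNA hAB hBX hθX
  rw [← hδ'd] at p1 p2
  exact stepX hWd S hN4000 hN hh hNA hAB hBX hθ hθX hθX4 hδ0 hδ4 hδd hJ1 hlam hJ2 hCJ0 hb1 ht0 rfl hA0
    (hN0 N hNN0).2 (hN3 N hNN3) hNm (tz1 htz hδ'0 hAp hABδ hBX hlX) rfl hBP hBB hφE (hN4 N hNN4) p1 p2 hprw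
    (by omega) (by omega) hZz hsd hps hC1 hc1 y2 (hVb Y (by omega)).2 (hVb N (by omega)).1 rfl rfl hcV hVX
    hWphi hWle q1 rfl s3 s4 s8 s9 q8 q9 hCf hZf hZc (hXf X hXXf)

end Pool.Agent.Q117.CR
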