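import Pool.Agent.Q117.CR.Pos

/-!
# The primes of the critical type modulo `W`
-/

set_option autoImplicit false

namespace Pool.Agent.Q117.CR

open Finset Filter Pool.Agent.W23.DC Pool.Agent.Y660.RP
open Pool.Agent.Y843.HS (Pr Pr_mem Pr_prime)
open Pool.Agent.Y843.QD (vZ dvd_vZ)
open Pool.Agent.Y843.HG (Adm Z0 SP)
open Pool.Agent.Y843.CH
open Pool.Agent.Y840.CI

theorem StW.toSt {r N X z Y W ps a : ℕ} {ε : ℝ} {h : ℤ} {Om : ℕ → Finset ℕ}
    (S : StW r N X z Y W ps a ε h Om) : St r N X z Y W a ε h Om :=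
  ⟨S.D, S.N8, S.N4, S.NX, S.XN, S.hX, S.zY, S.Yw, S.e0, S.e1, S.m, fun q hq => by
    have hz := S.zY
    have hq' := Pr_mem.1 hq
    exact S.a q (Pr_mem.2 ⟨⟨hq'.1.1, by omega⟩, hq'.2⟩) (S.m q hq)⟩

open Classical in
/-- the sifted block -/
noncomputable def FTW (A B N X J z Y W ps a : ℕ) (ε δ : ℝ) (h : ℤ) (Om : ℕ → Finset ℕ) (s : ℤ) (j : ℕ) :
    Finset (ℕ × ℕ) :=
  ((TB' A B N X J δ h s j).filter (fun x => x.1 * x.2 ≡ hr (s * ((a : ℤ) - h)) W [MOD W])).filter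
    (fun x => (∀ p ∈ P1 N z ε, ¬ p ∣ vZ (ZTD (W * ps) h s Y Om) z N (x.1 * x.2)) ∧
      ∀ p ∈ pr N ε (7 / 20), ¬ p ∣ vZ (ZTD (W * ps) h s Y Om) z N (x.1 * x.2))

theorem typ_memW {A B N X J z Y W ps a : ℕ} {ε δ : ℝ} {h : ℤ} {Om : ℕ → Finset ℕ} (hN : 2 ≤ N)
    (hA : N ≤ A) (hJ : 1 ≤ J) (hδ : 0 ≤ δ) (hW : 0 < W) {p : ℕ} (hp : p ∈ TW A B N z Y W ps a h Om) :
    ∃ s : ℤ, (s = 1 ∨ s = -1) ∧ ∃ j < J, ∃ x ∈ FTW A B N X J z Y W ps a ε δ h Om s j,
      (p : ℤ) = h + s * ((x.1 * x.2 : ℕ) : ℤ) := by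
  classical
  unfold TW at hp
  rw [mem_filter] at hp
  obtain ⟨hpN, hpa, hpq, p₁, p₂, p₃, h1, h2, h3, h4, h5, h6⟩ := hp
  obtain ⟨⟨hpA, hpB⟩, hpp⟩ := mem_PNX.1 hpN
  have hNr : (1 : ℝ) < N := by exact_mod_cast (by omega : 1 < N)
  have hN0 : (0 : ℝ) < N := by linarith
  have h1p := (mem_pr.1 h1).2.1
  set n := p₁ * (p₂ * p₃) with hn
  have hn0 : 0 < n := Nat.mul_pos h1p.pos (Nat.mul_pos h2.pos h3.pos)
  obtain ⟨s, hs, hps, hsa, hsb⟩ : ∃ s : ℤ, (s = 1 ∨ s = -1) ∧ (p : ℤ) = h + s * (n : ℤ) ∧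
      aI A B h s < n ∧ (n : ℝ) ≤ bI A B h s := by
    rcases lt_or_ge (p : ℤ) h with hlt | hge
    · refine ⟨-1, Or.inr rfl, by omega, ?_, ?_⟩
      · unfold aI
        rw [if_neg (by norm_num)]
        apply max_lt
        · have : h - B - 1 < (n : ℤ) := by omega
          exact_mod_cast this
        · exact_mod_cast hn0
      · unfold bI
        rw [if_neg (by norm_num)]
        refine le_max_of_le_left ?_
        have : (n : ℤ) ≤ h - A := by omega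
        exact_mod_cast this
    · refine ⟨1, Or.inl rfl, by omega, ?_, ?_⟩
      · unfold aI
        rw [if_pos rfl]
        apply max_lt
        · have : A - h < (n : ℤ) := by omega
          exact_mod_cast this
        · exact_mod_cast hn0
      · unfold bI
        rw [if_pos rfl]
        refine le_max_of_le_left ?_
        have : (n : ℤ) ≤ B - h := by omega
        exact_mod_cast this
  obtain ⟨j, hj, hj1, hj2⟩ := exists_block hJ (mem_pr.1 h1).2.2.1 (mem_pr.1 h1).2.2.2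
  refine ⟨s, hs, j, hj, (p₁, p₂ * p₃), ?_, hps⟩
  have hu1 : uj J (j + 1) ≤ 1 := by
    have := uj_mono (J := J) (show j + 1 ≤ J by omega)
    rw [uj_last hJ] at this
    linarith
  have g1 := (le_tt_iff hN h1p _).1 hj1
  have g2 := (tt_lt_iff hN h1p _).1 hj2
  have hpj : 0 < (N : ℝ) ^ uj J j := Real.rpow_pos_of_pos hN0 _
  have hpj1 : 0 < (N : ℝ) ^ uj J (j + 1) := Real.rpow_pos_of_pos hN0 _
  have h23 : (0 : ℝ) < (p₂ : ℝ) * p₃ := by
    have e1 : (0 : ℝ) < p₂ := by exact_mod_cast h2.pos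
    have e2 : (0 : ℝ) < p₃ := by exact_mod_cast h3.pos
    positivity
  have hnr : (n : ℝ) = (p₁ : ℝ) * ((p₂ : ℝ) * p₃) := by rw [hn]; push_cast; ring
  have hlow : aI A B h s / (N : ℝ) ^ uj J (j + 1) < (p₂ : ℝ) * p₃ := by
    rw [div_lt_iff₀ hpj1]
    calc aI A B h s < n := hsa
      _ = (p₁ : ℝ) * ((p₂ : ℝ) * p₃) := hnr
      _ ≤ (N : ℝ) ^ uj J (j + 1) * ((p₂ : ℝ) * p₃) := by gcongr
      _ = _ := by ring
  have hupp : (p₂ : ℝ) * p₃ ≤ (bI A B h s + δ * X) / (N : ℝ) ^ uj J j := by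
    rw [le_div_iff₀ hpj]
    calc (p₂ : ℝ) * p₃ * (N : ℝ) ^ uj J j ≤ (p₂ : ℝ) * p₃ * p₁ := by gcongr
      _ = n := by rw [hnr]; ring
      _ ≤ bI A B h s + δ * X := by
          have : 0 ≤ δ * X := by positivity
          linarith
  have hmul : (p₁ * (p₂ * p₃) : ℕ) = n := rfl
  have hfl : ∀ k : ℕ, k ≤ p₂ * p₃ → k ≤ ⌊(bI A B h s + δ * X) / (N : ℝ) ^ uj J j⌋₊ := by
    intro k hk
    apply Nat.le_floor
    refine le_trans ?_ hupp
    exact_mod_cast hk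
  unfold FTW
  rw [mem_filter, mem_filter]
  refine ⟨⟨?_, ?_⟩, ?_, ?_⟩
  · unfold TB' MN
    rw [mem_product, block_eq hN hu1]
    refine ⟨mem_pr.2 ⟨(mem_pr.1 h1).1, h1p, hj1, hj2⟩, ?_⟩
    unfold NN PP
    rw [mem_image]
    refine ⟨(p₂, p₃), ?_, rfl⟩
    rw [mem_filter, mem_product, mem_Icc, mem_Icc]
    exact ⟨⟨⟨h2.pos, hfl _ (Nat.le_mul_of_pos_right _ h3.pos)⟩,
      h3.pos, hfl _ (Nat.le_mul_of_pos_left _ h2.pos)⟩, h2, h3, h4, h5, hlow, hupp⟩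
  · simp only
    rw [hmul]
    have e1 : s * s = 1 := by
      rcases hs with rfl | rfl <;> norm_num
    have e2 : ((n : ℕ) : ℤ) ≡ s * ((a : ℤ) - h) [ZMOD W] := by
      have e3 : (p : ℤ) ≡ a [ZMOD W] := Int.natCast_modEq_iff.2 hpa
      have e4 : s * ((p : ℤ) - h) ≡ s * ((a : ℤ) - h) [ZMOD W] := (e3.sub_right h).mul_left s
      have e5 : s * ((p : ℤ) - h) = n := by
        rw [hps]
        calc s * (h + s * (n : ℤ) - h) = (s * s) * n := by ring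
          _ = n := by rw [e1, one_mul]
      rw [e5] at e4
      exact e4
    have e6 : hr (n : ℤ) W = hr (s * ((a : ℤ) - h)) W := (hr_eq_iff _ _ hW).2 e2
    rw [hr_nat n hW] at e6
    unfold Nat.ModEq
    rw [← e6, Nat.mod_mod]
  all_goals
    intro q hq hdv
    simp only at hdv
    rw [hmul] at hdv
    have hqp : q.Prime := by
      first
      | exact (mem_P1.1 hq).2.1
      | exact (mem_pr.1 hq).2.1
    obtain ⟨hqz, hqm⟩ := (dvd_vZ hqp).1 hdv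
    unfold ZTD at hqm
    by_cases hD : q ∣ W * ps
    · rw [if_pos hD] at hqm
      simp at hqm
    rw [if_neg hD] at hqm
    unfold ZT at hqm
    rw [mem_filter, hr_add h s n hqp.pos, ← hps, hr_nat p hqp.pos] at hqm
    have hqm2 := hqm.2
    unfold ZTp at hqm2
    split_ifs at hqm2 with hY
    · exact hpq q (Pr_mem.2 ⟨⟨(Pr_mem.1 hqz).1.1, hY⟩, hqp⟩) hD hqm2
    · rw [mem_singleton] at hqm2
      have h7 := (Nat.prime_dvd_prime_iff_eq hqp hpp).1 (Nat.dvd_of_mod_eq_zero hqm2)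
      have h8 := (Pr_mem.1 hqz).1.2
      omega

theorem typ_leW {A B N X J z Y W ps a : ℕ} {ε δ : ℝ} {h : ℤ} {Om : ℕ → Finset ℕ} (hN : 2 ≤ N)
    (hA : N ≤ A) (hJ : 1 ≤ J) (hδ : 0 ≤ δ) (hW : 0 < W) :
    (TW A B N z Y W ps a h Om).card ≤ ∑ j ∈ range J, (FTW A B N X J z Y W ps a ε δ h Om 1 j).card +
      ∑ j ∈ range J, (FTW A B N X J z Y W ps a ε δ h Om (-1) j).card := by
  classical
  set f : ℤ → ℕ × ℕ → ℕ := fun s x => (h + s * ((x.1 * x.2 : ℕ) : ℤ)).toNat with hf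
  have hsub : TW A B N z Y W ps a h Om ⊆
      ((range J).biUnion (fun j => (FTW A B N X J z Y W ps a ε δ h Om 1 j).image (f 1))) ∪
      ((range J).biUnion (fun j => (FTW A B N X J z Y W ps a ε δ h Om (-1) j).image (f (-1)))) := by
    intro p hp
    obtain ⟨s, hs, j, hj, x, hx, hpx⟩ := typ_memW (X := X) (ε := ε) (δ := δ) hN hA hJ hδ hW hp
    have hfp : f s x = p := by
      rw [hf]
      simp only
      rw [← hpx]
      exact Int.toNat_natCast p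
    rw [mem_union]
    rcases hs with rfl | rfl
    · left
      rw [mem_biUnion]
      exact ⟨j, mem_range.2 hj, mem_image.2 ⟨x, hx, hfp⟩⟩
    · right
      rw [mem_biUnion]
      exact ⟨j, mem_range.2 hj, mem_image.2 ⟨x, hx, hfp⟩⟩
  refine (card_le_card hsub).trans ((card_union_le _ _).trans ?_)
  exact add_le_add (card_biUnion_le.trans (sum_le_sum fun j _ => card_image_le))
    (card_biUnion_le.trans (sum_le_sum fun j _ => card_image_le))

/-- the block of the bilinear sum -/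
noncomputable def blk (A B N X J : ℕ) (δ : ℝ) (h : ℤ) (i : ℤ × ℕ) : Blk :=
  ⟨lo N (uj J i.2), lo N (uj J (i.2 + 1)), ⌊(bI A B h i.1 + δ * X) / (N : ℝ) ^ uj J i.2⌋₊,
    NN N (aI A B h i.1 / (N : ℝ) ^ uj J (i.2 + 1)) ((bI A B h i.1 + δ * X) / (N : ℝ) ^ uj J i.2)⟩

/-- the blocks satisfy the conditions -/
theorem blk_ok {N X A B : ℕ} {δ : ℝ} {h : ℤ} (hNX : N ^ 2 ≤ X) (hX : h.natAbs ≤ X)
    (hAB : A ≤ B) (hB : B ≤ X) (hδ0 : 0 < δ) (hδ : δ ≤ 1 / 4000)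
    (hN4 : 4000 ≤ N) (hSz : Sz N X) {J : ℕ} (hJ : 1 ≤ J)
    (hlam : (N : ℝ) ^ (417 / 1000 / (J : ℝ)) ≤ 1 + δ) {s : ℤ} {j : ℕ} (hj : j < J) :
    (blk A B N X J δ h (s, j)).OK X := by
  have hNr : (4000 : ℝ) ≤ N := by exact_mod_cast hN4
  have hNX' : (N : ℝ) ^ 2 ≤ X := by exact_mod_cast hNX
  have hN0 : (0 : ℝ) < N := by linarith
  have hX0 : (0 : ℝ) ≤ X := Nat.cast_nonneg _
  set lam := (N : ℝ) ^ (417 / 1000 / (J : ℝ)) with hlamd
  have hpj : 0 < (N : ℝ) ^ uj J j := Real.rpow_pos_of_pos hN0 _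
  have he : (N : ℝ) ^ uj J (j + 1) = (N : ℝ) ^ uj J j * lam := by
    rw [uj_succ, Real.rpow_add hN0]
  obtain ⟨h1, h2, h4⟩ := aI_le hX hAB hB s
  have hDX : δ * X ≤ 1 / 4000 * X := by gcongr
  have hD0 : 0 ≤ δ * X := by positivity
  have hb0 : 0 ≤ bI A B h s + δ * X := by linarith
  have hlo : ∀ u : ℝ, (lo N u : ℝ) < (N : ℝ) ^ u := by
    intro u
    have h5 : ¬ lo N u < lo N u := lt_irrefl _
    rw [lo_lt_iff (by omega), not_le] at h5
    exact h5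
  have hlo2 : ∀ u : ℝ, (N : ℝ) ^ u ≤ (lo N u : ℝ) + 1 := by
    intro u
    have h5 := (lo_lt_iff (by omega : 1 ≤ N) u (lo N u + 1)).1 (Nat.lt_succ_self _)
    push_cast at h5
    exact h5
  refine ⟨?_, ?_, ?_, ?_, ?_⟩
  · show (X : ℝ) ^ (1 / 9 : ℝ) ≤ lo N (uj J j)
    have h5 := hlo2 (uj J j)
    have h6 : (N : ℝ) ^ (1 / 4 : ℝ) ≤ (N : ℝ) ^ uj J j := by
      apply Real.rpow_le_rpow_of_exponent_le (by linarith)
      rw [← uj_zero J]
      exact uj_mono (Nat.zero_le _)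
    linarith [hSz.a]
  · show lo N (uj J j) ≤ lo N (uj J (j + 1))
    have h5 : (N : ℝ) ^ uj J j ≤ (N : ℝ) ^ uj J (j + 1) :=
      Real.rpow_le_rpow_of_exponent_le (by linarith) (uj_mono (Nat.le_succ _))
    by_contra hcon
    rw [not_le, lo_lt_iff (by omega)] at hcon
    have h6 := hlo (uj J j)
    linarith
  · show (lo N (uj J (j + 1)) : ℝ) ≤ (X : ℝ) ^ (2 / 5 : ℝ)
    refine (hlo _).le.trans (le_trans ?_ hSz.b)
    apply Real.rpow_le_rpow_of_exponent_le (by linarith)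
    rw [← uj_last hJ]
    exact uj_mono (by omega)
  · show lo N (uj J (j + 1)) * ⌊(bI A B h s + δ * X) / (N : ℝ) ^ uj J j⌋₊ ≤ 5 * X
    have h5 : ((lo N (uj J (j + 1)) * ⌊(bI A B h s + δ * X) / (N : ℝ) ^ uj J j⌋₊ : ℕ) : ℝ) ≤ 5 * X := by
      push_cast
      calc (lo N (uj J (j + 1)) : ℝ) * (⌊(bI A B h s + δ * X) / (N : ℝ) ^ uj J j⌋₊ : ℝ) ≤
            ((N : ℝ) ^ uj J j * lam) * ((bI A B h s + δ * X) / (N : ℝ) ^ uj J j) := by
            rw [← he]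
            exact mul_le_mul (hlo _).le (Nat.floor_le (by positivity)) (by positivity) (by positivity)
        _ = lam * (bI A B h s + δ * X) := by
            field_simp
        _ ≤ (1 + δ) * (bI A B h s + δ * X) := mul_le_mul_of_nonneg_right hlam hb0
        _ ≤ 2 * (bI A B h s + δ * X) := mul_le_mul_of_nonneg_right (by linarith) hb0
        _ ≤ 5 * X := by linarith
    exact_mod_cast h5
  · intro n hn
    obtain ⟨g1, g2, g3⟩ := NN_mem hn
    refine ⟨g1, g2, fun p hp => ?_⟩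
    have h5 := g3 p hp
    have h6 : (N : ℝ) ^ (1 / 4 : ℝ) ≤ (N : ℝ) ^ (667 / 1000 : ℝ) :=
      Real.rpow_le_rpow_of_exponent_le (by linarith) (by norm_num)
    linarith [hSz.a]

open Classical in
theorem blockW {r N X z Y ps a A B : ℕ} {Sd : Finset ℕ} {ε A0 η δ E : ℝ} {h : ℤ} {Om : ℕ → Finset ℕ}
    (S : StW r N X z Y (WX X Sd ps) ps a ε h Om) (hh : h ≠ 0) (hN4 : 4000 ≤ N)
    (hCB : CB (r + 1) z N ε A0 η) {J : ℕ} {s : ℤ} (hs : s = 1 ∨ s = -1) {j : ℕ}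
    (hBB : BB (r + 1) X (blk A B N X J δ h (s, j)) Sd ps E) :
    ((FTW A B N X J z Y (WX X Sd ps) ps a ε δ h Om s j).card : ℝ) ≤
      ε * (ms' A B N X J δ h s j / (Nat.totient (WX X Sd ps) : ℝ) *
        ∏ p ∈ P1 N z ε, (1 - gC (ZAD (WX X Sd ps * ps) h Y Om) p)) *
        (1000 / 998 * A0 + η) + Real.log N * (E / (Nat.totient (WX X Sd ps) : ℝ)) := by
  have hNr : (4000 : ℝ) ≤ N := by exact_mod_cast hN4
  have hL : 0 < Real.log N := Real.log_pos (by linarith)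
  set W := WX X Sd ps with hW
  have hter := terW (κ := r + 1) (z := z) (a := hr (s * ((a : ℤ) - h)) W) (by omega) S.NX (S.clT hs) (S.cop hs) hBB
  have hh0 : h.natAbs ≠ 0 := Int.natAbs_ne_zero.2 hh
  have hhN : h.natAbs ≤ N ^ 3 := by
    have h5 := S.hX
    have h6 := S.XN
    have h7 : (N + 1) ^ 2 ≤ N ^ 3 := by nlinarith
    omega
  have hms0 : 0 ≤ ms' A B N X J δ h s j := by
    unfold ms'
    positivity
  have hcb := (hCB (ℕ × ℕ) ((TB' A B N X J δ h s j).filter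
    (fun x => x.1 * x.2 ≡ hr (s * ((a : ℤ) - h)) W [MOD W])) (fun x => vZ (ZTD (W * ps) h s Y Om) z N (x.1 * x.2))
    (gC (ZTD (W * ps) h s Y Om)) (ms' A B N X J δ h s j / (Nat.totient W : ℝ)) h.natAbs (by positivity) hh0 hhN (by
      have h5 := S.dgT hs
      push_cast at h5 ⊢
      exact h5)).2
  have hprod : ∏ p ∈ P1 N z ε, (1 - gC (ZTD (W * ps) h s Y Om) p) =
      ∏ p ∈ P1 N z ε, (1 - gC (ZAD (W * ps) h Y Om) p) := by
    apply Finset.prod_congr rfl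
    intro p hp
    rw [S.gT hs (mem_P1.1 hp).2.1]
  rw [hprod] at hcb
  refine le_trans (le_of_eq ?_) (hcb.trans ?_)
  · unfold FTW
    congr!
  have h9 : Real.log N * ∑ q ∈ Lv' z ((N : ℝ) ^ (999 / 1000 : ℝ)),
      Rr ((TB' A B N X J δ h s j).filter (fun x => x.1 * x.2 ≡ hr (s * ((a : ℤ) - h)) W [MOD W]))
      (fun x => vZ (ZTD (W * ps) h s Y Om) z N (x.1 * x.2)) (gC (ZTD (W * ps) h s Y Om))
      (ms' A B N X J δ h s j / (Nat.totient W : ℝ)) q ≤ Real.log N * (E / (Nat.totient W : ℝ)) := by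
    apply mul_le_mul_of_nonneg_left _ hL.le
    exact hter
  linarith

end Pool.Agent.Q117.CR
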