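import Pool.Agent.Q117.CR.Err
import Pool.Agent.H378R2.LSBV7

/-!
# Primes with multiplicities
-/

set_option autoImplicit false

namespace Pool.Agent.Q117.CR

open Finset Filter Pool.Agent.W23.DC Pool.Agent.Y660.RP
open Pool.Agent.Y843.HS (Pr Pr_mem Pr_prime)
open Pool.Agent.Y843.QD (vZ dvd_vZ)
open Pool.Agent.Y843.HG (Adm Z0)
open Pool.Agent.Y843.CH
open Pool.Agent.H378R2 (yy)
open Pool.Agent.H378R2.LSBV (QQ mem_QQ)

/-- the multiplicity of a prime -/
noncomputable def mu (K : ℕ) (δ : ℝ) (X A B p : ℕ) : ℕ :=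
  ⌊(K : ℝ) * (tz δ A B p * Real.log p / Real.log X)⌋₊

/-- primes with multiplicities -/
noncomputable def OW (K : ℕ) (δ : ℝ) (X A B : ℕ) : Finset (ℕ × ℕ) :=
  (PNX A B ×ˢ range K).filter (fun x => x.2 < mu K δ X A B x.1)

theorem mem_PNX {A B p : ℕ} : p ∈ PNX A B ↔ (A < p ∧ p ≤ B) ∧ p.Prime := by
  unfold PNX
  rw [mem_filter, mem_Ioc]

/-- the trapezoid weights are in `[0, 1]` -/
def TZ1 (δ : ℝ) (X A B : ℕ) : Prop := ∀ p ∈ PNX A B,
  0 ≤ tz δ A B p * Real.log p / Real.log X ∧ tz δ A B p * Real.log p / Real.log X ≤ 1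

theorem tz1 (htz : St_TZ) {δ : ℝ} (hδ : 0 < δ) {X A B : ℕ} (hA : 0 < A)
    (hAB : (A : ℝ) * Real.exp (2 * δ) ≤ B) (hB : B ≤ X) (hX : 0 < Real.log X) : TZ1 δ X A B := by
  intro p hp
  rw [mem_PNX] at hp
  have hA0 : (0 : ℝ) < A := by exact_mod_cast hA
  obtain ⟨h1, h2, -⟩ := htz δ A B p hδ hA0 hAB hp.2.one_lt.le
  have hp1 : (1 : ℝ) ≤ p := by exact_mod_cast hp.2.one_lt.le
  have h3 : 0 ≤ Real.log p := Real.log_nonneg hp1
  have h4 : Real.log p ≤ Real.log X :=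
    Real.log_le_log (by linarith) (by exact_mod_cast hp.1.2.trans hB)
  refine ⟨by positivity, ?_⟩
  rw [div_le_one hX]
  nlinarith

theorem mu_le {K : ℕ} {δ : ℝ} {X A B : ℕ} (h : TZ1 δ X A B) {p : ℕ} (hp : p ∈ PNX A B) :
    mu K δ X A B p ≤ K := by
  unfold mu
  apply Nat.floor_le_of_le
  exact mul_le_of_le_one_right (Nat.cast_nonneg _) (h p hp).2

theorem mu_abs {K : ℕ} {δ : ℝ} {X A B : ℕ} (h : TZ1 δ X A B) {p : ℕ} (hp : p ∈ PNX A B) :
    |(mu K δ X A B p : ℝ) - K * (tz δ A B p * Real.log p / Real.log X)| ≤ 1 := by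
  have h0 : 0 ≤ (K : ℝ) * (tz δ A B p * Real.log p / Real.log X) :=
    mul_nonneg (Nat.cast_nonneg _) (h p hp).1
  unfold mu
  have h1 := Nat.floor_le h0
  have h2 := (Nat.lt_floor_add_one ((K : ℝ) * (tz δ A B p * Real.log p / Real.log X))).le
  rw [abs_le]
  constructor <;> linarith

/-- sums over the primes with multiplicities -/
theorem sum_OW {K : ℕ} {δ : ℝ} {X A B : ℕ} (h : TZ1 δ X A B) (Q : ℕ → Prop) [DecidablePred Q] (f : ℕ → ℝ) :
    ∑ x ∈ (OW K δ X A B).filter (fun x => Q x.1), f x.1 =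
      ∑ p ∈ (PNX A B).filter Q, (mu K δ X A B p : ℝ) * f p := by
  unfold OW
  rw [filter_filter, sum_filter, sum_product, sum_filter]
  apply sum_congr rfl
  intro p hp
  by_cases hQ : Q p
  · rw [if_pos hQ]
    have e : ∀ j ∈ range K, (if j < mu K δ X A B p ∧ Q p then f p else 0) =
        if j < mu K δ X A B p then f p else 0 := by
      intro j _
      simp [hQ]
    simp only
    rw [sum_congr rfl e, ← sum_filter, sum_const, nsmul_eq_mul]
    congr 2
    have : (range K).filter (fun j => j < mu K δ X A B p) = range (mu K δ X A B p) := by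
      ext j
      rw [mem_filter, mem_range, mem_range]
      have := mu_le (K := K) h hp
      omega
    rw [this, card_range]
  · rw [if_neg hQ]
    apply sum_eq_zero
    intro j _
    simp [hQ]

theorem card_OW {K : ℕ} {δ : ℝ} {X A B : ℕ} (h : TZ1 δ X A B) (Q : ℕ → Prop) [DecidablePred Q] :
    (((OW K δ X A B).filter (fun x => Q x.1)).card : ℝ) =
      ∑ p ∈ (PNX A B).filter Q, (mu K δ X A B p : ℝ) := by
  have := sum_OW (K := K) h Q (fun _ => 1)
  simpa using this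

/-- the number of the primes of a class -/
theorem card_PNX_class {X A B m c : ℕ} (hB : B ≤ X) :
    (((PNX A B).filter (fun p => p ≡ c [MOD m])).card : ℝ) ≤ X + 1 := by
  have h1 : (((PNX A B).filter (fun p => p ≡ c [MOD m])).card : ℝ) ≤ ((Icc 1 X).card : ℝ) := by
    apply Nat.cast_le.2
    apply card_le_card
    intro p hp
    rw [mem_filter, mem_PNX] at hp
    rw [mem_Icc]
    exact ⟨hp.1.2.one_lt.le, hp.1.1.2.trans hB⟩
  rw [Nat.card_Icc] at h1
  refine h1.trans ?_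
  have : ((X + 1 - 1 : ℕ) : ℝ) ≤ X + 1 := by
    rw [Nat.add_sub_cancel]
    linarith
  exact this

theorem count_OW {K : ℕ} {δ : ℝ} {X A B : ℕ} (h : TZ1 δ X A B) (hB : B ≤ X) (hL : 1 ≤ Real.log X)
    {m c : ℕ} (hm : 0 < m) :
    |(((OW K δ X A B).filter (fun x => x.1 ≡ c [MOD m])).card : ℝ) -
      (K * (PT1 δ A B / Real.log X)) / (Nat.totient m : ℝ)| ≤
    K * |PT δ A B m c - PT1 δ A B / (Nat.totient m : ℝ)| + (X + 1) := by
  rw [card_OW h (fun p => p ≡ c [MOD m])]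
  have e1 : PT δ A B m c = ∑ p ∈ (PNX A B).filter (fun p => p ≡ c [MOD m]), tz δ A B p * Real.log p := by
    unfold PT PNX
    rw [filter_filter]
  have h1 : |∑ p ∈ (PNX A B).filter (fun p => p ≡ c [MOD m]), (mu K δ X A B p : ℝ) -
      K * (PT δ A B m c / Real.log X)| ≤ X + 1 := by
    have e2 : (K : ℝ) * (PT δ A B m c / Real.log X) =
        ∑ p ∈ (PNX A B).filter (fun p => p ≡ c [MOD m]), K * (tz δ A B p * Real.log p / Real.log X) := by
      rw [e1, sum_div, mul_sum]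
    rw [e2, ← sum_sub_distrib]
    refine (abs_sum_le_sum_abs _ _).trans ?_
    refine le_trans (sum_le_sum (g := fun _ => (1 : ℝ)) fun p hp => mu_abs h (mem_filter.1 hp).1) ?_
    rw [sum_const, nsmul_eq_mul, mul_one]
    exact card_PNX_class hB
  have h2 : |(K : ℝ) * (PT δ A B m c / Real.log X) - (K * (PT1 δ A B / Real.log X)) / (Nat.totient m : ℝ)| ≤
      K * |PT δ A B m c - PT1 δ A B / (Nat.totient m : ℝ)| := by
    have e3 : (K : ℝ) * (PT δ A B m c / Real.log X) - (K * (PT1 δ A B / Real.log X)) / (Nat.totient m : ℝ) =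
        (K * (PT δ A B m c - PT1 δ A B / (Nat.totient m : ℝ))) / Real.log X := by
      ring
    rw [e3, abs_div, abs_mul, Nat.abs_cast, abs_of_nonneg (by linarith : 0 ≤ Real.log (X : ℝ))]
    apply div_le_self (by positivity) hL
  have h3 := abs_sub_le (∑ p ∈ (PNX A B).filter (fun p => p ≡ c [MOD m]), (mu K δ X A B p : ℝ))
    (K * (PT δ A B m c / Real.log X)) ((K * (PT1 δ A B / Real.log X)) / (Nat.totient m : ℝ))
  linarith

/-- the size of the big modulus -/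
theorem WX_le {X : ℝ} (hX : 1 ≤ X) (S : Finset ℕ) (ps : ℕ) : (WX X S ps : ℝ) ≤ X ^ (1 / 50000 : ℝ) := by
  have h1 : (1 : ℝ) ≤ X ^ (1 / 100 : ℝ) := Real.one_le_rpow hX (by norm_num)
  have h2 := Pool.Agent.H378R2.LSBV.primorial_yy_le (X ^ (1 / 100 : ℝ)) h1
  have h3 : WX X S ps ≤ primorial (yy (X ^ (1 / 100 : ℝ))) :=
    Nat.le_of_dvd (primorial_pos _) (Pool.Agent.H378R2.LSBV.WW_dvd_primorial _ S ps)
  calc (WX X S ps : ℝ) ≤ (primorial (yy (X ^ (1 / 100 : ℝ))) : ℝ) := by exact_mod_cast h3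
    _ ≤ (X ^ (1 / 100 : ℝ)) ^ (1 / 500 : ℝ) := h2
    _ = X ^ (1 / 50000 : ℝ) := by
        rw [← Real.rpow_mul (by linarith)]
        norm_num

theorem WX_pos (X : ℝ) (S : Finset ℕ) (ps : ℕ) : 0 < WX X S ps := by
  unfold WX Pool.Agent.H378R2.WW
  apply prod_pos
  intro p hp
  unfold Pool.Agent.H378R2.PW at hp
  rw [mem_filter] at hp
  exact hp.2.1.pos

theorem pow_omega_le_pow (κ d : ℕ) (hd : 1 ≤ d) : (κ : ℝ) ^ d.primeFactors.card ≤ (d : ℝ) ^ κ := by
  have h1 : 2 ^ d.primeFactors.card ≤ d := by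
    have := Pool.Agent.H398R2.BV.two_pow_omega_le d (by omega)
    have h2 : d.divisors.card ≤ d := Nat.card_divisors_le_self d
    omega
  have h2 : κ ≤ 2 ^ κ := Nat.lt_two_pow_self.le
  have h3 : κ ^ d.primeFactors.card ≤ d ^ κ := by
    calc κ ^ d.primeFactors.card ≤ (2 ^ κ) ^ d.primeFactors.card := Nat.pow_le_pow_left h2 _
      _ = (2 ^ d.primeFactors.card) ^ κ := by rw [← pow_mul, ← pow_mul, mul_comm]
      _ ≤ d ^ κ := Nat.pow_le_pow_left h1 _
  exact_mod_cast h3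

open Classical in
/-- the remainders of the sieve for the primes -/
theorem aerW {κ z N X A B ps a : ℕ} {S : Finset ℕ} {δ E : ℝ} {cl : ℕ → Finset ℕ}
    (h : TZ1 δ X A B) (hB : B ≤ X) (hL : 1 ≤ Real.log X) (hN : 1 ≤ N) (hNX : N ^ 2 ≤ X)
    (hcl : ClD κ z N (WX X S ps * ps) cl) (ha : a.Coprime (WX X S ps))
    (hBP : BP κ δ X A B S ps E) (hE : (Nat.totient (WX X S ps) : ℝ) ≤ E) :
    ∑ d ∈ Lv' z ((N : ℝ) ^ (999 / 1000 : ℝ)), Rr ((OW (X ^ (κ + 3)) δ X A B).filter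
        (fun x => x.1 ≡ a [MOD (WX X S ps)])) (fun x => vZ cl z N x.1) (gC cl)
        ((((X ^ (κ + 3) : ℕ) : ℝ) * (PT1 δ A B / Real.log X)) / (Nat.totient (WX X S ps) : ℝ)) d ≤
      ((X ^ (κ + 3) : ℕ) : ℝ) * (3 * (E / (Nat.totient (WX X S ps) : ℝ))) := by
  set W := WX X S ps with hW
  set K := X ^ (κ + 3) with hK
  have hW0 : 0 < W := WX_pos _ _ _
  have hX1 : 1 ≤ X := by
    by_contra hcon
    have : X = 0 := by omega
    rw [this] at hL
    simp at hL
    linarith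
  have hXr : (1 : ℝ) ≤ X := by exact_mod_cast hX1
  obtain ⟨r, hr⟩ := exists_rmax (fun m c => |PT δ A B m c - PT1 δ A B / (Nat.totient m : ℝ)|)
  have h1 := rr_sumW (OW K δ X A B) (fun x => x.1) κ z N W ps a cl hcl hW0 ha
    (K * (PT1 δ A B / Real.log X))
    (fun d => K * |PT δ A B (W * d) (r (W * d)) - PT1 δ A B / (Nat.totient (W * d) : ℝ)| + (X + 1))
    (fun d => by positivity) ((N : ℝ) ^ (999 / 1000 : ℝ)) (by positivity) (level_le' hN) (RX X) (by
      unfold RX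
      exact Nat.floor_le_floor (level_le hNX)) (by
      intro d hd c hc hcd
      have hd1 := (mem_QQ.1 hd).1.1
      have hWd : 0 < W * d := Nat.mul_pos hW0 (by omega)
      refine (count_OW h hB hL hWd).trans ?_
      have := (hr (W * d) hWd).2 c hc hcd
      gcongr)
  refine h1.trans ?_
  have e1 : ∑ d ∈ QQ W ps (RX X), (κ : ℝ) ^ d.primeFactors.card *
      (K * |PT δ A B (W * d) (r (W * d)) - PT1 δ A B / (Nat.totient (W * d) : ℝ)| + (X + 1)) =
      K * ∑ d ∈ QQ W ps (RX X), (κ : ℝ) ^ d.primeFactors.card *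
        |PT δ A B (W * d) (r (W * d)) - PT1 δ A B / (Nat.totient (W * d) : ℝ)| +
      (X + 1) * ∑ d ∈ QQ W ps (RX X), (κ : ℝ) ^ d.primeFactors.card := by
    rw [mul_sum, mul_sum, ← sum_add_distrib]
    apply sum_congr rfl
    intro d _
    ring
  rw [e1]
  have h2 := hBP (fun q => r (W * q)) (fun q hq => (hr (W * q) (Nat.mul_pos hW0 hq)).1)
  rw [← hW] at h2
  have hRX : RX X ≤ X := by
    unfold RX
    apply Nat.floor_le_of_le
    calc (X : ℝ) ^ (4995 / 10000 : ℝ) ≤ (X : ℝ) ^ (1 : ℝ) :=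
          Real.rpow_le_rpow_of_exponent_le hXr (by norm_num)
      _ = X := Real.rpow_one _
  have h3 : ∑ d ∈ QQ W ps (RX X), (κ : ℝ) ^ d.primeFactors.card ≤ (X : ℝ) ^ (κ + 1) := by
    have h4 : ∀ d ∈ QQ W ps (RX X), (κ : ℝ) ^ d.primeFactors.card ≤ (X : ℝ) ^ κ := by
      intro d hd
      obtain ⟨⟨g1, g2⟩, -⟩ := mem_QQ.1 hd
      refine (pow_omega_le_pow κ d g1).trans ?_
      apply pow_le_pow_left₀ (Nat.cast_nonneg _)
      exact_mod_cast g2.trans hRX
    refine (sum_le_sum h4).trans ?_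
    rw [sum_const, nsmul_eq_mul, pow_succ, mul_comm]
    apply mul_le_mul_of_nonneg_left _ (by positivity)
    have h5 : (QQ W ps (RX X)).card ≤ X := by
      unfold QQ
      refine (card_filter_le _ _).trans ?_
      rw [Nat.card_Icc]
      omega
    exact_mod_cast h5
  have hφ : (0 : ℝ) < Nat.totient W := by exact_mod_cast Nat.totient_pos.2 hW0
  have h6 : 1 ≤ E / (Nat.totient W : ℝ) := by
    rw [le_div_iff₀ hφ]
    linarith
  have hKr : ((K : ℕ) : ℝ) = (X : ℝ) ^ (κ + 3) := by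
    rw [hK]
    push_cast
    rfl
  have h7 : ((X : ℝ) + 1) * ∑ d ∈ QQ W ps (RX X), (κ : ℝ) ^ d.primeFactors.card ≤ 2 * K := by
    calc ((X : ℝ) + 1) * ∑ d ∈ QQ W ps (RX X), (κ : ℝ) ^ d.primeFactors.card ≤ (2 * X) * (X : ℝ) ^ (κ + 1) := by
          gcongr
          linarith
      _ = 2 * (X : ℝ) ^ (κ + 2) := by ring
      _ ≤ 2 * (X : ℝ) ^ (κ + 3) := by
          apply mul_le_mul_of_nonneg_left _ (by norm_num)
          exact pow_le_pow_right₀ hXr (by omega)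
      _ = _ := by rw [hKr]
  have hK0 : (0 : ℝ) ≤ K := Nat.cast_nonneg _
  calc (K : ℝ) * ∑ d ∈ QQ W ps (RX X), (κ : ℝ) ^ d.primeFactors.card *
        |PT δ A B (W * d) (r (W * d)) - PT1 δ A B / (Nat.totient (W * d) : ℝ)| +
      (X + 1) * ∑ d ∈ QQ W ps (RX X), (κ : ℝ) ^ d.primeFactors.card ≤
        K * (E / (Nat.totient W : ℝ)) + 2 * K := by
        have := mul_le_mul_of_nonneg_left h2 hK0
        linarith
    _ ≤ K * (3 * (E / (Nat.totient W : ℝ))) := by nlinarith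

open Classical in
theorem EP_eq (M₀ M₁ : ℕ) (T : Finset ℕ) (r d : ℕ) : Pool.Agent.Y261.CH.EP M₀ M₁ T r d =
    |(((((Ioc M₀ M₁).filter Nat.Prime) ×ˢ T).filter (fun x => x.1 * x.2 ≡ r [MOD d])).card : ℝ) -
        ((((Ioc M₀ M₁).filter Nat.Prime).card : ℝ) * T.card) / (Nat.totient d : ℝ)| := by
  unfold Pool.Agent.Y261.CH.EP
  rw [← Pool.Agent.Y261.CH.NN_card]
  rfl

open Classical in
/-- the remainders of the sieve for the products -/
theorem terW {κ z N X ps a : ℕ} {S : Finset ℕ} {E : ℝ} {cl : ℕ → Finset ℕ} {b : Blk}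
    (hN : 1 ≤ N) (hNX : N ^ 2 ≤ X)
    (hcl : ClD κ z N (WX X S ps * ps) cl) (ha : a.Coprime (WX X S ps))
    (hBB : BB κ X b S ps E) :
    ∑ d ∈ Lv' z ((N : ℝ) ^ (999 / 1000 : ℝ)), Rr ((MN b.M₀ b.M₁ b.T).filter
        (fun x => x.1 * x.2 ≡ a [MOD (WX X S ps)])) (fun x => vZ cl z N (x.1 * x.2)) (gC cl)
        ((((Ioc b.M₀ b.M₁).filter Nat.Prime).card * b.T.card : ℝ) / (Nat.totient (WX X S ps) : ℝ)) d ≤
      E / (Nat.totient (WX X S ps) : ℝ) := by
  set W := WX X S ps with hW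
  have hW0 : 0 < W := WX_pos _ _ _
  obtain ⟨r, hr⟩ := exists_rmax (fun m c =>
    |(((((Ioc b.M₀ b.M₁).filter Nat.Prime) ×ˢ b.T).filter (fun x => x.1 * x.2 ≡ c [MOD m])).card : ℝ) -
        ((((Ioc b.M₀ b.M₁).filter Nat.Prime).card : ℝ) * b.T.card) / (Nat.totient m : ℝ)|)
  have h1 := rr_sumW (MN b.M₀ b.M₁ b.T) (fun x => x.1 * x.2) κ z N W ps a cl hcl hW0 ha
    (((Ioc b.M₀ b.M₁).filter Nat.Prime).card * b.T.card : ℝ)
    (fun d => Pool.Agent.Y261.CH.EP b.M₀ b.M₁ b.T (r (W * d)) (W * d))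
    (fun d => by unfold Pool.Agent.Y261.CH.EP; exact abs_nonneg _)
    ((N : ℝ) ^ (999 / 1000 : ℝ)) (by positivity) (level_le' hN) (RX X) (by
      unfold RX
      exact Nat.floor_le_floor (level_le hNX)) (by
      intro d hd c hc hcd
      have hd1 := (mem_QQ.1 hd).1.1
      have hWd : 0 < W * d := Nat.mul_pos hW0 (by omega)
      have := (hr (W * d) hWd).2 c hc hcd
      rw [EP_eq]
      exact this)
  refine h1.trans ?_
  exact hBB (fun q => r (W * q)) (fun q hq => (hr (W * q) (Nat.mul_pos hW0 hq)).1)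

end Pool.Agent.Q117.CR
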